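import Mathlib.CategoryTheory.Category.Init
import Mathlib.Analysis.CStarAlgebra.ContinuousFunctionalCalculus.Basic
import Mathlib.Analysis.CStarAlgebra.ContinuousLinearMap
import Mathlib.Analysis.InnerProductSpace.Harmonic.Basic

/-!
Definitions for the question on Hilbert scales of analytic functions.
Domains are taken in the finite plane; the point at infinity is a boundary point when the
domain is unbounded.
-/

open Set Filter Topology InnerProductSpace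

namespace Pool.Agent.MP_13a571_an

/-- Functions analytic at every point of `E`; they represent the elements of `O(E)`. -/
def An (E : Set ℂ) : Submodule ℂ (ℂ → ℂ) where
  carrier := {f | AnalyticOnNhd ℂ f E}
  add_mem' := fun hf hg => AnalyticOnNhd.add hf hg
  zero_mem' := analyticOnNhd_const
  smul_mem' := fun c _ hf z hz => (analyticAt_const (v := c)).smul (hf z hz)

/-- `u(z) → c` when `z ∈ G` tends to a boundary point of `D` in the Riemann sphere. -/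
def BdryLim (D G : Set ℂ) (u : ℂ → ℝ) (c : ℝ) : Prop :=
  (∀ ζ ∈ frontier D, Tendsto u (𝓝[G] ζ) (𝓝 c)) ∧ Tendsto u (cocompact ℂ ⊓ 𝓟 G) (𝓝 c)

/-- `D` is a domain, `K ⊆ D` a nonempty compact set, `D \ K` a domain, and `ω` is harmonic in
`D \ K` with boundary values `0` on `∂K` and `1` on `∂D`. -/
structure Condenser (D K : Set ℂ) (ω : ℂ → ℝ) : Prop where
  isOpen : IsOpen D
  conn : IsConnected D
  compact : IsCompact K
  nonempty : K.Nonempty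
  subset : K ⊆ D
  conn_diff : IsConnected (D \ K)
  harmonic : HarmonicOnNhd ω (D \ K)
  lim_inner : ∀ ζ ∈ frontier K, Tendsto ω (𝓝[D \ K] ζ) (𝓝 0)
  lim_outer : BdryLim D (D \ K) ω 1

/-- The level domain `D_α`. -/
def Dlev (D K : Set ℂ) (ω : ℂ → ℝ) (α : ℝ) : Set ℂ := K ∪ {z ∈ D \ K | ω z < α}

/-- Condition (4): `H^∞(D) ⊂ H₁ ⊂ O(D)` with continuous inclusions; `j` is the second one. -/
structure Cond4 (D : Set ℂ) {H₁ : Type} [NormedAddCommGroup H₁] [InnerProductSpace ℂ H₁]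
    (j : H₁ →ₗ[ℂ] An D) : Prop where
  inj : ∀ x, (∀ z ∈ D, (j x : ℂ → ℂ) z = 0) → x = 0
  cont : ∀ L, IsCompact L → L ⊆ D → ∃ C : ℝ, ∀ x, ∀ z ∈ L, ‖(j x : ℂ → ℂ) z‖ ≤ C * ‖x‖
  hinf : ∃ C : ℝ, ∀ f : ℂ → ℂ, AnalyticOnNhd ℂ f D → ∀ M : ℝ, 0 ≤ M → (∀ z ∈ D, ‖f z‖ ≤ M) →
    ∃ x, EqOn (j x : ℂ → ℂ) f D ∧ ‖x‖ ≤ C * M

/-- `ι` is a continuous injective linear map from the inductive limit `O(K)` to `H₀`. -/
structure GermIncl (K : Set ℂ) {H₀ : Type} [NormedAddCommGroup H₀] [InnerProductSpace ℂ H₀]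
    (ι : An K →ₗ[ℂ] H₀) : Prop where
  inj : ∀ f : An K, ι f = 0 → (f : ℂ → ℂ) =ᶠ[𝓝ˢ K] 0
  cont : ∀ V, IsOpen V → K ⊆ V → ∃ L, IsCompact L ∧ L ⊆ V ∧ ∃ C : ℝ, ∀ f : An K,
    AnalyticOnNhd ℂ (f : ℂ → ℂ) V → ∀ M : ℝ, 0 ≤ M → (∀ z ∈ L, ‖(f : ℂ → ℂ) z‖ ≤ M) →
      ‖ι f‖ ≤ C * M

/-- For the dense inclusion `J : H₁ → H₀` with generating operator `A` one has `A⁻² = J J*`, so
this is `A^(-α)`: the space `H^α` is its range and the `H^α`-norm of `scaleOp J α y` is `‖y‖`. -/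
noncomputable def scaleOp {H₀ H₁ : Type} [NormedAddCommGroup H₀] [InnerProductSpace ℂ H₀]
    [CompleteSpace H₀] [NormedAddCommGroup H₁] [InnerProductSpace ℂ H₁] [CompleteSpace H₁]
    (J : H₁ →L[ℂ] H₀) (α : ℝ) : H₀ →L[ℂ] H₀ :=
  cfc (fun s : ℝ => s ^ (α / 2)) (J ∘L ContinuousLinearMap.adjoint J)

/-- Condition (3) at the level `α`, for the space `T(H₀)` normed by `‖T y‖ = ‖y‖` and the open
set `U = D_α`: `O(closure U) ⊂ T(H₀) ⊂ O(U)` with continuous inclusions. -/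
structure Between (K U : Set ℂ) {H₀ : Type} [NormedAddCommGroup H₀] [InnerProductSpace ℂ H₀]
    (ι : An K →ₗ[ℂ] H₀) (T : H₀ →L[ℂ] H₀) : Prop where
  inj : ∀ f : An K, AnalyticOnNhd ℂ (f : ℂ → ℂ) (closure U) → ι f = 0 →
    (f : ℂ → ℂ) =ᶠ[𝓝ˢ (closure U)] 0
  lower : ∀ V, IsOpen V → closure U ⊆ V → ∃ L, IsCompact L ∧ L ⊆ V ∧ ∃ C : ℝ, ∀ f : An K,
    AnalyticOnNhd ℂ (f : ℂ → ℂ) V → ∀ M : ℝ, 0 ≤ M → (∀ z ∈ L, ‖(f : ℂ → ℂ) z‖ ≤ M) →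
      ∃ y, T y = ι f ∧ ‖y‖ ≤ C * M
  upper : ∀ y, ∃ g : An K, AnalyticOnNhd ℂ (g : ℂ → ℂ) U ∧ ι g = T y
  upper_cont : ∀ L, IsCompact L → L ⊆ U → ∃ C : ℝ, ∀ y, ∀ g : An K,
    AnalyticOnNhd ℂ (g : ℂ → ℂ) U → ι g = T y → ∀ z ∈ L, ‖(g : ℂ → ℂ) z‖ ≤ C * ‖y‖

/-- Property (S): every Hilbert space `H₁` with (4) admits a Hilbert space `H₀` with (2), in
which it is dense, whose scale with `H₁` satisfies (3). -/
def PropS (D K : Set ℂ) (ω : ℂ → ℝ) : Prop :=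
  ∀ (H₁ : Type) [NormedAddCommGroup H₁] [InnerProductSpace ℂ H₁] [CompleteSpace H₁]
    (j : H₁ →ₗ[ℂ] An D), Cond4 D j →
    ∃ (H₀ : Type) (_ : NormedAddCommGroup H₀) (_ : InnerProductSpace ℂ H₀) (_ : CompleteSpace H₀)
      (ι : An K →ₗ[ℂ] H₀) (J : H₁ →L[ℂ] H₀),
      GermIncl K ι ∧ (∀ x, ∀ f : An K, (f : ℂ → ℂ) = j x → ι f = J x) ∧ DenseRange J ∧
        ∀ α ∈ Ioo (0 : ℝ) 1, Between K (Dlev D K ω α) ι (scaleOp J α)

/-- The two-constants bound `|f(z)| ≤ exp(t ω(z))` is sharp at `z` for bounded analytic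
functions. -/
def SharpAt (D K : Set ℂ) (ω : ℂ → ℝ) (z : ℂ) : Prop :=
  ∀ ε : ℝ, 0 < ε → ∃ t : ℝ, 0 < t ∧ ∃ f : ℂ → ℂ, AnalyticOnNhd ℂ f D ∧
    (∀ w ∈ D, ‖f w‖ ≤ Real.exp t) ∧ (∀ w ∈ K, ‖f w‖ ≤ 1) ∧ Real.exp (t * (ω z - ε)) ≤ ‖f z‖

/-- `H(z) - log |z - a|` is the Green function of `D` with pole `a`. -/
structure IsGreen (D : Set ℂ) (a : ℂ) (H : ℂ → ℝ) : Prop where
  mem : a ∈ D
  harmonic : HarmonicOnNhd H D
  lim : BdryLim D D (fun z => H z - Real.log ‖z - a‖) 0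

/-- Analytic capacity of order `k` at `a`: the supremum of `|c|` over analytic
`f(z) = c (z-a)^k + ...` in `D` with `|f| ≤ 1`. -/
noncomputable def gamma (D : Set ℂ) (a : ℂ) (k : ℕ) : ℝ :=
  sSup {r | ∃ h : ℂ → ℂ, AnalyticOnNhd ℂ h D ∧ (∀ z ∈ D, ‖(z - a) ^ k * h z‖ ≤ 1) ∧ r = ‖h a‖}

end Pool.Agent.MP_13a571_an
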