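import Mathlib.RingTheory.Flat.FaithfullyFlat.Algebra
import Mathlib.Topology.Sheaves.Presheaf
import Mathlib.Tactic.Monotonicity.Lemmas
import Mathlib.RingTheory.Flat.TorsionFree
import Mathlib.Data.Int.Star
import Mathlib.Algebra.Module.StablyFree.Basic
import Mathlib.AlgebraicTopology.FundamentalGroupoid.SimplyConnected
import Mathlib.Analysis.Convex.Contractible
import Mathlib.Analysis.CStarAlgebra.Module.Constructions
import Mathlib.Analysis.Calculus.LineDeriv.IntegrationByParts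
import Mathlib.Analysis.Complex.LocallyUniformLimit
import Mathlib.Geometry.Manifold.PartitionOfUnity
import Mathlib.Analysis.Complex.BorelCaratheodory
import Mathlib.Analysis.Complex.Harmonic.Analytic
import Mathlib.Analysis.InnerProductSpace.Harmonic.Constructions
import Mathlib.Analysis.Complex.TaylorSeries
import Mathlib.Topology.Compactness.CompactlyGeneratedSpace
import Mathlib.Analysis.Convex.Integral
import Mathlib.Analysis.InnerProductSpace.l2Space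
import Mathlib.Analysis.SpecialFunctions.PolarCoord
import Mathlib.Analysis.InnerProductSpace.StarOrder
import Mathlib.Analysis.SpecialFunctions.Pow.Integral
import Mathlib.RingTheory.PiTensorProduct
import Mathlib.RingTheory.SimpleRing.Principal
import Mathlib.Order.CompletePartialOrder
import Mathlib.Topology.UniformSpace.Uniformizable
import Pool.Agent.MP_13a571_an.Defs

-- ======== part 0: formerly Pool.Agent.MP_13a571_an.Dbar
section MrgPart0

/-!
The Cauchy-Pompeiu formula for compactly supported functions of class one (proof taken from the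
file of helper87 on MP_ecf4b9_an), integration by parts and the Green representation formula.
-/

open MeasureTheory Set Complex Filter Topology
open scoped ComplexConjugate

namespace Pool.Agent.MP_13a571_an

/-- the antiholomorphic Wirtinger derivative -/
noncomputable def dbar (φ : ℂ → ℂ) (x : ℂ) : ℂ := (fderiv ℝ φ x 1 + I * fderiv ℝ φ x I) / 2

lemma clm_apply_eq {E : Type*} [NormedAddCommGroup E] [NormedSpace ℝ E] (L : ℂ →L[ℝ] E) (v : ℂ) :
    L v = v.re • L 1 + v.im • L I := by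
  rw [← map_smul, ← map_smul, ← map_add]
  congr 1
  apply Complex.ext <;> simp

lemma continuous_dbar {φ : ℂ → ℂ} (hφ : ContDiff ℝ 1 φ) : Continuous (dbar φ) := by
  have := hφ.continuous_fderiv (by norm_num)
  unfold dbar
  fun_prop

lemma hasCompactSupport_dbar {φ : ℂ → ℂ} (hc : HasCompactSupport φ) : HasCompactSupport (dbar φ) := by
  refine (hc.fderiv (𝕜 := ℝ)).mono fun x hx => ?_
  intro h
  apply hx
  simp [dbar, h]

lemma integrable_dbar {φ : ℂ → ℂ} (hφ : ContDiff ℝ 1 φ) (hc : HasCompactSupport φ) :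
    Integrable (dbar φ) :=
  (continuous_dbar hφ).integrable_of_hasCompactSupport (hasCompactSupport_dbar hc)

/-- the unit vector of angle `θ` -/
noncomputable def ee (θ : ℝ) : ℂ := Real.cos θ + Real.sin θ * I

lemma norm_ee (θ : ℝ) : ‖ee θ‖ = 1 := by
  unfold ee
  rw [Complex.ofReal_cos, Complex.ofReal_sin, Complex.norm_cos_add_sin_mul_I]

lemma continuous_ee : Continuous ee := by unfold ee; fun_prop

lemma hasDerivAt_ee (θ : ℝ) : HasDerivAt ee (I * ee θ) θ := by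
  have h := ((Real.hasDerivAt_cos θ).ofReal_comp).add
    (((Real.hasDerivAt_sin θ).ofReal_comp).mul_const I)
  refine h.congr_deriv ?_
  unfold ee
  push_cast
  linear_combination (-Complex.sin θ) * I_mul_I

theorem pompeiu_zero {φ : ℂ → ℂ} (hφ : ContDiff ℝ 1 φ) (hc : HasCompactSupport φ) :
    ∫ x, dbar φ x * x⁻¹ = -Real.pi * φ 0 := by
  have hD := hφ.continuous_fderiv (by norm_num)
  have hd := hφ.differentiable (by norm_num)
  obtain ⟨R, hR, hR0⟩ := (hc.fderiv (𝕜 := ℝ)).exists_pos_le_norm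
  obtain ⟨R', hR', hR0'⟩ := hc.exists_pos_le_norm
  have hce := continuous_ee
  have hn : ∀ (r θ : ℝ), 0 ≤ r → ‖(r : ℂ) * ee θ‖ = r := fun r θ hr => by
    rw [norm_mul, norm_ee, mul_one, Complex.norm_real, Real.norm_eq_abs, abs_of_nonneg hr]
  have hint : ∀ w : ℝ → ℂ, Continuous w → IntegrableOn
      (fun p : ℝ × ℝ => fderiv ℝ φ (p.1 * ee p.2) (w p.2)) (Ioi 0 ×ˢ Ioo (-Real.pi) Real.pi)
      (volume.prod volume) := by
    intro w hw
    have h1 : IntegrableOn (fun p : ℝ × ℝ => fderiv ℝ φ (p.1 * ee p.2) (w p.2))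
        (Icc 0 R ×ˢ Icc (-Real.pi) Real.pi) (volume.prod volume) :=
      ContinuousOn.integrableOn_compact (isCompact_Icc.prod isCompact_Icc)
        (Continuous.continuousOn (by fun_prop))
    refine h1.of_forall_sdiff_eq_zero (measurableSet_Ioi.prod measurableSet_Ioo) fun p hp => ?_
    have h2 : R ≤ p.1 := by
      by_contra h3
      exact hp.2 ⟨⟨le_of_lt hp.1.1, (not_le.1 h3).le⟩, Ioo_subset_Icc_self hp.1.2⟩
    rw [hR0 _ (by rw [hn _ _ (le_of_lt hp.1.1)]; exact h2)]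
    simp
  have i1 := hint ee hce
  have i2 := hint (fun θ => I * ee θ) (by fun_prop)
  have a1 : ∫ p in Ioi (0 : ℝ) ×ˢ Ioo (-Real.pi) Real.pi, fderiv ℝ φ (p.1 * ee p.2) (ee p.2)
      ∂(volume.prod volume) = -(2 * Real.pi) * φ 0 := by
    have i1' := i1
    rw [IntegrableOn, ← Measure.prod_restrict] at i1'
    rw [← Measure.prod_restrict, integral_prod_symm _ i1']
    have : ∀ θ : ℝ, ∫ r in Ioi (0 : ℝ), fderiv ℝ φ (r * ee θ) (ee θ) = -φ 0 := by
      intro θ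
      have b1 : ∀ r : ℝ, HasDerivAt (fun r : ℝ => φ (r * ee θ)) (fderiv ℝ φ (r * ee θ) (ee θ)) r := by
        intro r
        have c1 : HasDerivAt (fun r : ℝ => (r : ℂ) * ee θ) (ee θ) r := by
          simpa using ((hasDerivAt_id r).ofReal_comp).mul_const (ee θ)
        exact (hd _).hasFDerivAt.comp_hasDerivAt r c1
      have b2 : IntegrableOn (fun r : ℝ => fderiv ℝ φ (r * ee θ) (ee θ)) (Ioi 0) := by
        have c1 : IntegrableOn (fun r : ℝ => fderiv ℝ φ (r * ee θ) (ee θ)) (Icc 0 R) :=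
          Continuous.integrableOn_Icc (by fun_prop)
        refine c1.of_forall_sdiff_eq_zero measurableSet_Ioi fun r hr => ?_
        have h2 : R ≤ r := by
          by_contra h3
          exact hr.2 ⟨le_of_lt hr.1, (not_le.1 h3).le⟩
        rw [hR0 _ (by rw [hn _ _ (le_of_lt hr.1)]; exact h2)]
        simp
      have b3 : Tendsto (fun r : ℝ => φ (r * ee θ)) atTop (𝓝 0) := by
        refine tendsto_const_nhds.congr' ?_
        filter_upwards [eventually_ge_atTop R'] with r hr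
        rw [hR0' _ (by rw [hn _ _ (hR'.le.trans hr)]; exact hr)]
      simpa using integral_Ioi_of_hasDerivAt_of_tendsto' (fun r _ => b1 r) b2 b3
    simp only [this, integral_const, Measure.real, Measure.restrict_apply MeasurableSet.univ,
      univ_inter, Real.volume_Ioo]
    rw [ENNReal.toReal_ofReal (by linarith [Real.pi_pos]), real_smul]
    push_cast
    ring
  have a2 : ∫ p in Ioi (0 : ℝ) ×ˢ Ioo (-Real.pi) Real.pi, fderiv ℝ φ (p.1 * ee p.2) (I * ee p.2)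
      ∂(volume.prod volume) = 0 := by
    rw [setIntegral_prod _ i2]
    refine setIntegral_eq_zero_of_forall_eq_zero fun r hr => ?_
    have hr0 : (r : ℝ) ≠ 0 := ne_of_gt hr
    have b1 : ∀ θ : ℝ, HasDerivAt (fun θ : ℝ => r⁻¹ • φ (r * ee θ))
        (fderiv ℝ φ (r * ee θ) (I * ee θ)) θ := by
      intro θ
      have c1 := ((hd _).hasFDerivAt.comp_hasDerivAt θ
        ((hasDerivAt_ee θ).const_mul (r : ℂ))).const_smul r⁻¹
      refine c1.congr_deriv ?_
      rw [← real_smul (z := I * ee θ), map_smul, smul_smul, inv_mul_cancel₀ hr0, one_smul]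
    rw [← integral_Ioc_eq_integral_Ioo,
      ← intervalIntegral.integral_of_le (by linarith [Real.pi_pos]),
      intervalIntegral.integral_eq_sub_of_hasDerivAt (fun θ _ => b1 θ)
        (Continuous.intervalIntegrable (by fun_prop) _ _)]
    simp [ee]
  rw [← Complex.integral_comp_polarCoord_symm, polarCoord_target, Measure.volume_eq_prod,
    setIntegral_congr_fun (measurableSet_Ioi.prod measurableSet_Ioo)
      (g := fun p : ℝ × ℝ => (fderiv ℝ φ (p.1 * ee p.2) (ee p.2) +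
        I * fderiv ℝ φ (p.1 * ee p.2) (I * ee p.2)) / 2),
    integral_div, integral_add i1 (i2.const_mul I), integral_const_mul, a1, a2]
  · ring
  · intro p hp
    have hr0 : (p.1 : ℂ) ≠ 0 := by exact_mod_cast ne_of_gt hp.1
    have e0 : Complex.polarCoord.symm p = p.1 * ee p.2 := by simp [ee]
    have e1 : (ee p.2)⁻¹ = Real.cos p.2 - Real.sin p.2 * I := by
      refine inv_eq_of_mul_eq_one_right ?_
      unfold ee
      have : (Real.cos p.2 : ℂ) ^ 2 + (Real.sin p.2 : ℂ) ^ 2 = 1 := by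
        exact_mod_cast Real.cos_sq_add_sin_sq p.2
      linear_combination this - (Real.sin p.2 : ℂ) ^ 2 * I_mul_I
    simp only [e0]
    rw [clm_apply_eq _ (ee p.2), clm_apply_eq _ (I * ee p.2), mul_inv, e1, dbar]
    simp only [ee, real_smul, add_re, ofReal_re, mul_re, I_re, mul_zero, ofReal_im, I_im, mul_one,
      sub_self, add_zero, add_im, mul_im, zero_add, zero_mul, one_mul, zero_sub, ofReal_neg]
    field_simp
    linear_combination (-(Real.sin p.2 : ℂ) *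
      fderiv ℝ φ (p.1 * (Real.cos p.2 + Real.sin p.2 * I)) I) * I_mul_I

theorem pompeiu {φ : ℂ → ℂ} (hφ : ContDiff ℝ 1 φ) (hc : HasCompactSupport φ) (y : ℂ) :
    ∫ x, dbar φ x * (x - y)⁻¹ = -Real.pi * φ y := by
  have h1 := pompeiu_zero (φ := fun x => φ (x + y)) (hφ.comp (by fun_prop))
    (hc.comp_homeomorph (Homeomorph.addRight y))
  rw [zero_add] at h1
  rw [← h1, ← integral_add_right_eq_self _ y]
  congr 1
  ext x
  simp only [dbar, fderiv_comp_add_right, add_sub_cancel_right]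

lemma ibp {A B : ℂ → ℂ} (hA : ContDiff ℝ 1 A) (hB : ContDiff ℝ 1 B) (hc : HasCompactSupport B) :
    ∫ x, A x * dbar B x = -∫ x, dbar A x * B x := by
  have hA' := hA.continuous_fderiv (by norm_num)
  have hB' := hB.continuous_fderiv (by norm_num)
  have hAc := hA.continuous
  have hBc := hB.continuous
  have i1 : ∀ v, Integrable (fun x => fderiv ℝ A x v * B x) := fun v =>
    Continuous.integrable_of_hasCompactSupport (by fun_prop) hc.mul_left
  have i2 : ∀ v, Integrable (fun x => A x * fderiv ℝ B x v) := fun v =>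
    Continuous.integrable_of_hasCompactSupport (by fun_prop)
      (hc.fderiv_apply (𝕜 := ℝ) v).mul_left
  have i3 : Integrable (fun x => A x * B x) :=
    Continuous.integrable_of_hasCompactSupport (by fun_prop) hc.mul_left
  have key : ∀ v, ∫ x, A x * fderiv ℝ B x v = -∫ x, fderiv ℝ A x v * B x := fun v =>
    integral_mul_fderiv_eq_neg_fderiv_mul_of_integrable (i1 v) (i2 v) i3
      (fun x _ => hA.differentiable (by norm_num) x) (fun x _ => hB.differentiable (by norm_num) x)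
  have e1 : (fun x => A x * dbar B x) =
      fun x => (A x * fderiv ℝ B x 1 + I * (A x * fderiv ℝ B x I)) / 2 := by
    ext x; unfold dbar; ring
  have e2 : (fun x => dbar A x * B x) =
      fun x => (fderiv ℝ A x 1 * B x + I * (fderiv ℝ A x I * B x)) / 2 := by
    ext x; unfold dbar; ring
  rw [e1, e2, integral_div, integral_div, integral_add (i2 1) ((i2 I).const_mul I),
    integral_add (i1 1) ((i1 I).const_mul I), integral_const_mul, integral_const_mul, key, key]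
  ring

lemma dbar_of_hasFDerivAt {A : ℂ → ℂ} {A' : ℂ →L[ℝ] ℂ} {x : ℂ} (h : HasFDerivAt A A' x) :
    dbar A x = (A' 1 + I * A' I) / 2 := by
  rw [dbar, h.fderiv]

lemma dbar_congr {A B : ℂ → ℂ} {x : ℂ} (h : A =ᶠ[𝓝 x] B) : dbar A x = dbar B x := by
  rw [dbar, dbar, h.fderiv_eq]

lemma dbar_mul {A B : ℂ → ℂ} {x : ℂ} (hA : DifferentiableAt ℝ A x) (hB : DifferentiableAt ℝ B x) :
    dbar (fun w => A w * B w) x = dbar A x * B x + A x * dbar B x := by
  refine (dbar_of_hasFDerivAt (hA.hasFDerivAt.fun_mul hB.hasFDerivAt)).trans ?_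
  simp only [dbar, add_apply, smul_apply, smul_eq_mul]
  ring

lemma dbar_of_differentiableAt {A : ℂ → ℂ} {x : ℂ} (hA : DifferentiableAt ℂ A x) :
    dbar A x = 0 := by
  rw [dbar_of_hasFDerivAt (hA.hasDerivAt.hasFDerivAt.restrictScalars ℝ)]
  simp only [ContinuousLinearMap.coe_restrictScalars', ContinuousLinearMap.toSpanSingleton_apply,
    smul_eq_mul, one_mul]
  linear_combination (deriv A x / 2) * I_mul_I

lemma dbar_const (c x : ℂ) : dbar (fun _ => c) x = 0 :=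
  dbar_of_differentiableAt (differentiableAt_const c)

lemma dbar_logReg (z x : ℂ) {s : ℝ} (hs : 0 < s) :
    dbar (fun w => ((Real.log (‖w - z‖ ^ 2 + s) : ℝ) : ℂ)) x =
      (x - z) / ((‖x - z‖ ^ 2 + s : ℝ) : ℂ) := by
  have hpos : ‖x - z‖ ^ 2 + s ≠ 0 := by positivity
  have h1 := ((((hasFDerivAt_id (𝕜 := ℝ) x).sub_const z).norm_sq).add_const s).log hpos
  have h2 := ofRealCLM.hasFDerivAt.comp x h1
  refine (dbar_of_hasFDerivAt h2).trans ?_
  have hc : ((‖x - z‖ ^ 2 + s : ℝ) : ℂ) ≠ 0 := by exact_mod_cast hpos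
  simp only [ContinuousLinearMap.comp_apply, ofRealCLM_apply, smul_apply,
    ContinuousLinearMap.id_apply, innerSL_apply_apply, Complex.inner, smul_eq_mul, id,
    nsmul_eq_mul, Nat.cast_ofNat, one_mul, ofReal_mul, ofReal_inv, ofReal_ofNat]
  have e1 : ((conj (x - z)).re : ℂ) = (x - z).re := by simp
  have e2 : ((I * conj (x - z)).re : ℂ) = (x - z).im := by simp; ring
  rw [e1, e2]
  field_simp
  rw [mul_comm I]
  exact Complex.re_add_im _

/-- Green representation formula at a point outside the support of the Laplacian -/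
theorem green {u ρ : ℂ → ℝ} {Ψ : ℂ → ℂ} (hu : ContDiff ℝ 1 fun w => (u w : ℂ))
    (huc : HasCompactSupport fun w => (u w : ℂ)) (hΨ : ContDiff ℝ 1 Ψ)
    (hΨc : HasCompactSupport Ψ) (h1 : ∀ w, dbar (fun w => (u w : ℂ)) w = conj (Ψ w))
    (h2 : ∀ w, dbar Ψ w = ρ w) {z : ℂ} {d : ℝ} (hd : 0 < d) (hz : ∀ w, ρ w ≠ 0 → d ≤ ‖w - z‖) :
    ∫ w, 2 * Real.log ‖w - z‖ * ρ w = Real.pi * u z := by
  have hρc : Continuous ρ := by
    have : ρ = fun w => (dbar Ψ w).re := by ext w; rw [h2]; simp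
    rw [this]; exact continuous_re.comp (continuous_dbar hΨ)
  have hρs : HasCompactSupport ρ := by
    refine (hasCompactSupport_dbar hΨc).mono fun w hw h => hw ?_
    rw [h2] at h; exact_mod_cast h
  have hL : ∀ s : ℝ, 0 < s → ContDiff ℝ 1 fun w => ((Real.log (‖w - z‖ ^ 2 + s) : ℝ) : ℂ) := by
    intro s hs
    refine ofRealCLM.contDiff.comp (ContDiff.log ?_ fun w => by positivity)
    exact ((contDiff_id.sub contDiff_const).norm_sq ℝ).add contDiff_const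
  have key : ∀ s : ℝ, 0 < s → ((∫ w, Real.log (‖w - z‖ ^ 2 + s) * ρ w : ℝ) : ℂ) =
      -conj (∫ w, dbar (fun w => (u w : ℂ)) w * (conj (w - z) / ((‖w - z‖ ^ 2 + s : ℝ) : ℂ))) := by
    intro s hs
    have := ibp (hL s hs) hΨ hΨc
    rw [← integral_conj, ← integral_complex_ofReal]
    simp only [h2, dbar_logReg _ _ hs] at this
    simp only [h1]
    refine Eq.trans (by congr 1; ext w; simp) (this.trans ?_)
    congr 2
    ext w
    simp only [map_mul, conj_conj, map_div₀, conj_ofReal]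
    ring
  have t1 : Tendsto (fun s : ℝ => ∫ w, Real.log (‖w - z‖ ^ 2 + s) * ρ w) (𝓝[>] 0)
      (𝓝 (∫ w, 2 * Real.log ‖w - z‖ * ρ w)) := by
    refine tendsto_integral_filter_of_dominated_convergence
      (fun w => (‖w - z‖ ^ 2 + 1 + (d ^ 2)⁻¹) * |ρ w|) ?_ ?_ ?_ ?_
    · filter_upwards [self_mem_nhdsWithin] with s hs
      have hs' : 0 < s := hs
      refine Continuous.aestronglyMeasurable (Continuous.mul (Continuous.log (by fun_prop)
        fun w => by positivity) hρc)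
    · filter_upwards [Ioc_mem_nhdsGT (show (0 : ℝ) < 1 by norm_num)] with s hs
      refine Eventually.of_forall fun w => ?_
      rw [norm_mul, Real.norm_eq_abs, Real.norm_eq_abs]
      by_cases hw : ρ w = 0
      · simp [hw]
      gcongr
      have h3 := hz w hw
      have h4 : d ^ 2 ≤ ‖w - z‖ ^ 2 + s := by nlinarith [hs.1]
      have h5 : 0 < ‖w - z‖ ^ 2 + s := by have := hs.1; positivity
      have h6 := Real.log_le_sub_one_of_pos h5
      have h7 := Real.log_le_sub_one_of_pos (inv_pos.2 h5)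
      rw [Real.log_inv] at h7
      have h8 : (‖w - z‖ ^ 2 + s)⁻¹ ≤ (d ^ 2)⁻¹ := by gcongr
      have h9 : 0 < (d ^ 2)⁻¹ := by positivity
      rw [abs_le]
      constructor <;> nlinarith [hs.2, sq_nonneg ‖w - z‖]
    · exact Continuous.integrable_of_hasCompactSupport (by fun_prop) hρs.abs.mul_left
    · refine Eventually.of_forall fun w => ?_
      by_cases hw : ρ w = 0
      · simp [hw]
      refine Tendsto.mul_const _ ?_
      have h3 : 0 < ‖w - z‖ := hd.trans_le (hz w hw)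
      have h4 : ContinuousAt (fun s : ℝ => Real.log (‖w - z‖ ^ 2 + s)) 0 :=
        ContinuousAt.log (by fun_prop) (by positivity)
      have h5 := h4.tendsto.mono_left (nhdsWithin_le_nhds (s := Ioi 0))
      simpa using h5
  have t2 : Tendsto (fun s : ℝ => ∫ w, dbar (fun w => (u w : ℂ)) w *
      (conj (w - z) / ((‖w - z‖ ^ 2 + s : ℝ) : ℂ))) (𝓝[>] 0)
      (𝓝 (∫ w, dbar (fun w => (u w : ℂ)) w * (w - z)⁻¹)) := by
    have hdc := continuous_dbar hu
    refine tendsto_integral_filter_of_dominated_convergence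
      (fun w => ‖dbar (fun w => (u w : ℂ)) w‖ * ‖w - z‖⁻¹) ?_ ?_ ?_ ?_
    · filter_upwards [self_mem_nhdsWithin] with s hs
      have hs' : 0 < s := hs
      refine Continuous.aestronglyMeasurable (hdc.mul (Continuous.div (by fun_prop) (by fun_prop)
        fun w => ?_))
      exact_mod_cast (show ‖w - z‖ ^ 2 + s ≠ 0 by positivity)
    · filter_upwards [self_mem_nhdsWithin] with s hs
      have hs' : 0 < s := hs
      refine Eventually.of_forall fun w => ?_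
      rw [norm_mul, norm_div, Complex.norm_conj, Complex.norm_real, Real.norm_eq_abs,
        abs_of_pos (by positivity)]
      gcongr
      rcases (norm_nonneg (w - z)).lt_or_eq with h3 | h3
      · rw [div_le_iff₀ (by positivity), inv_mul_eq_div, le_div_iff₀ h3]; nlinarith
      · rw [← h3]; simp
    · have hl : LocallyIntegrable (fun w : ℂ => ‖w‖⁻¹) volume := by
        refine locallyIntegrable_of_norm_le_rpow (by simp) (C := 1) (α := 1) (by simp)
          (Eventually.of_forall fun w => ?_) (by fun_prop)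
        simp [Real.rpow_neg_one]
      have hl2 : Integrable (fun w : ℂ => ‖dbar (fun w => (u w : ℂ)) (w + z)‖ • ‖w‖⁻¹) :=
        hl.integrable_smul_left_of_hasCompactSupport (by fun_prop)
          ((hasCompactSupport_dbar huc).comp_homeomorph (Homeomorph.addRight z)).norm
      have := hl2.comp_sub_right z
      simpa using this
    · refine Eventually.of_forall fun w => Tendsto.const_mul _ ?_
      by_cases hw : w - z = 0
      · simp [hw]
      have h3 : 0 < ‖w - z‖ := norm_pos_iff.2 hw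
      have h4 : ContinuousAt (fun s : ℝ => conj (w - z) / ((‖w - z‖ ^ 2 + s : ℝ) : ℂ)) 0 :=
        ContinuousAt.div (by fun_prop) (by fun_prop)
          (by exact_mod_cast (show ‖w - z‖ ^ 2 + 0 ≠ 0 by positivity))
      have h5 := h4.tendsto.mono_left (nhdsWithin_le_nhds (s := Ioi 0))
      convert h5 using 2
      rw [add_zero, Complex.inv_def, Complex.normSq_eq_norm_sq, div_eq_mul_inv, ofReal_inv]
  rw [pompeiu hu huc] at t2
  have t3 := (continuous_ofReal.tendsto _).comp t1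
  have t4 := ((continuous_conj.tendsto _).comp t2).neg
  have := tendsto_nhds_unique (t3.congr' (by
    filter_upwards [self_mem_nhdsWithin] with s hs using key s hs)) t4
  apply ofReal_injective
  rw [this]
  simp

end Pool.Agent.MP_13a571_an

end MrgPart0

-- ======== part 1: formerly Pool.Agent.MP_13a571_an.Rep
section MrgPart1

/-!
Cauchy representation by an area integral, and discretization of kernel integrals.
-/

open MeasureTheory Set Complex Filter Topology Metric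
open scoped Manifold

namespace Pool.Agent.MP_13a571_an

lemma exists_cutoff {Λ L : Set ℂ} (hΛ : IsClosed Λ) (h : Λ ⊆ interior L) :
    ∃ χ : ℂ → ℝ, ContDiff ℝ 1 χ ∧ (∀ᶠ x in 𝓝ˢ Λ, χ x = 1) ∧ (∀ x, x ∉ L → χ x = 0) ∧
      ∀ x, χ x ∈ Icc (0 : ℝ) 1 := by
  obtain ⟨f, h1, h2, h3⟩ := exists_contMDiffMap_one_nhds_of_subset_interior 𝓘(ℝ, ℂ) (n := 1) hΛ h
  exact ⟨f, f.contMDiff.contDiff, h1, h2, h3⟩

theorem cauchy_rep {Λ V : Set ℂ} (hΛ : IsCompact Λ) (hV : IsOpen V) (h : Λ ⊆ V) :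
    ∃ Γ, IsCompact Γ ∧ Γ ⊆ V \ Λ ∧ ∃ C : ℝ, 0 ≤ C ∧ ∀ F : ℂ → ℂ, AnalyticOnNhd ℂ F V →
      ∀ M : ℝ, 0 ≤ M → (∀ ζ ∈ Γ, ‖F ζ‖ ≤ M) →
        ∃ ρ : ℂ → ℂ, Continuous ρ ∧ (∀ ζ, ζ ∉ Γ → ρ ζ = 0) ∧ (∀ ζ, ‖ρ ζ‖ ≤ C * M) ∧
          ∀ z ∈ Λ, F z = ∫ ζ, ρ ζ * (ζ - z)⁻¹ := by
  obtain ⟨L, hL, hΛL, hLV⟩ := exists_compact_between hΛ hV h
  obtain ⟨χ, hχ, h1, h0, -⟩ := exists_cutoff hΛ.isClosed hΛL
  set X : ℂ → ℂ := fun w => (χ w : ℂ) with hX
  have hXd : ContDiff ℝ 1 X := ofRealCLM.contDiff.comp hχ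
  have hout : ∀ w, w ∉ L → ∀ᶠ y in 𝓝 w, X y = 0 := fun w hw => by
    filter_upwards [hL.isClosed.isOpen_compl.mem_nhds hw] with y hy
    simp [hX, h0 y hy]
  have hXc : HasCompactSupport X := HasCompactSupport.intro hL fun w hw => (hout w hw).self_of_nhds
  have hsL : tsupport (dbar X) ⊆ L := by
    refine closure_minimal (fun w hw => ?_) hL.isClosed
    by_contra h2
    exact hw ((dbar_congr (hout w h2)).trans (dbar_const 0 w))
  have hsΛ : ∀ w ∈ tsupport (dbar X), w ∉ Λ := by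
    intro w hw hwΛ
    have h2 : ∀ᶠ y in 𝓝 w, ∀ᶠ y' in 𝓝 y, χ y' = 1 :=
      (h1.filter_mono (nhds_le_nhdsSet hwΛ)).eventually_nhds
    refine (notMem_tsupport_iff_eventuallyEq.2 ?_) hw
    filter_upwards [h2] with y hy
    have : X =ᶠ[𝓝 y] fun _ => 1 := hy.mono fun y' hy' => by simp [hX, hy']
    exact (dbar_congr this).trans (dbar_const 1 y)
  obtain ⟨B, hB⟩ := (continuous_dbar hXd).bounded_above_of_compact_support
    (hasCompactSupport_dbar hXc)
  have hB0 : 0 ≤ B := (norm_nonneg _).trans (hB 0)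
  refine ⟨tsupport (dbar X), hasCompactSupport_dbar hXc,
    fun w hw => ⟨hLV (hsL hw), hsΛ w hw⟩, Real.pi⁻¹ * B, by positivity, ?_⟩
  intro F hF M hM hFM
  set W : ℂ → ℂ := fun w => X w * F w with hW
  have hWout : ∀ w, w ∉ L → W =ᶠ[𝓝 w] fun _ => 0 := fun w hw =>
    (hout w hw).mono fun y hy => by simp [hW, hy]
  have hWd : ContDiff ℝ 1 W := by
    rw [contDiff_iff_contDiffAt]
    intro w
    by_cases hw : w ∈ L
    · exact hXd.contDiffAt.mul (((hF w (hLV hw)).contDiffAt (n := 1)).restrict_scalars ℝ)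
    · exact contDiffAt_const.congr_of_eventuallyEq (hWout w hw)
  have hWc : HasCompactSupport W :=
    HasCompactSupport.intro hL fun w hw => (hWout w hw).self_of_nhds
  have hdW : ∀ w, dbar W w = dbar X w * F w := by
    intro w
    by_cases hw : w ∈ L
    · have h2 := (hF w (hLV hw)).differentiableAt
      rw [hW, dbar_mul (hXd.differentiable (by norm_num) w) (h2.restrictScalars ℝ),
        dbar_of_differentiableAt h2, mul_zero, add_zero]
    · rw [dbar_congr (hWout w hw), dbar_const, dbar_congr (hout w hw)]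
      exact ((congrArg (· * F w) (dbar_const 0 w)).trans (zero_mul _)).symm
  refine ⟨fun w => -(Real.pi : ℂ)⁻¹ * dbar W w, continuous_const.mul (continuous_dbar hWd),
    fun w hw => ?_, fun w => ?_, fun z hz => ?_⟩
  · simp only [hdW, image_eq_zero_of_notMem_tsupport hw, zero_mul, mul_zero]
  · by_cases hw : w ∈ tsupport (dbar X)
    · simp only [hdW, norm_mul, norm_neg, norm_inv, Complex.norm_real, Real.norm_eq_abs,
        abs_of_pos Real.pi_pos]
      rw [mul_assoc]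
      have := Real.pi_pos
      gcongr
      · exact hB w
      · exact hFM w hw
    · simp only [hdW, image_eq_zero_of_notMem_tsupport hw, zero_mul, mul_zero, norm_zero]
      positivity
  · simp only [mul_assoc]
    rw [integral_const_mul, pompeiu hWd hWc]
    have h2 : χ z = 1 := h1.self_of_nhdsSet z hz
    have h3 : (Real.pi : ℂ) ≠ 0 := by exact_mod_cast Real.pi_ne_zero
    simp only [hW, hX, h2]
    field_simp
    simp

theorem integral_approx {E : Type} [NormedAddCommGroup E] [NormedSpace ℝ E] [CompleteSpace E]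
    {Λ : Set ℂ} (hΛ : IsCompact Λ) {R : ℝ} (hR : 0 < R) {κ : ℂ → ℂ → E}
    (hκ : ContinuousOn (fun p : ℂ × ℂ => κ p.1 p.2) (univ ×ˢ Λ))
    (h0 : ∀ ζ, ζ ∉ ball (0 : ℂ) R → ∀ z ∈ Λ, κ ζ z = 0) {A : Set (ℂ → E)} (hA : Convex ℝ A)
    (hmem : ∀ ζ, ∃ G ∈ A, ∀ z ∈ Λ, G z = (volume (ball (0 : ℂ) R)).toReal • κ ζ z)
    {η : ℝ} (hη : 0 < η) : ∃ G ∈ A, ∀ z ∈ Λ, ‖(∫ ζ, κ ζ z) - G z‖ ≤ η := by
  have : CompactSpace Λ := isCompact_iff_compactSpace.1 hΛ
  have hc : Continuous fun p : ℂ × Λ => κ p.1 p.2 :=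
    hκ.comp_continuous (f := fun p : ℂ × Λ => (p.1, (p.2 : ℂ))) (by fun_prop)
      fun p => ⟨mem_univ _, p.2.2⟩
  set Ψ : ℂ → C(Λ, E) := fun ζ => ⟨fun z => κ ζ z, hc.comp (Continuous.prodMk_right ζ)⟩ with hΨ
  have hΨc : Continuous Ψ := ContinuousMap.continuous_of_continuous_uncurry Ψ hc
  set m := (volume (ball (0 : ℂ) R)).toReal with hm
  have hv0 : volume (ball (0 : ℂ) R) ≠ 0 := (measure_ball_pos _ _ hR).ne'
  have hv1 : volume (ball (0 : ℂ) R) ≠ ⊤ := measure_ball_lt_top.ne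
  have hm0 : m ≠ 0 := ENNReal.toReal_ne_zero.2 ⟨hv0, hv1⟩
  set S : Set C(Λ, E) := {g | ∃ G ∈ A, ∀ z : Λ, g z = G z}
  have hS : Convex ℝ S := by
    rintro g₁ ⟨G₁, hG₁, e₁⟩ g₂ ⟨G₂, hG₂, e₂⟩ a b ha hb hab
    exact ⟨_, hA hG₁ hG₂ ha hb hab, fun z => by simp [e₁, e₂]⟩
  have hint : IntegrableOn Ψ (ball 0 R) :=
    (hΨc.continuousOn.integrableOn_compact (isCompact_closedBall 0 R)).mono_set
      ball_subset_closedBall
  have key := hS.set_average_mem_closure (f := fun ζ => m • Ψ ζ) hv0 hv1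
    (Eventually.of_forall fun ζ => by
      obtain ⟨G, hG, e⟩ := hmem ζ
      exact ⟨G, hG, fun z => by simp [hΨ, e z z.2]⟩) (hint.smul m)
  rw [setAverage_eq, integral_smul, smul_smul, Measure.real, ← hm, inv_mul_cancel₀ hm0,
    one_smul] at key
  obtain ⟨g, ⟨G, hG, e⟩, hd⟩ := Metric.mem_closure_iff.1 key η hη
  refine ⟨G, hG, fun z hz => ?_⟩
  have h1 := (ContinuousMap.dist_apply_le_dist (f := ∫ ζ in ball 0 R, Ψ ζ) (g := g)
    ⟨z, hz⟩).trans hd.le
  rw [ContinuousMap.integral_apply hint, e, dist_eq_norm] at h1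
  rw [← setIntegral_eq_integral_of_forall_compl_eq_zero (s := ball 0 R)
    fun ζ hζ => h0 ζ hζ z hz]
  exact h1

end Pool.Agent.MP_13a571_an

end MrgPart1

-- ======== part 2: formerly Pool.Agent.MP_13a571_an.MaxP
section MrgPart2

/-!
Maximum principles and the two-constants theorem.
-/

open Set Filter Topology InnerProductSpace Metric

namespace Pool.Agent.MP_13a571_an

/-- `F` is locally the modulus of an analytic function. -/
def LocNorm (F : ℂ → ℝ) (W : Set ℂ) : Prop :=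
  ∀ z ∈ W, ∃ h : ℂ → ℂ, AnalyticAt ℂ h z ∧ ∀ᶠ w in 𝓝 z, F w = ‖h w‖

lemma LocNorm.continuousAt {F : ℂ → ℝ} {W : Set ℂ} (hF : LocNorm F W) {z : ℂ} (hz : z ∈ W) :
    ContinuousAt F z := by
  obtain ⟨h, hh, e⟩ := hF z hz
  exact (hh.continuousAt.norm).congr (e.mono fun w hw => hw.symm)

lemma LocNorm.eventually_eq {F : ℂ → ℝ} {W : Set ℂ} (hF : LocNorm F W) {z : ℂ} (hz : z ∈ W)
    (hm : ∀ᶠ w in 𝓝 z, F w ≤ F z) : ∀ᶠ w in 𝓝 z, F w = F z := by
  obtain ⟨h, hh, e⟩ := hF z hz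
  have ez : F z = ‖h z‖ := e.self_of_nhds
  have hmax : IsLocalMax (norm ∘ h) z := by
    filter_upwards [e, hm] with w h1 h2
    simp only [Function.comp]
    rw [← h1, ← ez]; exact h2
  have := Complex.norm_eventually_eq_of_isLocalMax
    (hh.eventually_analyticAt.mono fun w hw => hw.differentiableAt) hmax
  filter_upwards [e, this] with w h1 h2
  rw [h1, ez]; exact h2

lemma exists_re_eq {u : ℂ → ℝ} {z : ℂ} (hu : HarmonicAt u z) :
    ∃ h : ℂ → ℂ, AnalyticAt ℂ h z ∧ ∀ᶠ w in 𝓝 z, (h w).re = u w := by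
  obtain ⟨r, hr, hb⟩ := Metric.eventually_nhds_iff_ball.1 hu.eventually
  obtain ⟨F, hF, e⟩ := HarmonicOnNhd.exists_analyticOnNhd_ball_re_eq (z := z) (R := r) hb
  exact ⟨F, hF z (mem_ball_self hr), by
    filter_upwards [ball_mem_nhds z hr] with w hw using e hw⟩

lemma locNorm_mul_exp {f : ℂ → ℂ} {u : ℂ → ℝ} {W : Set ℂ} (hf : AnalyticOnNhd ℂ f W)
    (hu : ∀ z ∈ W, HarmonicAt u z) (c : ℝ) :
    LocNorm (fun w => ‖f w‖ * Real.exp (c * u w)) W := by
  intro z hz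
  obtain ⟨h, hh, e⟩ := exists_re_eq (hu z hz)
  refine ⟨fun w => f w * Complex.exp (c * h w), (hf z hz).mul
    ((analyticAt_const.mul hh).cexp), ?_⟩
  filter_upwards [e] with w hw
  rw [norm_mul, Complex.norm_exp, Complex.re_ofReal_mul, hw]

/-- maximum principle -/
theorem LocNorm.le_of_compact {F : ℂ → ℝ} {W : Set ℂ} (hW : IsOpen W) (hF : LocNorm F W) {M : ℝ}
    (hb : ∀ ε, 0 < ε → ∃ L, IsCompact L ∧ L ⊆ W ∧ ∀ z ∈ W, z ∉ L → F z ≤ M + ε) :
    ∀ z ∈ W, F z ≤ M := by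
  intro z₀ hz₀
  by_contra hlt
  push Not at hlt
  obtain ⟨L, hL, hLW, hout⟩ := hb ((F z₀ - M) / 2) (by linarith)
  have hz₀L : z₀ ∈ L := by
    by_contra h
    have := hout z₀ hz₀ h
    linarith
  have hc : ContinuousOn F L := fun z hz => (hF.continuousAt (hLW hz)).continuousWithinAt
  obtain ⟨p, hp, hmax⟩ := hL.exists_isMaxOn ⟨z₀, hz₀L⟩ hc
  have hall : ∀ z ∈ W, F z ≤ F p := by
    intro z hz
    by_cases h : z ∈ L
    · exact hmax h
    · have h1 := hout z hz h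
      have h2 : F z₀ ≤ F p := hmax hz₀L
      linarith
  set S := L ∩ F ⁻¹' {F p} with hS
  have hSc : IsClosed S := hc.preimage_isClosed_of_isClosed hL.isClosed isClosed_singleton
  have hSo : IsOpen S := by
    rw [isOpen_iff_mem_nhds]
    intro z hz
    have hzW := hLW hz.1
    have hz2 : F z = F p := hz.2
    have h1 : ∀ᶠ w in 𝓝 z, F w ≤ F z := by
      filter_upwards [hW.mem_nhds hzW] with w hw
      rw [hz2]; exact hall w hw
    filter_upwards [hF.eventually_eq hzW h1, hW.mem_nhds hzW] with w hw hwW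
    refine ⟨?_, by simpa [hz2] using hw⟩
    by_contra h
    have h1 := hout w hwW h
    have h2 : F z₀ ≤ F p := hmax hz₀L
    linarith
  have huniv : S = univ := (isClopen_iff.1 ⟨hSc, hSo⟩).resolve_left
    (Set.nonempty_iff_ne_empty.1 ⟨p, hp, rfl⟩)
  have : IsCompact (univ : Set ℂ) := by
    rw [← huniv]; exact hL.of_isClosed_subset hSc inter_subset_left
  exact noncompact_univ ℂ this

/-- strong maximum principle -/
theorem LocNorm.eq_of_max {F : ℂ → ℝ} {W : Set ℂ} (hW : IsOpen W) (hc : IsPreconnected W)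
    (hF : LocNorm F W) {p : ℂ} (hp : p ∈ W) (hmax : ∀ z ∈ W, F z ≤ F p) :
    ∀ z ∈ W, F z = F p := by
  have h1 : IsOpen {z | z ∈ W ∧ F z = F p} := by
    rw [isOpen_iff_mem_nhds]
    intro z hz
    have h1 : ∀ᶠ w in 𝓝 z, F w ≤ F z := by
      filter_upwards [hW.mem_nhds hz.1] with w hw
      rw [hz.2]; exact hmax w hw
    filter_upwards [hF.eventually_eq hz.1 h1, hW.mem_nhds hz.1] with w hw hwW
    exact ⟨hwW, hw.trans hz.2⟩
  have h2 : IsOpen {z | z ∈ W ∧ F z ≠ F p} := by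
    rw [isOpen_iff_mem_nhds]
    intro z hz
    filter_upwards [(hF.continuousAt hz.1).eventually_ne hz.2, hW.mem_nhds hz.1] with w hw hwW
    exact ⟨hwW, hw⟩
  intro z hz
  by_contra hne
  obtain ⟨w, -, hw1, hw2⟩ := hc _ _ h1 h2 (fun w hw => by
    by_cases h : F w = F p
    · exact Or.inl ⟨hw, h⟩
    · exact Or.inr ⟨hw, h⟩) ⟨p, hp, hp, rfl⟩ ⟨z, hz, hz, hne⟩
  exact hw2.2 hw1.2

/-- An exhaustion function of condenser type. -/
structure Exh (D : Set ℂ) (Φ : ℂ → ℝ) : Prop where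
  isOpen : IsOpen D
  cont : ContinuousOn Φ D
  nonneg : ∀ z ∈ D, 0 ≤ Φ z
  lt_one : ∀ z ∈ D, Φ z < 1
  harm : ∀ z ∈ D, 0 < Φ z → HarmonicAt Φ z
  cpt : ∀ α : ℝ, α < 1 → IsCompact {z | z ∈ D ∧ Φ z ≤ α}

lemma Exh.isOpen_lt {D : Set ℂ} {Φ : ℂ → ℝ} (h : Exh D Φ) (γ : ℝ) :
    IsOpen {z | z ∈ D ∧ Φ z < γ} :=
  h.cont.isOpen_inter_preimage h.isOpen isOpen_Iio

lemma Exh.isOpen_gt {D : Set ℂ} {Φ : ℂ → ℝ} (h : Exh D Φ) (γ : ℝ) :
    IsOpen {z | z ∈ D ∧ γ < Φ z} :=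
  h.cont.isOpen_inter_preimage h.isOpen isOpen_Ioi

lemma Exh.exists_lt_one {D : Set ℂ} {Φ : ℂ → ℝ} (h : Exh D Φ) {L : Set ℂ} (hL : IsCompact L)
    (hLD : L ⊆ D) {γ : ℝ} (hγ : ∀ z ∈ L, Φ z < γ) (h0 : 0 < γ) :
    ∃ β, 0 < β ∧ β < γ ∧ ∀ z ∈ L, Φ z < β := by
  rcases L.eq_empty_or_nonempty with rfl | hne
  · exact ⟨γ / 2, by linarith, by linarith, by simp⟩
  obtain ⟨p, hp, hmax⟩ := hL.exists_isMaxOn hne (h.cont.mono hLD)
  have h1 := hγ p hp
  have h2 := h.nonneg p (hLD hp)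
  refine ⟨(Φ p + γ) / 2, by linarith, by linarith, fun z hz => ?_⟩
  have : Φ z ≤ Φ p := hmax hz
  linarith

/-- two-constants theorem -/
theorem Exh.two_const {D : Set ℂ} {Φ : ℂ → ℝ} (h : Exh D Φ) {γ : ℝ} (h0 : 0 < γ) (h1 : γ ≤ 1)
    {f : ℂ → ℂ} (hf : AnalyticOnNhd ℂ f {z | z ∈ D ∧ Φ z < γ}) {A t : ℝ} (ht : 0 ≤ t) (hA : 0 ≤ A)
    (hK : ∀ z ∈ D, Φ z = 0 → ‖f z‖ ≤ A)
    (hU : ∀ z ∈ D, Φ z < γ → ‖f z‖ ≤ A * Real.exp t) :
    ∀ z ∈ D, Φ z < γ → ‖f z‖ ≤ A * Real.exp (t * Φ z / γ) := by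
  set W := {z | z ∈ D ∧ 0 < Φ z} ∩ {z | z ∈ D ∧ Φ z < γ} with hWdef
  have hWo : IsOpen W := (h.isOpen_gt 0).inter (h.isOpen_lt γ)
  have hloc : LocNorm (fun w => ‖f w‖ * Real.exp ((-t / γ) * Φ w)) W :=
    locNorm_mul_exp (hf.mono inter_subset_right) (fun z hz => h.harm z hz.1.1 hz.1.2) _
  have key := hloc.le_of_compact hWo (M := A) (by
    intro ε hε
    have hcont : ContinuousAt (fun δ : ℝ => A * Real.exp (t * δ / γ)) 0 := by fun_prop
    have hev : ∀ᶠ δ in 𝓝 (0 : ℝ), A * Real.exp (t * δ / γ) < A + ε :=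
      hcont.eventually_lt continuousAt_const (by simpa using hε)
    obtain ⟨δ, hδ1, hδ2⟩ := ((hev.filter_mono nhdsWithin_le_nhds).and
      (self_mem_nhdsWithin (s := Ioi (0 : ℝ)) (a := 0))).exists
    have hδ : 0 < δ := hδ2
    set L₀ := {z | z ∈ D ∧ Φ z ≤ γ - δ}
    have hL₀ : IsCompact L₀ := h.cpt _ (by linarith)
    have hL₀U : L₀ ⊆ {z | z ∈ D ∧ Φ z < γ} := fun z hz => ⟨hz.1, by linarith [hz.2]⟩
    have hfc : ContinuousOn (fun z => ‖f z‖) L₀ := (hf.continuousOn.mono hL₀U).norm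
    refine ⟨L₀ ∩ (fun z => ‖f z‖) ⁻¹' Ici (A + ε), hL₀.of_isClosed_subset
      (hfc.preimage_isClosed_of_isClosed hL₀.isClosed isClosed_Ici) inter_subset_left, ?_, ?_⟩
    · intro z hz
      refine ⟨⟨hz.1.1, ?_⟩, hL₀U hz.1⟩
      rcases (h.nonneg z hz.1.1).lt_or_eq with h2 | h2
      · exact h2
      · have h3 := hK z hz.1.1 h2.symm
        have h4 : A + ε ≤ ‖f z‖ := hz.2
        linarith
    · intro z hz hzL
      by_cases hz0 : z ∈ L₀
      · have h3 : ‖f z‖ < A + ε := by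
          by_contra h4
          exact hzL ⟨hz0, not_lt.1 h4⟩
        have h5 : Real.exp (-t / γ * Φ z) ≤ 1 := by
          rw [Real.exp_le_one_iff]
          have := hz.1.2
          have : 0 ≤ t / γ * Φ z := by positivity
          rw [neg_div]; linarith
        calc ‖f z‖ * Real.exp (-t / γ * Φ z) ≤ ‖f z‖ * 1 := by gcongr
          _ ≤ A + ε := by linarith
      · have h3 : γ - δ < Φ z := by
          by_contra h4
          exact hz0 ⟨hz.1.1, not_lt.1 h4⟩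
        calc ‖f z‖ * Real.exp (-t / γ * Φ z)
            ≤ (A * Real.exp t) * Real.exp (-t / γ * Φ z) := by
              gcongr; exact hU z hz.1.1 hz.2.2
          _ = A * Real.exp (t * (γ - Φ z) / γ) := by
              rw [mul_assoc, ← Real.exp_add]; congr 2; field_simp; ring
          _ ≤ A * Real.exp (t * δ / γ) := by gcongr; linarith
          _ ≤ A + ε := hδ1.le)
  intro z hz hzγ
  rcases (h.nonneg z hz).lt_or_eq with h2 | h2
  · have h3 := key z ⟨⟨hz, h2⟩, hz, hzγ⟩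
    calc ‖f z‖ = ‖f z‖ * Real.exp (-t / γ * Φ z) * Real.exp (t * Φ z / γ) := by
          rw [mul_assoc, ← Real.exp_add]
          have : -t / γ * Φ z + t * Φ z / γ = 0 := by ring
          rw [this, Real.exp_zero, mul_one]
      _ ≤ A * Real.exp (t * Φ z / γ) := by gcongr
  · rw [← h2]; simpa using hK z hz h2.symm

/-- additive form of the two-constants theorem -/
theorem Exh.two_const_add {D : Set ℂ} {Φ : ℂ → ℝ} (h : Exh D Φ) {γ : ℝ} (h0 : 0 < γ) (h1 : γ ≤ 1)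
    {f : ℂ → ℂ} (hf : AnalyticOnNhd ℂ f {z | z ∈ D ∧ Φ z < γ}) {A B t θ : ℝ} (ht : 0 ≤ t)
    (hA : 0 ≤ A) (hB : 0 ≤ B) (hK : ∀ z ∈ D, Φ z = 0 → ‖f z‖ ≤ A)
    (hU : ∀ z ∈ D, Φ z < γ → ‖f z‖ ≤ B) {z : ℂ} (hz : z ∈ D) (hzγ : Φ z < γ)
    (hθ : Φ z ≤ θ * γ) :
    ‖f z‖ ≤ Real.exp (θ * t) * A + Real.exp (-((1 - θ) * t)) * B := by
  have e1 : Real.exp (-t) * Real.exp t = 1 := by rw [← Real.exp_add]; simp
  have := h.two_const h0 h1 hf ht (A := A + Real.exp (-t) * B) (by positivity)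
    (fun w hw h2 => (hK w hw h2).trans (le_add_of_nonneg_right (by positivity)))
    (fun w hw h2 => (hU w hw h2).trans (by
      have : (A + Real.exp (-t) * B) * Real.exp t = A * Real.exp t + B := by
        rw [add_mul, mul_right_comm, e1, one_mul]
      rw [this]; exact le_add_of_nonneg_left (by positivity))) z hz hzγ
  refine this.trans ?_
  have h2 : t * Φ z / γ ≤ θ * t := by
    rw [div_le_iff₀ h0]; nlinarith
  calc (A + Real.exp (-t) * B) * Real.exp (t * Φ z / γ)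
      ≤ (A + Real.exp (-t) * B) * Real.exp (θ * t) := by gcongr
    _ = Real.exp (θ * t) * A + Real.exp (-((1 - θ) * t)) * B := by
      have : Real.exp (-((1 - θ) * t)) = Real.exp (-t) * Real.exp (θ * t) := by
        rw [← Real.exp_add]; congr 1; ring
      rw [this]; ring

/-- uniqueness: an analytic function vanishing on the zero set of `Φ` vanishes on the level
domain -/
theorem Exh.eq_zero {D : Set ℂ} {Φ : ℂ → ℝ} (h : Exh D Φ) {γ : ℝ} (h1 : γ ≤ 1)
    {f : ℂ → ℂ} (hf : AnalyticOnNhd ℂ f {z | z ∈ D ∧ Φ z < γ})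
    (hK : ∀ z ∈ D, Φ z = 0 → f z = 0) : ∀ z ∈ D, Φ z < γ → f z = 0 := by
  intro z hz hzγ
  have hz0 := h.nonneg z hz
  set β := (Φ z + γ) / 2 with hβ
  have hβ0 : 0 < β := by linarith
  have hL := h.cpt β (by linarith)
  have hsub : {w | w ∈ D ∧ Φ w ≤ β} ⊆ {z | z ∈ D ∧ Φ z < γ} := fun w hw =>
    ⟨hw.1, by linarith [hw.2]⟩
  obtain ⟨B, hB⟩ := hL.exists_bound_of_continuousOn (hf.continuousOn.mono hsub)
  have hB0 : 0 ≤ B := (norm_nonneg _).trans (hB z ⟨hz, by linarith⟩)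
  have hθ : Φ z / β < 1 := by rw [div_lt_one hβ0]; linarith
  have key : ∀ t : ℝ, 0 ≤ t → ‖f z‖ ≤ Real.exp (-((1 - Φ z / β) * t)) * B := by
    intro t ht
    have := h.two_const_add hβ0 (by linarith) (hf.mono fun w hw => hsub ⟨hw.1, hw.2.le⟩) ht
      le_rfl hB0 (θ := Φ z / β) (fun w hw h2 => by rw [hK w hw h2]; simp)
      (fun w hw h2 => hB w ⟨hw, h2.le⟩) hz (by linarith) (by field_simp; exact le_rfl)
    simpa using this
  have hlim : Tendsto (fun t : ℝ => Real.exp (-((1 - Φ z / β) * t)) * B) atTop (𝓝 (0 * B)) := by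
    refine Tendsto.mul_const _ (Real.tendsto_exp_atBot.comp ?_)
    exact tendsto_neg_atTop_atBot.comp (tendsto_id.const_mul_atTop (by linarith))
  have := ge_of_tendsto hlim ((eventually_ge_atTop 0).mono key)
  simpa using this

end Pool.Agent.MP_13a571_an

end MrgPart2

-- ======== part 3: formerly Pool.Agent.MP_13a571_an.Cond
section MrgPart3

/-!
Exhaustion functions attached to a condenser and to a Green function.
-/

open Set Filter Topology InnerProductSpace Metric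

namespace Pool.Agent.MP_13a571_an

lemma BdryLim.exists_compact {D G : Set ℂ} {u : ℂ → ℝ} {c : ℝ} (h : BdryLim D G u c)
    (hD : IsOpen D) (hG : G ⊆ D) {ε : ℝ} (hε : 0 < ε) :
    ∃ L, IsCompact L ∧ L ⊆ D ∧ ∀ z ∈ G, z ∉ L → |u z - c| < ε := by
  have h2 := (Metric.tendsto_nhds.1 h.2) ε hε
  rw [eventually_inf_principal, hasBasis_cocompact.eventually_iff] at h2
  obtain ⟨Q, hQ, hQ2⟩ := h2
  set A := {z | z ∈ G ∧ ε ≤ |u z - c|}
  have hAQ : A ⊆ Q := by
    intro z hz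
    by_contra h3
    have := hQ2 h3 hz.1
    rw [Real.dist_eq] at this
    linarith [hz.2]
  refine ⟨closure A, hQ.of_isClosed_subset isClosed_closure (closure_minimal hAQ hQ.isClosed), ?_,
    fun z hz hzL => ?_⟩
  · intro ζ hζ
    by_contra hζD
    have hfr : ζ ∈ frontier D := by
      rw [hD.frontier_eq]
      exact ⟨closure_mono (fun z hz => hG hz.1) hζ, hζD⟩
    have h3 := (Metric.tendsto_nhds.1 (h.1 ζ hfr)) ε hε
    have h4 : (𝓝[A] ζ).NeBot := mem_closure_iff_nhdsWithin_neBot.1 hζ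
    have h5 : 𝓝[A] ζ ≤ 𝓝[G] ζ := nhdsWithin_mono _ fun z hz => hz.1
    obtain ⟨z, hz1, hz2⟩ := ((h3.filter_mono h5).and (self_mem_nhdsWithin (s := A) (a := ζ))).exists
    rw [Real.dist_eq] at hz1
    linarith [hz2.2]
  · by_contra h3
    exact hzL (subset_closure ⟨hz, not_lt.1 h3⟩)

lemma exists_mem_not_mem {D L : Set ℂ} (hD : IsOpen D) (hne : D.Nonempty) (hL : IsCompact L)
    (hLD : L ⊆ D) : ∃ z ∈ D, z ∉ L := by
  by_contra h
  push Not at h
  have e : D = L := Subset.antisymm h hLD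
  have : D = univ := (isClopen_iff.1 ⟨e ▸ hL.isClosed, hD⟩).resolve_left
    (Set.nonempty_iff_ne_empty.1 hne)
  exact noncompact_univ ℂ (this ▸ e ▸ hL)

open Classical in
/-- the harmonic measure extended by zero to `K` -/
noncomputable def ext (K : Set ℂ) (ω : ℂ → ℝ) (z : ℂ) : ℝ := if z ∈ K then 0 else ω z

lemma ext_of_mem {K : Set ℂ} {ω : ℂ → ℝ} {z : ℂ} (h : z ∈ K) : ext K ω z = 0 := by simp [ext, h]

lemma ext_of_not_mem {K : Set ℂ} {ω : ℂ → ℝ} {z : ℂ} (h : z ∉ K) : ext K ω z = ω z := by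
  simp [ext, h]

namespace Condenser

variable {D K : Set ℂ} {ω : ℂ → ℝ}

lemma isOpen_diff (h : Condenser D K ω) : IsOpen (D \ K) := h.isOpen.sdiff h.compact.isClosed

lemma ext_eventuallyEq (h : Condenser D K ω) {z : ℂ} (hz : z ∈ D \ K) : ext K ω =ᶠ[𝓝 z] ω := by
  filter_upwards [h.isOpen_diff.mem_nhds hz] with w hw using ext_of_not_mem hw.2

lemma continuousOn_ext (h : Condenser D K ω) : ContinuousOn (ext K ω) D := by
  intro z hz
  by_cases hzK : z ∈ K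
  · rw [ContinuousWithinAt, ext_of_mem hzK]
    have e : D = (D \ K) ∪ K := by rw [sdiff_union_of_subset h.subset]
    rw [e, nhdsWithin_union, tendsto_sup]
    constructor
    · by_cases hfr : z ∈ frontier K
      · refine (h.lim_inner z hfr).congr' ?_
        filter_upwards [self_mem_nhdsWithin] with w hw using (ext_of_not_mem hw.2).symm
      · have hint : z ∈ interior K := by
          rw [h.compact.isClosed.frontier_eq] at hfr
          by_contra h3
          exact hfr ⟨hzK, h3⟩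
        refine tendsto_const_nhds.congr' ?_
        filter_upwards [mem_nhdsWithin_of_mem_nhds (mem_interior_iff_mem_nhds.1 hint)] with w hw
          using (ext_of_mem hw).symm
    · refine tendsto_const_nhds.congr' ?_
      filter_upwards [self_mem_nhdsWithin] with w hw using (ext_of_mem hw).symm
  · exact (((h.harmonic z ⟨hz, hzK⟩).1.continuousAt).congr
      (h.ext_eventuallyEq ⟨hz, hzK⟩).symm).continuousWithinAt

lemma exists_compact (h : Condenser D K ω) {ε : ℝ} (hε : 0 < ε) :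
    ∃ L, IsCompact L ∧ L ⊆ D ∧ K ⊆ L ∧ ∀ z ∈ D, z ∉ L → |ext K ω z - 1| < ε := by
  obtain ⟨L, hL, hLD, hout⟩ := h.lim_outer.exists_compact h.isOpen sdiff_subset hε
  refine ⟨L ∪ K, hL.union h.compact, union_subset hLD h.subset, subset_union_right, ?_⟩
  intro z hz hzL
  rw [mem_union, not_or] at hzL
  rw [ext_of_not_mem hzL.2]
  exact hout z ⟨hz, hzL.2⟩ hzL.1

lemma isCompact_of_closed (h : Condenser D K ω) {T : Set ℝ} (hT : IsClosed T) (h1 : (1 : ℝ) ∉ T) :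
    IsCompact {z | z ∈ D ∧ ext K ω z ∈ T} := by
  obtain ⟨ε, hε, hb⟩ := Metric.isOpen_iff.1 hT.isOpen_compl 1 h1
  obtain ⟨L, hL, hLD, -, hout⟩ := h.exists_compact hε
  have e : {z | z ∈ D ∧ ext K ω z ∈ T} = L ∩ ext K ω ⁻¹' T := by
    ext z
    constructor
    · intro hz
      refine ⟨?_, hz.2⟩
      by_contra h3
      exact hb (by rw [mem_ball, Real.dist_eq]; exact hout z hz.1 h3) hz.2
    · exact fun hz => ⟨hLD hz.1, hz.2⟩
  rw [e]
  exact hL.of_isClosed_subset ((h.continuousOn_ext.mono hLD).preimage_isClosed_of_isClosed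
    hL.isClosed hT) inter_subset_left

lemma locNorm_exp (h : Condenser D K ω) (c : ℝ) :
    LocNorm (fun z => Real.exp (c * ω z)) (D \ K) := by
  have := locNorm_mul_exp (f := fun _ => (1 : ℂ)) analyticOnNhd_const h.harmonic c
  simpa using this

lemma nonneg (h : Condenser D K ω) : ∀ z ∈ D \ K, 0 ≤ ω z := by
  have key := (h.locNorm_exp (-1)).le_of_compact h.isOpen_diff (M := 1) (by
    intro ε hε
    have hl : 0 < Real.log (1 + ε) := Real.log_pos (by linarith)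
    refine ⟨_, h.isCompact_of_closed (T := Iic (-Real.log (1 + ε))) isClosed_Iic
      (by simp only [mem_Iic, not_le]; linarith), ?_, ?_⟩
    · intro z hz
      refine ⟨hz.1, fun hzK => ?_⟩
      have := hz.2
      rw [ext_of_mem hzK, mem_Iic] at this
      linarith
    · intro z hz hzL
      have h3 : -Real.log (1 + ε) < ω z := by
        by_contra h4
        exact hzL ⟨hz.1, by rw [ext_of_not_mem hz.2]; exact not_lt.1 h4⟩
      calc Real.exp (-1 * ω z) ≤ Real.exp (Real.log (1 + ε)) := by gcongr; linarith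
        _ = 1 + ε := Real.exp_log (by linarith))
  intro z hz
  have := key z hz
  rw [Real.exp_le_one_iff] at this
  linarith

lemma le_one (h : Condenser D K ω) : ∀ z ∈ D \ K, ω z ≤ 1 := by
  have key := (h.locNorm_exp 1).le_of_compact h.isOpen_diff (M := Real.exp 1) (by
    intro ε hε
    have he := Real.exp_pos 1
    have hl : 1 < Real.log (Real.exp 1 + ε) := by
      rw [Real.lt_log_iff_exp_lt (by linarith)]; linarith
    refine ⟨_, h.isCompact_of_closed (T := Ici (Real.log (Real.exp 1 + ε))) isClosed_Ici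
      (by simp only [mem_Ici, not_le]; linarith), ?_, ?_⟩
    · intro z hz
      refine ⟨hz.1, fun hzK => ?_⟩
      have := hz.2
      rw [ext_of_mem hzK, mem_Ici] at this
      linarith
    · intro z hz hzL
      have h3 : ω z < Real.log (Real.exp 1 + ε) := by
        by_contra h4
        exact hzL ⟨hz.1, by rw [ext_of_not_mem hz.2]; exact not_lt.1 h4⟩
      calc Real.exp (1 * ω z) ≤ Real.exp (Real.log (Real.exp 1 + ε)) := by gcongr; linarith
        _ = Real.exp 1 + ε := Real.exp_log (by linarith))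
  intro z hz
  have := key z hz
  rw [Real.exp_le_exp] at this
  linarith

lemma not_const (h : Condenser D K ω) (c : ℝ) : ¬ ∀ z ∈ D \ K, ω z = c := by
  intro hc
  obtain ⟨L, hL, hLD, hKL, hout⟩ := h.exists_compact (ε := 1 / 2) (by norm_num)
  obtain ⟨z, hz, hzL⟩ := exists_mem_not_mem h.isOpen h.conn.nonempty hL hLD
  have hzK : z ∉ K := fun h3 => hzL (hKL h3)
  have h1 := hout z hz hzL
  rw [ext_of_not_mem hzK, hc z ⟨hz, hzK⟩, abs_lt] at h1
  have hKu : K ≠ univ := fun e => noncompact_univ ℂ (e ▸ h.compact)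
  obtain ⟨ζ, hζ⟩ := (nonempty_frontier_iff (s := K)).2 ⟨h.nonempty, hKu⟩
  have hζK : ζ ∈ K := h.compact.isClosed.frontier_subset hζ
  have h4 : (𝓝[D \ K] ζ).NeBot := by
    rw [← mem_closure_iff_nhdsWithin_neBot, Set.sdiff_eq, inter_comm]
    have : ζ ∈ closure Kᶜ := by rw [frontier_eq_closure_inter_closure] at hζ; exact hζ.2
    exact h.isOpen.closure_inter ⟨this, h.subset hζK⟩
  have h5 : Tendsto ω (𝓝[D \ K] ζ) (𝓝 c) := by
    refine tendsto_const_nhds.congr' ?_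
    filter_upwards [self_mem_nhdsWithin] with w hw using (hc w hw).symm
  have := tendsto_nhds_unique h5 (h.lim_inner ζ hζ)
  linarith [h1.1]

lemma not_locally_const (h : Condenser D K ω) {z : ℂ} (hz : z ∈ D \ K) :
    ¬ ∀ᶠ w in 𝓝 z, ω w = ω z := by
  intro he
  have han : AnalyticOnNhd ℝ ω (D \ K) := fun w hw => HarmonicAt.analyticAt (h.harmonic w hw)
  exact h.not_const (ω z) (han.eqOn_of_preconnected_of_eventuallyEq analyticOnNhd_const
    h.conn_diff.isPreconnected hz he)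

lemma not_local_min (h : Condenser D K ω) {z : ℂ} (hz : z ∈ D \ K) :
    ¬ ∀ᶠ w in 𝓝 z, ω z ≤ ω w := by
  intro he
  apply h.not_locally_const hz
  have := (h.locNorm_exp (-1)).eventually_eq hz (by
    filter_upwards [he] with w hw
    exact Real.exp_le_exp.2 (by linarith))
  filter_upwards [this] with w hw
  have := Real.exp_injective hw
  linarith

lemma not_local_max (h : Condenser D K ω) {z : ℂ} (hz : z ∈ D \ K) :
    ¬ ∀ᶠ w in 𝓝 z, ω w ≤ ω z := by
  intro he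
  apply h.not_locally_const hz
  have := (h.locNorm_exp 1).eventually_eq hz (by
    filter_upwards [he] with w hw
    gcongr)
  filter_upwards [this] with w hw
  have := Real.exp_injective hw
  linarith

lemma pos (h : Condenser D K ω) : ∀ z ∈ D \ K, 0 < ω z := by
  intro z hz
  rcases (h.nonneg z hz).lt_or_eq with h1 | h1
  · exact h1
  · exfalso
    apply h.not_local_min hz
    filter_upwards [h.isOpen_diff.mem_nhds hz] with w hw
    rw [← h1]; exact h.nonneg w hw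

lemma lt_one (h : Condenser D K ω) : ∀ z ∈ D \ K, ω z < 1 := by
  intro z hz
  rcases (h.le_one z hz).lt_or_eq with h1 | h1
  · exact h1
  · exfalso
    apply h.not_local_max hz
    filter_upwards [h.isOpen_diff.mem_nhds hz] with w hw
    rw [h1]; exact h.le_one w hw

lemma ext_eq_zero_iff (h : Condenser D K ω) {z : ℂ} (hz : z ∈ D) : ext K ω z = 0 ↔ z ∈ K := by
  refine ⟨fun h1 => ?_, ext_of_mem⟩
  by_contra h2
  rw [ext_of_not_mem h2] at h1
  exact (h.pos z ⟨hz, h2⟩).ne' h1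

theorem exh (h : Condenser D K ω) : Exh D (ext K ω) where
  isOpen := h.isOpen
  cont := h.continuousOn_ext
  nonneg := fun z hz => by
    by_cases h2 : z ∈ K
    · rw [ext_of_mem h2]
    · rw [ext_of_not_mem h2]; exact h.nonneg z ⟨hz, h2⟩
  lt_one := fun z hz => by
    by_cases h2 : z ∈ K
    · rw [ext_of_mem h2]; norm_num
    · rw [ext_of_not_mem h2]; exact h.lt_one z ⟨hz, h2⟩
  harm := fun z hz h1 => by
    have h2 : z ∉ K := fun h3 => by rw [ext_of_mem h3] at h1; exact lt_irrefl _ h1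
    exact (harmonicAt_congr_nhds (h.ext_eventuallyEq ⟨hz, h2⟩)).2 (h.harmonic z ⟨hz, h2⟩)
  cpt := fun α hα => h.isCompact_of_closed (T := Iic α) isClosed_Iic
    (by simp only [mem_Iic, not_le]; exact hα)

lemma dlev_eq (h : Condenser D K ω) {α : ℝ} (hα : 0 < α) :
    Dlev D K ω α = {z | z ∈ D ∧ ext K ω z < α} := by
  ext z
  by_cases hz : z ∈ K
  · simp [Dlev, hz, ext_of_mem hz, hα, h.subset hz]
  · simp [Dlev, hz, ext_of_not_mem hz]

lemma closure_lev (h : Condenser D K ω) {α : ℝ} (hα : 0 < α) (h1 : α < 1) :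
    closure {z | z ∈ D ∧ ext K ω z < α} = {z | z ∈ D ∧ ext K ω z ≤ α} := by
  apply Subset.antisymm
  · exact closure_minimal (fun z hz => ⟨hz.1, hz.2.le⟩) (h.exh.cpt α h1).isClosed
  · intro z hz
    rcases hz.2.lt_or_eq with h2 | h2
    · exact subset_closure ⟨hz.1, h2⟩
    by_contra h3
    have hzK : z ∉ K := fun h4 => by rw [ext_of_mem h4] at h2; linarith
    apply h.not_local_min ⟨hz.1, hzK⟩
    filter_upwards [isClosed_closure.isOpen_compl.mem_nhds h3,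
      h.isOpen_diff.mem_nhds ⟨hz.1, hzK⟩] with w hw hwG
    rw [← ext_of_not_mem (ω := ω) hzK, h2, ← ext_of_not_mem (ω := ω) hwG.2]
    by_contra h4
    exact hw (subset_closure ⟨hwG.1, not_le.1 h4⟩)

end Condenser

/-- an open set containing a closed level set contains a larger one -/
lemma Exh.exists_gt {D : Set ℂ} {Φ : ℂ → ℝ} (h : Exh D Φ) {α : ℝ} (h1 : α < 1) {V : Set ℂ}
    (hV : IsOpen V) (hsub : {z | z ∈ D ∧ Φ z ≤ α} ⊆ V) :
    ∃ β, α < β ∧ β < 1 ∧ {z | z ∈ D ∧ Φ z ≤ β} ⊆ V := by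
  set γ := (α + 1) / 2 with hγ
  have hQ : IsCompact ({z | z ∈ D ∧ Φ z ≤ γ} \ V) := (h.cpt γ (by linarith)).diff hV
  rcases ({z | z ∈ D ∧ Φ z ≤ γ} \ V).eq_empty_or_nonempty with he | hne
  · exact ⟨γ, by linarith, by linarith, Set.sdiff_eq_empty.1 he⟩
  obtain ⟨p, hp, hmin⟩ := hQ.exists_isMinOn hne (h.cont.mono fun z hz => hz.1.1)
  have hpα : α < Φ p := by
    by_contra h2
    exact hp.2 (hsub ⟨hp.1.1, not_lt.1 h2⟩)
  have hpγ := hp.1.2
  refine ⟨(α + Φ p) / 2, by linarith, by linarith, fun z hz => ?_⟩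
  by_contra h2
  have : Φ p ≤ Φ z := hmin ⟨⟨hz.1, by linarith [hz.2]⟩, h2⟩
  linarith [hz.2]

end Pool.Agent.MP_13a571_an

end MrgPart3

-- ======== part 4: formerly Pool.Agent.MP_13a571_an.Propag
section MrgPart4

/-!
Sharpness of the bound `|f| ≤ exp(t Φ)` spreads from one point to a whole domain of harmonicity.
-/

open Set Filter Topology InnerProductSpace Metric

namespace Pool.Agent.MP_13a571_an

/-- analytic functions with `|f| ≤ exp(t Φ)` -/
def Cls (D : Set ℂ) (Φ : ℂ → ℝ) (t : ℝ) (f : ℂ → ℂ) : Prop :=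
  AnalyticOnNhd ℂ f D ∧ ∀ w ∈ D, ‖f w‖ ≤ Real.exp (t * Φ w)

/-- the bound `|f| ≤ exp(t Φ)` is asymptotically attained at `z`, with `t ∈ P` -/
def Sharp (D : Set ℂ) (Φ : ℂ → ℝ) (P : Set ℝ) (z : ℂ) : Prop :=
  ∀ ε : ℝ, 0 < ε → ∃ t ∈ P, 0 < t ∧ ∃ f, Cls D Φ t f ∧ Real.exp (t * (Φ z - ε)) ≤ ‖f z‖

lemma analyticOnNhd_dslope {D : Set ℂ} (hD : IsOpen D) {f : ℂ → ℂ} (hf : AnalyticOnNhd ℂ f D)
    {a : ℂ} (ha : a ∈ D) : AnalyticOnNhd ℂ (dslope f a) D :=
  ((Complex.differentiableOn_dslope (hD.mem_nhds ha)).2 hf.differentiableOn).analyticOnNhd hD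

lemma norm_dslope_of_ne (f : ℂ → ℂ) {a w : ℂ} (h : w ≠ a) :
    ‖dslope f a w‖ = ‖f w - f a‖ / ‖w - a‖ := by
  rw [dslope_of_ne _ h, slope_def_field, norm_div]

lemma Cls.remove_zero {D : Set ℂ} (hD : IsOpen D) {Φ : ℂ → ℝ} {t : ℝ} {f : ℂ → ℂ}
    (hf : Cls D Φ t f) {z₀ a : ℂ} {R : ℝ} (hR : 0 < R) (hb : ball z₀ (2 * R) ⊆ D)
    (hΦ : ∀ w ∈ ball z₀ (2 * R), HarmonicAt Φ w) (ha : a ∈ ball z₀ (R / 2)) (h0 : f a = 0) :
    ∃ g, Cls D Φ t g ∧ 2 * ‖f z₀‖ ≤ ‖g z₀‖ := by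
  have haD : a ∈ D := hb (ball_subset_ball (by linarith) ha)
  have hg : AnalyticOnNhd ℂ (fun w => (R : ℂ) * dslope f a w) D :=
    analyticOnNhd_const.mul (analyticOnNhd_dslope hD hf.1 haD)
  have hnorm : ∀ w, w ≠ a → ‖(R : ℂ) * dslope f a w‖ = R * (‖f w‖ / ‖w - a‖) := by
    intro w hw
    rw [norm_mul, norm_dslope_of_ne f hw, h0, sub_zero, Complex.norm_real, Real.norm_eq_abs,
      abs_of_pos hR]
  have hfar : ∀ w ∈ D, w ∉ closedBall z₀ (3 * R / 2) →
      ‖(R : ℂ) * dslope f a w‖ ≤ Real.exp (t * Φ w) := by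
    intro w hw hw2
    rw [mem_closedBall, not_le] at hw2
    rw [mem_ball] at ha
    have h1 : R ≤ ‖w - a‖ := by
      have := dist_triangle w a z₀
      rw [← dist_eq_norm]; linarith
    have hne : w ≠ a := by
      intro e; rw [e, sub_self, norm_zero] at h1; linarith
    rw [hnorm w hne]
    calc R * (‖f w‖ / ‖w - a‖) ≤ R * (‖f w‖ / R) := by gcongr
      _ = ‖f w‖ := by field_simp
      _ ≤ _ := hf.2 w hw
  refine ⟨_, ⟨hg, fun w hw => ?_⟩, ?_⟩
  · by_cases hw2 : w ∈ ball z₀ (2 * R)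
    · have key := (locNorm_mul_exp (hg.mono hb) hΦ (-t)).le_of_compact isOpen_ball (M := 1) (by
        intro ε hε
        refine ⟨closedBall z₀ (3 * R / 2), isCompact_closedBall _ _,
          closedBall_subset_ball (by linarith), fun z hz hzL => ?_⟩
        calc ‖(R : ℂ) * dslope f a z‖ * Real.exp (-t * Φ z)
            ≤ Real.exp (t * Φ z) * Real.exp (-t * Φ z) := by gcongr; exact hfar z (hb hz) hzL
          _ = 1 := by rw [← Real.exp_add]; simp
          _ ≤ 1 + ε := by linarith) w hw2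
      calc ‖(R : ℂ) * dslope f a w‖
          = ‖(R : ℂ) * dslope f a w‖ * Real.exp (-t * Φ w) * Real.exp (t * Φ w) := by
            rw [mul_assoc, ← Real.exp_add]; simp
        _ ≤ 1 * Real.exp (t * Φ w) := by gcongr
        _ = _ := one_mul _
    · exact hfar w hw fun h => hw2 (closedBall_subset_ball (by linarith) h)
  · by_cases hz : z₀ = a
    · rw [hz, h0, norm_zero, mul_zero]; exact norm_nonneg _
    · rw [hnorm z₀ hz]
      have h1 : ‖z₀ - a‖ ≤ R / 2 := by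
        rw [← dist_eq_norm, dist_comm]; exact (mem_ball.1 ha).le
      have h2 : 0 < ‖z₀ - a‖ := norm_pos_iff.2 (sub_ne_zero.2 hz)
      calc 2 * ‖f z₀‖ = R * (‖f z₀‖ / (R / 2)) := by field_simp
        _ ≤ R * (‖f z₀‖ / ‖z₀ - a‖) := by gcongr

lemma Cls.exists_zero_free {D : Set ℂ} (hD : IsOpen D) {Φ : ℂ → ℝ} {t : ℝ} {f : ℂ → ℂ}
    (hf : Cls D Φ t f) {z₀ : ℂ} {R : ℝ} (hR : 0 < R) (hb : ball z₀ (2 * R) ⊆ D)
    (hΦ : ∀ w ∈ ball z₀ (2 * R), HarmonicAt Φ w) (h0 : f z₀ ≠ 0) :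
    ∃ g, Cls D Φ t g ∧ ‖f z₀‖ ≤ ‖g z₀‖ ∧ ∀ a ∈ ball z₀ (R / 2), g a ≠ 0 := by
  set S : Set ℝ := {r | ∃ g, Cls D Φ t g ∧ r = ‖g z₀‖}
  have hz₀ : z₀ ∈ D := hb (mem_ball_self (by linarith))
  have hbdd : BddAbove S := ⟨Real.exp (t * Φ z₀), by
    rintro r ⟨g, hg, rfl⟩; exact hg.2 z₀ hz₀⟩
  have hfS : ‖f z₀‖ ≤ sSup S := le_csSup hbdd ⟨f, hf, rfl⟩
  have hpos : 0 < ‖f z₀‖ := norm_pos_iff.2 h0
  have : ∃ g, Cls D Φ t g ∧ ‖f z₀‖ ≤ ‖g z₀‖ ∧ sSup S / 2 < ‖g z₀‖ := by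
    by_cases h1 : sSup S / 2 < ‖f z₀‖
    · exact ⟨f, hf, le_rfl, h1⟩
    · obtain ⟨r, ⟨g, hg, rfl⟩, h2⟩ := exists_lt_of_lt_csSup (s := S) ⟨_, f, hf, rfl⟩
        (show sSup S / 2 < sSup S by linarith)
      exact ⟨g, hg, by linarith, h2⟩
  obtain ⟨g, hg, h1, h2⟩ := this
  refine ⟨g, hg, h1, fun a ha h3 => ?_⟩
  obtain ⟨g', hg', h4⟩ := hg.remove_zero hD hR hb hΦ ha h3
  have : ‖g' z₀‖ ≤ sSup S := le_csSup hbdd ⟨g', hg', rfl⟩
  linarith

lemma harnack {u : ℂ → ℝ} {z₀ : ℂ} {ρ M : ℝ} (hρ : 0 < ρ) (hM : 0 < M)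
    (hu : HarmonicOnNhd u (ball z₀ ρ)) (h0 : ∀ w ∈ ball z₀ ρ, u w ≤ 0) (h1 : -M ≤ u z₀) :
    ∀ ζ ∈ ball z₀ (ρ / 2), -(5 * M) ≤ u ζ := by
  obtain ⟨p, hp, e⟩ := hu.exists_analyticOnNhd_ball_re_eq
  intro ζ hζ
  have hmem : ∀ w ∈ ball (0 : ℂ) ρ, z₀ + w ∈ ball z₀ ρ := fun w hw => by
    simpa [mem_ball, dist_eq_norm] using hw
  set q : ℂ → ℂ := fun w => p (z₀ + w) - (p z₀).im * Complex.I
  have hq : DifferentiableOn ℂ q (ball 0 ρ) := by
    intro w hw
    exact ((((hp _ (hmem w hw)).differentiableAt).comp w (by fun_prop)).sub_const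
      _).differentiableWithinAt
  have hre : ∀ w ∈ ball (0 : ℂ) ρ, (q w).re = u (z₀ + w) := fun w hw => by
    simpa [q] using e (hmem w hw)
  have hn : ‖ζ - z₀‖ < ρ / 2 := by rw [← dist_eq_norm]; exact hζ
  have hw : ζ - z₀ ∈ ball (0 : ℂ) ρ := by rw [mem_ball_zero_iff]; linarith
  have key := Complex.borelCaratheodory hM hq (fun w hw => by
    show (q w).re ≤ M
    rw [hre w hw]; linarith [h0 _ (hmem w hw)]) hρ hw
  have hq0 : ‖q 0‖ ≤ M := by
    have e1 : q 0 = (u z₀ : ℂ) := by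
      apply Complex.ext
      · simpa using hre 0 (mem_ball_self hρ)
      · simp [q]
    rw [e1, Complex.norm_real, Real.norm_eq_abs, abs_le]
    exact ⟨h1, by linarith [h0 z₀ (mem_ball_self hρ)]⟩
  have hpos : 0 < ρ - ‖ζ - z₀‖ := by linarith
  have hnn := norm_nonneg (ζ - z₀)
  have h2 : 2 * M * ‖ζ - z₀‖ / (ρ - ‖ζ - z₀‖) ≤ 2 * M := by
    rw [div_le_iff₀ hpos]; nlinarith
  have h3 : ‖q 0‖ * (ρ + ‖ζ - z₀‖) / (ρ - ‖ζ - z₀‖) ≤ 3 * M := by
    rw [div_le_iff₀ hpos]; nlinarith [norm_nonneg (q 0)]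
  have h4 := hre _ hw
  rw [add_sub_cancel] at h4
  have h5 := Complex.abs_re_le_norm (q (ζ - z₀))
  rw [h4, abs_le] at h5
  linarith [h5.1]

lemma Sharp.local {D : Set ℂ} (hD : IsOpen D) {Φ : ℂ → ℝ} {P : Set ℝ} {z₀ : ℂ} {R : ℝ}
    (hR : 0 < R) (hb : ball z₀ (2 * R) ⊆ D) (hΦ : ∀ w ∈ ball z₀ (2 * R), HarmonicAt Φ w)
    (h : Sharp D Φ P z₀) : ∀ ζ ∈ ball z₀ (R / 4), Sharp D Φ P ζ := by
  intro ζ hζ ε hε
  obtain ⟨t, htP, ht, f, hf, hfz⟩ := h (ε / 5) (by linarith)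
  have h0 : f z₀ ≠ 0 := norm_pos_iff.1 ((Real.exp_pos _).trans_le hfz)
  obtain ⟨g, hg, h1, h2⟩ := hf.exists_zero_free hD hR hb hΦ h0
  have hsub : ball z₀ (R / 2) ⊆ ball z₀ (2 * R) := ball_subset_ball (by linarith)
  have hu : HarmonicOnNhd (fun w => Real.log ‖g w‖ - t * Φ w) (ball z₀ (R / 2)) := by
    intro w hw
    exact ((hg.1 w (hb (hsub hw))).harmonicAt_log_norm (h2 w hw)).sub
      ((hΦ w (hsub hw)).const_smul (c := t))
  have key := harnack (M := t * (ε / 5)) (by linarith) (by positivity) hu (fun w hw => by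
    have h3 := hg.2 w (hb (hsub hw))
    have h4 : Real.log ‖g w‖ ≤ t * Φ w :=
      (Real.log_le_iff_le_exp (norm_pos_iff.2 (h2 w hw))).2 h3
    linarith) (by
    have h4 : t * (Φ z₀ - ε / 5) ≤ Real.log ‖g z₀‖ :=
      (Real.le_log_iff_exp_le (norm_pos_iff.2 (h2 z₀ (mem_ball_self (by linarith))))).2
        (hfz.trans h1)
    linarith) ζ (by rwa [show R / 2 / 2 = R / 4 by ring])
  refine ⟨t, htP, ht, g, hg, ?_⟩
  rw [← Real.le_log_iff_exp_le (norm_pos_iff.2 (h2 ζ (ball_subset_ball (by linarith) hζ)))]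
  linarith

theorem Sharp.spread {D G : Set ℂ} (hD : IsOpen D) (hG : IsOpen G) (hc : IsPreconnected G)
    (hGD : G ⊆ D) {Φ : ℂ → ℝ} (hΦ : ∀ w ∈ G, HarmonicAt Φ w) {P : Set ℝ} {z₀ : ℂ} (hz₀ : z₀ ∈ G)
    (h : Sharp D Φ P z₀) : ∀ z ∈ G, Sharp D Φ P z := by
  have h1 : IsOpen {z | z ∈ G ∧ Sharp D Φ P z} := by
    rw [isOpen_iff_mem_nhds]
    intro z hz
    obtain ⟨r, hr, hb⟩ := Metric.isOpen_iff.1 hG z hz.1
    have hb' : ball z (2 * (r / 2)) ⊆ G := by rwa [show 2 * (r / 2) = r by ring]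
    filter_upwards [ball_mem_nhds z (show 0 < r / 2 / 4 by linarith)] with w hw
    exact ⟨hb (ball_subset_ball (by linarith) hw),
      hz.2.local hD (by linarith) (hb'.trans hGD) (fun w hw => hΦ w (hb' hw)) w hw⟩
  have h2 : IsOpen {z | z ∈ G ∧ ¬ Sharp D Φ P z} := by
    rw [isOpen_iff_mem_nhds]
    intro z hz
    obtain ⟨r, hr, hb⟩ := Metric.isOpen_iff.1 hG z hz.1
    filter_upwards [ball_mem_nhds z (show 0 < r / 3 / 4 by linarith)] with w hw
    refine ⟨hb (ball_subset_ball (by linarith) hw), fun hs => hz.2 ?_⟩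
    have hb' : ball w (2 * (r / 3)) ⊆ G := by
      refine Subset.trans (ball_subset_ball' ?_) hb
      have := mem_ball.1 hw
      linarith
    exact hs.local hD (by linarith) (hb'.trans hGD) (fun w hw => hΦ w (hb' hw)) z
      (by rw [mem_ball, dist_comm]; exact hw)
  intro z hz
  by_contra hne
  obtain ⟨w, -, hw1, hw2⟩ := hc _ _ h1 h2 (fun w hw => by
    by_cases h : Sharp D Φ P w
    · exact Or.inl ⟨hw, h⟩
    · exact Or.inr ⟨hw, h⟩) ⟨z₀, hz₀, hz₀, h⟩ ⟨z, hz, hz, hne⟩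
  exact hw2.2 hw1.2

end Pool.Agent.MP_13a571_an

end MrgPart4

-- ======== part 5: formerly Pool.Agent.MP_13a571_an.Approx
section MrgPart5

/-!
Approximation with geometric rate by bounded analytic functions.
-/

open MeasureTheory Set Filter Topology Metric

namespace Pool.Agent.MP_13a571_an

lemma norm_dslope_le {D : Set ℂ} (hD : IsOpen D) {f : ℂ → ℂ} (hf : AnalyticOnNhd ℂ f D) {B δ : ℝ}
    (hB : ∀ z ∈ D, ‖f z‖ ≤ B) {ζ : ℂ} (hδ : 0 < δ) (hb : closedBall ζ δ ⊆ D) :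
    ∀ z ∈ D, ‖dslope f ζ z‖ ≤ 2 * B / δ := by
  have hζ : ζ ∈ D := hb (mem_closedBall_self hδ.le)
  have hfar : ∀ z ∈ D, z ∉ ball ζ δ → ‖dslope f ζ z‖ ≤ 2 * B / δ := by
    intro z hz hz2
    rw [mem_ball, not_lt, dist_eq_norm] at hz2
    have hne : z ≠ ζ := by
      intro e; rw [e, sub_self, norm_zero] at hz2; linarith
    rw [norm_dslope_of_ne f hne]
    have h1 : ‖f z - f ζ‖ ≤ 2 * B := (norm_sub_le _ _).trans (by linarith [hB z hz, hB ζ hζ])
    have h2 : 0 ≤ 2 * B := (norm_nonneg _).trans h1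
    gcongr
  intro z hz
  by_cases hz2 : z ∈ ball ζ δ
  · have hd : DiffContOnCl ℂ (dslope f ζ) (ball ζ δ) := by
      apply DifferentiableOn.diffContOnCl
      rw [closure_ball ζ hδ.ne']
      exact (analyticOnNhd_dslope hD hf hζ).differentiableOn.mono hb
    refine Complex.norm_le_of_forall_mem_frontier_norm_le isBounded_ball hd (fun w hw => ?_)
      (subset_closure hz2)
    rw [frontier_ball ζ hδ.ne'] at hw
    exact hfar w (hb (sphere_subset_closedBall hw)) (by simp [mem_sphere.1 hw])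
  · exact hfar z hz hz2

lemma Cls.pow {D : Set ℂ} {Φ : ℂ → ℝ} {t : ℝ} {f : ℂ → ℂ} (hf : Cls D Φ t f) (n : ℕ) :
    Cls D Φ (n * t) fun w => f w ^ n :=
  ⟨hf.1.fun_pow n, fun w hw => by
    rw [norm_pow, mul_assoc, Real.exp_nat_mul]
    gcongr; exact hf.2 w hw⟩

lemma Cls.mono {D : Set ℂ} {Φ : ℂ → ℝ} {t T : ℝ} {f : ℂ → ℂ} (hf : Cls D Φ t f)
    (h0 : ∀ z ∈ D, 0 ≤ Φ z) (h : t ≤ T) : Cls D Φ T f :=
  ⟨hf.1, fun w hw => (hf.2 w hw).trans (by have := h0 w hw; gcongr)⟩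

lemma uniform_sharp {D : Set ℂ} {Φ : ℂ → ℝ} (h : Exh D Φ)
    (hS : ∀ z ∈ D, 0 < Φ z → Sharp D Φ univ z) {α : ℝ} (h0 : 0 ≤ α) {Γ : Set ℂ}
    (hΓ : IsCompact Γ) (hΓD : ∀ ζ ∈ Γ, ζ ∈ D ∧ α < Φ ζ) :
    ∃ c : ℝ, 0 < c ∧ ∀ T : ℝ, 0 ≤ T → ∀ ζ ∈ Γ, ∃ f, Cls D Φ T f ∧
      c * Real.exp (α * T) ≤ ‖f ζ‖ := by
  refine hΓ.induction_on (p := fun s => ∃ c : ℝ, 0 < c ∧ ∀ T : ℝ, 0 ≤ T → ∀ ζ ∈ s,
    ∃ f, Cls D Φ T f ∧ c * Real.exp (α * T) ≤ ‖f ζ‖) ⟨1, one_pos, by simp⟩ ?_ ?_ ?_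
  · rintro s t hst ⟨c, hc, H⟩
    exact ⟨c, hc, fun T hT ζ hζ => H T hT ζ (hst hζ)⟩
  · rintro s t ⟨c, hc, H⟩ ⟨c', hc', H'⟩
    refine ⟨min c c', lt_min hc hc', fun T hT ζ hζ => ?_⟩
    rcases hζ with hζ | hζ
    · obtain ⟨f, h1, h2⟩ := H T hT ζ hζ
      exact ⟨f, h1, le_trans (by gcongr; exact min_le_left _ _) h2⟩
    · obtain ⟨f, h1, h2⟩ := H' T hT ζ hζ
      exact ⟨f, h1, le_trans (by gcongr; exact min_le_right _ _) h2⟩
  · intro ζ hζ
    obtain ⟨hζD, hζα⟩ := hΓD ζ hζ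
    obtain ⟨t, -, ht, f, hf, hfζ⟩ := hS ζ hζD (by linarith) ((Φ ζ - α) / 2) (by linarith)
    have h1 : Real.exp (t * α) < ‖f ζ‖ := lt_of_lt_of_le (by gcongr; linarith) hfζ
    have h2 : ∀ᶠ w in 𝓝 ζ, Real.exp (t * α) < ‖f w‖ :=
      continuousAt_const.eventually_lt (hf.1 ζ hζD).continuousAt.norm h1
    refine ⟨_, mem_nhdsWithin_of_mem_nhds h2, Real.exp (-(α * t)), Real.exp_pos _,
      fun T hT w hw => ⟨_, (hf.pow ⌊T / t⌋₊).mono h.nonneg ?_, ?_⟩⟩
    · rw [← le_div_iff₀ ht]; exact Nat.floor_le (by positivity)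
    · have h3 : T / t < ⌊T / t⌋₊ + 1 := Nat.lt_floor_add_one _
      rw [div_lt_iff₀ ht] at h3
      have h4 : Real.exp (t * α) ≤ ‖f w‖ := le_of_lt hw
      calc Real.exp (-(α * t)) * Real.exp (α * T) = Real.exp (α * (T - t)) := by
            rw [← Real.exp_add]; congr 1; ring
        _ ≤ Real.exp (⌊T / t⌋₊ * (t * α)) := by
            rw [Real.exp_le_exp]; nlinarith
        _ = Real.exp (t * α) ^ ⌊T / t⌋₊ := Real.exp_nat_mul _ _
        _ ≤ ‖f w‖ ^ ⌊T / t⌋₊ := by gcongr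
        _ = _ := (norm_pow _ _).symm

lemma continuousOn_kernel {E : Type} [NormedAddCommGroup E] {Λ Γ : Set ℂ} (hΓ : IsClosed Γ)
    {κ : ℂ → ℂ → E} (h0 : ∀ ζ, ζ ∉ Γ → ∀ z, κ ζ z = 0)
    (hc : ∀ ζ ∈ Γ, ∀ z ∈ Λ, ContinuousAt (fun p : ℂ × ℂ => κ p.1 p.2) (ζ, z)) :
    ContinuousOn (fun p : ℂ × ℂ => κ p.1 p.2) (univ ×ˢ Λ) := by
  rintro ⟨ζ, z⟩ hp
  by_cases hζ : ζ ∈ Γ
  · exact (hc ζ hζ z hp.2).continuousWithinAt
  · have : (fun p : ℂ × ℂ => κ p.1 p.2) =ᶠ[𝓝 (ζ, z)] fun _ => 0 := by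
      filter_upwards [continuous_fst.continuousAt.preimage_mem_nhds
        (hΓ.isOpen_compl.mem_nhds (show (ζ, z).1 ∈ Γᶜ from hζ))] with p hp using h0 _ hp _
    exact (continuousAt_const.congr this.symm).continuousWithinAt

lemma exists_dist_ge {Γ Λ : Set ℂ} (hΓ : IsCompact Γ) (hΛ : IsClosed Λ) (h : ∀ ζ ∈ Γ, ζ ∉ Λ) :
    ∃ d : ℝ, 0 < d ∧ ∀ ζ ∈ Γ, ∀ z ∈ Λ, d ≤ ‖ζ - z‖ := by
  obtain ⟨d, hd, hsub⟩ := hΓ.exists_thickening_subset_open hΛ.isOpen_compl h
  refine ⟨d, hd, fun ζ hζ z hz => ?_⟩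
  by_contra h2
  exact hsub (mem_thickening_iff.2 ⟨ζ, hζ, by
    rw [dist_comm, dist_eq_norm]; exact not_le.1 h2⟩) hz

theorem approx {D : Set ℂ} {Φ : ℂ → ℝ} (h : Exh D Φ)
    (hS : ∀ z ∈ D, 0 < Φ z → Sharp D Φ univ z) {α : ℝ} (h0 : 0 ≤ α) (hα : α < 1) {V : Set ℂ}
    (hV : IsOpen V) (hsub : {z | z ∈ D ∧ Φ z ≤ α} ⊆ V) :
    ∃ L, IsCompact L ∧ L ⊆ V ∧ L ⊆ D ∧ ∃ C : ℝ, 0 ≤ C ∧ ∀ F : ℂ → ℂ, AnalyticOnNhd ℂ F V →
      ∀ M : ℝ, 0 ≤ M → (∀ ζ ∈ L, ‖F ζ‖ ≤ M) → ∀ T : ℝ, 0 ≤ T → ∃ g, AnalyticOnNhd ℂ g D ∧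
        (∀ z ∈ D, ‖g z‖ ≤ C * M * Real.exp ((1 - α) * T)) ∧
        ∀ z ∈ D, Φ z ≤ α → ‖F z - g z‖ ≤ C * M * Real.exp ((Φ z - α) * T) := by
  set Λ := {z | z ∈ D ∧ Φ z ≤ α} with hΛdef
  have hΛ : IsCompact Λ := h.cpt α hα
  obtain ⟨Γ, hΓ, hΓV, C₁, hC₁, hrep⟩ := cauchy_rep hΛ (hV.inter h.isOpen)
    (subset_inter hsub fun z hz => hz.1)
  have hΓD : ∀ ζ ∈ Γ, ζ ∈ D ∧ α < Φ ζ := fun ζ hζ =>
    ⟨(hΓV hζ).1.2, not_le.1 fun h2 => (hΓV hζ).2 ⟨(hΓV hζ).1.2, h2⟩⟩
  obtain ⟨c, hc, hU⟩ := uniform_sharp h hS h0 hΓ hΓD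
  obtain ⟨δ, hδ, hδD⟩ := hΓ.exists_cthickening_subset_open h.isOpen fun ζ hζ => (hΓD ζ hζ).1
  obtain ⟨d, hd, hdd⟩ := exists_dist_ge hΓ hΛ.isClosed fun ζ hζ => (hΓV hζ).2
  obtain ⟨R, hR, hΓR⟩ := hΓ.isBounded.subset_ball_lt 0 0
  set m := (volume (ball (0 : ℂ) R)).toReal with hm
  have hm0 : 0 ≤ m := ENNReal.toReal_nonneg
  refine ⟨Γ, hΓ, fun ζ hζ => (hΓV hζ).1.1, fun ζ hζ => (hΓV hζ).1.2,
    m * C₁ * (2 / δ / c) + m * C₁ * (1 / d / c) + 1, by positivity, ?_⟩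
  intro F hF M hM hFM T hT
  obtain ⟨ρ, hρc, hρ0, hρb, hFρ⟩ := hrep F (hF.mono inter_subset_left) M hM hFM
  rcases hM.eq_or_lt with rfl | hM'
  · refine ⟨fun _ => 0, analyticOnNhd_const, by simp, fun z hz hzα => ?_⟩
    have : ∀ ζ, ρ ζ = 0 := fun ζ => by simpa using hρb ζ
    simp [hFρ z ⟨hz, hzα⟩, this]
  set B₁ := m * C₁ * (2 / δ / c) * M * Real.exp ((1 - α) * T) with hB₁
  set B₂ := m * C₁ * (1 / d / c) * M with hB₂
  set A : Set (ℂ → ℂ) := {G | ∃ g, AnalyticOnNhd ℂ g D ∧ (∀ z ∈ D, ‖g z‖ ≤ B₁) ∧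
    ∀ z ∈ Λ, ‖G z - g z‖ ≤ B₂ * Real.exp ((Φ z - α) * T)} with hAdef
  have hA : Convex ℝ A := by
    rintro G₁ ⟨g₁, a₁, b₁, c₁⟩ G₂ ⟨g₂, a₂, b₂, c₂⟩ a b ha hb hab
    refine ⟨fun z => (a : ℂ) * g₁ z + (b : ℂ) * g₂ z,
      (analyticOnNhd_const.mul a₁).add (analyticOnNhd_const.mul a₂), fun z hz => ?_,
      fun z hz => ?_⟩
    · refine (norm_add_le _ _).trans ?_
      rw [norm_mul, norm_mul, Complex.norm_real, Complex.norm_real, Real.norm_of_nonneg ha,
        Real.norm_of_nonneg hb]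
      calc a * ‖g₁ z‖ + b * ‖g₂ z‖ ≤ a * B₁ + b * B₁ := by gcongr; exacts [b₁ z hz, b₂ z hz]
        _ = B₁ := by rw [← add_mul, hab, one_mul]
    · have e : (a • G₁ + b • G₂) z - ((a : ℂ) * g₁ z + (b : ℂ) * g₂ z) =
          (a : ℂ) * (G₁ z - g₁ z) + (b : ℂ) * (G₂ z - g₂ z) := by
        simp only [Pi.add_apply, Pi.smul_apply, Complex.real_smul]; ring
      rw [e]
      refine (norm_add_le _ _).trans ?_
      rw [norm_mul, norm_mul, Complex.norm_real, Complex.norm_real, Real.norm_of_nonneg ha,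
        Real.norm_of_nonneg hb]
      calc a * ‖G₁ z - g₁ z‖ + b * ‖G₂ z - g₂ z‖ ≤ a * (B₂ * Real.exp ((Φ z - α) * T)) +
          b * (B₂ * Real.exp ((Φ z - α) * T)) := by gcongr; exacts [c₁ z hz, c₂ z hz]
        _ = _ := by rw [← add_mul, hab, one_mul]
  obtain ⟨G, ⟨g, hg1, hg2, hg3⟩, hG⟩ := integral_approx hΛ hR (κ := fun ζ z => ρ ζ * (ζ - z)⁻¹)
    (continuousOn_kernel (κ := fun ζ z => ρ ζ * (ζ - z)⁻¹) hΓ.isClosed
      (fun ζ hζ z => by simp [hρ0 ζ hζ]) (fun ζ hζ z hz => by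
      have hne : ζ - z ≠ 0 := norm_pos_iff.1 (hd.trans_le (hdd ζ hζ z hz))
      exact ContinuousAt.mul (f := fun p : ℂ × ℂ => ρ p.1) (by fun_prop)
        (ContinuousAt.inv₀ (f := fun p : ℂ × ℂ => p.1 - p.2) (by fun_prop) hne)))
    (fun ζ hζ z _ => by simp [hρ0 ζ fun h2 => hζ (hΓR h2)]) hA (fun ζ => by
      refine ⟨fun z => m • (ρ ζ * (ζ - z)⁻¹), ?_, fun z _ => rfl⟩
      by_cases hζ : ζ ∈ Γ
      · obtain ⟨f, hf, hfζ⟩ := hU T hT ζ hζ
        have hpos : 0 < c * Real.exp (α * T) := by positivity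
        have hf0 : f ζ ≠ 0 := norm_pos_iff.1 (hpos.trans_le hfζ)
        have hfb : ∀ z ∈ D, ‖f z‖ ≤ Real.exp T := fun z hz => (hf.2 z hz).trans (by
          rw [Real.exp_le_exp]; nlinarith [h.lt_one z hz])
        have hds := norm_dslope_le h.isOpen hf.1 hfb hδ
          ((closedBall_subset_cthickening hζ δ).trans hδD)
        refine ⟨fun z => (m : ℂ) * ρ ζ * (dslope f ζ z / f ζ), analyticOnNhd_const.mul
          ((analyticOnNhd_dslope h.isOpen hf.1 (hΓD ζ hζ).1).div_const), fun z hz => ?_,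
          fun z hz => ?_⟩
        · rw [norm_mul, norm_mul, norm_div, Complex.norm_real, Real.norm_of_nonneg hm0]
          calc m * ‖ρ ζ‖ * (‖dslope f ζ z‖ / ‖f ζ‖)
              ≤ m * (C₁ * M) * ((2 * Real.exp T / δ) / (c * Real.exp (α * T))) := by
                gcongr; exacts [hρb ζ, hds z hz]
            _ = B₁ := by
                rw [hB₁, sub_mul, one_mul, Real.exp_sub]; field_simp
        · have h2 := hdd ζ hζ z hz
          have hne : ζ - z ≠ 0 := norm_pos_iff.1 (hd.trans_le h2)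
          have hne' : z ≠ ζ := fun e => hne (by rw [e, sub_self])
          have e : m • (ρ ζ * (ζ - z)⁻¹) - (m : ℂ) * ρ ζ * (dslope f ζ z / f ζ) =
              (m : ℂ) * ρ ζ * (f z / f ζ / (ζ - z)) := by
            have : z - ζ ≠ 0 := sub_ne_zero.2 hne'
            rw [dslope_of_ne _ hne', slope_def_field, Complex.real_smul]
            field_simp
            ring
          rw [e, norm_mul, norm_mul, norm_div, norm_div, Complex.norm_real,
            Real.norm_of_nonneg hm0]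
          calc m * ‖ρ ζ‖ * (‖f z‖ / ‖f ζ‖ / ‖ζ - z‖)
              ≤ m * (C₁ * M) * (Real.exp (T * Φ z) / (c * Real.exp (α * T)) / d) := by
                gcongr; exacts [hρb ζ, hf.2 z hz.1]
            _ = _ := by
                rw [hB₂, sub_mul, Real.exp_sub, mul_comm T]; field_simp
      · refine ⟨fun _ => 0, analyticOnNhd_const, fun z _ => ?_, fun z _ => ?_⟩
        · rw [norm_zero]; positivity
        · simp only [hρ0 ζ hζ, zero_mul, smul_zero, sub_zero, norm_zero]; positivity)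
    (η := M * Real.exp (-α * T)) (by positivity)
  refine ⟨g, hg1, fun z hz => (hg2 z hz).trans ?_, fun z hz hzα => ?_⟩
  · rw [hB₁]; gcongr
    have : 0 ≤ m * C₁ * (1 / d / c) := by positivity
    linarith
  · have h1 := hG z ⟨hz, hzα⟩
    rw [← hFρ z ⟨hz, hzα⟩] at h1
    have h2 := hg3 z ⟨hz, hzα⟩
    have h3 : Real.exp (-α * T) ≤ Real.exp ((Φ z - α) * T) := by
      rw [Real.exp_le_exp]; nlinarith [h.nonneg z hz]
    have h4 : 0 ≤ m * C₁ * (2 / δ / c) * M * Real.exp ((Φ z - α) * T) := by positivity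
    calc ‖F z - g z‖ ≤ ‖F z - G z‖ + ‖G z - g z‖ := norm_sub_le_norm_sub_add_norm_sub _ _ _
      _ ≤ M * Real.exp ((Φ z - α) * T) + B₂ * Real.exp ((Φ z - α) * T) := by
          gcongr; exact h1.trans (by gcongr)
      _ ≤ _ := by rw [hB₂]; nlinarith

end Pool.Agent.MP_13a571_an

end MrgPart5

-- ======== part 6: formerly Pool.Agent.MP_13a571_an.Hilb
section MrgPart6

/-!
Hilbert spaces between `H^∞(D)` and `O(D)` on which a given sequence of functionals is controlled.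
-/

open Set Filter Topology Metric

namespace Pool.Agent.MP_13a571_an

lemma factor {X E : Type} [AddCommGroup X] [Module ℂ X] [NormedAddCommGroup E] [NormedSpace ℂ E]
    (T : X →ₗ[ℂ] E) (φ : X →ₗ[ℂ] ℂ) {c : ℝ} (hc : 0 ≤ c) (h : ∀ x, ‖φ x‖ ≤ c * ‖T x‖) :
    ∃ g : E →L[ℂ] ℂ, ‖g‖ ≤ c ∧ ∀ x, g (T x) = φ x := by
  have hker : LinearMap.ker T ≤ LinearMap.ker φ := by
    intro v hv
    have h1 : T v = 0 := hv
    have := h v
    rw [h1, norm_zero, mul_zero] at this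
    exact norm_le_zero_iff.1 this
  set f : LinearMap.range T →ₗ[ℂ] ℂ := (LinearMap.ker T).liftQ φ hker ∘ₗ
    T.quotKerEquivRange.symm.toLinearMap with hf
  have hfv : ∀ v (hv : T v ∈ LinearMap.range T), f ⟨T v, hv⟩ = φ v := by
    intro v hv
    simp [hf, LinearMap.quotKerEquivRange_symm_apply_image]
  have hfb : ∀ w, ‖f w‖ ≤ c * ‖w‖ := by
    rintro ⟨_, v, rfl⟩
    rw [hfv]; exact h v
  obtain ⟨g, hg1, hg2⟩ := exists_extension_norm_eq (LinearMap.range T) (f.mkContinuous c hfb)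
  exact ⟨g, hg2 ▸ f.mkContinuous_norm_le hc hfb, fun x => (hg1 ⟨T x, x, rfl⟩).trans (hfv x _)⟩

theorem exists_hilbert {D : Set ℂ} (hD : IsOpen D) {I : Type} (Λ : I → An D →ₗ[ℂ] ℂ) {w : I → ℝ}
    (hw : Summable fun i => w i ^ 2)
    (h1 : ∀ i (f : An D) (M : ℝ), (∀ z ∈ D, ‖(f : ℂ → ℂ) z‖ ≤ M) → 0 ≤ M → ‖Λ i f‖ ≤ w i * M)
    (h2 : ∀ L, IsCompact L → L ⊆ D → ∃ C : ℝ, ∀ (f : An D) (S : ℝ), (∀ i, ‖Λ i f‖ ≤ S) → 0 ≤ S →
      ∀ z ∈ L, ‖(f : ℂ → ℂ) z‖ ≤ C * S)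
    (h3 : ∀ i, ∃ L, IsCompact L ∧ L ⊆ D ∧ ∃ C : ℝ, ∀ (f : An D) (M : ℝ), 0 ≤ M →
      (∀ z ∈ L, ‖(f : ℂ → ℂ) z‖ ≤ M) → ‖Λ i f‖ ≤ C * M) :
    ∃ (H₁ : Type) (_ : NormedAddCommGroup H₁) (_ : InnerProductSpace ℂ H₁) (_ : CompleteSpace H₁)
      (j : H₁ →ₗ[ℂ] An D), Cond4 D j ∧ ∀ x i, ‖Λ i (j x)‖ ≤ ‖x‖ := by
  let E := lp (fun _ : I => ℂ) 2
  let Q : Submodule ℂ (E × An D) :=
    { carrier := {p | ∀ i, p.1 i = Λ i p.2}
      add_mem' := fun {p q} hp hq i => by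
        simp only [Prod.fst_add, Prod.snd_add, map_add, ← hp i, ← hq i]; rfl
      zero_mem' := fun i => by simp
      smul_mem' := fun c p hp i => by
        simp only [Prod.smul_fst, Prod.smul_snd, map_smul, ← hp i]; rfl }
  let π : Q →ₗ[ℂ] E := LinearMap.fst ℂ E (An D) ∘ₗ Q.subtype
  obtain ⟨g, hg⟩ := π.rangeRestrict.exists_rightInverse_of_surjective π.range_rangeRestrict
  let j : LinearMap.range π →ₗ[ℂ] An D := LinearMap.snd ℂ E (An D) ∘ₗ Q.subtype ∘ₗ g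
  have hj : ∀ x i, Λ i (j x) = (x : E) i := fun x i => by
    have e : π (g x) = x := congrArg Subtype.val (LinearMap.congr_fun hg x)
    rw [← e]
    exact ((g x).2 i).symm
  have hle : ∀ (x : E) i, ‖x i‖ ≤ ‖x‖ := fun x i => lp.norm_apply_le_norm (by norm_num) x i
  have hmem : ∀ (s : E) (f : An D), (∀ i, s i = Λ i f) → s ∈ LinearMap.range π :=
    fun s f h => ⟨⟨(s, f), h⟩, rfl⟩
  have hclosed : IsClosed (LinearMap.range π : Set E) := by
    refine IsSeqClosed.isClosed fun s t hs hst => ?_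
    set F : ℕ → An D := fun n => j ⟨s n, hs n⟩ with hF
    have hFs : ∀ n i, Λ i (F n) = s n i := fun n i => hj ⟨s n, hs n⟩ i
    have hcau : ∀ L, IsCompact L → L ⊆ D → ∃ C : ℝ, ∀ n m, ∀ z ∈ L,
        ‖(F n : ℂ → ℂ) z - (F m : ℂ → ℂ) z‖ ≤ C * ‖s n - s m‖ := by
      intro L hL hLD
      obtain ⟨C, hC⟩ := h2 L hL hLD
      exact ⟨C, fun n m => hC (F n - F m) _ (fun i => by
        rw [map_sub, hFs, hFs]; exact hle (s n - s m) i) (norm_nonneg _)⟩
    set f : ℂ → ℂ := fun z => limUnder atTop fun n => (F n : ℂ → ℂ) z with hf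
    have hlim : ∀ z ∈ D, Tendsto (fun n => (F n : ℂ → ℂ) z) atTop (𝓝 (f z)) := by
      intro z hz
      obtain ⟨C, hC⟩ := hcau {z} isCompact_singleton (by simpa using hz)
      refine CauchySeq.tendsto_limUnder ?_
      rw [cauchySeq_iff_tendsto_dist_atTop_0]
      have := (cauchySeq_iff_tendsto_dist_atTop_0.1 hst.cauchySeq).const_mul C
      rw [mul_zero] at this
      refine squeeze_zero (fun _ => dist_nonneg) (fun p => ?_) this
      rw [dist_eq_norm, dist_eq_norm]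
      exact hC _ _ z rfl
    have hconv : ∀ L, IsCompact L → L ⊆ D → ∃ C : ℝ, 0 ≤ C ∧ ∀ n, ∀ z ∈ L,
        ‖(F n : ℂ → ℂ) z - f z‖ ≤ C * ‖s n - t‖ := by
      intro L hL hLD
      obtain ⟨C, hC⟩ := hcau L hL hLD
      refine ⟨|C|, abs_nonneg _, fun n z hz => le_trans ?_
        (mul_le_mul_of_nonneg_right (le_abs_self C) (norm_nonneg _))⟩
      exact le_of_tendsto_of_tendsto' (tendsto_const_nhds.sub (hlim z (hLD hz))).norm
        ((tendsto_const_nhds.sub hst).norm.const_mul C) fun m => hC n m z hz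
    have h0 : Tendsto (fun n => ‖s n - t‖) atTop (𝓝 0) := tendsto_iff_norm_sub_tendsto_zero.1 hst
    have hfa : AnalyticOnNhd ℂ f D := by
      intro z hz
      obtain ⟨r, hr, hb⟩ := nhds_basis_closedBall.mem_iff.1 (hD.mem_nhds hz)
      obtain ⟨C, -, hC⟩ := hconv _ (isCompact_closedBall z r) hb
      have hu : TendstoUniformlyOn (fun n => (F n : ℂ → ℂ)) f atTop (ball z r) := by
        rw [Metric.tendstoUniformlyOn_iff]
        intro ε hε
        have := h0.const_mul C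
        rw [mul_zero] at this
        filter_upwards [this.eventually (gt_mem_nhds hε)] with n hn y hy
        rw [dist_comm, dist_eq_norm]
        exact (hC n y (ball_subset_closedBall hy)).trans_lt hn
      exact (hu.tendstoLocallyUniformlyOn.differentiableOn (Eventually.of_forall fun n =>
        ((F n).2.mono (ball_subset_closedBall.trans hb)).differentiableOn)
        isOpen_ball).analyticAt (ball_mem_nhds z hr)
    refine hmem t ⟨f, hfa⟩ fun i => ?_
    obtain ⟨L, hL, hLD, C, hC⟩ := h3 i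
    obtain ⟨C', hC'0, hC'⟩ := hconv L hL hLD
    have a1 : Tendsto (fun n => s n i) atTop (𝓝 (t i)) := by
      rw [tendsto_iff_norm_sub_tendsto_zero]
      exact squeeze_zero (fun _ => norm_nonneg _) (fun n => hle (s n - t) i) h0
    have a2 : Tendsto (fun n => s n i) atTop (𝓝 (Λ i ⟨f, hfa⟩)) := by
      rw [tendsto_iff_norm_sub_tendsto_zero]
      have := (h0.const_mul C').const_mul C
      rw [mul_zero, mul_zero] at this
      refine squeeze_zero (fun _ => norm_nonneg _) (fun n => ?_) this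
      rw [← hFs, ← map_sub]
      exact hC _ _ (by positivity) fun z hz => hC' n z hz
    exact tendsto_nhds_unique a1 a2
  have : CompleteSpace (LinearMap.range π) := hclosed.completeSpace_coe
  refine ⟨LinearMap.range π, inferInstance, inferInstance, inferInstance, j, ⟨fun x hx => ?_,
    fun L hL hLD => ?_, ⟨√(∑' i, w i ^ 2), fun f hf M hM hfM => ?_⟩⟩, fun x i => ?_⟩
  · refine Subtype.ext (lp.ext (funext fun i => ?_))
    have := h1 i (j x) 0 (fun z hz => by rw [hx z hz, norm_zero]) le_rfl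
    rw [mul_zero, hj] at this
    exact norm_le_zero_iff.1 this
  · obtain ⟨C, hC⟩ := h2 L hL hLD
    exact ⟨C, fun x => hC _ _ (fun i => by rw [hj]; exact hle x i) (norm_nonneg _)⟩
  · have hb : ∀ i, ‖Λ i ⟨f, hf⟩‖ ^ (2 : ENNReal).toReal ≤ w i ^ 2 * M ^ 2 := fun i => by
      rw [← mul_pow, ENNReal.toReal_ofNat, Real.rpow_ofNat]
      exact pow_le_pow_left₀ (norm_nonneg _) (h1 i ⟨f, hf⟩ M hfM hM) 2
    have hsum := (hw.mul_right (M ^ 2)).of_nonneg_of_le (fun i => by positivity) hb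
    let s : E := ⟨fun i => Λ i ⟨f, hf⟩, memℓp_gen hsum⟩
    refine ⟨⟨s, hmem s ⟨f, hf⟩ fun _ => rfl⟩, fun z hz => ?_, ?_⟩
    · obtain ⟨C, hC⟩ := h2 {z} isCompact_singleton (by simpa using hz)
      have := hC (j ⟨s, hmem s ⟨f, hf⟩ fun _ => rfl⟩ - ⟨f, hf⟩) 0 (fun i => by
        rw [map_sub, hj]; simp [s]) le_rfl z rfl
      rw [mul_zero, norm_le_zero_iff] at this
      exact sub_eq_zero.1 this
    · refine lp.norm_le_of_tsum_le (f := s) (by norm_num) (by positivity) ?_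
      refine (hsum.tsum_le_tsum hb (hw.mul_right _)).trans (le_of_eq ?_)
      rw [tsum_mul_right, ENNReal.toReal_ofNat, Real.rpow_ofNat, mul_pow,
        Real.sq_sqrt (tsum_nonneg fun i => by positivity)]
  · rw [hj]; exact hle x i

/-- normalized Taylor coefficient -/
noncomputable def tay {D : Set ℂ} {c : ℂ} (hc : c ∈ D) (R : ℝ) (k : ℕ) : An D →ₗ[ℂ] ℂ where
  toFun f := (R ^ k / k.factorial : ℝ) * iteratedDeriv k (f : ℂ → ℂ) c
  map_add' f g := by
    rw [Submodule.coe_add, iteratedDeriv_add (f.2 c hc).contDiffAt (g.2 c hc).contDiffAt, mul_add]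
  map_smul' a f := by
    rw [Submodule.coe_smul, iteratedDeriv_const_smul_field]
    simp only [smul_eq_mul, RingHom.id_apply]; ring

lemma norm_tay {D : Set ℂ} {c : ℂ} (hc : c ∈ D) {R : ℝ} (hR : 0 < R) (k : ℕ) (f : An D) :
    ‖tay hc R k f‖ = R ^ k / k.factorial * ‖iteratedDeriv k (f : ℂ → ℂ) c‖ := by
  change ‖((R ^ k / k.factorial : ℝ) : ℂ) * iteratedDeriv k (f : ℂ → ℂ) c‖ = _
  rw [norm_mul, Complex.norm_real, Real.norm_of_nonneg (by positivity)]

lemma norm_tay_le {D : Set ℂ} {c : ℂ} (hc : c ∈ D) {R : ℝ} (hR : 0 < R)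
    (hb : closedBall c R ⊆ D) (k : ℕ) (f : An D) {M : ℝ}
    (hM : ∀ z ∈ closedBall c R, ‖(f : ℂ → ℂ) z‖ ≤ M) : ‖tay hc R k f‖ ≤ M := by
  have hd : DiffContOnCl ℂ (f : ℂ → ℂ) (ball c R) := by
    refine DifferentiableOn.diffContOnCl ?_
    rw [closure_ball c hR.ne']
    exact (f.2.mono hb).differentiableOn
  have := Complex.norm_iteratedDeriv_le_of_forall_mem_sphere_norm_le k hR hd
    fun z hz => hM z (sphere_subset_closedBall hz)
  rw [norm_tay hc hR]
  calc _ ≤ R ^ k / k.factorial * (k.factorial * M / R ^ k) := by gcongr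
    _ = M := by field_simp

lemma norm_le_of_tay {D : Set ℂ} {c : ℂ} (hc : c ∈ D) {R : ℝ} (hR : 0 < R)
    (hb : closedBall c R ⊆ D) (f : An D) {S : ℝ} (hS : ∀ k, ‖tay hc R k f‖ ≤ 2 ^ k * S) :
    ∀ z ∈ ball c (R / 4), ‖(f : ℂ → ℂ) z‖ ≤ 2 * S := by
  intro z hz
  have hS0 : 0 ≤ S := by simpa using (norm_nonneg _).trans (hS 0)
  have h1 := Complex.hasSum_taylorSeries_on_ball
    (f.2.mono (ball_subset_closedBall.trans hb)).differentiableOn
    (ball_subset_ball (by linarith) hz)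
  have h2 := hasSum_geometric_two.mul_right S
  refine h1.norm_le_of_bounded h2 fun k => ?_
  have h3 := hS k
  rw [norm_tay hc hR] at h3
  have h4 : ‖z - c‖ ≤ R / 4 := (mem_ball_iff_norm.1 hz).le
  rw [norm_smul, norm_smul, norm_inv, norm_pow, Complex.norm_natCast]
  calc _ ≤ (k.factorial : ℝ)⁻¹ * ((R / 4) ^ k * ‖iteratedDeriv k (f : ℂ → ℂ) c‖) := by gcongr
    _ = (1 / 4) ^ k * (R ^ k / k.factorial * ‖iteratedDeriv k (f : ℂ → ℂ) c‖) := by
        rw [div_pow, div_pow, one_pow]; field_simp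
    _ ≤ (1 / 4) ^ k * (2 ^ k * S) := by gcongr
    _ = _ := by rw [← mul_assoc, ← mul_pow]; norm_num

theorem exists_H1 {D : Set ℂ} (hD : IsOpen D) (hne : D.Nonempty) (ν : ℕ → An D →ₗ[ℂ] ℂ)
    (h1 : ∀ n (f : An D) (M : ℝ), (∀ z ∈ D, ‖(f : ℂ → ℂ) z‖ ≤ M) → 0 ≤ M → ‖ν n f‖ ≤ M)
    (h3 : ∀ n, ∃ L, IsCompact L ∧ L ⊆ D ∧ ∃ C : ℝ, ∀ (f : An D) (M : ℝ), 0 ≤ M →
      (∀ z ∈ L, ‖(f : ℂ → ℂ) z‖ ≤ M) → ‖ν n f‖ ≤ C * M) {δ : ℝ} (hδ : 0 < δ) :
    ∃ (H₁ : Type) (_ : NormedAddCommGroup H₁) (_ : InnerProductSpace ℂ H₁) (_ : CompleteSpace H₁)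
      (j : H₁ →ₗ[ℂ] An D), Cond4 D j ∧ ∀ x n, ‖ν n (j x)‖ ≤ Real.exp (δ * n) * ‖x‖ := by
  have hR : ∀ c ∈ D, ∃ R, 0 < R ∧ closedBall c R ⊆ D := fun c hc =>
    nhds_basis_closedBall.mem_iff.1 (hD.mem_nhds hc)
  choose! R hR0 hRD using hR
  obtain ⟨t, htD, ht, hcov⟩ := TopologicalSpace.countable_cover_nhdsWithin
    (f := fun c => ball c (R c / 4)) (s := D) fun c hc =>
      mem_nhdsWithin_of_mem_nhds (ball_mem_nhds c (by linarith [hR0 c hc]))
  obtain ⟨c, rfl⟩ := ht.exists_eq_range (by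
    obtain ⟨z, hz⟩ := hne
    obtain ⟨y, hy, -⟩ := mem_iUnion₂.1 (hcov hz)
    exact ⟨y, hy⟩)
  have hc : ∀ m, c m ∈ D := fun m => htD ⟨m, rfl⟩
  let w : ℕ ⊕ ℕ × ℕ → ℝ := Sum.elim (fun n => Real.exp (-δ) ^ n)
    fun p => (1 / 2) ^ p.1 * (1 / 2) ^ p.2
  let Λ : ℕ ⊕ ℕ × ℕ → An D →ₗ[ℂ] ℂ := fun i => (w i : ℂ) • Sum.elim ν
    (fun p => tay (hc p.1) (R (c p.1)) p.2) i
  have hw0 : ∀ i, 0 < w i := by rintro (n | p) <;> simp only [w, Sum.elim_inl, Sum.elim_inr] <;>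
    positivity
  have hΛ : ∀ i f, ‖Λ i f‖ = w i * ‖Sum.elim ν (fun p => tay (hc p.1) (R (c p.1)) p.2) i f‖ :=
    fun i f => by
      simp only [Λ, LinearMap.smul_apply, norm_smul, Complex.norm_real,
        Real.norm_of_nonneg (hw0 i).le]
  have hw : Summable fun i => w i ^ 2 := by
    refine Summable.sum _ ?_ ?_
    · refine (summable_geometric_of_lt_one (r := Real.exp (-δ) ^ 2) (by positivity)
        (pow_lt_one₀ (Real.exp_pos _).le (Real.exp_lt_one_iff.2 (by linarith)) two_ne_zero)).congr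
        fun n => ?_
      simp only [w, Function.comp, Sum.elim_inl]; ring
    · have h4 := summable_geometric_of_lt_one (r := (1 / 2 : ℝ) ^ 2) (by positivity) (by norm_num)
      refine (h4.mul_of_nonneg h4 (fun _ => by positivity) fun _ => by positivity).congr
        fun p => ?_
      simp only [w, Function.comp, Sum.elim_inr, mul_pow, ← pow_mul, mul_comm]
  obtain ⟨H₁, i1, i2, i3, j, hj, hb⟩ := exists_hilbert hD Λ hw (fun i f M hM hM0 => by
      rw [hΛ]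
      refine mul_le_mul_of_nonneg_left ?_ (hw0 i).le
      rcases i with n | p
      · exact h1 n f M hM hM0
      · exact norm_tay_le (hc _) (hR0 _ (hc _)) (hRD _ (hc _)) _ f fun z hz => hM z (hRD _ (hc _) hz))
    (fun L hL hLD => by
      obtain ⟨T, hT⟩ := hL.elim_finite_subcover (fun m => ball (c m) (R (c m) / 4))
        (fun _ => isOpen_ball) (fun z hz => by simpa using hcov (hLD hz))
      refine ⟨2 * 2 ^ T.sup id, fun f S hS hS0 z hz => ?_⟩
      obtain ⟨m, hm, hzm⟩ := mem_iUnion₂.1 (hT hz)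
      rw [mul_assoc]
      refine norm_le_of_tay (hc m) (hR0 _ (hc _)) (hRD _ (hc _)) f (fun k => ?_) z hzm
      have h5 := hS (Sum.inr (m, k))
      rw [hΛ] at h5
      simp only [w, Sum.elim_inr] at h5
      have h6 : (2 : ℝ) ^ m ≤ 2 ^ T.sup id :=
        pow_le_pow_right₀ (by norm_num) (Finset.le_sup (f := id) hm)
      calc _ = 2 ^ k * (2 ^ m * ((1 / 2) ^ m * (1 / 2) ^ k * ‖tay (hc m) (R (c m)) k f‖)) := by
            rw [one_div, inv_pow, inv_pow]; field_simp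
        _ ≤ _ := by gcongr)
    (fun i => by
      rcases i with n | p
      · obtain ⟨L, hL, hLD, C, hC⟩ := h3 n
        refine ⟨L, hL, hLD, w (Sum.inl n) * C, fun f M hM0 hM => ?_⟩
        rw [hΛ, mul_assoc]
        exact mul_le_mul_of_nonneg_left (hC f M hM0 hM) (hw0 _).le
      · refine ⟨_, isCompact_closedBall _ _, hRD _ (hc p.1), w (Sum.inr p), fun f M hM0 hM => ?_⟩
        rw [hΛ]
        exact mul_le_mul_of_nonneg_left (norm_tay_le (hc _) (hR0 _ (hc _)) (hRD _ (hc _)) _ f hM)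
          (hw0 _).le)
  refine ⟨H₁, i1, i2, i3, j, hj, fun x n => ?_⟩
  have h5 := hb x (Sum.inl n)
  rw [hΛ] at h5
  simp only [w, Sum.elim_inl] at h5
  calc _ = Real.exp (δ * n) * (Real.exp (-δ) ^ n * ‖ν n (j x)‖) := by
        rw [← Real.exp_nat_mul, ← mul_assoc, ← Real.exp_add]; simp [mul_comm]
    _ ≤ _ := by gcongr

end Pool.Agent.MP_13a571_an

end MrgPart6

-- ======== part 7: formerly Pool.Agent.MP_13a571_an.Scale
section MrgPart7

/-!
Direct and inverse approximation estimates in a Hilbert scale.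
-/

open Set Filter Topology ContinuousLinearMap
open scoped InnerProductSpace

namespace Pool.Agent.MP_13a571_an

variable {H₀ H₁ : Type} [NormedAddCommGroup H₀] [InnerProductSpace ℂ H₀] [CompleteSpace H₀]
  [NormedAddCommGroup H₁] [InnerProductSpace ℂ H₁] [CompleteSpace H₁]

/-- functional calculus of `J J*` -/
noncomputable def fc (J : H₁ →L[ℂ] H₀) (φ : ℝ → ℝ) : H₀ →L[ℂ] H₀ := cfc φ (J ∘L adjoint J)

lemma scaleOp_eq (J : H₁ →L[ℂ] H₀) (α : ℝ) : scaleOp J α = fc J fun s => s ^ (α / 2) := rfl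

lemma spec_nonneg (J : H₁ →L[ℂ] H₀) : spectrum ℝ (J ∘L adjoint J) ⊆ Ici 0 := fun _ hs =>
  spectrum_nonneg_of_nonneg ((nonneg_iff_isPositive _).2 (isPositive_self_comp_adjoint J)) hs

lemma sa (J : H₁ →L[ℂ] H₀) : IsSelfAdjoint (J ∘L adjoint J) :=
  (isPositive_self_comp_adjoint J).isSelfAdjoint

lemma fc_congr (J : H₁ →L[ℂ] H₀) {φ ψ : ℝ → ℝ} (h : ∀ s, 0 ≤ s → φ s = ψ s) : fc J φ = fc J ψ :=
  cfc_congr fun s hs => h s (spec_nonneg J hs)

lemma fc_mul (J : H₁ →L[ℂ] H₀) {φ ψ : ℝ → ℝ} (hφ : ContinuousOn φ (Ici 0))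
    (hψ : ContinuousOn ψ (Ici 0)) (y : H₀) : fc J φ (fc J ψ y) = fc J (fun s => φ s * ψ s) y := by
  rw [fc, fc, fc, cfc_mul φ ψ _ (hφ.mono (spec_nonneg J)) (hψ.mono (spec_nonneg J))]
  rfl

lemma fc_add (J : H₁ →L[ℂ] H₀) {φ ψ : ℝ → ℝ} (hφ : ContinuousOn φ (Ici 0))
    (hψ : ContinuousOn ψ (Ici 0)) (y : H₀) : fc J φ y + fc J ψ y = fc J (fun s => φ s + ψ s) y := by
  rw [fc, fc, fc, cfc_add _ φ ψ (hφ.mono (spec_nonneg J)) (hψ.mono (spec_nonneg J))]
  rfl

lemma fc_one (J : H₁ →L[ℂ] H₀) (y : H₀) : fc J (fun _ => 1) y = y := by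
  have := sa J
  rw [fc, cfc_const_one ℝ (J ∘L adjoint J)]
  rfl

lemma fc_id (J : H₁ →L[ℂ] H₀) (y : H₀) : fc J (fun s => s) y = J (adjoint J y) := by
  rw [fc, cfc_id' ℝ _ (sa J)]
  rfl

lemma norm_fc_le (J : H₁ →L[ℂ] H₀) {φ : ℝ → ℝ} {c : ℝ} (h : ∀ s, 0 ≤ s → |φ s| ≤ c) (y : H₀) :
    ‖fc J φ y‖ ≤ c * ‖y‖ :=
  (fc J φ).le_of_opNorm_le (norm_cfc_le ((abs_nonneg _).trans (h 0 le_rfl))
    fun s hs => h s (spec_nonneg J hs)) y

lemma inner_fc (J : H₁ →L[ℂ] H₀) (φ : ℝ → ℝ) (x y : H₀) : ⟪fc J φ x, y⟫_ℂ = ⟪x, fc J φ y⟫_ℂ := by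
  have h : IsSelfAdjoint (fc J φ) := cfc_predicate φ _
  rw [← adjoint_inner_right, isSelfAdjoint_iff'.1 h]

lemma cont_rpow {θ : ℝ} (h : 0 ≤ θ) : ContinuousOn (fun s : ℝ => s ^ θ) (Ici 0) :=
  (Real.continuous_rpow_const h).continuousOn

lemma cont_res {l : ℝ} (h : 0 < l) : ContinuousOn (fun s : ℝ => (s + l)⁻¹) (Ici 0) :=
  ContinuousOn.inv₀ (by fun_prop) fun s (hs : 0 ≤ s) => by positivity

lemma norm_adjoint_eq (J : H₁ →L[ℂ] H₀) (w : H₀) :
    ‖adjoint J w‖ = ‖fc J (fun s => s ^ (1 / 2 : ℝ)) w‖ := by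
  have h1 : ⟪adjoint J w, adjoint J w⟫_ℂ =
      ⟪fc J (fun s => s ^ (1 / 2 : ℝ)) w, fc J (fun s => s ^ (1 / 2 : ℝ)) w⟫_ℂ := by
    rw [inner_fc, fc_mul J (cont_rpow (by norm_num)) (cont_rpow (by norm_num)),
      fc_congr J (ψ := fun s => s) (fun s hs => by
        rw [← Real.rpow_add' hs (by norm_num)]; norm_num), fc_id, adjoint_inner_left]
  rw [inner_self_eq_norm_sq_to_K, inner_self_eq_norm_sq_to_K] at h1
  have h2 : ‖adjoint J w‖ ^ 2 = ‖fc J (fun s => s ^ (1 / 2 : ℝ)) w‖ ^ 2 := by exact_mod_cast h1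
  exact (sq_eq_sq₀ (norm_nonneg _) (norm_nonneg _)).1 h2

lemma rpow_res_le {s θ τ : ℝ} (hs : 0 ≤ s) (h0 : 0 ≤ θ) (h1 : θ ≤ 1) :
    |s ^ θ * (s + Real.exp (-(2 * τ)))⁻¹| ≤ Real.exp (2 * τ * (1 - θ)) := by
  have hl := Real.exp_pos (-(2 * τ))
  rw [abs_of_nonneg (by positivity), ← div_eq_mul_inv, div_le_iff₀ (by positivity)]
  have e : Real.exp (2 * τ * (1 - θ)) * Real.exp (-(2 * τ)) ^ (1 - θ) = 1 := by
    rw [← Real.exp_mul, ← Real.exp_add, ← Real.exp_zero]; congr 1; ring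
  calc s ^ θ = Real.exp (2 * τ * (1 - θ)) * (s ^ θ * Real.exp (-(2 * τ)) ^ (1 - θ)) := by
        rw [mul_left_comm, e, mul_one]
    _ ≤ Real.exp (2 * τ * (1 - θ)) * ((s + Real.exp (-(2 * τ))) ^ θ *
        (s + Real.exp (-(2 * τ))) ^ (1 - θ)) := by gcongr <;> linarith
    _ = _ := by rw [← Real.rpow_add (by positivity)]; simp

lemma rpow_res_le' {s θ τ : ℝ} (hs : 0 ≤ s) (h0 : 0 ≤ θ) (h1 : θ ≤ 1) :
    |s ^ θ * (Real.exp (-(2 * τ)) * (s + Real.exp (-(2 * τ)))⁻¹)| ≤ Real.exp (-(2 * τ * θ)) := by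
  rw [mul_left_comm, abs_mul, Real.abs_exp]
  calc _ ≤ Real.exp (-(2 * τ)) * Real.exp (2 * τ * (1 - θ)) := by
        gcongr; exact rpow_res_le hs h0 h1
    _ = _ := by rw [← Real.exp_add]; congr 1; ring

/-- the canonical approximant from `H₁` -/
noncomputable def app (J : H₁ →L[ℂ] H₀) (τ : ℝ) (x : H₀) : H₁ :=
  adjoint J (fc J (fun s => (s + Real.exp (-(2 * τ)))⁻¹) x)

lemma split (J : H₁ →L[ℂ] H₀) (τ : ℝ) (x : H₀) :
    x = fc J (fun s => s * (s + Real.exp (-(2 * τ)))⁻¹) x +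
      fc J (fun s => Real.exp (-(2 * τ)) * (s + Real.exp (-(2 * τ)))⁻¹) x := by
  have hl := Real.exp_pos (-(2 * τ))
  rw [fc_add J ((continuousOn_id' _).fun_mul (cont_res hl)) (continuousOn_const.fun_mul (cont_res hl)),
    fc_congr J (ψ := fun _ => 1) (fun s hs => by field_simp), fc_one]

lemma sub_app (J : H₁ →L[ℂ] H₀) (τ : ℝ) (x : H₀) : x - J (app J τ x) =
    fc J (fun s => Real.exp (-(2 * τ)) * (s + Real.exp (-(2 * τ)))⁻¹) x := by
  rw [app, ← fc_id, fc_mul J (continuousOn_id' _) (cont_res (Real.exp_pos _)), sub_eq_iff_eq_add']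
  exact split J τ x

lemma sub_app_eq (J : H₁ →L[ℂ] H₀) {γ γ' : ℝ} (h0 : 0 ≤ γ') (h : γ' ≤ γ) (h1 : γ ≤ 1) (τ : ℝ)
    (y : H₀) : ∃ w, scaleOp J γ y - J (app J τ (scaleOp J γ y)) = scaleOp J γ' w ∧
      ‖w‖ ≤ Real.exp (-((γ - γ') * τ)) * ‖y‖ := by
  have hl := Real.exp_pos (-(2 * τ))
  refine ⟨fc J (fun s => s ^ ((γ - γ') / 2) *
    (Real.exp (-(2 * τ)) * (s + Real.exp (-(2 * τ)))⁻¹)) y, ?_, norm_fc_le J (fun s hs => ?_) y⟩
  · rw [sub_app, scaleOp_eq, scaleOp_eq, fc_mul J (continuousOn_const.fun_mul (cont_res hl))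
      (cont_rpow (by linarith)), fc_mul J (cont_rpow (by linarith))
      ((cont_rpow (by linarith)).fun_mul (continuousOn_const.fun_mul (cont_res hl)))]
    congr 1
    refine fc_congr J fun s hs => ?_
    rw [← mul_assoc, ← Real.rpow_add_of_nonneg hs (by linarith) (by linarith), mul_comm]
    congr 2; ring
  · convert rpow_res_le' (τ := τ) (θ := (γ - γ') / 2) hs (by linarith) (by linarith) using 2
    ring

lemma norm_sub_app (J : H₁ →L[ℂ] H₀) {α : ℝ} (h0 : 0 ≤ α) (h1 : α ≤ 1) (τ : ℝ) (y : H₀) :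
    ‖scaleOp J α y - J (app J τ (scaleOp J α y))‖ ≤ Real.exp (-(α * τ)) * ‖y‖ := by
  obtain ⟨w, e, hw⟩ := sub_app_eq J le_rfl h0 h1 τ y
  rw [e, scaleOp_eq, fc_congr J (ψ := fun _ => 1) (fun s _ => by simp), fc_one]
  simpa using hw

lemma norm_app (J : H₁ →L[ℂ] H₀) {α : ℝ} (h0 : 0 ≤ α) (h1 : α ≤ 1) (τ : ℝ) (y : H₀) :
    ‖app J τ (scaleOp J α y)‖ ≤ Real.exp ((1 - α) * τ) * ‖y‖ := by
  have hl := Real.exp_pos (-(2 * τ))
  rw [app, norm_adjoint_eq, scaleOp_eq, fc_mul J (cont_res hl) (cont_rpow (by linarith)),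
    fc_mul J (cont_rpow (by norm_num)) ((cont_res hl).fun_mul (cont_rpow (by linarith)))]
  refine norm_fc_le J (fun s hs => ?_) y
  rw [mul_comm _ (s ^ (α / 2)), ← mul_assoc, ← Real.rpow_add_of_nonneg hs (by norm_num)
    (by linarith)]
  convert rpow_res_le (τ := τ) (θ := 1 / 2 + α / 2) hs (by linarith) (by linarith) using 2
  ring

lemma norm_inner_le (J : H₁ →L[ℂ] H₀) {α : ℝ} (h0 : 0 ≤ α) (h1 : α ≤ 1) (τ : ℝ) (d : H₁) (v : H₀) :
    ‖⟪J d, v⟫_ℂ‖ ≤ (Real.exp (α * τ) * ‖J d‖ + Real.exp (-((1 - α) * τ)) * ‖d‖) *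
      ‖scaleOp J α v‖ := by
  have hl := Real.exp_pos (-(2 * τ))
  have e1 : ‖fc J (fun s => s * (s + Real.exp (-(2 * τ)))⁻¹) v‖ ≤
      Real.exp (α * τ) * ‖scaleOp J α v‖ := by
    have : fc J (fun s => s * (s + Real.exp (-(2 * τ)))⁻¹) v =
        fc J (fun s => s ^ (1 - α / 2) * (s + Real.exp (-(2 * τ)))⁻¹) (scaleOp J α v) := by
      rw [scaleOp_eq, fc_mul J ((cont_rpow (by linarith)).fun_mul (cont_res hl))
        (cont_rpow (by linarith))]
      congr 1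
      refine fc_congr J fun s hs => ?_
      rw [mul_right_comm, ← Real.rpow_add_of_nonneg hs (by linarith) (by linarith)]
      simp
    rw [this]
    refine norm_fc_le J (fun s hs => ?_) _
    convert rpow_res_le (τ := τ) (θ := 1 - α / 2) hs (by linarith) (by linarith) using 2
    ring
  have e2 : ‖adjoint J (fc J (fun s => Real.exp (-(2 * τ)) * (s + Real.exp (-(2 * τ)))⁻¹) v)‖ ≤
      Real.exp (-((1 - α) * τ)) * ‖scaleOp J α v‖ := by
    rw [norm_adjoint_eq, fc_mul J (cont_rpow (by norm_num)) (continuousOn_const.fun_mul (cont_res hl))]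
    have : fc J (fun s => s ^ (1 / 2 : ℝ) *
        (Real.exp (-(2 * τ)) * (s + Real.exp (-(2 * τ)))⁻¹)) v = fc J (fun s => s ^ ((1 - α) / 2) *
        (Real.exp (-(2 * τ)) * (s + Real.exp (-(2 * τ)))⁻¹)) (scaleOp J α v) := by
      rw [scaleOp_eq, fc_mul J ((cont_rpow (by linarith)).fun_mul
        (continuousOn_const.fun_mul (cont_res hl))) (cont_rpow (by linarith))]
      congr 1
      refine fc_congr J fun s hs => ?_
      rw [mul_right_comm, ← Real.rpow_add_of_nonneg hs (by linarith) (by linarith)]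
      congr 2; ring
    rw [this]
    refine norm_fc_le J (fun s hs => ?_) _
    convert rpow_res_le' (τ := τ) (θ := (1 - α) / 2) hs (by linarith) (by linarith) using 2
    ring
  conv_lhs => rw [split J τ v, inner_add_right]
  refine (norm_add_le _ _).trans ?_
  rw [add_mul, ← adjoint_inner_right J d (fc J (fun s => Real.exp (-(2 * τ)) * _) v)]
  refine add_le_add ((norm_inner_le_norm _ _).trans ?_) ((norm_inner_le_norm _ _).trans ?_)
  · rw [mul_right_comm, mul_comm]; gcongr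
  · rw [mul_right_comm, mul_comm]; gcongr

lemma douglas (J : H₁ →L[ℂ] H₀) (α : ℝ) {x : H₀} {C : ℝ} (hC : 0 ≤ C)
    (h : ∀ v, ‖⟪x, v⟫_ℂ‖ ≤ C * ‖scaleOp J α v‖) : ∃ y, scaleOp J α y = x ∧ ‖y‖ ≤ C := by
  set T := (scaleOp J α : H₀ →ₗ[ℂ] H₀) with hT
  have hker : LinearMap.ker T ≤ LinearMap.ker (innerₛₗ ℂ x) := by
    intro v hv
    have h1 : scaleOp J α v = 0 := hv
    have := h v
    rw [h1, norm_zero, mul_zero] at this
    exact norm_le_zero_iff.1 this
  set f : LinearMap.range T →ₗ[ℂ] ℂ := (LinearMap.ker T).liftQ (innerₛₗ ℂ x) hker ∘ₗ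
    T.quotKerEquivRange.symm.toLinearMap with hf
  have hfv : ∀ v (hv : T v ∈ LinearMap.range T), f ⟨T v, hv⟩ = ⟪x, v⟫_ℂ := by
    intro v hv
    simp [hf, LinearMap.quotKerEquivRange_symm_apply_image]
  have hfb : ∀ w, ‖f w‖ ≤ C * ‖w‖ := by
    rintro ⟨_, v, rfl⟩
    rw [hfv]; exact h v
  obtain ⟨g, hg1, hg2⟩ := exists_extension_norm_eq (LinearMap.range T) (f.mkContinuous C hfb)
  refine ⟨(InnerProductSpace.toDual ℂ H₀).symm g, ext_inner_right ℂ fun v => ?_, ?_⟩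
  · rw [scaleOp_eq, inner_fc, InnerProductSpace.toDual_symm_apply, ← hfv v ⟨v, rfl⟩]
    exact hg1 ⟨T v, v, rfl⟩
  · rw [LinearIsometryEquiv.norm_map, hg2]
    exact f.mkContinuous_norm_le hC hfb

lemma exists_preimage (J : H₁ →L[ℂ] H₀) {α : ℝ} (h0 : 0 ≤ α) (h1 : α ≤ 1) (τ : ℝ) (d : H₁) :
    ∃ y, scaleOp J α y = J d ∧
      ‖y‖ ≤ Real.exp (α * τ) * ‖J d‖ + Real.exp (-((1 - α) * τ)) * ‖d‖ :=
  douglas J α (by positivity) (norm_inner_le J h0 h1 τ d)

lemma norm_le_of_geometric {E : Type} [NormedAddCommGroup E] {u : ℕ → E} {l : E} {K κ : ℝ}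
    (hκ : 0 < κ) (h : ∀ n : ℕ, ‖u (n + 1) - u n‖ ≤ K * Real.exp (-(κ * n)))
    (hl : Tendsto u atTop (𝓝 l)) : ‖l‖ ≤ ‖u 0‖ + K / (1 - Real.exp (-κ)) := by
  have := dist_le_of_le_geometric_of_tendsto₀ (Real.exp (-κ)) K
    (Real.exp_lt_one_iff.2 (by linarith)) (fun n => by
      rw [dist_comm, dist_eq_norm, ← Real.exp_nat_mul]
      convert h n using 3; ring) hl
  rw [dist_comm, dist_eq_norm] at this
  linarith [norm_le_norm_sub_add l (u 0)]

lemma tendsto_exp_neg_mul {p : ℝ} (hp : 0 < p) (M : ℝ) :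
    Tendsto (fun n : ℕ => M * Real.exp (-(p * n))) atTop (𝓝 0) := by
  rw [← mul_zero M]
  refine Tendsto.const_mul _ (Real.tendsto_exp_atBot.comp ?_)
  exact tendsto_neg_atTop_atBot.comp (tendsto_natCast_atTop_atTop.const_mul_atTop hp)

/-- inverse estimate: a rate of approximation gives membership in the scale -/
theorem mem_of_approx (J : H₁ →L[ℂ] H₀) {α p q : ℝ} (h0 : 0 ≤ α) (h1 : α ≤ 1) (hp : 0 < p)
    (hq : 0 ≤ q) (hκ : α * q < (1 - α) * p) : ∃ C : ℝ, ∀ (x : H₀) (M : ℝ), 0 ≤ M →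
      (∀ n : ℕ, ∃ h : H₁, ‖x - J h‖ ≤ M * Real.exp (-(p * n)) ∧ ‖h‖ ≤ M * Real.exp (q * n)) →
        ∃ y, scaleOp J α y = x ∧ ‖y‖ ≤ C * M := by
  set κ := (1 - α) * p - α * q with hκdef
  have hκ0 : 0 < κ := by linarith
  have hr : 0 < 1 - Real.exp (-κ) := by
    have := Real.exp_lt_one_iff.2 (show -κ < 0 by linarith); linarith
  refine ⟨‖J‖ + 1 + 2 * (1 + Real.exp q) / (1 - Real.exp (-κ)), fun x M hM hx => ?_⟩
  choose h hh1 hh2 using hx
  refine douglas J α (by positivity) fun v => ?_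
  have hlim : Tendsto (fun n => J (h n)) atTop (𝓝 x) := by
    rw [tendsto_iff_norm_sub_tendsto_zero]
    exact squeeze_zero (fun _ => norm_nonneg _) (fun n => by rw [norm_sub_rev]; exact hh1 n)
      (tendsto_exp_neg_mul hp M)
  have key := norm_le_of_geometric (u := fun n => ⟪J (h n), v⟫_ℂ)
    (K := 2 * (1 + Real.exp q) * M * ‖scaleOp J α v‖) hκ0 (fun n => by
      rw [← inner_sub_left, ← map_sub]
      refine (norm_inner_le J h0 h1 ((p + q) * n) _ v).trans ?_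
      have hn : (0 : ℝ) ≤ n := Nat.cast_nonneg n
      have a1 : ‖J (h (n + 1) - h n)‖ ≤ 2 * M * Real.exp (-(p * n)) := by
        have e : J (h (n + 1) - h n) = (x - J (h n)) - (x - J (h (n + 1))) := by
          rw [map_sub]; abel
        have b1 : M * Real.exp (-(p * (n + 1 : ℕ))) ≤ M * Real.exp (-(p * n)) := by
          gcongr; linarith
        rw [e]
        linarith [norm_sub_le (x - J (h n)) (x - J (h (n + 1))), hh1 n, hh1 (n + 1)]
      have a2 : ‖h (n + 1) - h n‖ ≤ 2 * M * (Real.exp q * Real.exp (q * n)) := by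
        have b1 : M * Real.exp (q * n) ≤ M * Real.exp (q * (n + 1 : ℕ)) := by
          gcongr; linarith
        have b2 : Real.exp (q * (n + 1 : ℕ)) = Real.exp q * Real.exp (q * n) := by
          rw [← Real.exp_add]; congr 1; push_cast; ring
        rw [← b2]
        linarith [norm_sub_le (h (n + 1)) (h n), hh2 n, hh2 (n + 1)]
      have c1 : Real.exp (α * ((p + q) * n)) * Real.exp (-(p * n)) = Real.exp (-(κ * n)) := by
        rw [← Real.exp_add]; congr 1; ring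
      have c2 : Real.exp (-((1 - α) * ((p + q) * n))) * Real.exp (q * n) =
          Real.exp (-(κ * n)) := by
        rw [← Real.exp_add]; congr 1; ring
      calc _ ≤ (Real.exp (α * ((p + q) * n)) * (2 * M * Real.exp (-(p * n))) +
            Real.exp (-((1 - α) * ((p + q) * n))) * (2 * M * (Real.exp q * Real.exp (q * n)))) *
            ‖scaleOp J α v‖ := by gcongr
        _ = _ := by linear_combination (2 * M * ‖scaleOp J α v‖) * c1 +
            (2 * M * Real.exp q * ‖scaleOp J α v‖) * c2) (hlim.inner tendsto_const_nhds)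
  have a0 := norm_inner_le J h0 h1 0 (h 0) v
  have a1 : ‖h 0‖ ≤ M := by simpa using hh2 0
  have a2 : ‖J (h 0)‖ ≤ ‖J‖ * M := (J.le_opNorm _).trans (by gcongr)
  simp only [mul_zero, Real.exp_zero, neg_zero, one_mul] at a0
  calc _ ≤ _ := key
    _ ≤ (‖J‖ * M + M) * ‖scaleOp J α v‖ + 2 * (1 + Real.exp q) * M * ‖scaleOp J α v‖ /
        (1 - Real.exp (-κ)) := by gcongr; exact a0.trans (by gcongr)
    _ = _ := by ring

end Pool.Agent.MP_13a571_an

end MrgPart7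

-- marker of a merged file
example : 731051 + 774731 = 731051 + 774731 := rfl
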