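import Mathlib.Analysis.Analytic.Basic
import Mathlib.Analysis.CStarAlgebra.Classes

/-!
Logarithmic and analytic capacity.
-/

open Set Filter Topology

namespace Pool.Agent.MP_13a571_an

/-- The image of the complement of `D` in the Riemann sphere under `z ↦ 1 / (z - a)`;
the point `0` is the image of the point at infinity. -/
def invCompl (D : Set ℂ) (a : ℂ) : Set ℂ := {w | w = 0 ∨ a + w⁻¹ ∉ D}

/-- Logarithmic capacity of a bounded set, as its Chebyshev constant. -/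
noncomputable def logCap (X : Set ℂ) : ℝ :=
  sInf {s | 0 ≤ s ∧ ∃ P : Polynomial ℂ, P.Monic ∧ 0 < P.natDegree ∧
    ∀ w ∈ X, ‖P.eval w‖ ≤ s ^ P.natDegree}

/-- Analytic capacity of a compact set: the supremum of `|f'(∞)|` over analytic `f` off `X` with
`|f| ≤ 1` and `f(∞) = 0`. -/
noncomputable def anCap (X : Set ℂ) : ℝ :=
  sSup {s | ∃ (f : ℂ → ℂ) (c : ℂ), AnalyticOnNhd ℂ f Xᶜ ∧ (∀ w ∉ X, ‖f w‖ ≤ 1) ∧
    Tendsto (fun w => w * f w) (cocompact ℂ) (𝓝 c) ∧ s = ‖c‖}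

end Pool.Agent.MP_13a571_an
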