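import Mathlib.LinearAlgebra.Lagrange
import Mathlib.RingTheory.PicardGroup
import Mathlib.Combinatorics.SimpleGraph.Basic
import Mathlib.MeasureTheory.Measure.Lebesgue.VolumeOfBalls
import Mathlib.Tactic.Polynomial.Basic
import Pool.Agent.MP_13a571_an.CapDefs
import Pool.Agent.MP_13a571_an.Scale

-- ======== part 0: formerly Pool.Agent.MP_13a571_an.Fek
section MrgPart0

/-!
Fekete points and discrete energy inequalities.
-/

open Set Filter Topology Metric Polynomial
open scoped ComplexConjugate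

namespace Pool.Agent.MP_13a571_an

variable {ι : Type} [DecidableEq ι]

/-- product over ordered pairs of distinct indices -/
def PP (S : Finset ι) (k : ι → ι → ℝ) : ℝ := ∏ j ∈ S, ∏ i ∈ S.erase j, k j i

/-- modulus of the nodal polynomial with one node left out -/
noncomputable def row (S : Finset ι) (x : ι → ℂ) (j : ι) (w : ℂ) : ℝ := ∏ i ∈ S.erase j, ‖w - x i‖

lemma row_nonneg (S : Finset ι) (x : ι → ℂ) (j : ι) (w : ℂ) : 0 ≤ row S x j w :=
  Finset.prod_nonneg fun _ _ => norm_nonneg _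

lemma PP_nonneg {S : Finset ι} {k : ι → ι → ℝ} (h : ∀ i j, 0 ≤ k i j) : 0 ≤ PP S k :=
  Finset.prod_nonneg fun _ _ => Finset.prod_nonneg fun _ _ => h _ _

lemma PP_erase {S : Finset ι} {k : ι → ι → ℝ} (hk : ∀ i j, k i j = k j i) {j₀ : ι} (h : j₀ ∈ S) :
    PP S k = (∏ i ∈ S.erase j₀, k j₀ i) ^ 2 * PP (S.erase j₀) k := by
  rw [PP, ← Finset.mul_prod_erase _ _ h, sq, mul_assoc, PP]
  congr 1
  rw [← Finset.prod_mul_distrib]
  refine Finset.prod_congr rfl fun j hj => ?_
  rw [← Finset.mul_prod_erase (S.erase j) (k j)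
    (Finset.mem_erase.2 ⟨(Finset.mem_erase.1 hj).1.symm, h⟩), Finset.erase_right_comm, hk]

lemma PP_congr {S : Finset ι} {k l : ι → ι → ℝ} (h : ∀ i ∈ S, ∀ j ∈ S, k i j = l i j) :
    PP S k = PP S l :=
  Finset.prod_congr rfl fun i hi => Finset.prod_congr rfl fun j hj =>
    h i hi j (Finset.mem_of_mem_erase hj)

lemma PP_mono {S : Finset ι} {k l : ι → ι → ℝ} (h0 : ∀ i j, 0 ≤ k i j) (h : ∀ i j, k i j ≤ l i j) :
    PP S k ≤ PP S l :=
  Finset.prod_le_prod (fun _ _ => Finset.prod_nonneg fun _ _ => h0 _ _) fun _ _ =>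
    Finset.prod_le_prod (fun _ _ => h0 _ _) fun _ _ => h _ _

theorem exists_fekete {Z : Type} [TopologicalSpace Z] {A : Set Z} (hA : IsCompact A) {p : Z → ℂ}
    (hp : Continuous p) {w : Z → ℝ} (hw : Continuous w) (hw0 : ∀ z, 0 < w z)
    (hinf : (p '' A).Infinite) (n : ℕ) :
    ∃ ζ : Fin n → Z, (∀ j, ζ j ∈ A) ∧ Function.Injective (fun j => p (ζ j)) ∧ ∀ j, ∀ z ∈ A,
      w z * row Finset.univ (fun j => p (ζ j)) j (p z) ≤
        w (ζ j) * row Finset.univ (fun j => p (ζ j)) j (p (ζ j)) := by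
  set Φ : (Fin n → Z) → ℝ := fun ζ => (∏ j, w (ζ j) ^ 2) *
    PP Finset.univ fun j i => ‖p (ζ j) - p (ζ i)‖ with hΦ
  have hc : Continuous Φ := by
    simp only [hΦ, PP]
    fun_prop
  obtain ⟨ζ₀, hζ₀, hinj⟩ : ∃ ζ₀ : Fin n → Z, (∀ j, ζ₀ j ∈ A) ∧
      Function.Injective fun j => p (ζ₀ j) := by
    choose ζ₀ h1 h2 using fun j : Fin n => (hinf.natEmbedding _ j).2
    refine ⟨ζ₀, h1, fun i j h => ?_⟩
    simp only [h2] at h
    exact Fin.ext ((hinf.natEmbedding _).injective (Subtype.ext h))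
  obtain ⟨ζ, hζ, hmax⟩ := (isCompact_univ_pi fun _ : Fin n => hA).exists_isMaxOn
    ⟨ζ₀, fun j _ => hζ₀ j⟩ hc.continuousOn
  have h0 : 0 < Φ ζ₀ := mul_pos (Finset.prod_pos fun j _ => pow_pos (hw0 _) 2)
    (Finset.prod_pos fun j _ => Finset.prod_pos fun i hi => norm_pos_iff.2
      (sub_ne_zero.2 fun h => (Finset.mem_erase.1 hi).1 (hinj h).symm))
  have h1 : 0 < Φ ζ := h0.trans_le (hmax fun j _ => hζ₀ j)
  have hsplit : ∀ (ξ : Fin n → Z) (j : Fin n), Φ ξ =
      (w (ξ j) * row Finset.univ (fun j => p (ξ j)) j (p (ξ j))) ^ 2 *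
        ((∏ i ∈ Finset.univ.erase j, w (ξ i) ^ 2) *
          PP (Finset.univ.erase j) fun j i => ‖p (ξ j) - p (ξ i)‖) := by
    intro ξ j
    simp only [hΦ]
    rw [PP_erase (fun i j => norm_sub_rev _ _) (Finset.mem_univ j),
      ← Finset.mul_prod_erase _ _ (Finset.mem_univ j), row]
    ring
  refine ⟨ζ, fun j => hζ j (mem_univ _), fun i j h => ?_, fun j z hz => ?_⟩
  · by_contra hne
    refine h1.ne' (mul_eq_zero_of_right _ (Finset.prod_eq_zero (Finset.mem_univ i)
      (Finset.prod_eq_zero (Finset.mem_erase.2 ⟨Ne.symm hne, Finset.mem_univ j⟩) ?_)))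
    change ‖p (ζ i) - p (ζ j)‖ = 0
    rw [show p (ζ i) = p (ζ j) from h, sub_self, norm_zero]
  · have h2 : Φ (Function.update ζ j z) ≤ Φ ζ := hmax fun i _ => by
      rcases eq_or_ne i j with rfl | h
      · simpa using hz
      · simpa [h] using hζ i (mem_univ _)
    have hu : ∀ i ∈ Finset.univ.erase j, Function.update ζ j z i = ζ i := fun i hi =>
      Function.update_of_ne (Finset.mem_erase.1 hi).1 _ _
    rw [hsplit _ j, hsplit ζ j, Finset.prod_congr rfl fun i hi => by rw [hu i hi],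
      PP_congr (l := fun j i => ‖p (ζ j) - p (ζ i)‖) fun i hi l hl => by rw [hu i hi, hu l hl],
      Function.update_self, row, Finset.prod_congr rfl fun i hi => by rw [hu i hi]] at h2
    rw [hsplit ζ j] at h1
    exact le_of_sq_le_sq₀' (le_of_mul_le_mul_right h2 (pos_of_mul_pos_of_nonneg_left h1
      (sq_nonneg _))) (mul_nonneg (hw0 _).le (row_nonneg _ _ _ _))
where
  le_of_sq_le_sq₀' {a b : ℝ} (h : a ^ 2 ≤ b ^ 2) (hb : 0 ≤ b) : a ≤ b := le_of_sq_le_sq h hb
  pos_of_mul_pos_of_nonneg_left {a b : ℝ} (h : 0 < a * b) (ha : 0 ≤ a) : 0 < b :=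
    (pos_iff_pos_of_mul_pos h).1 (lt_of_le_of_ne ha fun e => by simp [← e] at h)

lemma le_sum_row {S : Finset ι} (hS : S.Nonempty) {x : ι → ℂ} (hx : InjOn x S) {μ : ℝ}
    (hμ : ∀ j ∈ S, μ ≤ row S x j (x j)) (w : ℂ) : μ ≤ ∑ j ∈ S, row S x j w := by
  rcases le_or_gt μ 0 with h0 | h0
  · exact h0.trans (Finset.sum_nonneg fun _ _ => row_nonneg _ _ _ _)
  have h1 := congrArg (fun P => ‖eval w P‖) (Lagrange.sum_basis hx hS)
  simp only [eval_finsetSum, eval_one, norm_one] at h1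
  have h2 : ∀ j ∈ S, μ * ‖eval w (Lagrange.basis S x j)‖ ≤ row S x j w := by
    intro j hj
    have e : ‖eval w (Lagrange.basis S x j)‖ = (row S x j (x j))⁻¹ * row S x j w := by
      simp [Lagrange.basis, Lagrange.basisDivisor, eval_prod, row, Finset.prod_mul_distrib]
    rw [e, ← mul_assoc]
    exact mul_le_of_le_one_left (row_nonneg _ _ _ _)
      (mul_inv_le_one_of_le₀ (hμ j hj) (row_nonneg _ _ _ _))
  calc μ = μ * ‖∑ j ∈ S, eval w (Lagrange.basis S x j)‖ := by rw [h1, mul_one]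
    _ ≤ μ * ∑ j ∈ S, ‖eval w (Lagrange.basis S x j)‖ := by gcongr; exact norm_sum_le _ _
    _ ≤ _ := by rw [Finset.mul_sum]; exact Finset.sum_le_sum h2

lemma le_card_mul_row {S : Finset ι} {x : ι → ℂ} (hx : InjOn x S) {μ : ℝ}
    (hμ : ∀ j ∈ S, μ ≤ row S x j (x j)) {w : ℂ} {j₀ : ι} (h₀ : j₀ ∈ S)
    (hn : ∀ j ∈ S, ‖w - x j₀‖ ≤ ‖w - x j‖) : μ ≤ S.card * row S x j₀ w := by
  refine (le_sum_row ⟨j₀, h₀⟩ hx hμ w).trans ?_
  rw [← nsmul_eq_mul]
  refine Finset.sum_le_card_nsmul _ _ _ fun j hj => ?_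
  rcases eq_or_ne j j₀ with rfl | h
  · exact le_rfl
  · rw [row, row, ← Finset.mul_prod_erase _ _ (Finset.mem_erase.2 ⟨h.symm, h₀⟩),
      ← Finset.mul_prod_erase _ _ (Finset.mem_erase.2 ⟨h, hj⟩), Finset.erase_right_comm]
    exact mul_le_mul_of_nonneg_right (hn j hj) (Finset.prod_nonneg fun _ _ => norm_nonneg _)

lemma mul_le_card_mul_prod {S : Finset ι} (hS : S.Nonempty) {x : ι → ℂ} (hx : InjOn x S) {μ : ℝ}
    (hμ : ∀ j ∈ S, μ ≤ row S x j (x j)) {w : ℂ} {d : ℝ} (hd : 0 ≤ d)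
    (hw : ∀ j ∈ S, d ≤ ‖w - x j‖) : μ * d ≤ S.card * ∏ i ∈ S, ‖w - x i‖ := by
  obtain ⟨j₀, h₀, hn⟩ := S.exists_min_image (fun j => ‖w - x j‖) hS
  rw [← Finset.mul_prod_erase _ _ h₀, mul_comm ‖w - x j₀‖, ← mul_assoc]
  exact mul_le_mul (le_card_mul_row hx hμ h₀ hn) (hw j₀ h₀) hd
    (mul_nonneg (Nat.cast_nonneg _) (row_nonneg _ _ _ _))

lemma exists_row_le {S : Finset ι} {x : ι → ℂ} (hx : InjOn x S) {T : ℂ[X]} (hT : T.Monic)
    (hd : S.card = T.natDegree + 1) {M : ℝ} (hM : ∀ j ∈ S, ‖T.eval (x j)‖ ≤ M) :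
    ∃ j ∈ S, row S x j (x j) ≤ S.card * M := by
  have hS : S.Nonempty := Finset.card_pos.1 (by omega)
  obtain ⟨j₀, h₀, hn⟩ := S.exists_min_image (fun j => row S x j (x j)) hS
  refine ⟨j₀, h₀, ?_⟩
  have h1 := congrArg norm (Lagrange.leadingCoeff_eq_sum hx (P := T)
    (by rw [degree_eq_natDegree hT.ne_zero, hd]; rfl))
  rw [hT.leadingCoeff, norm_one] at h1
  calc _ = row S x j₀ (x j₀) * ‖∑ i ∈ S, T.eval (x i) / ∏ j ∈ S.erase i, (x i - x j)‖ := by
        rw [← h1, mul_one]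
    _ ≤ row S x j₀ (x j₀) * ∑ i ∈ S, ‖T.eval (x i) / ∏ j ∈ S.erase i, (x i - x j)‖ :=
        mul_le_mul_of_nonneg_left (norm_sum_le _ _) (row_nonneg _ _ _ _)
    _ ≤ _ := by
        rw [Finset.mul_sum, ← nsmul_eq_mul]
        refine Finset.sum_le_card_nsmul _ _ _ fun j hj => ?_
        rw [norm_div, norm_prod, mul_div_left_comm]
        refine (mul_le_of_le_one_right (norm_nonneg _) ?_).trans (hM j hj)
        exact div_le_one_of_le₀ (hn j hj) (row_nonneg _ _ _ _)

lemma exists_rev {T : ℂ[X]} (hT : T.Monic) (b : ℂ) : ∃ q : ℂ → ℂ, Differentiable ℂ q ∧ q 0 = 1 ∧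
    ∀ z, z ≠ 0 → q z = z ^ T.natDegree * T.eval (b + z⁻¹) := by
  refine ⟨fun z => (taylor b T).reverse.eval z, Polynomial.differentiable _, ?_, fun z hz => ?_⟩
  · change eval 0 (taylor b T).reverse = 1
    rw [← coeff_zero_eq_eval_zero, coeff_zero_reverse, leadingCoeff_taylor, hT.leadingCoeff]
  · have := invertibleOfNonzero (inv_ne_zero hz)
    have h := eval₂_reverse_mul_pow (RingHom.id ℂ) z⁻¹ (taylor b T)
    rw [invOf_eq_inv, inv_inv, eval₂_id, eval₂_id, natDegree_taylor, taylor_eval, add_comm] at h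
    rw [← h, mul_left_comm, ← mul_pow, mul_inv_cancel₀ hz, one_pow, mul_one]

theorem exists_row_le_of_thick {Y : Set ℂ} {T : ℂ[X]} (hT : T.Monic) (hm : 0 < T.natDegree)
    {s τ : ℝ} (hs : 0 ≤ s) (hτ : 0 < τ) (hY : ∀ w ∈ Y, ‖T.eval w‖ ≤ s ^ T.natDegree)
    {S : Finset ι} (hS : S.Nonempty) {x : ι → ℂ} (hx : InjOn x S)
    (hb : ∀ j ∈ S, closedBall (x j) τ ⊆ Y) :
    ∃ j ∈ S, row S x j (x j) ≤ S.card / τ * s ^ S.card := by
  obtain ⟨j₀, h₀, hn⟩ := S.exists_min_image (fun j => row S x j (x j)) hS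
  refine ⟨j₀, h₀, ?_⟩
  set μ := row S x j₀ (x j₀) with hμ
  have hμ0 : 0 < μ := Finset.prod_pos fun i hi => norm_pos_iff.2 (sub_ne_zero.2 fun h =>
    (Finset.mem_erase.1 hi).1 (hx (Finset.mem_of_mem_erase hi) h₀ h.symm))
  obtain ⟨q, hq, hq0, hqT⟩ := exists_rev hT (x j₀)
  set W : Set ℂ := {z | ∀ j ∈ S, τ * ‖z‖ < ‖1 - (x j - x j₀) * z‖} with hW
  have hWo : IsOpen W := by
    have : W = ⋂ j ∈ S, {z | τ * ‖z‖ < ‖1 - (x j - x j₀) * z‖} := by ext z; simp [hW]
    rw [this]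
    exact isOpen_biInter_finset fun j _ => isOpen_lt (by fun_prop) (by fun_prop)
  have hWb : Bornology.IsBounded W := (isBounded_ball (x := 0) (r := τ⁻¹)).subset fun z hz => by
    have := hz j₀ h₀
    rw [sub_self, zero_mul, sub_zero, norm_one] at this
    rw [mem_ball_zero_iff, ← one_div, lt_div_iff₀' hτ]
    exact this
  have hcl : ∀ z ∈ closure W, ∀ j ∈ S, τ * ‖z‖ ≤ ‖1 - (x j - x j₀) * z‖ := fun z hz j hj =>
    closure_minimal (t := {z | τ * ‖z‖ ≤ ‖1 - (x j - x j₀) * z‖}) (fun y hy => (hy j hj).le)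
      (isClosed_le (by fun_prop) (by fun_prop)) hz
  have hne : ∀ z ∈ closure W, ∏ j ∈ S, (1 - (x j - x j₀) * z) ≠ 0 := fun z hz =>
    Finset.prod_ne_zero_iff.2 fun j hj h => by
      have h1 := hcl z hz j hj
      rw [h, norm_zero] at h1
      have h2 : z = 0 := norm_le_zero_iff.1 (nonpos_of_mul_nonpos_right h1 hτ)
      simp [h2] at h
  have key := Complex.norm_le_of_forall_mem_frontier_norm_le hWb
    (f := fun z => q z ^ S.card / (∏ j ∈ S, (1 - (x j - x j₀) * z)) ^ T.natDegree)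
    (DifferentiableOn.diffContOnCl fun z hz => (DifferentiableAt.fun_div (𝕜 := ℂ)
      (c := fun z => q z ^ S.card) (d := fun z => (∏ j ∈ S, (1 - (x j - x j₀) * z)) ^ T.natDegree)
      (by fun_prop) (by fun_prop) (pow_ne_zero _ (hne z hz))).differentiableWithinAt)
    (C := (s ^ S.card * (S.card / τ / μ)) ^ T.natDegree) (fun z hz => by
      rw [hWo.frontier_eq] at hz
      have hz0 : z ≠ 0 := by
        rintro rfl
        exact hz.2 fun j _ => by simp
      have hzp : 0 < ‖z‖ := norm_pos_iff.2 hz0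
      have e : ∀ j, ‖1 - (x j - x j₀) * z‖ = ‖z‖ * ‖x j₀ + z⁻¹ - x j‖ := fun j => by
        rw [← norm_mul]; congr 1; field_simp; ring
      have h1 : ∀ j ∈ S, τ ≤ ‖x j₀ + z⁻¹ - x j‖ := fun j hj => by
        have := hcl z hz.1 j hj
        rw [e, mul_comm] at this
        exact le_of_mul_le_mul_left this hzp
      obtain ⟨j, hj, h2⟩ : ∃ j ∈ S, ‖x j₀ + z⁻¹ - x j‖ ≤ τ := by
        by_contra h
        push Not at h
        exact hz.2 fun j hj => by rw [e, mul_comm]; exact mul_lt_mul_of_pos_left (h j hj) hzp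
      have h3 := hY _ (hb j hj (mem_closedBall_iff_norm.2 h2))
      have h4 := mul_le_card_mul_prod hS hx hn hτ.le h1
      have h5 : 0 < ∏ i ∈ S, ‖x j₀ + z⁻¹ - x i‖ := Finset.prod_pos fun i hi => hτ.trans_le (h1 i hi)
      rw [norm_div, norm_pow, norm_pow, norm_prod, hqT z hz0, norm_mul, norm_pow]
      simp only [e, Finset.prod_mul_distrib, Finset.prod_const]
      rw [mul_pow, mul_pow, ← pow_mul, ← pow_mul, mul_comm T.natDegree,
        mul_div_mul_left _ _ (by positivity), div_eq_mul_inv, ← inv_pow, mul_pow, ← pow_mul,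
        mul_comm S.card, pow_mul]
      gcongr
      rw [inv_eq_one_div, div_div, div_le_div_iff₀ h5 (by positivity)]
      linarith) (z := 0) (subset_closure fun j _ => by simp)
  simp only [hq0, one_pow, mul_zero, sub_zero, Finset.prod_const_one, div_one, norm_one] at key
  have h6 := (one_le_pow_iff_of_nonneg (by positivity) hm.ne').1 key
  rw [← mul_div_assoc, le_div_iff₀ hμ0] at h6
  linarith

theorem PP_le_of_thick {Y : Set ℂ} {T : ℂ[X]} (hT : T.Monic) (hm : 0 < T.natDegree)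
    {s τ : ℝ} (hs : 0 ≤ s) (hτ : 0 < τ) (hY : ∀ w ∈ Y, ‖T.eval w‖ ≤ s ^ T.natDegree) (x : ι → ℂ)
    (n : ℕ) : ∀ S : Finset ι, S.card = n → (∀ j ∈ S, closedBall (x j) τ ⊆ Y) →
      PP S (fun j i => ‖x j - x i‖) ≤ (n / τ) ^ (2 * n) * s ^ (n * (n + 1)) := by
  induction n with
  | zero => intro S hS _; simp [PP, Finset.card_eq_zero.1 hS]
  | succ n ih =>
    intro S hS hb
    by_cases hx : InjOn x S
    · obtain ⟨j, hj, h⟩ := exists_row_le_of_thick hT hm hs hτ hY
        (Finset.card_pos.1 (by omega)) hx hb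
      rw [PP_erase (fun _ _ => norm_sub_rev _ _) hj]
      rw [hS] at h
      calc _ ≤ ((n + 1 : ℕ) / τ * s ^ (n + 1)) ^ 2 * (((n + 1 : ℕ) / τ) ^ (2 * n) *
            s ^ (n * (n + 1))) := by
            refine mul_le_mul (pow_le_pow_left₀ (row_nonneg _ _ _ _) h 2)
              ((ih _ (by rw [Finset.card_erase_of_mem hj, hS]; rfl)
                fun i hi => hb i (Finset.mem_of_mem_erase hi)).trans ?_)
              (PP_nonneg fun _ _ => norm_nonneg _) (by positivity)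
            gcongr
            omega
        _ = _ := by ring
    · simp only [InjOn, not_forall] at hx
      obtain ⟨i, hi, j, hj, e, hne⟩ := hx
      rw [PP, Finset.prod_eq_zero hi (Finset.prod_eq_zero (Finset.mem_erase.2 ⟨Ne.symm hne, hj⟩)
        (by rw [e, sub_self, norm_zero]))]
      positivity

omit [DecidableEq ι] in
lemma exists_move {q : ℂ → ℂ} (hq : Differentiable ℂ q) (S : Finset ι) (x : ι → ℂ) (c : ℂ) {τ : ℝ}
    (hτ : 0 < τ) : ∃ u ∈ closedBall c τ,
      ‖q c‖ * ∏ i ∈ S, max ‖c - x i‖ τ ≤ ‖q u‖ * ∏ i ∈ S, ‖u - x i‖ := by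
  set β : ι → ℂ → ℂ := fun i u =>
    if τ ≤ ‖c - x i‖ then u - x i else (τ ^ 2 - conj (x i - c) * (u - c)) / τ with hβ
  have hd : ∀ i, Differentiable ℂ (β i) := fun i => by
    by_cases h : τ ≤ ‖c - x i‖ <;> simp only [hβ, h, if_true, if_false] <;> fun_prop
  obtain ⟨u, hu, hmax⟩ := Complex.exists_mem_frontier_isMaxOn_norm (isBounded_ball (x := c) (r := τ))
    (nonempty_ball.2 hτ) (f := fun u => q u * ∏ i ∈ S, β i u)
    (Differentiable.diffContOnCl (by fun_prop))
  rw [frontier_ball c hτ.ne'] at hu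
  refine ⟨u, sphere_subset_closedBall hu, ?_⟩
  have h1 : ‖q c * ∏ i ∈ S, β i c‖ ≤ ‖q u * ∏ i ∈ S, β i u‖ :=
    hmax (subset_closure (mem_ball_self hτ))
  rw [norm_mul, norm_mul, norm_prod, norm_prod] at h1
  convert h1 using 3 with i _ i _
  · by_cases h : τ ≤ ‖c - x i‖
    · simp only [hβ, h, if_true, max_eq_left h]
    · simp only [hβ, h, if_false, max_eq_right (not_le.1 h).le, sub_self, mul_zero, sub_zero,
        norm_div, norm_pow, Complex.norm_real, Real.norm_of_nonneg hτ.le]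
      field_simp
  · by_cases h : τ ≤ ‖c - x i‖
    · simp only [hβ, h, if_true]
    · have h2 : ‖u - c‖ = τ := mem_sphere_iff_norm.1 hu
      have h3 : (τ : ℂ) ^ 2 = conj (u - c) * (u - c) := by
        rw [Complex.conj_mul', h2]
      simp only [hβ, h, if_false]
      rw [h3, ← sub_mul, ← map_sub, norm_div, norm_mul, h2, Complex.norm_conj, Complex.norm_real,
        Real.norm_of_nonneg hτ.le, mul_div_cancel_right₀ _ hτ.ne', sub_sub_sub_cancel_right]

lemma exists_spread (x : ι → ℂ) {τ : ℝ} (hτ : 0 < τ) (S : Finset ι) :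
    ∀ q : ℂ → ℂ, Differentiable ℂ q → ∃ y : ι → ℂ, (∀ j, y j ∈ closedBall (x j) τ) ∧
      PP S (fun j i => max ‖x j - x i‖ τ) * (∏ j ∈ S, ‖q (x j)‖) ^ 2 ≤
        PP S (fun j i => ‖y j - y i‖) * (∏ j ∈ S, ‖q (y j)‖) ^ 2 := by
  induction S using Finset.induction_on with
  | empty => exact fun q _ => ⟨x, fun j => mem_closedBall_self hτ.le, by simp [PP]⟩
  | insert j₀ S hj₀ ih =>
    intro q hq
    obtain ⟨u, hu, h1⟩ := exists_move hq S x (x j₀) hτ
    obtain ⟨y, hy, h2⟩ := ih (fun w => q w * (u - w)) (by fun_prop)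
    have hup : ∀ i ∈ S, Function.update y j₀ u i = y i := fun i hi =>
      Function.update_of_ne (fun h : i = j₀ => hj₀ (h ▸ hi)) _ _
    refine ⟨Function.update y j₀ u, fun j => ?_, ?_⟩
    · rcases eq_or_ne j j₀ with rfl | h
      · simpa using hu
      · simpa [h] using hy j
    · rw [PP_erase (fun i j => by rw [norm_sub_rev]) (Finset.mem_insert_self j₀ S),
        PP_erase (fun i j => by rw [norm_sub_rev]) (Finset.mem_insert_self j₀ S),
        Finset.erase_insert hj₀, Finset.prod_insert hj₀, Finset.prod_insert hj₀,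
        Function.update_self, Finset.prod_congr (f := fun i => ‖u - Function.update y j₀ u i‖) rfl
          fun i hi => by rw [hup i hi],
        PP_congr (k := fun j i => ‖Function.update y j₀ u j - Function.update y j₀ u i‖)
          (l := fun j i => ‖y j - y i‖) fun i hi l hl => by rw [hup i hi, hup l hl],
        Finset.prod_congr (f := fun j => ‖q (Function.update y j₀ u j)‖) rfl
          fun i hi => by rw [hup i hi]]
      simp only [norm_mul, Finset.prod_mul_distrib] at h2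
      have h3 : 0 ≤ PP S fun j i => max ‖x j - x i‖ τ :=
        PP_nonneg fun _ _ => le_max_of_le_right hτ.le
      calc _ = (‖q (x j₀)‖ * ∏ i ∈ S, max ‖x j₀ - x i‖ τ) ^ 2 *
            ((PP S fun j i => max ‖x j - x i‖ τ) * (∏ j ∈ S, ‖q (x j)‖) ^ 2) := by ring
        _ ≤ (‖q u‖ * ∏ i ∈ S, ‖u - x i‖) ^ 2 *
            ((PP S fun j i => max ‖x j - x i‖ τ) * (∏ j ∈ S, ‖q (x j)‖) ^ 2) := by
            gcongr
        _ = ‖q u‖ ^ 2 * ((PP S fun j i => max ‖x j - x i‖ τ) *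
            ((∏ j ∈ S, ‖q (x j)‖) * ∏ i ∈ S, ‖u - x i‖) ^ 2) := by ring
        _ ≤ ‖q u‖ ^ 2 * ((PP S fun j i => ‖y j - y i‖) *
            ((∏ j ∈ S, ‖q (y j)‖) * ∏ i ∈ S, ‖u - y i‖) ^ 2) := by gcongr
        _ = _ := by ring

/-- discrete energy inequality -/
theorem energy {Y : Set ℂ} {T : ℂ[X]} (hT : T.Monic) (hm : 0 < T.natDegree)
    {s τ : ℝ} (hs : 0 ≤ s) (hτ : 0 < τ) (hY : ∀ w ∈ Y, ‖T.eval w‖ ≤ s ^ T.natDegree) {x : ι → ℂ}
    {S : Finset ι} (hb : ∀ j ∈ S, closedBall (x j) (2 * τ) ⊆ Y) :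
    PP S (fun j i => max ‖x j - x i‖ τ) ≤
      (S.card / τ) ^ (2 * S.card) * s ^ (S.card * (S.card + 1)) := by
  obtain ⟨y, hy, h⟩ := exists_spread x hτ S (fun _ => 1) (by fun_prop)
  simp only [norm_one, Finset.prod_const_one, one_pow, mul_one] at h
  refine h.trans (PP_le_of_thick hT hm hs hτ hY y _ S rfl fun j hj => Subset.trans ?_ (hb j hj))
  exact closedBall_subset_closedBall' (by linarith [mem_closedBall.1 (hy j)])

lemma row_le_of_subset {S S' : Finset ι} (h : S ⊆ S') {k : ι → ℝ} {A : ℝ}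
    (h0 : ∀ i, 0 ≤ k i) (hk : ∀ i ∈ S', k i ≤ A) (j : ι) (hj : j ∈ S) :
    ∏ i ∈ S'.erase j, k i ≤ A ^ (S' \ S).card * ∏ i ∈ S.erase j, k i := by
  rw [← Finset.prod_sdiff (Finset.erase_subset_erase j h)]
  refine mul_le_mul_of_nonneg_right ?_ (Finset.prod_nonneg fun _ _ => h0 _)
  have e : S'.erase j \ S.erase j = S' \ S := by
    ext i
    simp only [Finset.mem_sdiff, Finset.mem_erase]
    constructor
    · rintro ⟨⟨h1, h2⟩, h3⟩; exact ⟨h2, fun h4 => h3 ⟨h1, h4⟩⟩
    · rintro ⟨h1, h2⟩; exact ⟨⟨fun h3 => h2 (h3 ▸ hj), h1⟩, fun h3 => h2 h3.2⟩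
  rw [e, ← Finset.prod_const]
  exact Finset.prod_le_prod (fun _ _ => h0 _) fun i hi => hk i (Finset.mem_sdiff.1 hi).1

lemma PP_le_of_subset {S S' : Finset ι} (h : S ⊆ S') {k : ι → ι → ℝ} {A : ℝ} (hA : 1 ≤ A)
    (h0 : ∀ i j, 0 ≤ k i j) (hk : ∀ j ∈ S', ∀ i ∈ S', k j i ≤ A) :
    PP S' k ≤ A ^ (2 * S'.card * (S' \ S).card) * PP S k := by
  have hA0 : 0 ≤ A := by linarith
  rw [PP, ← Finset.prod_sdiff h]
  calc _ ≤ (∏ _j ∈ S' \ S, A ^ S'.card) * ∏ j ∈ S, (A ^ (S' \ S).card * ∏ i ∈ S.erase j, k j i) := by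
        refine mul_le_mul (Finset.prod_le_prod (fun _ _ => Finset.prod_nonneg fun _ _ => h0 _ _)
          fun j hj => ?_) (Finset.prod_le_prod (fun _ _ => Finset.prod_nonneg fun _ _ => h0 _ _)
          fun j hj => row_le_of_subset h (h0 j) (hk j (h hj)) j hj)
          (Finset.prod_nonneg fun _ _ => Finset.prod_nonneg fun _ _ => h0 _ _) (by positivity)
        calc _ ≤ ∏ _i ∈ S'.erase j, A := Finset.prod_le_prod (fun _ _ => h0 _ _) fun i hi =>
              hk j (Finset.mem_sdiff.1 hj).1 i (Finset.mem_of_mem_erase hi)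
          _ ≤ _ := by
              rw [Finset.prod_const]; exact pow_le_pow_right₀ hA Finset.card_erase_le
    _ = A ^ (S'.card * (S' \ S).card + (S' \ S).card * S.card) * PP S k := by
        rw [Finset.prod_mul_distrib, Finset.prod_const, Finset.prod_const, PP]; ring
    _ ≤ _ := by
        refine mul_le_mul_of_nonneg_right (pow_le_pow_right₀ hA ?_) (PP_nonneg h0)
        have := Nat.mul_le_mul_left (S' \ S).card (Finset.card_le_card h)
        nlinarith

end Pool.Agent.MP_13a571_an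

end MrgPart0

-- ======== part 1: formerly Pool.Agent.MP_13a571_an.Cap
section MrgPart1

/-!
Elementary properties of the two capacities.
-/

open Set Filter Topology Metric Polynomial Bornology

namespace Pool.Agent.MP_13a571_an

lemma logCap_nonneg (X : Set ℂ) : 0 ≤ logCap X := Real.sInf_nonneg fun _ h => h.1

lemma logCap_le {X : Set ℂ} {P : ℂ[X]} (hP : P.Monic) (hd : 0 < P.natDegree) {s : ℝ} (hs : 0 ≤ s)
    (h : ∀ w ∈ X, ‖P.eval w‖ ≤ s ^ P.natDegree) : logCap X ≤ s :=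
  csInf_le ⟨0, fun _ h => h.1⟩ ⟨hs, P, hP, hd, h⟩

lemma logCap_pow_le {X : Set ℂ} (hne : X.Nonempty) {P : ℂ[X]} (hP : P.Monic) {M : ℝ}
    (h : ∀ w ∈ X, ‖P.eval w‖ ≤ M) : logCap X ^ P.natDegree ≤ M := by
  obtain ⟨w, hw⟩ := hne
  have hM : 0 ≤ M := (norm_nonneg _).trans (h w hw)
  rcases P.natDegree.eq_zero_or_pos with h0 | h0
  · have := h w hw
    rw [hP.natDegree_eq_zero.1 h0] at this ⊢
    simpa using this
  · rw [← Real.rpow_inv_natCast_pow hM h0.ne']
    exact pow_le_pow_left₀ (logCap_nonneg X) (logCap_le hP h0 (by positivity) fun w hw => by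
      rw [Real.rpow_inv_natCast_pow hM h0.ne']; exact h w hw) _

lemma logCap_pow_le_row {ι : Type} [DecidableEq ι] {X : Set ℂ} (hne : X.Nonempty) {S : Finset ι}
    {x : ι → ℂ} {j : ι} (hj : j ∈ S) {M : ℝ} (h : ∀ w ∈ X, row S x j w ≤ M) :
    logCap X ^ (S.card - 1) ≤ M := by
  have := logCap_pow_le hne (P := Lagrange.nodal (S.erase j) x) Lagrange.nodal_monic (M := M)
    fun w hw => by rw [Lagrange.eval_nodal, norm_prod]; exact h w hw
  rwa [Lagrange.natDegree_nodal, Finset.card_erase_of_mem hj] at this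

lemma exists_of_logCap_lt {X : Set ℂ} (hX : IsBounded X) {s : ℝ} (h : logCap X < s) :
    ∃ T : ℂ[X], T.Monic ∧ 0 < T.natDegree ∧ ∀ w ∈ X, ‖T.eval w‖ < s ^ T.natDegree := by
  obtain ⟨R, hR0, hR⟩ := hX.subset_closedBall_lt 0 0
  obtain ⟨s', ⟨h0, T, hT, hd, hb⟩, hs'⟩ := exists_lt_of_csInf_lt
    (Set.nonempty_of_mem (x := R) (by
      exact ⟨hR0.le, Polynomial.X, monic_X, by simp, fun w hw => by simpa using hR hw⟩)) h
  exact ⟨T, hT, hd, fun w hw => (hb w hw).trans_lt (pow_lt_pow_left₀ hs' h0 hd.ne')⟩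

lemma logCap_mono {X Y : Set ℂ} (h : X ⊆ Y) (hY : IsBounded Y) : logCap X ≤ logCap Y :=
  le_of_forall_gt_imp_ge_of_dense fun s hs => by
    obtain ⟨T, hT, hd, hb⟩ := exists_of_logCap_lt hY hs
    exact logCap_le hT hd ((logCap_nonneg Y).trans hs.le) fun w hw => (hb w (h hw)).le

lemma exists_cthickening_of_logCap_lt {X : Set ℂ} (hX : IsCompact X) {s : ℝ} (h : logCap X < s) :
    ∃ τ : ℝ, 0 < τ ∧ ∃ T : ℂ[X], T.Monic ∧ 0 < T.natDegree ∧
      ∀ w ∈ cthickening τ X, ‖T.eval w‖ ≤ s ^ T.natDegree := by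
  obtain ⟨T, hT, hd, hb⟩ := exists_of_logCap_lt hX.isBounded h
  obtain ⟨τ, hτ, hsub⟩ := hX.exists_cthickening_subset_open
    (t := {w | ‖T.eval w‖ < s ^ T.natDegree}) (isOpen_lt (by fun_prop) continuous_const) hb
  exact ⟨τ, hτ, T, hT, hd, fun w hw => (hsub hw).le⟩

lemma infinite_of_logCap_pos {X : Set ℂ} (h : 0 < logCap X) : X.Infinite := by
  intro hf
  refine h.not_ge (logCap_le (P := Lagrange.nodal (insert 0 hf.toFinset) id) Lagrange.nodal_monic
    (by rw [Lagrange.natDegree_nodal]; exact Finset.card_pos.2 (Finset.insert_nonempty _ _))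
    le_rfl fun w hw => ?_)
  have := Lagrange.eval_nodal_at_node (s := insert 0 hf.toFinset) (v := id) (i := w)
    (Finset.mem_insert_of_mem (hf.mem_toFinset.2 hw))
  rw [id] at this
  rw [this, norm_zero]
  positivity

lemma exists_all_degrees {X : Set ℂ} (hX : IsBounded X) {s : ℝ} (h : logCap X < s) :
    ∃ C : ℝ, 0 < C ∧ ∀ n : ℕ, ∃ P : ℂ[X], P.Monic ∧ P.natDegree = n ∧
      ∀ w ∈ X, ‖P.eval w‖ ≤ C * s ^ n := by
  have hs : 0 < s := (logCap_nonneg X).trans_lt h
  obtain ⟨R, hR0, hR⟩ := hX.subset_closedBall_lt 0 0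
  obtain ⟨T, hT, hd, hb⟩ := exists_of_logCap_lt hX h
  refine ⟨(1 + R / s) ^ T.natDegree, by positivity, fun n =>
    ⟨T ^ (n / T.natDegree) * Polynomial.X ^ (n % T.natDegree), (hT.pow _).mul (monic_X.pow _), ?_,
      fun w hw => ?_⟩⟩
  · rw [(hT.pow _).natDegree_mul (monic_X.pow _), hT.natDegree_pow, natDegree_X_pow]
    exact Nat.div_add_mod' _ _
  · have h1 : ‖w‖ ≤ (1 + R / s) * s := by
      rw [add_mul, div_mul_cancel₀ _ hs.ne']
      linarith [mem_closedBall_zero_iff.1 (hR hw)]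
    have h2 : 1 ≤ 1 + R / s := le_add_of_nonneg_right (by positivity)
    rw [eval_mul, eval_pow, eval_pow, eval_X, norm_mul, norm_pow, norm_pow]
    calc _ ≤ (s ^ T.natDegree) ^ (n / T.natDegree) * ((1 + R / s) * s) ^ (n % T.natDegree) := by
          gcongr; exact (hb w hw).le
      _ = (1 + R / s) ^ (n % T.natDegree) * s ^ n := by
          conv_rhs => rw [← Nat.div_add_mod n T.natDegree]
          rw [Nat.div_add_mod, mul_pow, ← pow_mul, mul_left_comm, ← pow_add, Nat.div_add_mod]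
      _ ≤ _ := by gcongr; exact (Nat.mod_lt _ hd).le

lemma tendsto_inv_cocompact (b : ℂ) :
    Tendsto (fun z : ℂ => b + z⁻¹) (𝓝[≠] 0) (cocompact ℂ) := by
  rw [← cobounded_eq_cocompact]
  exact (tendsto_const_add_cobounded b).comp tendsto_inv₀_nhdsNE_zero

lemma tendsto_zero_of_mul {φ : ℂ → ℂ} {c : ℂ}
    (h : Tendsto (fun w => w * φ w) (cocompact ℂ) (𝓝 c)) : Tendsto φ (cocompact ℂ) (𝓝 0) := by
  rw [← cobounded_eq_cocompact] at *
  have := (tendsto_inv₀_cobounded (α := ℂ)).mul h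
  rw [zero_mul] at this
  refine this.congr' ?_
  filter_upwards [(isBounded_singleton (x := (0 : ℂ))).compl] with w hw
  rw [inv_mul_cancel_left₀ (by simpa using hw)]

open Classical in
/-- the function `(w - b) φ(w)` in the coordinate `z = 1 / (w - b)` -/
noncomputable def chart (φ : ℂ → ℂ) (b c : ℂ) (z : ℂ) : ℂ := if z = 0 then c else z⁻¹ * φ (b + z⁻¹)

lemma chart_zero (φ : ℂ → ℂ) (b c : ℂ) : chart φ b c 0 = c := by simp [chart]

lemma chart_of_ne (φ : ℂ → ℂ) (b c : ℂ) {z : ℂ} (h : z ≠ 0) :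
    chart φ b c z = z⁻¹ * φ (b + z⁻¹) := by simp [chart, h]

lemma analyticAt_chart {φ : ℂ → ℂ} {X : Set ℂ} (hX : IsBounded X) (hφ : AnalyticOnNhd ℂ φ Xᶜ)
    {c : ℂ} (h : Tendsto (fun w => w * φ w) (cocompact ℂ) (𝓝 c)) (b : ℂ) {z : ℂ}
    (hz : z = 0 ∨ b + z⁻¹ ∉ X) : AnalyticAt ℂ (chart φ b c) z := by
  have key : ∀ z, z ≠ 0 → b + z⁻¹ ∉ X → AnalyticAt ℂ (chart φ b c) z := by
    intro z h0 hz
    have h1 : AnalyticAt ℂ (fun z : ℂ => z⁻¹) z := analyticAt_id.inv h0
    refine (h1.mul ((hφ _ hz).fun_comp_of_eq (analyticAt_const.add h1) rfl)).congr ?_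
    filter_upwards [isOpen_ne.mem_nhds h0] with y hy
    exact (chart_of_ne φ b c hy).symm
  rcases eq_or_ne z 0 with rfl | h0
  · refine Complex.analyticAt_of_differentiable_on_punctured_nhds_of_continuousAt ?_ ?_
    · have : Xᶜ ∈ cocompact ℂ := by rw [← cobounded_eq_cocompact]; exact hX
      filter_upwards [self_mem_nhdsWithin, tendsto_inv_cocompact b this] with z h0 hz
      exact (key z h0 hz).differentiableAt
    · rw [← continuousWithinAt_compl_self, ContinuousWithinAt, chart_zero]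
      have := (h.sub ((tendsto_zero_of_mul h).const_mul b)).comp (tendsto_inv_cocompact b)
      rw [mul_zero, sub_zero] at this
      refine this.congr' ?_
      filter_upwards [self_mem_nhdsWithin] with z hz
      rw [chart_of_ne φ b c hz]
      simp only [Function.comp]
      ring
  · exact key z h0 (hz.resolve_left h0)

lemma norm_le_of_subset_closedBall {φ : ℂ → ℂ} {X : Set ℂ} {b : ℂ} {ρ : ℝ} (hρ : 0 < ρ)
    (hX : X ⊆ closedBall b ρ) (hφ : AnalyticOnNhd ℂ φ Xᶜ) (h1 : ∀ w ∉ X, ‖φ w‖ ≤ 1) {c : ℂ}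
    (h : Tendsto (fun w => w * φ w) (cocompact ℂ) (𝓝 c)) : ‖c‖ ≤ 2 * ρ := by
  have hout : ∀ z : ℂ, z ≠ 0 → ‖z‖ ≤ (2 * ρ)⁻¹ → b + z⁻¹ ∉ X := fun z h0 hz h2 => by
    have h3 := mem_closedBall_iff_norm.1 (hX h2)
    rw [add_sub_cancel_left, norm_inv] at h3
    have h4 := inv_anti₀ (norm_pos_iff.2 h0) hz
    rw [inv_inv] at h4
    linarith
  rw [← chart_zero φ b c]
  refine Complex.norm_le_of_forall_mem_frontier_norm_le (isBounded_ball (x := 0) (r := (2 * ρ)⁻¹))
    (DifferentiableOn.diffContOnCl fun z hz => ?_) (fun z hz => ?_)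
    (subset_closure (mem_ball_self (by positivity)))
  · rw [closure_ball _ (by positivity)] at hz
    exact (analyticAt_chart (isBounded_closedBall.subset hX) hφ h b ((eq_or_ne z 0).imp_right
      fun h0 => hout z h0 (mem_closedBall_zero_iff.1 hz))).differentiableAt.differentiableWithinAt
  · rw [frontier_ball _ (by positivity), mem_sphere_zero_iff_norm] at hz
    have h0 : z ≠ 0 := norm_pos_iff.1 (by rw [hz]; positivity)
    rw [chart_of_ne _ _ _ h0, norm_mul, norm_inv, hz, inv_inv]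
    exact mul_le_of_le_one_right (by positivity) (h1 _ (hout z h0 hz.le))

lemma anCap_bdd {X : Set ℂ} (hX : IsBounded X) :
    BddAbove {s | ∃ (f : ℂ → ℂ) (c : ℂ), AnalyticOnNhd ℂ f Xᶜ ∧ (∀ w ∉ X, ‖f w‖ ≤ 1) ∧
      Tendsto (fun w => w * f w) (cocompact ℂ) (𝓝 c) ∧ s = ‖c‖} := by
  obtain ⟨R, hR0, hR⟩ := hX.subset_closedBall_lt 0 0
  refine ⟨2 * R, ?_⟩
  rintro _ ⟨f, c, h1, h2, h3, rfl⟩
  exact norm_le_of_subset_closedBall hR0 hR h1 h2 h3

lemma anCap_nonempty (X : Set ℂ) :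
    {s | ∃ (f : ℂ → ℂ) (c : ℂ), AnalyticOnNhd ℂ f Xᶜ ∧ (∀ w ∉ X, ‖f w‖ ≤ 1) ∧
      Tendsto (fun w => w * f w) (cocompact ℂ) (𝓝 c) ∧ s = ‖c‖}.Nonempty :=
  ⟨0, fun _ => 0, 0, analyticOnNhd_const, by simp, by simp, by simp⟩

lemma anCap_nonneg (X : Set ℂ) : 0 ≤ anCap X :=
  Real.sSup_nonneg (by rintro _ ⟨f, c, -, -, -, rfl⟩; exact norm_nonneg c)

lemma norm_le_anCap {X : Set ℂ} (hX : IsBounded X) {φ : ℂ → ℂ} (hφ : AnalyticOnNhd ℂ φ Xᶜ) {M : ℝ}
    (h1 : ∀ w ∉ X, ‖φ w‖ ≤ M) {c : ℂ} (h : Tendsto (fun w => w * φ w) (cocompact ℂ) (𝓝 c)) :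
    ‖c‖ ≤ M * anCap X := by
  have key : ∀ N : ℝ, 0 < N → M ≤ N → ‖c‖ ≤ N * anCap X := by
    intro N hN hMN
    have : ‖c / N‖ ≤ anCap X := le_csSup (anCap_bdd hX) ⟨fun w => φ w / N, c / N, hφ.div_const,
      fun w hw => by
        rw [norm_div, Complex.norm_real, Real.norm_of_nonneg hN.le, div_le_one hN]
        exact (h1 w hw).trans hMN,
      by simpa only [mul_div_assoc] using h.div_const (N : ℂ), rfl⟩
    rwa [norm_div, Complex.norm_real, Real.norm_of_nonneg hN.le, div_le_iff₀' hN] at this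
  have hM : 0 ≤ M := by
    obtain ⟨w, hw⟩ := Filter.nonempty_of_mem (f := cobounded ℂ) hX
    exact (norm_nonneg _).trans (h1 w hw)
  exact ge_of_tendsto (f := fun N : ℝ => N * anCap X) (x := 𝓝[>] M)
    (((continuous_mul_const _).tendsto M).mono_left nhdsWithin_le_nhds)
    (eventually_nhdsWithin_of_forall fun N hN => key N (hM.trans_lt hN) (le_of_lt hN))

lemma anCap_mono {X Y : Set ℂ} (h : X ⊆ Y) (hY : IsBounded Y) : anCap X ≤ anCap Y := by
  refine csSup_le (anCap_nonempty X) ?_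
  rintro _ ⟨f, c, h1, h2, h3, rfl⟩
  simpa using norm_le_anCap hY (h1.mono (compl_subset_compl.2 h)) (fun w hw => h2 w fun a => hw (h a))
    h3

lemma anCap_empty : anCap ∅ = 0 := by
  refine le_antisymm (le_of_forall_pos_le_add fun ε hε => csSup_le (anCap_nonempty _) ?_)
    (anCap_nonneg _)
  rintro _ ⟨f, c, h1, h2, h3, rfl⟩
  linarith [norm_le_of_subset_closedBall (b := 0) (half_pos hε) (empty_subset _) h1 h2 h3]

lemma norm_le_anCap_div {X : Set ℂ} (hX : IsCompact X) {φ : ℂ → ℂ} (hφ : AnalyticOnNhd ℂ φ Xᶜ)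
    (h1 : ∀ w ∉ X, ‖φ w‖ ≤ 1) (h : Tendsto φ (cocompact ℂ) (𝓝 0)) {w₀ : ℂ} {d : ℝ} (hd : 0 < d)
    (hw : ∀ x ∈ X, d < ‖x - w₀‖) : ‖φ w₀‖ ≤ 2 / d * anCap X := by
  have hsub : closedBall w₀ d ⊆ Xᶜ := fun x hx h2 =>
    (hw x h2).not_ge (mem_closedBall_iff_norm.1 hx)
  have ho := hX.isClosed.isOpen_compl
  have ha : AnalyticOnNhd ℂ (dslope φ w₀) Xᶜ :=
    ((Complex.differentiableOn_dslope (ho.mem_nhds (hsub (mem_closedBall_self hd.le)))).2
      hφ.differentiableOn).analyticOnNhd ho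
  have hfar : ∀ w ∉ X, d ≤ ‖w - w₀‖ → ‖dslope φ w₀ w‖ ≤ 2 / d := fun w hw h2 => by
    rw [dslope_of_ne _ (sub_ne_zero.1 (norm_pos_iff.1 (hd.trans_le h2))), slope_def_field, norm_div]
    gcongr
    linarith [norm_sub_le (φ w) (φ w₀), h1 w hw, h1 w₀ (hsub (mem_closedBall_self hd.le))]
  rw [← norm_neg]
  refine norm_le_anCap hX.isBounded ha (fun w hw => ?_) ?_
  · rcases le_or_gt d ‖w - w₀‖ with h2 | h2
    · exact hfar w hw h2
    · refine Complex.norm_le_of_forall_mem_frontier_norm_le (isBounded_ball (x := w₀) (r := d))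
        (DifferentiableOn.diffContOnCl ?_) (fun z hz => ?_)
        (subset_closure (mem_ball_iff_norm.2 h2))
      · rw [closure_ball _ hd.ne']
        exact (ha.mono hsub).differentiableOn
      · rw [frontier_ball _ hd.ne'] at hz
        exact hfar z (hsub (sphere_subset_closedBall hz)) (mem_sphere_iff_norm.1 hz).ge
  · rw [← cobounded_eq_cocompact] at *
    have h2 := (tendsto_inv₀_cobounded (α := ℂ)).comp (tendsto_sub_const_cobounded w₀)
    have h3 := (h.sub_const (φ w₀)).mul ((h2.const_mul w₀).const_add 1)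
    simp only [zero_sub, mul_zero, add_zero, mul_one] at h3
    refine h3.congr' ?_
    filter_upwards [(isBounded_singleton (x := w₀)).compl] with w hw
    have h4 : w ≠ w₀ := by simpa using hw
    have h5 := sub_ne_zero.2 h4
    rw [dslope_of_ne _ h4, slope_def_field]
    simp only [Function.comp]
    field_simp
    ring

/-- a nearly extremal function for the analytic capacity, normalized at infinity -/
lemma exists_psi_cap {X : Set ℂ} (hX : IsCompact X) {b : ℂ} {ρ t : ℝ} (hρ : 0 < ρ)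
    (hb : X ⊆ closedBall b ρ) (ht : 0 < t) (h : t ≤ anCap X) :
    ∃ ψ : ℂ → ℂ, AnalyticOnNhd ℂ ψ Xᶜ ∧ Tendsto (fun w => w * ψ w) (cocompact ℂ) (𝓝 1) ∧
      (∀ w ∉ X, ‖ψ w‖ ≤ 2 / t) ∧
      ∀ w, 2 * ρ < ‖w - b‖ → ‖ψ w‖ * ‖w - b‖ ≤ 1 + 34 * ρ / ‖w - b‖ := by
  have hγ : 0 < anCap X := ht.trans_le h
  obtain ⟨_, ⟨φ, c, h1, h2, h3, rfl⟩, hc⟩ := exists_lt_of_lt_csSup (anCap_nonempty X)
    (show anCap X / 2 < anCap X by linarith)
  have hc0 : 0 < ‖c‖ := by linarith
  have ha : AnalyticOnNhd ℂ (fun w => φ w / c) Xᶜ := h1.div_const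
  have hl : Tendsto (fun w => w * (φ w / c)) (cocompact ℂ) (𝓝 1) := by
    simpa only [mul_div_assoc, div_self (norm_pos_iff.1 hc0)] using h3.div_const c
  refine ⟨fun w => φ w / c, ha, hl, fun w hw => ?_, fun w hw => ?_⟩
  · rw [norm_div, div_le_div_iff₀ hc0 ht]
    nlinarith [h2 w hw]
  have hfar : ∀ z : ℂ, z ≠ 0 → ‖z‖ < (2 * ρ)⁻¹ → ∀ x ∈ X, ‖z‖⁻¹ / 4 < ‖x - (b + z⁻¹)‖ := by
    intro z h0 hz x hx
    have h4 := inv_strictAnti₀ (norm_pos_iff.2 h0) hz
    rw [inv_inv] at h4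
    have h5 := norm_sub_norm_le z⁻¹ (x - b)
    rw [norm_sub_rev z⁻¹, sub_sub, norm_inv] at h5
    linarith [mem_closedBall_iff_norm.1 (hb hx)]
  have hwb : 0 < ‖w - b‖ := by linarith
  have key := Complex.dist_le_div_mul_dist_of_mapsTo_ball (f := chart (fun w => φ w / c) b 1)
    (c := 0) (R₁ := (2 * ρ)⁻¹) (R₂ := 17) (z := (w - b)⁻¹) (fun z hz =>
      (analyticAt_chart hX.isBounded ha hl b ((eq_or_ne z 0).imp_right fun h0 h4 => by
        have := hfar z h0 (mem_ball_zero_iff.1 hz) _ h4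
        rw [sub_self, norm_zero] at this
        exact this.not_ge (by positivity))).differentiableAt.differentiableWithinAt)
    (fun z hz => by
      rw [chart_zero, mem_closedBall_iff_norm]
      rcases eq_or_ne z 0 with rfl | h0
      · simp [chart_zero]
      have hz0 := norm_pos_iff.2 h0
      have h4 := norm_le_anCap_div hX h1 h2 (tendsto_zero_of_mul h3) (by positivity)
        (hfar z h0 (mem_ball_zero_iff.1 hz))
      have h5 : ‖chart (fun w => φ w / c) b 1 z‖ ≤ 16 := by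
        rw [chart_of_ne _ _ _ h0, norm_mul, norm_inv, norm_div, ← mul_div_assoc, div_le_iff₀ hc0]
        calc _ ≤ ‖z‖⁻¹ * (2 / (‖z‖⁻¹ / 4) * anCap X) := by gcongr
          _ = 8 * anCap X := by field_simp; norm_num
          _ ≤ _ := by linarith
      linarith [norm_sub_le (chart (fun w => φ w / c) b 1 z) 1, norm_one (α := ℂ)])
    (by rw [mem_ball_zero_iff, norm_inv]; exact inv_strictAnti₀ (by positivity) hw)
  rw [chart_zero, chart_of_ne _ _ _ (inv_ne_zero (norm_pos_iff.1 hwb)), inv_inv, add_sub_cancel,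
    dist_zero_right, norm_inv, dist_eq_norm] at key
  have h6 := norm_sub_norm_le ((w - b) * (φ w / c)) 1
  rw [norm_mul, norm_one] at h6
  have e : 17 / (2 * ρ)⁻¹ * ‖w - b‖⁻¹ = 34 * ρ / ‖w - b‖ := by field_simp; norm_num
  linarith

end Pool.Agent.MP_13a571_an

end MrgPart1

-- ======== part 2: formerly Pool.Agent.MP_13a571_an.Cnt
section MrgPart2

/-!
Counting close pairs by the energy inequality.
-/

open Set Filter Topology Metric Bornology

namespace Pool.Agent.MP_13a571_an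

variable {ι : Type} [DecidableEq ι]

open Classical in
/-- number of ordered pairs of distinct indices at distance less than `σ` -/
noncomputable def cnt (S : Finset ι) (x : ι → ℂ) (σ : ℝ) : ℕ :=
  ∑ j ∈ S, ((S.erase j).filter fun i => ‖x j - x i‖ < σ).card

lemma cnt_mono {S S' : Finset ι} (h : S ⊆ S') (x : ι → ℂ) (σ : ℝ) : cnt S x σ ≤ cnt S' x σ :=
  (Finset.sum_le_sum fun j _ => Finset.card_le_card (Finset.filter_subset_filter _
    (Finset.erase_subset_erase j h))).trans (Finset.sum_le_sum_of_subset h)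

lemma card_le_cnt {S B : Finset ι} (h : B ⊆ S) {x : ι → ℂ} {σ : ℝ}
    (hB : ∀ j ∈ B, ∃ i ∈ S, i ≠ j ∧ ‖x j - x i‖ < σ) : B.card ≤ cnt S x σ := by
  rw [Finset.card_eq_sum_ones]
  refine (Finset.sum_le_sum fun j hj => ?_).trans (Finset.sum_le_sum_of_subset h)
  obtain ⟨i, h1, h2, h3⟩ := hB j hj
  exact Finset.card_pos.2 ⟨i, Finset.mem_filter.2 ⟨Finset.mem_erase.2 ⟨h2, h1⟩, h3⟩⟩

lemma PP_le_cnt {S : Finset ι} {x : ι → ℂ} {σ u v : ℝ} {l : ι → ι → ℝ} (hv : 0 ≤ v)
    (hl : ∀ j i, 0 ≤ l j i) (h1 : ∀ j ∈ S, ∀ i ∈ S, ‖x j - x i‖ < σ → ‖x j - x i‖ ≤ Real.exp u * l j i)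
    (h2 : ∀ j ∈ S, ∀ i ∈ S, σ ≤ ‖x j - x i‖ → ‖x j - x i‖ ≤ Real.exp v * l j i) :
    PP S (fun j i => ‖x j - x i‖) ≤ Real.exp (u * cnt S x σ + v * S.card ^ 2) * PP S l := by
  classical
  have e : Real.exp (u * cnt S x σ + v * S.card ^ 2) = ∏ j ∈ S, (Real.exp u ^
      ((S.erase j).filter fun i => ‖x j - x i‖ < σ).card * Real.exp v ^ S.card) := by
    rw [Finset.prod_mul_distrib, Finset.prod_pow_eq_pow_sum, Finset.prod_const, ← pow_mul,
      ← Real.exp_nat_mul, ← Real.exp_nat_mul, ← Real.exp_add, cnt]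
    push_cast
    ring_nf
  rw [e, PP, PP, ← Finset.prod_mul_distrib]
  refine Finset.prod_le_prod (fun _ _ => Finset.prod_nonneg fun _ _ => norm_nonneg _) fun j hj => ?_
  calc _ ≤ ∏ i ∈ S.erase j, ((if ‖x j - x i‖ < σ then Real.exp u else Real.exp v) * l j i) := by
        refine Finset.prod_le_prod (fun _ _ => norm_nonneg _) fun i hi => ?_
        split_ifs with h
        exacts [h1 j hj i (Finset.mem_of_mem_erase hi) h,
          h2 j hj i (Finset.mem_of_mem_erase hi) (not_lt.1 h)]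
    _ ≤ _ := by
        rw [Finset.prod_mul_distrib, Finset.prod_ite, Finset.prod_const, Finset.prod_const]
        refine mul_le_mul_of_nonneg_right (mul_le_mul_of_nonneg_left (pow_le_pow_right₀
          (Real.one_le_exp hv) ((Finset.card_filter_le _ _).trans Finset.card_erase_le))
          (by positivity)) (Finset.prod_nonneg fun _ _ => hl _ _)

lemma ev_log (C₁ C₂ : ℝ) {η : ℝ} (hη : 0 < η) :
    ∀ᶠ n : ℕ in atTop, C₁ + C₂ * Real.log n ≤ η * n := by
  have h1 := (Real.isLittleO_log_id_atTop.const_mul_left C₂).bound (half_pos hη)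
  filter_upwards [tendsto_natCast_atTop_atTop.eventually h1,
    tendsto_natCast_atTop_atTop.eventually_ge_atTop (C₁ / (η / 2))] with n h2 h3
  rw [div_le_iff₀ (half_pos hη)] at h3
  rw [id, Real.norm_natCast] at h2
  linarith [le_abs_self (C₂ * Real.log n), Real.norm_eq_abs (C₂ * Real.log n)]

lemma ev_const (C : ℝ) {η : ℝ} (hη : 0 < η) : ∀ᶠ n : ℕ in atTop, C ≤ η * n := by
  simpa using ev_log C 0 hη

lemma ev_exp {c η : ℝ} (hc : 0 < c) (hη : 0 < η) : ∀ᶠ n : ℕ in atTop, Real.exp (-(η * n)) ≤ c := by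
  filter_upwards [ev_const (-Real.log c) hη] with n hn
  rw [← Real.exp_log hc, Real.exp_le_exp]
  linarith

lemma energy_ev {E : Set ℂ} (hE : IsCompact E) {s : ℝ} (hs : logCap E < Real.exp s) {γ : ℝ}
    (hγ : 0 < γ) : ∀ᶠ n : ℕ in atTop, ∀ x : Fin n → ℂ,
      (∀ j, x j ∈ cthickening (Real.exp (-(γ * n))) E) →
        PP Finset.univ (fun j i => ‖x j - x i‖) ≤
          Real.exp (s * n ^ 2 - γ * n / 2 * cnt Finset.univ x (Real.exp (-(γ * n)))) := by
  have h0 : ∀ᶠ t in 𝓝[<] s, logCap E < Real.exp t :=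
    nhdsWithin_le_nhds (continuousAt_const.eventually_lt Real.continuous_exp.continuousAt hs)
  obtain ⟨s₁, h1, h2⟩ := (h0.and self_mem_nhdsWithin).exists
  obtain ⟨τ₀, hτ₀, T, hT, hd, hb⟩ := exists_cthickening_of_logCap_lt hE h1
  set τ := τ₀ / 3 with hτdef
  have hτ : 0 < τ := by positivity
  filter_upwards [ev_exp hτ hγ, ev_exp hτ (half_pos hγ), eventually_gt_atTop 0,
    ev_log (s₁ - 2 * Real.log τ) 2 (sub_pos.2 h2)] with n h3 h4 h5 h6 x hx
  have hn : (0 : ℝ) < n := by exact_mod_cast h5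
  have h7 := energy hT hd (Real.exp_nonneg _) hτ hb (x := x) (S := Finset.univ) fun j _ =>
    ((closedBall_subset_cthickening (hx j) _).trans (cthickening_cthickening_subset (by positivity)
      (by positivity) _)).trans (cthickening_mono (by linarith) _)
  refine (PP_le_cnt (σ := Real.exp (-(γ * n))) (u := -(γ / 2 * n)) le_rfl
    (l := fun j i => max ‖x j - x i‖ τ) (fun _ _ => le_max_of_le_right hτ.le)
    (fun j _ i _ h => h.le.trans ?_) fun j _ i _ _ => by simp).trans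
    ((mul_le_mul_of_nonneg_left h7 (Real.exp_nonneg _)).trans ?_)
  · calc Real.exp (-(γ * n)) = Real.exp (-(γ / 2 * n)) * Real.exp (-(γ / 2 * n)) := by
          rw [← Real.exp_add]; ring_nf
      _ ≤ _ := by gcongr; exact le_max_of_le_right h4
  · simp only [Finset.card_univ, Fintype.card_fin]
    rw [← Real.exp_log (div_pos hn hτ), ← Real.exp_nat_mul, ← Real.exp_nat_mul, ← Real.exp_add,
      ← Real.exp_add, Real.exp_le_exp, Real.log_div hn.ne' hτ.ne']
    push_cast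
    nlinarith [mul_le_mul_of_nonneg_left h6 hn.le]

/-- the points near which the complement has analytic capacity at least `t` at scale `r` -/
def thick (E : Set ℂ) (r t : ℝ) : Set ℂ := {w | t ≤ anCap (E ∩ closedBall w r)}

lemma thick_subset {E : Set ℂ} {r t : ℝ} (ht : 0 < t) : thick E r t ⊆ cthickening r E := by
  intro w hw
  rcases (E ∩ closedBall w r).eq_empty_or_nonempty with h | ⟨x, hx, h⟩
  · rw [thick, mem_ofPred_eq, h, anCap_empty] at hw
    exact absurd hw ht.not_ge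
  · exact closedBall_subset_cthickening hx r (mem_closedBall_comm.1 h)

lemma mem_thick {E : Set ℂ} {r r' t : ℝ} {y w : ℂ} (hy : y ∈ thick E r t)
    (h : r + dist y w ≤ r') : w ∈ thick E r' t :=
  le_trans hy (anCap_mono (inter_subset_inter_right _ (closedBall_subset_closedBall' h))
    (isBounded_closedBall.subset inter_subset_right))

lemma exists_diam {E : Set ℂ} (hE : IsBounded E) : ∃ A : ℝ, 0 ≤ A ∧
    ∀ x ∈ cthickening 1 E, ∀ y ∈ cthickening 1 E, ‖x - y‖ ≤ Real.exp A := by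
  obtain ⟨A, hA⟩ := isBounded_iff.1 (hE.cthickening (δ := 1))
  refine ⟨|A|, abs_nonneg _, fun x hx y hy => ?_⟩
  rw [← dist_eq_norm]
  linarith [hA hx hy, Real.add_one_le_exp |A|, le_abs_self A]

lemma thick_upper {E : Set ℂ} (hE : IsCompact E) (L : ℝ) {b : ℝ} (hb : logCap E < b) :
    ∀ᶠ r in 𝓝[>] (0 : ℝ), logCap (thick E r (r ^ L)) < b := by
  obtain ⟨s, h1, h2⟩ := exists_between hb
  obtain ⟨τ, hτ, T, hT, hd, h3⟩ := exists_cthickening_of_logCap_lt hE h1
  filter_upwards [Ioc_mem_nhdsGT hτ] with r hr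
  exact (logCap_le hT hd ((logCap_nonneg E).trans h1.le) fun w hw => h3 w
    (cthickening_mono hr.2 _ (thick_subset (Real.rpow_pos_of_pos hr.1 L) hw))).trans_lt h2

end Pool.Agent.MP_13a571_an

end MrgPart2

-- ======== part 3: formerly Pool.Agent.MP_13a571_an.Vit
section MrgPart3

/-!
Cauchy transforms of bounded densities and the localization operator of Vitushkin.
-/

open MeasureTheory Set Filter Topology Metric Bornology

namespace Pool.Agent.MP_13a571_an

/-- bounded measurable density supported in a disc -/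
structure Dens (ρ : ℂ → ℂ) (b : ℂ) (R M : ℝ) : Prop where
  meas : Measurable ρ
  bound : ∀ ζ, ‖ρ ζ‖ ≤ M
  supp : ∀ ζ ∉ closedBall b R, ρ ζ = 0

/-- Cauchy transform -/
noncomputable def CT (ρ : ℂ → ℂ) (w : ℂ) : ℂ := ∫ ζ, ρ ζ * (ζ - w)⁻¹

lemma real_closedBall (b : ℂ) {R : ℝ} (hR : 0 ≤ R) :
    volume.real (closedBall b R) = Real.pi * R ^ 2 := by
  simp [Measure.real, Complex.volume_closedBall, hR, mul_comm]

lemma inv_norm_integral (w : ℂ) {R : ℝ} (hR : 0 < R) :
    Integrable (fun ζ : ℂ => (Iio R).indicator (fun y => y⁻¹) ‖ζ - w‖) ∧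
      ∫ ζ : ℂ, (Iio R).indicator (fun y => y⁻¹) ‖ζ - w‖ = 2 * Real.pi * R := by
  have e : ∀ y ∈ Ioi (0 : ℝ), y ^ (Module.finrank ℝ ℂ - 1) • (Iio R).indicator (fun y => y⁻¹) y =
      (Iio R).indicator (fun _ => (1 : ℝ)) y := by
    intro y hy
    have : y ≠ 0 := ne_of_gt hy
    by_cases h : y < R <;> simp [h, this]
  constructor
  · refine Integrable.comp_sub_right (f := fun ζ : ℂ => (Iio R).indicator (fun y => y⁻¹) ‖ζ‖) ?_ w
    rw [integrable_fun_norm_addHaar, integrableOn_congr_fun e measurableSet_Ioi, IntegrableOn,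
      integrable_indicator_iff measurableSet_Iio, IntegrableOn, Measure.restrict_restrict
        measurableSet_Iio, Iio_inter_Ioi]
    exact integrableOn_const (by simp)
  · rw [integral_sub_right_eq_self (fun ζ : ℂ => (Iio R).indicator (fun y => y⁻¹) ‖ζ‖) w,
      integral_fun_norm_addHaar, setIntegral_congr_fun measurableSet_Ioi e,
      setIntegral_indicator measurableSet_Iio, Ioi_inter_Iio]
    simp [Measure.real, Complex.volume_ball, hR.le, mul_assoc]

namespace Dens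

variable {ρ : ℂ → ℂ} {b : ℂ} {R M : ℝ}

lemma le_indicator (h : Dens ρ b R M) (ζ : ℂ) : ‖ρ ζ‖ ≤ (closedBall b R).indicator (fun _ => M) ζ := by
  by_cases hζ : ζ ∈ closedBall b R
  · rw [indicator_of_mem hζ]; exact h.bound ζ
  · rw [indicator_of_notMem hζ, h.supp ζ hζ, norm_zero]

lemma integrable_ind (b : ℂ) (R M : ℝ) : Integrable ((closedBall b R).indicator fun _ => M) :=
  (integrable_indicator_iff measurableSet_closedBall).2
    (integrableOn_const measure_closedBall_lt_top.ne)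

lemma integrable (h : Dens ρ b R M) : Integrable ρ :=
  (integrable_ind b R M).mono' h.meas.aestronglyMeasurable (ae_of_all _ h.le_indicator)

lemma norm_integral_le (h : Dens ρ b R M) (hR : 0 ≤ R) : ‖∫ ζ, ρ ζ‖ ≤ Real.pi * R ^ 2 * M := by
  refine (norm_integral_le_of_norm_le (integrable_ind b R M) (ae_of_all _ h.le_indicator)).trans ?_
  rw [integral_indicator_const _ measurableSet_closedBall, real_closedBall b hR, smul_eq_mul]

lemma kernel_le (h : Dens ρ b R M) (hR : 0 < R) (w ζ : ℂ) : ‖ρ ζ * (ζ - w)⁻¹‖ ≤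
    M * (Iio R).indicator (fun y => y⁻¹) ‖ζ - w‖ +
      (closedBall b R).indicator (fun _ => M) ζ * R⁻¹ := by
  have hM : 0 ≤ M := (norm_nonneg _).trans (h.bound 0)
  have h1 := (norm_nonneg _).trans (h.le_indicator ζ)
  rw [norm_mul, norm_inv]
  by_cases h2 : ‖ζ - w‖ < R
  · rw [indicator_of_mem (show ‖ζ - w‖ ∈ Iio R from h2)]
    refine le_add_of_le_of_nonneg ?_ (by positivity)
    gcongr; exact h.bound ζ
  · rw [indicator_of_notMem (show ‖ζ - w‖ ∉ Iio R from h2), mul_zero, zero_add]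
    gcongr
    exacts [h.le_indicator ζ, not_lt.1 h2]

lemma integrable_kernel (h : Dens ρ b R M) (hR : 0 < R) (w : ℂ) :
    Integrable fun ζ => ρ ζ * (ζ - w)⁻¹ :=
  (((inv_norm_integral w hR).1.const_mul M).add ((integrable_ind b R M).mul_const _)).mono'
    (h.meas.mul (measurable_id.sub_const w).inv).aestronglyMeasurable
    (ae_of_all _ (h.kernel_le hR w))

lemma norm_CT_le (h : Dens ρ b R M) (hR : 0 < R) (w : ℂ) : ‖CT ρ w‖ ≤ 3 * Real.pi * R * M := by
  have i1 := (inv_norm_integral w hR).1.const_mul M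
  have i2 := (integrable_ind b R M).mul_const R⁻¹
  refine (norm_integral_le_of_norm_le (i1.add i2) (ae_of_all _ (h.kernel_le hR w))).trans ?_
  simp only [Pi.add_apply]
  rw [integral_add i1 i2, integral_const_mul, integral_mul_const, (inv_norm_integral w hR).2,
    integral_indicator_const _ measurableSet_closedBall, real_closedBall b hR.le, smul_eq_mul]
  refine le_of_eq ?_
  field_simp
  ring

lemma tendsto_CT (h : Dens ρ b R M) :
    Tendsto (fun w => w * CT ρ w) (cocompact ℂ) (𝓝 (-∫ ζ, ρ ζ)) := by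
  rw [← cobounded_eq_cocompact]
  have : (cobounded ℂ).IsCountablyGenerated := by rw [← comap_norm_atTop]; infer_instance
  simp only [CT, ← integral_const_mul, ← integral_neg]
  refine tendsto_integral_filter_of_dominated_convergence (fun ζ => ‖ρ ζ‖ * 2)
    (Eventually.of_forall fun w => ((h.meas.mul
      (measurable_id.sub_const w).inv).const_mul w).aestronglyMeasurable) ?_
    (h.integrable.norm.mul_const _) (ae_of_all _ fun ζ => ?_)
  · filter_upwards [(tendsto_norm_cobounded_atTop (E := ℂ)).eventually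
      (eventually_gt_atTop (2 * (‖b‖ + |R|)))] with w hw
    refine ae_of_all _ fun ζ => ?_
    by_cases hζ : ζ ∈ closedBall b R
    · have h1 : 2 * (‖b‖ + |R|) < ‖w‖ := hw
      have h2 := mem_closedBall_iff_norm.1 hζ
      have h3 := norm_sub_norm_le ζ b
      have h4 := norm_sub_norm_le w ζ
      rw [norm_sub_rev] at h4
      have h5 : 0 < ‖ζ - w‖ := by linarith [le_abs_self R, norm_nonneg b, abs_nonneg R]
      rw [mul_left_comm, norm_mul, norm_mul, norm_inv, ← div_eq_mul_inv]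
      gcongr
      rw [div_le_iff₀ h5]
      linarith [le_abs_self R]
    · simp [h.supp ζ hζ]
  · have h2 := (tendsto_inv₀_cobounded (α := ℂ)).comp (tendsto_const_sub_cobounded ζ)
    have h3 := ((h2.const_mul ζ).sub_const 1).const_mul (ρ ζ)
    simp only [zero_sub, mul_zero, mul_neg, mul_one] at h3
    refine h3.congr' ?_
    filter_upwards [(isBounded_singleton (x := ζ)).compl] with w hw
    have h5 : ζ - w ≠ 0 := sub_ne_zero.2 (Ne.symm (by simpa using hw))
    simp only [Function.comp]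
    field_simp
    ring

end Dens

lemma analyticAt_CT {ρ : ℂ → ℂ} (hm : Measurable ρ) (hi : Integrable ρ) {w₀ : ℂ}
    (h0 : ρ =ᶠ[𝓝 w₀] 0) : AnalyticAt ℂ (CT ρ) w₀ := by
  obtain ⟨d, hd, hb⟩ := Metric.eventually_nhds_iff_ball.1 h0
  have hfar : ∀ ζ, ρ ζ ≠ 0 → ∀ w ∈ ball w₀ (d / 2), d / 2 ≤ ‖ζ - w‖ := fun ζ hζ w hw => by
    have h1 : d ≤ ‖ζ - w₀‖ := not_lt.1 fun h => hζ (hb ζ (mem_ball_iff_norm.2 h))
    linarith [norm_sub_le_norm_sub_add_norm_sub ζ w w₀, mem_ball_iff_norm.1 hw]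
  refine DifferentiableOn.analyticAt (s := ball w₀ (d / 2)) (fun w hw => ?_)
    (ball_mem_nhds _ (by linarith))
  refine (hasDerivAt_integral_of_dominated_loc_of_deriv_le (isOpen_ball.mem_nhds hw)
    (F := fun w ζ => ρ ζ * (ζ - w)⁻¹) (F' := fun w ζ => ρ ζ * ((ζ - w) ^ 2)⁻¹)
    (bound := fun ζ => ‖ρ ζ‖ * ((d / 2) ^ 2)⁻¹) (Eventually.of_forall fun w =>
      (hm.mul (measurable_id.sub_const w).inv).aestronglyMeasurable) ?_
    (hm.mul ((measurable_id.sub_const w).pow_const 2).inv).aestronglyMeasurable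
    (ae_of_all _ fun ζ y hy => ?_) (hi.norm.mul_const _)
    (ae_of_all _ fun ζ y hy => ?_)).2.differentiableAt.differentiableWithinAt
  · refine (hi.norm.mul_const (d / 2)⁻¹).mono'
      (hm.mul (measurable_id.sub_const w).inv).aestronglyMeasurable (ae_of_all _ fun ζ => ?_)
    by_cases hζ : ρ ζ = 0
    · simp [hζ]
    · rw [norm_mul, norm_inv]; gcongr; exact hfar ζ hζ w hw
  · by_cases hζ : ρ ζ = 0
    · simp [hζ]
    · rw [norm_mul, norm_inv, norm_pow]; gcongr; exact hfar ζ hζ y hy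
  · by_cases hζ : ρ ζ = 0
    · simpa [hζ] using hasDerivAt_const y (0 : ℂ)
    · have h1 : ζ - y ≠ 0 := norm_pos_iff.1 (lt_of_lt_of_le (by linarith) (hfar ζ hζ y hy))
      have := (((hasDerivAt_id y).const_sub ζ).inv h1).const_mul (ρ ζ)
      simpa [div_eq_mul_inv] using this

lemma dbar_eq_zero_of_supp {θ : ℂ → ℂ} {b : ℂ} {R : ℝ} (h0 : ∀ w ∉ closedBall b R, θ w = 0) :
    ∀ w ∉ closedBall b R, dbar θ w = 0 := fun w hw =>
  (dbar_congr (B := fun _ => 0) (by
    filter_upwards [isClosed_closedBall.isOpen_compl.mem_nhds hw] with y hy using h0 y hy)).trans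
    (dbar_const 0 w)

lemma dens_dbar_mul {θ g : ℂ → ℂ} {b : ℂ} {R A M : ℝ} (hθ : ContDiff ℝ 1 θ)
    (h0 : ∀ w ∉ closedBall b R, θ w = 0) (hA : ∀ w, ‖dbar θ w‖ ≤ A) (hg : Measurable g)
    (hM0 : 0 ≤ M) (hM : ∀ w ∈ closedBall b R, ‖g w‖ ≤ M) :
    Dens (fun ζ => dbar θ ζ * g ζ) b R (A * M) := by
  have hA0 : 0 ≤ A := (norm_nonneg _).trans (hA 0)
  refine ⟨(continuous_dbar hθ).measurable.mul hg, fun ζ => ?_, fun ζ hζ => ?_⟩
  · by_cases hζ : ζ ∈ closedBall b R
    · rw [norm_mul]; gcongr; exacts [hA ζ, hM ζ hζ]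
    · rw [dbar_eq_zero_of_supp h0 ζ hζ, zero_mul, norm_zero]; positivity
  · rw [dbar_eq_zero_of_supp h0 ζ hζ, zero_mul]

lemma analyticAt_loc {θ g : ℂ → ℂ} {b : ℂ} {R M : ℝ} (hθ : ContDiff ℝ 1 θ) (hR : 0 < R)
    (hρ : Dens (fun ζ => dbar θ ζ * g ζ) b R M) {w₀ : ℂ} (hg : AnalyticAt ℂ g w₀) :
    AnalyticAt ℂ (fun w => Real.pi * (θ w * g w) + CT (fun ζ => dbar θ ζ * g ζ) w) w₀ := by
  obtain ⟨δ, hδ, hb⟩ := nhds_basis_closedBall.mem_iff.1 hg.eventually_analyticAt
  obtain ⟨χ, hχ, h1, h0, -⟩ := exists_cutoff (Λ := {w₀}) (L := closedBall w₀ δ) isClosed_singleton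
    (by simpa [mem_interior_iff_mem_nhds] using closedBall_mem_nhds w₀ hδ)
  rw [nhdsSet_singleton] at h1
  set φ : ℂ → ℂ := fun w => (χ w : ℂ) * (θ w * g w) with hφ
  have hout : ∀ w ∉ closedBall w₀ δ, φ w = 0 := fun w hw => by simp [hφ, h0 w hw]
  have hφd : ContDiff ℝ 1 φ := by
    rw [contDiff_iff_contDiffAt]
    intro w
    by_cases hw : w ∈ closedBall w₀ δ
    · exact (Complex.ofRealCLM.contDiff.comp hχ).contDiffAt.mul (hθ.contDiffAt.mul
        ((AnalyticAt.contDiffAt (hb hw) (n := 1)).restrict_scalars ℝ))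
    · refine (contDiffAt_const (c := 0)).congr_of_eventuallyEq ?_
      filter_upwards [isClosed_closedBall.isOpen_compl.mem_nhds hw] with y hy using hout y hy
  have hφc : HasCompactSupport φ := HasCompactSupport.intro (isCompact_closedBall _ _) hout
  obtain ⟨B, hB⟩ := (continuous_dbar hφd).bounded_above_of_compact_support
    (hasCompactSupport_dbar hφc)
  have hD : Dens (dbar φ) w₀ δ B :=
    ⟨(continuous_dbar hφd).measurable, hB, dbar_eq_zero_of_supp hout⟩
  refine (analyticAt_CT (hρ.meas.sub hD.meas) (hρ.integrable.sub hD.integrable) (w₀ := w₀)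
    ?_).congr ?_
  · filter_upwards [h1.eventually_nhds, closedBall_mem_nhds w₀ hδ] with y hy hyb
    have h2 : φ =ᶠ[𝓝 y] fun w => θ w * g w := hy.mono fun w hw => by simp [hφ, hw]
    have h3 : DifferentiableAt ℂ g y := AnalyticAt.differentiableAt (hb hyb)
    rw [Pi.sub_apply, dbar_congr h2, dbar_mul (hθ.differentiable (by norm_num) y) (h3.restrictScalars ℝ),
      dbar_of_differentiableAt h3]
    simp
  · filter_upwards [h1] with w hw
    simp only [CT, Pi.sub_apply, sub_mul]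
    rw [integral_sub (hρ.integrable_kernel hR w) (hD.integrable_kernel hδ w), pompeiu hφd hφc]
    simp only [hφ, hw]
    push_cast
    ring

theorem vitushkin {E : Set ℂ} {θ g : ℂ → ℂ} {b : ℂ} {R A M : ℝ} (hθ : ContDiff ℝ 1 θ) (hR : 0 < R)
    (h0 : ∀ w ∉ closedBall b R, θ w = 0) (h1 : ∀ w, ‖θ w‖ ≤ 1) (hA : ∀ w, ‖dbar θ w‖ ≤ A)
    (hg : Measurable g) (hga : AnalyticOnNhd ℂ g Eᶜ) (hM0 : 0 ≤ M)
    (hM : ∀ w ∈ closedBall b R, ‖g w‖ ≤ M) :
    ‖∫ ζ, dbar θ ζ * g ζ‖ ≤ Real.pi * (1 + 3 * R * A) * M * anCap (E ∩ closedBall b R) := by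
  have hρ := dens_dbar_mul hθ h0 hA hg hM0 hM
  have hout : ∀ w ∉ closedBall b R, (Real.pi : ℂ) * (θ w * g w) = 0 := fun w hw => by
    simp [h0 w hw]
  rw [← norm_neg]
  refine norm_le_anCap (isBounded_closedBall.subset inter_subset_right)
    (φ := fun w => Real.pi * (θ w * g w) + CT (fun ζ => dbar θ ζ * g ζ) w) (fun w hw => ?_)
    (fun w _ => (norm_add_le _ _).trans ?_) ?_
  · by_cases h2 : w ∈ closedBall b R
    · exact analyticAt_loc hθ hR hρ (hga w fun h3 => hw ⟨h3, h2⟩)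
    · have h3 := isClosed_closedBall.isOpen_compl.mem_nhds h2
      refine (analyticAt_CT hρ.meas hρ.integrable ?_).congr ?_
      · filter_upwards [h3] with y hy using hρ.supp y hy
      · filter_upwards [h3] with y hy
        rw [hout y hy, zero_add]
  · have h2 : ‖(Real.pi : ℂ) * (θ w * g w)‖ ≤ Real.pi * M := by
      by_cases h2 : w ∈ closedBall b R
      · rw [norm_mul, norm_mul, Complex.norm_real, Real.norm_of_nonneg Real.pi_pos.le]
        exact mul_le_mul_of_nonneg_left ((mul_le_of_le_one_left (norm_nonneg _) (h1 w)).trans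
          (hM w h2)) Real.pi_pos.le
      · rw [hout w h2, norm_zero]; positivity
    linarith [hρ.norm_CT_le hR w]
  · refine hρ.tendsto_CT.congr' ?_
    filter_upwards [(isCompact_closedBall b R).compl_mem_cocompact] with w hw
    rw [hout w hw, zero_add]

theorem residue {E : Set ℂ} {θ g : ℂ → ℂ} {b : ℂ} {R M : ℝ} (hθ : ContDiff ℝ 1 θ) (hR : 0 < R)
    (h0 : ∀ w ∉ closedBall b R, θ w = 0) (h1 : ∀ w ∈ E, θ =ᶠ[𝓝 w] fun _ => 1)
    (hρ : Dens (fun ζ => dbar θ ζ * g ζ) b R M) (hga : AnalyticOnNhd ℂ g Eᶜ) {c : ℂ}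
    (hc : Tendsto (fun w => w * g w) (cocompact ℂ) (𝓝 c)) :
    ∫ ζ, dbar θ ζ * g ζ = -Real.pi * c := by
  set u : ℂ → ℂ := fun w => Real.pi * (θ w * g w) + CT (fun ζ => dbar θ ζ * g ζ) w -
    Real.pi * g w with hu
  have hd : Differentiable ℂ u := by
    intro w
    by_cases hw : w ∈ E
    · refine ((analyticAt_CT hρ.meas hρ.integrable (w₀ := w) ?_).congr ?_).differentiableAt
      · filter_upwards [(h1 w hw).eventuallyEq_nhds] with y hy
        rw [dbar_congr hy, dbar_const, zero_mul, Pi.zero_apply]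
      · filter_upwards [h1 w hw] with y hy
        simp [hu, hy]
    · exact ((analyticAt_loc hθ hR hρ (hga w hw)).sub
        (analyticAt_const.mul (hga w hw))).differentiableAt
  have hl : Tendsto (fun w => w * u w) (cocompact ℂ)
      (𝓝 (-(∫ ζ, dbar θ ζ * g ζ) - Real.pi * c)) := by
    refine (hρ.tendsto_CT.sub (hc.const_mul _)).congr' ?_
    filter_upwards [(isCompact_closedBall b R).compl_mem_cocompact] with w hw
    simp only [hu, h0 w hw]
    ring
  have h2 : ∀ w, w * u w = 0 := fun w => by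
    rw [hd.apply_eq_of_tendsto_cocompact w (tendsto_zero_of_mul hl), mul_zero]
  simp only [h2] at hl
  linear_combination tendsto_nhds_unique tendsto_const_nhds hl

end Pool.Agent.MP_13a571_an

end MrgPart3

-- ======== part 4: formerly Pool.Agent.MP_13a571_an.Grid
section MrgPart4

/-!
Partitions of unity on a grid and the two-scale localization inequality.
-/

open MeasureTheory Set Filter Topology Metric Bornology

namespace Pool.Agent.MP_13a571_an

/-- one-dimensional bump whose integer translates add up to one -/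
noncomputable def bmp (t : ℝ) : ℝ := Real.smoothTransition (t + 1) - Real.smoothTransition t

lemma bmp_mem (t : ℝ) : |bmp t| ≤ 1 := by
  have h1 := Real.smoothTransition.nonneg t
  have h2 := Real.smoothTransition.le_one (t + 1)
  have h3 := Real.smoothTransition.monotone (show t ≤ t + 1 by linarith)
  rw [bmp, abs_le]; constructor <;> linarith

lemma bmp_eq_zero {t : ℝ} (h : 1 ≤ |t|) : bmp t = 0 := by
  rcases le_abs'.1 h with h | h
  · rw [bmp, Real.smoothTransition.zero_of_nonpos (by linarith),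
      Real.smoothTransition.zero_of_nonpos (by linarith), sub_self]
  · rw [bmp, Real.smoothTransition.one_of_one_le (by linarith),
      Real.smoothTransition.one_of_one_le h, sub_self]

lemma sum_bmp {t : ℝ} {N : ℕ} (h : |t| ≤ N) :
    ∑ i ∈ Finset.range (2 * N + 1), bmp (t - (i - N)) = 1 := by
  have := Finset.sum_range_sub' (fun i : ℕ => Real.smoothTransition (t + N + 1 - i)) (2 * N + 1)
  rw [Real.smoothTransition.one_of_one_le (by push_cast; linarith [(abs_le.1 h).1]),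
    Real.smoothTransition.zero_of_nonpos (by push_cast; linarith [(abs_le.1 h).2]), sub_zero] at this
  rw [← this]
  refine Finset.sum_congr rfl fun i _ => ?_
  rw [bmp]
  push_cast
  congr 2 <;> ring

/-- two-dimensional bump -/
noncomputable def bmp2 (w : ℂ) : ℂ := (bmp w.re * bmp w.im : ℝ)

lemma contDiff_bmp2 : ContDiff ℝ 1 bmp2 := by
  have h : ContDiff ℝ 1 bmp := (Real.smoothTransition.contDiff.comp
    (contDiff_id.add contDiff_const)).sub Real.smoothTransition.contDiff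
  exact Complex.ofRealCLM.contDiff.comp ((h.comp Complex.reCLM.contDiff).mul
    (h.comp Complex.imCLM.contDiff))

lemma bmp2_eq_zero {w : ℂ} (h : w ∉ closedBall (0 : ℂ) 2) : bmp2 w = 0 := by
  rw [mem_closedBall_zero_iff, not_le] at h
  have := Complex.norm_le_abs_re_add_abs_im w
  by_cases h1 : 1 ≤ |w.re|
  · simp [bmp2, bmp_eq_zero h1]
  · simp [bmp2, bmp_eq_zero (show 1 ≤ |w.im| by linarith)]

theorem exists_grid : ∃ A : ℝ, 1 ≤ A ∧ ∀ h R : ℝ, 0 < h → h ≤ 1 → 1 ≤ R →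
    ∃ (I : Finset (ℕ × ℕ)) (c : ℕ × ℕ → ℂ) (θ : ℕ × ℕ → ℂ → ℂ), (I.card : ℝ) ≤ (7 * R / h) ^ 2 ∧
      (∀ i, ContDiff ℝ 1 (θ i) ∧ (∀ w ∉ closedBall (c i) h, θ i w = 0) ∧ (∀ w, ‖θ i w‖ ≤ 1) ∧
        (∀ w, ‖dbar (θ i) w‖ ≤ A / h) ∧ (i ∈ I → ‖c i‖ ≤ 4 * R)) ∧
      ∀ w ∈ closedBall (0 : ℂ) R, ∑ i ∈ I, θ i w = 1 := by
  obtain ⟨B, hB⟩ := (continuous_dbar contDiff_bmp2).bounded_above_of_compact_support
    (hasCompactSupport_dbar (HasCompactSupport.intro (isCompact_closedBall 0 2)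
      fun _ => bmp2_eq_zero))
  have hB0 : 0 ≤ B := (norm_nonneg _).trans (hB 0)
  refine ⟨2 * B + 1, by linarith, fun h R h0 h1 hR => ?_⟩
  set N := ⌈2 * R / h⌉₊ with hN
  have hRh : 1 ≤ R / h := by rw [le_div_iff₀ h0]; linarith
  have hN1 : (N : ℝ) ≤ 2 * R / h + 1 := (Nat.ceil_lt_add_one (by positivity)).le
  have hN2 : 2 * R / h ≤ N := Nat.le_ceil _
  set c : ℕ × ℕ → ℂ := fun i => (h / 2 : ℝ) • (⟨i.1 - N, i.2 - N⟩ : ℂ) with hc
  refine ⟨Finset.range (2 * N + 1) ×ˢ Finset.range (2 * N + 1), c,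
    fun i w => bmp2 ((2 / h : ℝ) • (w - c i)), ?_, fun i => ⟨?_, fun w hw => ?_, fun w => ?_,
      fun w => ?_, fun hi => ?_⟩, fun w hw => ?_⟩
  · rw [Finset.card_product, Finset.card_range, Nat.cast_mul, ← sq]
    gcongr
    push_cast
    rw [mul_div_assoc] at *
    linarith
  · exact contDiff_bmp2.comp (by fun_prop)
  · refine bmp2_eq_zero fun h2 => hw ?_
    rw [mem_closedBall_zero_iff, norm_smul, Real.norm_of_nonneg (by positivity),
      div_mul_eq_mul_div, div_le_iff₀ h0] at h2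
    rw [mem_closedBall_iff_norm]
    linarith
  · simp only [bmp2, Complex.norm_real, Real.norm_eq_abs, abs_mul]
    exact mul_le_one₀ (bmp_mem _) (abs_nonneg _) (bmp_mem _)
  · have h4 : HasFDerivAt (fun w : ℂ => (2 / h : ℝ) • (w - c i))
        ((2 / h : ℝ) • ContinuousLinearMap.id ℝ ℂ) w :=
      ((hasFDerivAt_id (𝕜 := ℝ) w).sub_const (c i)).const_smul (2 / h : ℝ)
    have h2 := (contDiff_bmp2.differentiable (by norm_num) _).hasFDerivAt.comp w h4
    have h3 : dbar (fun w => bmp2 ((2 / h : ℝ) • (w - c i))) w =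
        (2 / h : ℝ) • dbar bmp2 ((2 / h : ℝ) • (w - c i)) := by
      refine (dbar_of_hasFDerivAt h2).trans ?_
      rw [ContinuousLinearMap.comp_apply, ContinuousLinearMap.comp_apply, smul_apply, smul_apply,
        map_smul, map_smul, dbar]
      simp only [ContinuousLinearMap.id_apply, Complex.real_smul]
      ring
    rw [h3, norm_smul, Real.norm_of_nonneg (by positivity), div_mul_eq_mul_div]
    gcongr
    linarith [hB ((2 / h : ℝ) • (w - c i))]
  · simp only [Finset.mem_product, Finset.mem_range] at hi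
    have a1 : ∀ k : ℕ, k < 2 * N + 1 → |(k : ℝ) - N| ≤ N := fun k hk => by
      have : (k : ℝ) ≤ 2 * N := by exact_mod_cast Nat.lt_succ_iff.1 hk
      rw [abs_le]; constructor <;> linarith [Nat.cast_nonneg (α := ℝ) k]
    have a2 := Complex.norm_le_abs_re_add_abs_im (⟨i.1 - N, i.2 - N⟩ : ℂ)
    have a3 : h * N ≤ 2 * R + h := by
      calc h * N ≤ h * (2 * R / h + 1) := by gcongr
        _ = _ := by field_simp
    rw [hc, norm_smul, Real.norm_of_nonneg (by positivity)]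
    calc _ ≤ h / 2 * (N + N) := by gcongr; linarith [a1 _ hi.1, a1 _ hi.2]
      _ ≤ _ := by linarith
  · have a1 : ∀ t : ℝ, |t| ≤ R → |2 / h * t| ≤ N := fun t ht => by
      rw [abs_mul, abs_of_pos (by positivity), div_mul_eq_mul_div]
      exact le_trans (by gcongr) hN2
    have a2 := mem_closedBall_zero_iff.1 hw
    have e : ∀ i : ℕ × ℕ, bmp2 ((2 / h : ℝ) • (w - c i)) =
        (bmp (2 / h * w.re - (i.1 - N)) * bmp (2 / h * w.im - (i.2 - N)) : ℝ) := fun i => by
      simp only [bmp2, hc, Complex.smul_re, Complex.smul_im, Complex.sub_re, Complex.sub_im,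
        smul_eq_mul]
      congr 3 <;> field_simp
    simp only [e]
    rw [← Complex.ofReal_sum, Finset.sum_product]
    dsimp only
    rw [← Finset.sum_mul_sum,
      sum_bmp (a1 _ ((Complex.abs_re_le_norm w).trans a2)),
      sum_bmp (a1 _ ((Complex.abs_im_le_norm w).trans a2))]
    simp

lemma dbar_sum {ι : Type} (I : Finset ι) {θ : ι → ℂ → ℂ} (h : ∀ i, ContDiff ℝ 1 (θ i)) (w : ℂ) :
    dbar (fun w => ∑ i ∈ I, θ i w) w = ∑ i ∈ I, dbar (θ i) w := by
  rw [dbar, fderiv_fun_sum fun i _ => (h i).differentiable (by norm_num) w]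
  simp only [dbar, FunLike.coe_sum, Finset.sum_apply, Finset.mul_sum,
    ← Finset.sum_add_distrib, Finset.sum_div]

/-- two-scale localization inequality -/
theorem localization {E : Set ℂ} (hE : IsBounded E) : ∃ C : ℝ, 1 ≤ C ∧ ∀ r ρ t : ℝ, 0 < r → r ≤ ρ →
    ρ ≤ 1 → 0 ≤ t → ∀ (g : ℂ → ℂ) (B : ℂ → ℝ) (c : ℂ) (M₁ M₂ : ℝ), Measurable g →
      AnalyticOnNhd ℂ g Eᶜ → Tendsto (fun w => w * g w) (cocompact ℂ) (𝓝 c) → Continuous B →
      (∀ w, ‖g w‖ ≤ B w) → 0 ≤ M₁ → 0 ≤ M₂ →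
      (∀ y, t ≤ anCap (E ∩ closedBall y r) → ∀ w ∈ closedBall y (3 * ρ), B w ≤ M₁) →
      (∀ w ∈ cthickening (2 * r) E, B w ≤ M₂) →
      ‖c‖ ≤ C / ρ * M₁ + C * t / (ρ ^ 2 * r ^ 2) * M₂ := by
  classical
  obtain ⟨A, hA, hgrid⟩ := exists_grid
  obtain ⟨R₀, hR₀, hER⟩ := hE.subset_ball_lt 1 0
  refine ⟨(7 * R₀) ^ 2 * A + (7 * R₀) ^ 2 * (35 * R₀) ^ 2 * (1 + 6 * A),
    le_add_of_le_of_nonneg (one_le_mul_of_one_le_of_one_le (one_le_pow₀ (by linarith)) hA)
      (by positivity), ?_⟩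
  intro r ρ t hr hrρ hρ1 ht g B c M₁ M₂ hg hga hc hB hgB hM₁ hM₂ h1 h2
  have hρ : 0 < ρ := hr.trans_le hrρ
  obtain ⟨I, a, θ, hI, hθ, hθ1⟩ := hgrid ρ R₀ hρ hρ1 hR₀.le
  obtain ⟨J, b, η, hJ, hη, hη1⟩ := hgrid r (5 * R₀) hr (hrρ.trans hρ1) (by linarith)
  have hbd : ∀ (y : ℂ) (s : ℝ), ∃ M, 0 ≤ M ∧ ∀ w ∈ closedBall y s, ‖g w‖ ≤ M := fun y s => by
    obtain ⟨M, hM⟩ := (isCompact_closedBall y s).exists_bound_of_continuousOn hB.continuousOn
    exact ⟨|M|, abs_nonneg _, fun w hw => (hgB w).trans ((le_abs_self _).trans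
      ((hM w hw).trans (le_abs_self _)))⟩
  have hint : ∀ {φ : ℂ → ℂ} {y : ℂ} {s K : ℝ}, ContDiff ℝ 1 φ → (∀ w ∉ closedBall y s, φ w = 0) →
      (∀ w, ‖dbar φ w‖ ≤ K) → Integrable fun ζ => dbar φ ζ * g ζ := by
    intro φ y s K a1 a2 a3
    obtain ⟨M, hM0, hM⟩ := hbd y s
    exact (dens_dbar_mul a1 a2 a3 hg hM0 hM).integrable
  have hsub : ∀ i ∈ I, closedBall (a i) ρ ⊆ closedBall 0 (5 * R₀) := fun i hi =>
    closedBall_subset_closedBall' (by rw [dist_zero_right]; linarith [(hθ i).2.2.2.2 hi])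
  have hres : ∑ i ∈ I, ∫ ζ, dbar (θ i) ζ * g ζ = -Real.pi * c := by
    obtain ⟨M, hM0, hM⟩ := hbd 0 (5 * R₀)
    have hs : ∀ w ∉ closedBall (0 : ℂ) (5 * R₀), ∑ i ∈ I, θ i w = 0 := fun w hw =>
      Finset.sum_eq_zero fun i hi => (hθ i).2.1 w fun h => hw (hsub i hi h)
    have hcd : ContDiff ℝ 1 fun w => ∑ i ∈ I, θ i w := ContDiff.sum fun i _ => (hθ i).1
    rw [← residue (E := E) hcd (by linarith) hs (fun w hw => ?_) (dens_dbar_mul (A := I.card * (A / ρ))
      hcd hs (fun w => ?_) hg hM0 hM) hga hc, ← integral_finsetSum _ fun i _ =>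
        hint (hθ i).1 (hθ i).2.1 (hθ i).2.2.2.1]
    · simp only [dbar_sum I fun i => (hθ i).1, Finset.sum_mul]
    · filter_upwards [isOpen_ball.mem_nhds (hER hw)] with y hy
        using hθ1 y (ball_subset_closedBall hy)
    · rw [dbar_sum I fun i => (hθ i).1, ← nsmul_eq_mul]
      exact (norm_sum_le _ _).trans (Finset.sum_le_card_nsmul _ _ _ fun i _ => (hθ i).2.2.2.1 w)
  have hterm : ∀ i ∈ I, ‖∫ ζ, dbar (θ i) ζ * g ζ‖ ≤ Real.pi * (ρ * A * M₁ +
      (35 * R₀ / r) ^ 2 * ((1 + 6 * A) * M₂ * t)) := by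
    intro i hi
    by_cases hgood : ∃ y, t ≤ anCap (E ∩ closedBall y r) ∧ dist (a i) y ≤ r + ρ
    · obtain ⟨y, hy, hd⟩ := hgood
      refine ((dens_dbar_mul (hθ i).1 (hθ i).2.1 (hθ i).2.2.2.1 hg hM₁ fun w hw =>
        (hgB w).trans (h1 y hy w (closedBall_subset_closedBall' (by linarith) hw))).norm_integral_le
          hρ.le).trans ?_
      rw [mul_assoc]
      refine mul_le_mul_of_nonneg_left (le_add_of_le_of_nonneg (le_of_eq ?_) (by positivity))
        Real.pi_pos.le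
      field_simp
    have hcd : ∀ j, ContDiff ℝ 1 fun w => θ i w * η j w := fun j => (hθ i).1.mul (hη j).1
    have hs : ∀ j, ∀ w ∉ closedBall (b j) r, θ i w * η j w = 0 := fun j w hw => by
      rw [(hη j).2.1 w hw, mul_zero]
    have hdb : ∀ j w, ‖dbar (fun w => θ i w * η j w) w‖ ≤ 2 * A / r := fun j w => by
      rw [dbar_mul ((hθ i).1.differentiable (by norm_num) w)
        ((hη j).1.differentiable (by norm_num) w)]
      refine (norm_add_le _ _).trans ?_
      rw [norm_mul, norm_mul]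
      have a1 : A / ρ ≤ A / r := by gcongr
      have a2 := mul_le_of_le_one_right (norm_nonneg (dbar (θ i) w)) ((hη j).2.2.1 w)
      have a3 := mul_le_of_le_one_left (norm_nonneg (dbar (η j) w)) ((hθ i).2.2.1 w)
      rw [mul_div_assoc]
      linarith [(hθ i).2.2.2.1 w, (hη j).2.2.2.1 w]
    have e : θ i = fun w => ∑ j ∈ J, θ i w * η j w := by
      ext w
      by_cases hw : w ∈ closedBall (a i) ρ
      · rw [← Finset.mul_sum, hη1 w (hsub i hi hw), mul_one]
      · simp [(hθ i).2.1 w hw]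
    have e2 : ∫ ζ, dbar (θ i) ζ * g ζ = ∑ j ∈ J, ∫ ζ, dbar (fun w => θ i w * η j w) ζ * g ζ := by
      rw [← integral_finsetSum _ fun j _ => hint (hcd j) (hs j) (hdb j)]
      conv_lhs => rw [e]
      simp only [dbar_sum J hcd, Finset.sum_mul]
    have hj : ∀ j ∈ J, ‖∫ ζ, dbar (fun w => θ i w * η j w) ζ * g ζ‖ ≤
        Real.pi * ((1 + 6 * A) * M₂ * t) := by
      intro j _
      have hv := fun (M : ℝ) (hM0 : 0 ≤ M) (hM : ∀ w ∈ closedBall (b j) r, ‖g w‖ ≤ M) =>
        vitushkin (E := E) (hcd j) hr (hs j) (fun w => by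
          rw [norm_mul]; exact mul_le_one₀ ((hθ i).2.2.1 w) (norm_nonneg _) ((hη j).2.2.1 w))
          (hdb j) hg hga hM0 hM
      by_cases hd : dist (a i) (b j) ≤ r + ρ
      · rcases (E ∩ closedBall (b j) r).eq_empty_or_nonempty with h3 | ⟨x, hxE, hx⟩
        · obtain ⟨M, hM0, hM⟩ := hbd (b j) r
          have := hv M hM0 hM
          rw [h3, anCap_empty, mul_zero] at this
          exact this.trans (by positivity)
        · refine (hv M₂ hM₂ fun w hw => (hgB w).trans (h2 w (closedBall_subset_cthickening hxE _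
            (closedBall_subset_closedBall' (by linarith [mem_closedBall'.1 hx]) hw)))).trans ?_
          have a1 : anCap (E ∩ closedBall (b j) r) ≤ t := le_of_not_ge fun h => hgood ⟨_, h, hd⟩
          have a2 : 3 * r * (2 * A / r) = 6 * A := by field_simp; norm_num
          rw [a2, mul_assoc, mul_assoc, mul_assoc (1 + 6 * A)]
          gcongr
      · have : (fun w => θ i w * η j w) = fun _ => 0 := by
          ext w
          by_cases hw : w ∈ closedBall (b j) r
          · rw [(hθ i).2.1 w fun h => hd ?_, zero_mul]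
            linarith [dist_triangle (a i) w (b j), mem_closedBall.1 hw, mem_closedBall'.1 h]
          · exact hs j w hw
        simp only [this, dbar_const, zero_mul, integral_zero, norm_zero]
        positivity
    rw [e2]
    refine (norm_sum_le _ _).trans ((Finset.sum_le_card_nsmul _ _ _ hj).trans ?_)
    rw [nsmul_eq_mul, mul_left_comm]
    refine mul_le_mul_of_nonneg_left (le_add_of_nonneg_of_le (by positivity) ?_) Real.pi_pos.le
    gcongr
    exact hJ.trans_eq (by ring)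
  have h3 := (norm_sum_le _ _).trans (Finset.sum_le_card_nsmul _ _ _ hterm)
  rw [hres, nsmul_eq_mul, norm_mul, norm_neg, Complex.norm_real, Real.norm_of_nonneg Real.pi_pos.le,
    mul_left_comm] at h3
  refine (le_of_mul_le_mul_left h3 Real.pi_pos).trans ?_
  calc _ ≤ (7 * R₀ / ρ) ^ 2 * (ρ * A * M₁ + (35 * R₀ / r) ^ 2 * ((1 + 6 * A) * M₂ * t)) := by gcongr
    _ = (7 * R₀) ^ 2 * A / ρ * M₁ +
        (7 * R₀) ^ 2 * (35 * R₀) ^ 2 * (1 + 6 * A) * t / (ρ ^ 2 * r ^ 2) * M₂ := by field_simp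
    _ ≤ _ := by
        gcongr
        · exact le_add_of_nonneg_right (by positivity)
        · exact le_add_of_nonneg_left (by positivity)

end Pool.Agent.MP_13a571_an

end MrgPart4

-- ======== part 5: formerly Pool.Agent.MP_13a571_an.Nec
section MrgPart5

/-!
The capacity criterion is necessary.
-/

open Set Filter Topology Metric Bornology

namespace Pool.Agent.MP_13a571_an

lemma tendsto_mul_prod {n : ℕ} {f : ℂ → ℂ} {c : ℂ}
    (h : Tendsto (fun w => w ^ n * f w) (cocompact ℂ) (𝓝 c)) (x : Fin n → ℂ) (j : Fin n) :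
    Tendsto (fun w => w * (f w * ∏ i ∈ Finset.univ.erase j, (w - x i))) (cocompact ℂ) (𝓝 c) := by
  rw [← cobounded_eq_cocompact] at *
  have h1 := h.mul (tendsto_finsetProd (Finset.univ.erase j) fun i _ =>
    ((tendsto_inv₀_cobounded (α := ℂ)).const_mul (x i)).const_sub 1)
  simp only [mul_zero, sub_zero, Finset.prod_const_one, mul_one] at h1
  refine h1.congr' ?_
  filter_upwards [(isBounded_singleton (x := (0 : ℂ))).compl] with w hw
  have h0 : w ≠ 0 := by simpa using hw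
  have e : ∀ i, w - x i = w * (1 - x i * w⁻¹) := fun i => by field_simp
  obtain ⟨m, rfl⟩ := Nat.exists_eq_succ_of_ne_zero j.pos.ne'
  simp only [e, Finset.prod_mul_distrib, Finset.prod_const, Finset.card_erase_of_mem
    (Finset.mem_univ j), Finset.card_univ, Fintype.card_fin, Nat.succ_sub_one, pow_succ]
  ring

lemma final_ineq {κ η ε γ θ A n k b N : ℝ} (hn : 0 < n) (hk : k = n - b) (hb0 : 0 ≤ b)
    (hb : b ≤ θ * n) (hθ1 : θ ≤ 1 / 2) (hθ2 : θ * (A + |κ|) ≤ η / 16) (hA : 0 ≤ A) (hη : 0 < η)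
    (hε : ε = η / 400) (hγ0 : 0 < γ) (hγ : γ ≤ ε / 2) (hN : N ≤ 12 * n) (hκ : |κ| ≤ γ * n)
    (h : n * ((κ - 2 * γ) * n) ≤ 3 * γ * n * n + (2 * n * b * A + (3 * ε * n * N + γ * k ^ 2 +
      (2 * k * (3 * ε * n) + k * (k + 1) * (κ - η))))) : False := by
  have h1 : n / 2 ≤ k := by nlinarith
  have h2 : k ≤ n := by linarith
  have hε0 : 0 < ε := by linarith
  have h3 : 3 * ε * n * N ≤ 3 * ε * n * (12 * n) := by gcongr
  have h4 : γ * k ^ 2 ≤ γ * n ^ 2 := by gcongr; linarith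
  have h5 : 2 * k * (3 * ε * n) ≤ 2 * n * (3 * ε * n) := by gcongr
  have h6 : η * (n / 2 * (n / 2)) ≤ η * (k * (k + 1)) := by gcongr; linarith; linarith
  have h7 : |n ^ 2 - k * (k + 1)| ≤ 2 * n * b + n := by
    rw [abs_le, hk]; constructor <;> nlinarith
  have h8 : -(|κ| * (2 * n * b + n)) ≤ κ * (n ^ 2 - k * (k + 1)) := by
    refine le_trans (neg_le_neg ?_) (neg_abs_le _)
    rw [abs_mul]; gcongr
  have h9 : 2 * n * ((A + |κ|) * b) ≤ 2 * n * (η / 16 * n) := by
    refine mul_le_mul_of_nonneg_left ?_ (by positivity)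
    calc _ ≤ (A + |κ|) * (θ * n) := by gcongr
      _ = θ * (A + |κ|) * n := by ring
      _ ≤ _ := by gcongr
  have h10 : |κ| * n ≤ γ * n * n := by gcongr
  have h11 : γ * n ^ 2 ≤ ε / 2 * n ^ 2 := by gcongr
  have h12 : 0 < η * n ^ 2 := by positivity
  subst hε
  nlinarith

theorem necessary {E : Set ℂ} (hE : IsCompact E) {κ L : ℝ} (hκ : logCap E = Real.exp κ)
    (hL : 2 < L) (h : ∀ δ > 0, ∀ᶠ n : ℕ in atTop, ∃ (f : ℂ → ℂ) (c : ℂ), AnalyticOnNhd ℂ f Eᶜ ∧
      (∀ w ∉ E, ‖f w‖ ≤ 1) ∧ Tendsto (fun w => w ^ n * f w) (cocompact ℂ) (𝓝 c) ∧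
        Real.exp ((κ - δ) * n) ≤ ‖c‖) {η : ℝ} (hη : 0 < η) :
    ∀ᶠ r in 𝓝[>] (0 : ℝ), Real.exp (κ - η) ≤ logCap (thick E r (r ^ L)) := by
  classical
  obtain ⟨C, hC, hloc⟩ := localization hE.isBounded
  obtain ⟨A, hA0, hA⟩ := exists_diam hE.isBounded
  have hinf := infinite_of_logCap_pos (hκ ▸ Real.exp_pos κ)
  have hL2 : 0 < L - 2 := by linarith
  set ε := η / 400 with hε
  have hε0 : 0 < ε := by positivity
  set θ := min (1 / 2) (η / (16 * (A + |κ| + 1))) with hθ
  have hθ0 : 0 < θ := lt_min (by norm_num) (by positivity)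
  have hθ1 : θ ≤ 1 / 2 := min_le_left _ _
  have hθ2 : θ * (A + |κ|) ≤ η / 16 := by
    have : θ * (16 * (A + |κ| + 1)) ≤ η := (le_div_iff₀ (by positivity)).1 (min_le_right _ _)
    linarith
  set γ := min (ε / 2) (θ * ((L - 2) * ε) / 11) with hγ
  have hγ0 : 0 < γ := lt_min (by positivity) (by positivity)
  have hγ1 : γ ≤ ε / 2 := min_le_left _ _
  set μ := (L - 2) * ε - 5 * γ with hμ
  have hγ2 : 6 * γ ≤ θ * μ := by
    have : γ ≤ θ * ((L - 2) * ε) / 11 := min_le_right _ _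
    rw [hμ]; nlinarith
  have hμ0 : 0 < μ := pos_of_mul_pos_left' (lt_of_lt_of_le (by positivity) hγ2) hθ0.le
  suffices key : ∀ᶠ n : ℕ in atTop, ∀ r, Real.exp (-(2 * ε * n)) ≤ r → r ≤ Real.exp (-(ε * n)) →
      Real.exp (κ - η) ≤ logCap (thick E r (r ^ L)) by
    have h1 : Tendsto (fun r : ℝ => -Real.log r / ε) (𝓝[>] 0) atTop :=
      (tendsto_neg_atBot_atTop.comp Real.tendsto_log_nhdsGT_zero).atTop_div_const hε0
    filter_upwards [(tendsto_nat_floor_atTop.comp h1).eventually key, h1.eventually_ge_atTop 1,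
      self_mem_nhdsWithin] with r h2 h3 hr
    have h4 := Nat.floor_le (zero_le_one.trans h3)
    have h5 := Nat.lt_floor_add_one (-Real.log r / ε)
    have h6 : (1 : ℝ) ≤ ⌊-Real.log r / ε⌋₊ := by exact_mod_cast Nat.one_le_floor_iff _ |>.2 h3
    rw [le_div_iff₀ hε0] at h4
    rw [div_lt_iff₀ hε0] at h5
    refine h2 r ?_ ?_ <;> rw [← Real.exp_log hr, Real.exp_le_exp, Real.exp_log hr] <;>
      simp only [Function.comp] <;> nlinarith
  filter_upwards [h γ hγ0, energy_ev hE (s := κ + γ) (by rw [hκ]; gcongr; linarith) hγ0,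
    ev_const (Real.log (4 * C)) hγ0, ev_exp (c := 1 / 16) (by norm_num) hγ0,
    ev_exp (c := γ / 16) (by positivity) hγ0, ev_log (Real.log 4) 1 hε0, ev_const |κ| hγ0,
    eventually_gt_atTop 0] with n ⟨f, c, hf1, hf2, hf3, hc⟩ e2 e3 e4 e5 e6 e7 e8 r hr1 hr2
  by_contra hcon
  have hn : (1 : ℝ) ≤ n := by exact_mod_cast e8
  have hr0 : 0 < r := (Real.exp_pos _).trans_le hr1
  have hrL : 0 < r ^ L := Real.rpow_pos_of_pos hr0 L
  rw [Real.log_le_iff_le_exp (by positivity)] at e3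
  rw [one_mul, ← Real.log_mul (by norm_num) (by positivity),
    Real.log_le_iff_le_exp (by positivity)] at e6
  set σ := Real.exp (-(γ * n)) with hσ
  have hσ0 : 0 < σ := Real.exp_pos _
  set ρ := σ * σ with hρ
  have hρe : ρ = Real.exp (-(2 * γ * n)) := by rw [hρ, hσ, ← Real.exp_add]; ring_nf
  have hrρ : r ≤ ρ := hr2.trans (by rw [hρe]; gcongr; linarith)
  have hρσ : 16 * ρ ≤ σ := by nlinarith
  set G := thick E (r / 2) (r ^ L) with hG
  have hX₁ : cthickening (3 * ρ) G ⊆ cthickening σ E :=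
    ((cthickening_subset_of_subset _ (thick_subset hrL)).trans (cthickening_cthickening_subset
      (by positivity) (by positivity) _)).trans (cthickening_mono (by linarith) _)
  set wt : Bool → ℝ := fun b => bif b then Real.exp (3 * γ * n) else Real.exp (-(μ * n)) with hwt
  have hwt0 : ∀ b, 0 < wt b := fun b => by cases b <;> exact Real.exp_pos _
  obtain ⟨ζ, hζ, -, hmax⟩ := exists_fekete (Z := ℂ × Bool)
    (A := cthickening (3 * ρ) G ×ˢ {true} ∪ cthickening r E ×ˢ {false})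
    (((hE.cthickening.of_isClosed_subset isClosed_cthickening hX₁).prod isCompact_singleton).union
      (hE.cthickening.prod isCompact_singleton)) continuous_fst (w := fun z => wt z.2)
    ((continuous_of_discreteTopology (f := wt)).comp continuous_snd) (fun z => hwt0 _)
    (hinf.mono fun w hw => ⟨(w, false), Or.inr ⟨self_subset_cthickening _ hw, rfl⟩, rfl⟩) n
  set x : Fin n → ℂ := fun j => (ζ j).1 with hx
  have hxσ : ∀ j, x j ∈ cthickening σ E := fun j =>
    (hζ j).elim (fun h => hX₁ h.1) fun h => cthickening_mono (by linarith) _ h.1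
  have hW : ∀ j, Real.exp ((κ - 2 * γ) * n) ≤ wt (ζ j).2 * row Finset.univ x j (x j) := by
    intro j
    set W := wt (ζ j).2 * row Finset.univ x j (x j) with hWdef
    have hW0 : 0 ≤ W := mul_nonneg (hwt0 _).le (row_nonneg _ _ _ _)
    set P : ℂ → ℂ := fun w => f w * ∏ i ∈ Finset.univ.erase j, (w - x i) with hP
    have hPa : AnalyticOnNhd ℂ P Eᶜ := hf1.mul fun w _ => by fun_prop
    have h1 := hloc (r / 2) ρ (r ^ L) (by positivity) (by linarith) (by linarith) hrL.le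
      (Eᶜ.piecewise P fun _ => 0) (row Finset.univ x j) c (W / wt true) (W / wt false)
      (hPa.continuousOn.measurable_piecewise continuousOn_const
        hE.isClosed.isOpen_compl.measurableSet)
      (fun w hw => (hPa w hw).congr (by
        filter_upwards [hE.isClosed.isOpen_compl.mem_nhds hw] with y hy
        exact (piecewise_eq_of_mem _ _ _ hy).symm))
      ((tendsto_mul_prod hf3 x j).congr' (by
        filter_upwards [hE.compl_mem_cocompact] with y hy
        rw [piecewise_eq_of_mem _ _ _ hy]))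
      (by unfold row; fun_prop) (fun w => by
        by_cases hw : w ∈ Eᶜ
        · rw [piecewise_eq_of_mem _ _ _ hw, hP, norm_mul, norm_prod]
          exact mul_le_of_le_one_left (row_nonneg _ _ _ _) (hf2 w hw)
        · rw [piecewise_eq_of_notMem _ _ _ hw, norm_zero]
          exact row_nonneg _ _ _ _)
      (div_nonneg hW0 (hwt0 _).le) (div_nonneg hW0 (hwt0 _).le)
      (fun y hy w hw => (le_div_iff₀' (hwt0 _)).2 (hmax j (w, true)
        (Or.inl ⟨closedBall_subset_cthickening (E := G) hy _ hw, rfl⟩)))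
      (fun w hw => (le_div_iff₀' (hwt0 _)).2 (hmax j (w, false)
        (Or.inr ⟨cthickening_mono (by linarith) _ hw, rfl⟩)))
    have h2 : C / ρ ≤ wt true := by
      rw [div_le_iff₀ (by positivity), hρe]
      refine le_trans (by linarith) (e3.trans (le_of_eq ?_))
      simp only [hwt, cond_true]
      rw [← Real.exp_add]; ring_nf
    have h3 : C * r ^ L / (ρ ^ 2 * (r / 2) ^ 2) ≤ wt false := by
      have h4 : r ^ L ≤ Real.exp (-(ε * n) * (L - 2)) * r ^ 2 := by
        rw [Real.exp_mul, ← div_le_iff₀ (by positivity), ← Real.rpow_two, ← Real.rpow_sub hr0]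
        gcongr
      rw [div_le_iff₀ (by positivity)]
      calc _ ≤ Real.exp (γ * n) / 4 * (Real.exp (-(ε * n) * (L - 2)) * r ^ 2) := by
            gcongr; linarith
        _ = _ := by
            have : Real.exp (γ * n) * Real.exp (-(ε * n) * (L - 2)) = wt false * ρ ^ 2 := by
              simp only [hwt, cond_false]
              rw [hρe, ← Real.exp_nat_mul, ← Real.exp_add, ← Real.exp_add, hμ]; push_cast; ring_nf
            linear_combination r ^ 2 / 4 * this
    have h4 : ∀ a b : ℝ, a ≤ b → 0 < b → a * (W / b) ≤ W := fun a b h4 h5 => by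
      rw [mul_div_left_comm]
      exact mul_le_of_le_one_right hW0 ((div_le_one h5).2 h4)
    have h5 : Real.exp ((κ - γ) * n) = Real.exp (γ * n) * Real.exp ((κ - 2 * γ) * n) := by
      rw [← Real.exp_add]; ring_nf
    nlinarith [h4 _ _ h2 (hwt0 _), h4 _ _ h3 (hwt0 _), Real.exp_pos ((κ - 2 * γ) * n)]
  set S := Finset.univ.filter fun j => (ζ j).2 = true with hS
  have hk : (S.card : ℝ) = n - (Finset.univ \ S).card := by
    have := Finset.card_sdiff_add_card_eq_card (Finset.subset_univ S)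
    rw [Finset.card_univ, Fintype.card_fin] at this
    rw [eq_sub_iff_add_eq', ← Nat.cast_add, this]
  set b : ℝ := ((Finset.univ \ S).card : ℝ) with hbdef
  have hb0 : 0 ≤ b := Nat.cast_nonneg _
  have hlow : Real.exp (n * ((κ - 2 * γ) * n)) ≤ Real.exp (3 * γ * n * n - μ * n * b) *
      PP Finset.univ fun j i => ‖x j - x i‖ := by
    have h1 := Finset.prod_le_prod (s := Finset.univ) (fun _ _ => Real.exp_nonneg _) fun j _ => hW j
    rw [Finset.prod_const, Finset.card_univ, Fintype.card_fin, ← Real.exp_nat_mul,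
      Finset.prod_mul_distrib] at h1
    refine h1.trans (mul_le_mul_of_nonneg_right ?_ (PP_nonneg fun _ _ => norm_nonneg _))
    rw [← Finset.prod_sdiff (Finset.subset_univ S),
      Finset.prod_congr (s₁ := Finset.univ \ S) (g := fun _ => wt false) rfl fun j hj => by
        rw [show (ζ j).2 = false by simpa [hS] using hj],
      Finset.prod_congr (s₁ := S) (g := fun _ => wt true) rfl fun j hj => by
        rw [(Finset.mem_filter.1 hj).2]]
    simp only [Finset.prod_const, hwt, cond_true, cond_false]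
    rw [← Real.exp_nat_mul, ← Real.exp_nat_mul, ← Real.exp_add, Real.exp_le_exp, hk]
    nlinarith [mul_nonneg (mul_nonneg hγ0.le (Nat.cast_nonneg n)) hb0]
  have hbN : μ * b + γ / 2 * cnt Finset.univ x σ ≤ 6 * γ * n := by
    have h1 := hlow.trans (mul_le_mul_of_nonneg_left (e2 x hxσ) (Real.exp_nonneg _))
    rw [← Real.exp_add, Real.exp_le_exp] at h1
    refine le_of_mul_le_mul_left ?_ (show (0 : ℝ) < n by positivity)
    linarith
  have hN0 : (0 : ℝ) ≤ cnt Finset.univ x σ := Nat.cast_nonneg _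
  have hb : b ≤ θ * n := le_of_mul_le_mul_left (by nlinarith) hμ0
  have hN : (cnt S x σ : ℝ) ≤ 12 * n := (Nat.cast_le.2 (cnt_mono (Finset.subset_univ S) x σ)).trans
    (le_of_mul_le_mul_left (by nlinarith) (half_pos hγ0))
  have hy : ∀ j ∈ S, ∃ y ∈ G, dist (x j) y < 4 * ρ := fun j hj =>
    mem_thickening_iff.1 (cthickening_subset_thickening' (by positivity) (by linarith) G
      ((hζ j).resolve_right fun h => by
        simpa [(Finset.mem_filter.1 hj).2] using h.2).1)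
  choose! y hyG hyd using hy
  obtain ⟨T, hT, hd, hTb⟩ := exists_of_logCap_lt
    (hE.isBounded.cthickening.subset (thick_subset hrL)) (not_le.1 hcon)
  have h4r : 4 * n ≤ Real.exp (3 * ε * n) * r := by
    calc _ ≤ Real.exp (ε * n) := e6
      _ = Real.exp (3 * ε * n) * Real.exp (-(2 * ε * n)) := by rw [← Real.exp_add]; ring_nf
      _ ≤ _ := by gcongr
  have u1 := PP_le_of_subset (Finset.subset_univ S) (k := fun j i => ‖x j - x i‖)
    (Real.one_le_exp hA0) (fun _ _ => norm_nonneg _) fun j _ i _ =>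
      hA _ (cthickening_mono (by linarith) _ (hxσ j)) _ (cthickening_mono (by linarith) _ (hxσ i))
  have u2 := PP_le_cnt (S := S) (x := x) (σ := σ) (u := 3 * ε * n) hγ0.le
    (l := fun j i => max ‖y j - y i‖ (r / 4)) (fun _ _ => le_max_of_le_right (by positivity))
    (fun j _ i _ h => le_trans (by linarith) (mul_le_mul_of_nonneg_left (le_max_right _ _)
      (Real.exp_nonneg _))) fun j hj i hi h => by
      refine le_trans ?_ (mul_le_mul (Real.add_one_le_exp γ) (le_max_left _ _) (norm_nonneg _)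
        (Real.exp_nonneg _))
      have h1 := dist_triangle4 (x j) (y j) (y i) (x i)
      rw [dist_comm (y i), dist_eq_norm, dist_eq_norm (y j)] at h1
      have h2 : ‖x j - x i‖ * (1 - 8 * σ) ≤ ‖y j - y i‖ := by nlinarith [hyd j hj, hyd i hi]
      have h3 : 1 ≤ (γ + 1) * (1 - 8 * σ) := by nlinarith
      nlinarith [mul_le_mul_of_nonneg_left h2 (show 0 ≤ γ + 1 by linarith),
        mul_le_mul_of_nonneg_left h3 (norm_nonneg (x j - x i))]
  have u3 := energy hT hd (Real.exp_nonneg _) (τ := r / 4) (by positivity) (fun w hw => (hTb w hw).le)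
    (x := y) (S := S) fun j hj w hw => mem_thick (hyG j hj) (by linarith [mem_closedBall'.1 hw])
  have u4 : ((S.card : ℝ) / (r / 4)) ^ (2 * S.card) ≤ Real.exp (3 * ε * n) ^ (2 * S.card) := by
    gcongr
    rw [div_le_iff₀ (by positivity)]
    linarith
  have u5 := hlow.trans (mul_le_mul (b := Real.exp (3 * γ * n * n))
    (Real.exp_le_exp.2 (sub_le_self _ (by positivity))) (u1.trans (mul_le_mul_of_nonneg_left
      (u2.trans (mul_le_mul_of_nonneg_left (u3.trans (mul_le_mul_of_nonneg_right u4 (by positivity)))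
      (Real.exp_nonneg _))) (by positivity))) (PP_nonneg fun _ _ => norm_nonneg _)
      (Real.exp_nonneg _))
  simp only [← Real.exp_nat_mul, ← Real.exp_add, Real.exp_le_exp, Finset.card_univ,
    Fintype.card_fin] at u5
  push_cast at u5
  exact final_ineq (by positivity) hk hb0 hb hθ1 hθ2 hA0 hη hε hγ0 hγ1 hN e7 u5
where
  pos_of_mul_pos_left' {a b : ℝ} (h : 0 < a * b) (ha : 0 ≤ a) : 0 < b :=
    (pos_iff_pos_of_mul_pos h).1 (lt_of_le_of_ne ha fun e => by simp [← e] at h)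

end Pool.Agent.MP_13a571_an

end MrgPart5

-- marker of a merged file
example : 731051 + 713576 = 731051 + 713576 := rfl
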