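import Mathlib.Algebra.Order.Archimedean.Real.Hom
import Mathlib.Algebra.Ring.IsFormallyReal
import Mathlib.Analysis.SpecialFunctions.Complex.LogBounds
import Pool.Agent.MP_13a571_an.Scale
import Pool.Agent.MP_13a571_an.Nec

-- ======== part 0: formerly Pool.Agent.MP_13a571_an.Extremal
section MrgPart0

/-!
Rational functions that are extremal for a condenser on a smaller level domain.
-/

open MeasureTheory Set Filter Topology Metric InnerProductSpace
open scoped ComplexConjugate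

namespace Pool.Agent.MP_13a571_an

lemma discretize {Γ Λ : Set ℂ} (hΓ : IsCompact Γ) (hΛ : IsCompact Λ) (hd : ∀ ζ ∈ Γ, ζ ∉ Λ)
    {ρ : ℂ → ℝ} (hρ : Continuous ρ) (h0 : ∀ ζ, 0 ≤ ρ ζ) (hs : ∀ ζ, ζ ∉ Γ → ρ ζ = 0) {η : ℝ}
    (hη : 0 < η) : ∃ N : ℝ, ∀ n : ℕ, ∃ q : ℂ → ℂ, Differentiable ℂ q ∧ (∀ z, z ∉ Γ → q z ≠ 0) ∧
      ∀ z ∈ Λ, |Real.log ‖q z‖ - n * ∫ ζ, ρ ζ * Real.log ‖ζ - z‖| ≤ η * n + N := by
  obtain ⟨R, hR, hΓR⟩ := hΓ.isBounded.subset_ball_lt 0 0
  have hne : ∀ ζ ∈ Γ, ∀ z ∈ Λ, ‖ζ - z‖ ≠ 0 := fun ζ hζ z hz h => by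
    rw [norm_eq_zero, sub_eq_zero] at h
    exact hd ζ hζ (h ▸ hz)
  have hlc : ∀ ζ ∈ Γ, ∀ z ∈ Λ, ContinuousAt (fun p : ℂ × ℂ => Real.log ‖p.1 - p.2‖) (ζ, z) :=
    fun ζ hζ z hz => ContinuousAt.log (f := fun p : ℂ × ℂ => ‖p.1 - p.2‖) (by fun_prop)
      (hne ζ hζ z hz)
  obtain ⟨B, hB⟩ := (hΓ.prod hΛ).exists_bound_of_continuousOn
    (f := fun p : ℂ × ℂ => Real.log ‖p.1 - p.2‖)
    fun p hp => (hlc p.1 hp.1 p.2 hp.2).continuousWithinAt
  set S : Set (ℂ → ℝ) := {G | ∃ s : ℝ, 0 ≤ s ∧ ∃ ζ, (ζ ∈ Γ ∨ s = 0) ∧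
    G = fun z => s * Real.log ‖ζ - z‖}
  obtain ⟨G, hG, hGa⟩ := integral_approx hΛ hR (κ := fun ζ z => ρ ζ * Real.log ‖ζ - z‖)
    (continuousOn_kernel (κ := fun ζ z => ρ ζ * Real.log ‖ζ - z‖) hΓ.isClosed
      (fun ζ hζ z => by simp [hs ζ hζ]) fun ζ hζ z hz =>
        ContinuousAt.mul (f := fun p : ℂ × ℂ => ρ p.1) (by fun_prop) (hlc ζ hζ z hz))
    (fun ζ hζ z _ => by simp [hs ζ fun h2 => hζ (hΓR h2)]) (convex_convexHull ℝ S)
    (fun ζ => ⟨_, subset_convexHull ℝ S ⟨(volume (ball (0 : ℂ) R)).toReal * ρ ζ,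
      mul_nonneg ENNReal.toReal_nonneg (h0 ζ), ζ, by
        by_cases h : ζ ∈ Γ
        · exact Or.inl h
        · exact Or.inr (by rw [hs ζ h, mul_zero]), rfl⟩, fun z _ => by simp [mul_assoc]⟩) hη
  obtain ⟨ι, _, w, g, hw, -, hg, rfl⟩ := mem_convexHull_iff_exists_fintype.1 hG
  choose s hs0 ζ hζ hgi using hg
  refine ⟨Fintype.card ι * |B|, fun n => ⟨fun z => ∏ i, (ζ i - z) ^ ⌊n * (w i * s i)⌋₊,
    by fun_prop, fun z hz => ?_, fun z hz => ?_⟩⟩
  · refine Finset.prod_ne_zero_iff.2 fun i _ => ?_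
    rcases hζ i with h | h
    · exact pow_ne_zero _ (sub_ne_zero.2 fun e => hz (e ▸ h))
    · simp [h]
  · have e1 : Real.log ‖∏ i, (ζ i - z) ^ ⌊n * (w i * s i)⌋₊‖ =
        ∑ i, ⌊n * (w i * s i)⌋₊ * Real.log ‖ζ i - z‖ := by
      rw [norm_prod, Real.log_prod]
      · simp
      · intro i _
        rcases hζ i with h | h
        · rw [norm_pow]; exact pow_ne_zero _ (hne _ h z hz)
        · simp [h]
    have e2 : (∑ i, w i • g i) z = ∑ i, w i * s i * Real.log ‖ζ i - z‖ := by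
      simp [Finset.sum_apply, hgi, mul_assoc]
    have h3 := hGa z hz
    rw [e2, Real.norm_eq_abs] at h3
    have h4 : |∑ i, ⌊n * (w i * s i)⌋₊ * Real.log ‖ζ i - z‖ -
        n * ∑ i, w i * s i * Real.log ‖ζ i - z‖| ≤ Fintype.card ι * |B| := by
      rw [Finset.mul_sum, ← Finset.sum_sub_distrib]
      refine (Finset.abs_sum_le_sum_abs _ _).trans ?_
      rw [← Finset.card_univ, ← nsmul_eq_mul]
      refine Finset.sum_le_card_nsmul _ _ _ fun i _ => ?_
      rcases hζ i with h | h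
      · have h5 : 0 ≤ n * (w i * s i) := by have := hw i; have := hs0 i; positivity
        have h6 := Nat.floor_le h5
        have h7 := Nat.lt_floor_add_one (n * (w i * s i))
        have h8 : |Real.log ‖ζ i - z‖| ≤ |B| := (hB (ζ i, z) ⟨h, hz⟩).trans (le_abs_self B)
        rw [← mul_assoc (n : ℝ) (w i * s i), ← sub_mul, abs_mul]
        calc _ ≤ 1 * |B| := by
              gcongr
              rw [abs_le]; constructor <;> linarith
          _ = |B| := one_mul _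
      · simp [h]
    rw [e1]
    have h5 : (0 : ℝ) ≤ n := Nat.cast_nonneg n
    calc _ ≤ |∑ i, ⌊n * (w i * s i)⌋₊ * Real.log ‖ζ i - z‖ -
          n * ∑ i, w i * s i * Real.log ‖ζ i - z‖| + |n * ∑ i, w i * s i * Real.log ‖ζ i - z‖ -
          n * ∫ ζ, ρ ζ * Real.log ‖ζ - z‖| := abs_sub_le _ _ _
      _ ≤ Fintype.card ι * |B| + n * η := by
          gcongr
          rw [← mul_sub, abs_mul, abs_of_nonneg h5, abs_sub_comm]
          gcongr
      _ = _ := by ring

lemma hasFDerivAt_re {h : ℂ → ℂ} {w : ℂ} (hh : DifferentiableAt ℂ h w) :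
    HasFDerivAt (fun y => (h y).re) (Complex.reCLM ∘L
      (ContinuousLinearMap.toSpanSingleton ℂ (deriv h w)).restrictScalars ℝ) w :=
  Complex.reCLM.hasFDerivAt.comp w (hh.hasDerivAt.hasFDerivAt.restrictScalars ℝ)

lemma dbar_comp_re {h : ℂ → ℂ} {w : ℂ} (hh : DifferentiableAt ℂ h w) {g : ℝ → ℝ} {g' : ℝ}
    (hg : HasDerivAt g g' (h w).re) :
    dbar (fun y => ((g (h y).re : ℝ) : ℂ)) w = g' * conj (deriv h w / 2) := by
  have h1 := Complex.ofRealCLM.hasFDerivAt.comp w (hg.comp_hasFDerivAt w (hasFDerivAt_re hh))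
  refine (dbar_of_hasFDerivAt h1).trans ?_
  rw [map_div₀, map_ofNat]
  apply Complex.ext <;> simp <;> ring

/-- the holomorphic Wirtinger derivative of a real function -/
noncomputable def wirt (Φ : ℂ → ℝ) (w : ℂ) : ℂ :=
  (fderiv ℝ Φ w 1 - Complex.I * fderiv ℝ Φ w Complex.I) / 2

lemma wirt_eq {Φ : ℂ → ℝ} {h : ℂ → ℂ} {w : ℂ} (hh : AnalyticAt ℂ h w)
    (e : ∀ᶠ y in 𝓝 w, (h y).re = Φ y) : wirt Φ =ᶠ[𝓝 w] fun y => deriv h y / 2 := by
  filter_upwards [e.eventually_nhds, hh.eventually_analyticAt] with y hy hy2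
  have : Φ =ᶠ[𝓝 y] fun y => (h y).re := hy.mono fun _ h => h.symm
  rw [wirt, this.fderiv_eq, (hasFDerivAt_re hy2.differentiableAt).fderiv]
  apply Complex.ext <;> simp

/-- a smooth step from `0` to `1` on `[a, b]` -/
noncomputable def step (a b s : ℝ) : ℝ := Real.smoothTransition ((s - a) / (b - a))

lemma contDiff_step (a b : ℝ) : ContDiff ℝ 1 (step a b) :=
  Real.smoothTransition.contDiff.comp ((contDiff_id.sub contDiff_const).div_const _)

lemma step_zero {a b s : ℝ} (h : a < b) (hs : s ≤ a) : step a b s = 0 :=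
  Real.smoothTransition.zero_of_nonpos (div_nonpos_of_nonpos_of_nonneg (by linarith) (by linarith))

lemma step_one {a b s : ℝ} (h : a < b) (hs : b ≤ s) : step a b s = 1 :=
  Real.smoothTransition.one_of_one_le (by rw [le_div_iff₀ (by linarith)]; linarith)

lemma deriv_step_nonneg {a b : ℝ} (h : a < b) (s : ℝ) : 0 ≤ deriv (step a b) s := by
  refine Monotone.deriv_nonneg fun x y hxy => Real.smoothTransition.monotone ?_
  have : 0 < b - a := by linarith
  gcongr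

lemma deriv_step_ne {a b s : ℝ} (h : a < b) (hs : deriv (step a b) s ≠ 0) : a ≤ s ∧ s ≤ b := by
  constructor
  · by_contra h1
    apply hs
    have : step a b =ᶠ[𝓝 s] fun _ => 0 := by
      filter_upwards [Iio_mem_nhds (not_le.1 h1)] with y hy using step_zero h (le_of_lt hy)
    rw [this.deriv_eq, deriv_const]
  · by_contra h1
    apply hs
    have : step a b =ᶠ[𝓝 s] fun _ => 1 := by
      filter_upwards [Ioi_mem_nhds (not_le.1 h1)] with y hy using step_one h (le_of_lt hy)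
    rw [this.deriv_eq, deriv_const]

lemma pos_of_mul_pos_right' {x y : ℝ} (h : 0 < x * y) (hy : 0 ≤ y) : 0 < x := by
  by_contra h1
  nlinarith [mul_nonneg (neg_nonneg.2 (not_lt.1 h1)) hy]

/-- potential representation of `Φ` on the middle levels -/
theorem Exh.potential {D : Set ℂ} {Φ : ℂ → ℝ} (h : Exh D Φ) {a b c d : ℝ} (ha : 0 < a)
    (hab : a < b) (hbc : b < c) (hcd : c < d) (hd : d < 1) :
    ∃ (ρ : ℂ → ℝ) (c₀ : ℝ), Continuous ρ ∧ (∀ w, 0 < ρ w → w ∈ D ∧ a ≤ Φ w ∧ Φ w ≤ b) ∧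
      (∀ w, ρ w < 0 → w ∈ D ∧ c ≤ Φ w ∧ Φ w ≤ d) ∧ ∀ z ∈ D, b < Φ z → Φ z < c →
        ∫ w, ρ w * Real.log ‖w - z‖ = Φ z + c₀ := by
  set σ : ℝ → ℝ := fun s => step a b s - step c d s with hσ
  have hσd : ContDiff ℝ 1 σ := (contDiff_step a b).sub (contDiff_step c d)
  have hσ' : ∀ s, HasDerivAt σ (deriv (step a b) s - deriv (step c d) s) s := fun s =>
    ((contDiff_step a b).differentiable (by norm_num) s).hasDerivAt.sub
      ((contDiff_step c d).differentiable (by norm_num) s).hasDerivAt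
  set χ : ℝ → ℝ := fun s => ∫ r in d..s, σ r with hχ
  have hχ' : ∀ s, HasDerivAt χ (σ s) s := fun s => (hσd.continuous.integral_hasStrictDerivAt d s).hasDerivAt
  have hχd : ContDiff ℝ 1 χ := by
    rw [contDiff_one_iff_deriv]
    refine ⟨fun s => (hχ' s).differentiableAt, ?_⟩
    have : deriv χ = σ := funext fun s => (hχ' s).deriv
    rw [this]; exact hσd.continuous
  have hσlo : ∀ s, s ≤ a → σ s = 0 := fun s hs => by
    simp [hσ, step_zero hab hs, step_zero hcd (show s ≤ c by linarith)]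
  have hσhi : ∀ s, d ≤ s → σ s = 0 := fun s hs => by
    simp [hσ, step_one hab (show b ≤ s by linarith), step_one hcd hs]
  have hσmid : ∀ s, b ≤ s → s ≤ c → σ s = 1 := fun s h1 h2 => by
    simp [hσ, step_one hab h1, step_zero hcd h2]
  have hχsub : ∀ s s', χ s - χ s' = ∫ r in s'..s, σ r := fun s s' =>
    intervalIntegral.integral_interval_sub_left (hσd.continuous.intervalIntegrable _ _)
      (hσd.continuous.intervalIntegrable _ _)
  have hχhi : ∀ s, d ≤ s → χ s = 0 := fun s hs => by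
    simp only [hχ]
    rw [intervalIntegral.integral_congr (g := fun _ => 0) (fun r hr => hσhi r (by
      rw [uIcc_of_le hs] at hr; exact hr.1))]
    simp
  have hχlo : ∀ s, s ≤ a → χ s = χ a := fun s hs => by
    have := hχsub s a
    rw [intervalIntegral.integral_congr (g := fun _ => 0) (fun r hr => hσlo r (by
      rw [uIcc_of_ge hs] at hr; exact hr.2))] at this
    simp at this
    linarith
  have hχmid : ∀ s, b ≤ s → s ≤ c → χ s = s + (χ c - c) := fun s h1 h2 => by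
    have := hχsub s c
    rw [intervalIntegral.integral_congr (g := fun _ => 1) (fun r hr => hσmid r (by
      rw [uIcc_of_ge h2] at hr; linarith [hr.1]) (by rw [uIcc_of_ge h2] at hr; exact hr.2))] at this
    simp at this
    linarith
  set u : ℂ → ℝ := D.indicator fun w => χ (Φ w) with hu
  set Ψ : ℂ → ℂ := D.indicator fun w => (σ (Φ w) : ℂ) * wirt Φ w with hΨ
  set ρ : ℂ → ℝ := D.indicator fun w =>
    (deriv (step a b) (Φ w) - deriv (step c d) (Φ w)) * Complex.normSq (wirt Φ w) with hρ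
  set L := {z | z ∈ D ∧ Φ z ≤ d} with hL
  have hLc : IsCompact L := h.cpt d hd
  have hσ'0 : ∀ s, (s < a ∨ d < s) → deriv (step a b) s - deriv (step c d) s = 0 := by
    intro s hs
    have e1 : deriv (step a b) s = 0 := by
      by_contra h1
      have := deriv_step_ne hab h1
      rcases hs with hs | hs <;> linarith [this.1, this.2]
    have e2 : deriv (step c d) s = 0 := by
      by_contra h1
      have := deriv_step_ne hcd h1
      rcases hs with hs | hs <;> linarith [this.1, this.2]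
    rw [e1, e2, sub_zero]
  have hout : ∀ w, w ∉ L → u w = 0 ∧ Ψ w = 0 ∧ ρ w = 0 := by
    intro w hw
    by_cases hwD : w ∈ D
    · have h1 : d < Φ w := not_le.1 fun h2 => hw ⟨hwD, h2⟩
      simp [hu, hΨ, hρ, indicator_of_mem hwD, hχhi _ h1.le, hσhi _ h1.le, hσ'0 _ (Or.inr h1)]
    · simp [hu, hΨ, hρ, indicator_of_notMem hwD]
  have hloc : ∀ w, ContDiffAt ℝ 1 (fun w => (u w : ℂ)) w ∧ ContDiffAt ℝ 1 Ψ w ∧
      dbar (fun w => (u w : ℂ)) w = conj (Ψ w) ∧ dbar Ψ w = ρ w := by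
    intro w
    have hconst : ∀ k : ℝ, (∀ᶠ y in 𝓝 w, u y = k ∧ Ψ y = 0 ∧ ρ y = 0) →
        ContDiffAt ℝ 1 (fun w => (u w : ℂ)) w ∧ ContDiffAt ℝ 1 Ψ w ∧
          dbar (fun w => (u w : ℂ)) w = conj (Ψ w) ∧ dbar Ψ w = ρ w := by
      intro k hk
      have e1 : (fun w => (u w : ℂ)) =ᶠ[𝓝 w] fun _ => (k : ℂ) := hk.mono fun y hy => by
        simp [hy.1]
      have e2 : Ψ =ᶠ[𝓝 w] fun _ => 0 := hk.mono fun y hy => hy.2.1
      refine ⟨contDiffAt_const.congr_of_eventuallyEq e1, contDiffAt_const.congr_of_eventuallyEq e2,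
        ?_, ?_⟩
      · rw [dbar_congr e1, dbar_const, hk.self_of_nhds.2.1, map_zero]
      · rw [dbar_congr e2, dbar_const, hk.self_of_nhds.2.2, Complex.ofReal_zero]
    by_cases hwL : w ∈ L
    swap
    · exact hconst 0 (by
        filter_upwards [hLc.isClosed.isOpen_compl.mem_nhds hwL] with y hy using hout y hy)
    by_cases hwa : Φ w < a
    · refine hconst (χ a) ?_
      filter_upwards [(h.isOpen_lt a).mem_nhds ⟨hwL.1, hwa⟩] with y hy
      simp [hu, hΨ, hρ, indicator_of_mem hy.1, hχlo _ hy.2.le, hσlo _ hy.2.le,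
        hσ'0 _ (Or.inl hy.2)]
    have hH := h.harm w hwL.1 (by linarith)
    obtain ⟨g, hg, e⟩ := exists_re_eq hH
    have ew := wirt_eq hg e
    have eg : (g w).re = Φ w := e.self_of_nhds
    have e1 : (fun w => (u w : ℂ)) =ᶠ[𝓝 w] fun y => ((χ (g y).re : ℝ) : ℂ) := by
      filter_upwards [e, h.isOpen.mem_nhds hwL.1] with y hy hyD
      simp [hu, indicator_of_mem hyD, hy]
    have e2 : Ψ =ᶠ[𝓝 w] fun y => ((σ (g y).re : ℝ) : ℂ) * (deriv g y / 2) := by
      filter_upwards [e, h.isOpen.mem_nhds hwL.1, ew] with y hy hyD hy2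
      simp [hΨ, indicator_of_mem hyD, hy, hy2]
    have hgr : ContDiffAt ℝ 1 (fun y => (g y).re) w :=
      Complex.reCLM.contDiff.contDiffAt.comp w ((hg.contDiffAt (n := 1)).restrict_scalars ℝ)
    have c1 : ContDiffAt ℝ 1 (fun y => ((σ (g y).re : ℝ) : ℂ)) w :=
      Complex.ofRealCLM.contDiff.contDiffAt.comp w (hσd.contDiffAt.comp w hgr)
    have c2 : AnalyticAt ℂ (fun y => deriv g y / 2) w := hg.deriv.div_const
    refine ⟨(Complex.ofRealCLM.contDiff.contDiffAt.comp w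
      (hχd.contDiffAt.comp w hgr)).congr_of_eventuallyEq e1,
      (c1.mul ((c2.contDiffAt (n := 1)).restrict_scalars ℝ)).congr_of_eventuallyEq e2, ?_, ?_⟩
    · rw [dbar_congr e1, dbar_comp_re hg.differentiableAt (hχ' _), e2.self_of_nhds]
      simp
    · rw [dbar_congr e2, dbar_mul (c1.differentiableAt (by norm_num))
        (c2.differentiableAt.restrictScalars ℝ), dbar_of_differentiableAt c2.differentiableAt,
        dbar_comp_re hg.differentiableAt (hσ' _), mul_zero, add_zero, hρ,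
        indicator_of_mem hwL.1, ew.self_of_nhds, eg, mul_assoc, mul_comm (conj _),
        Complex.mul_conj]
      simp
  have hΨd : ContDiff ℝ 1 Ψ := contDiff_iff_contDiffAt.2 fun w => (hloc w).2.1
  have hρc : Continuous ρ := by
    have : ρ = fun w => (dbar Ψ w).re := by ext w; rw [(hloc w).2.2.2]; simp
    rw [this]; exact Complex.continuous_re.comp (continuous_dbar hΨd)
  have hpos : ∀ w, 0 < ρ w → w ∈ D ∧ a ≤ Φ w ∧ Φ w ≤ b := by
    intro w hw
    have hwD : w ∈ D := by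
      by_contra h1
      simp [hρ, indicator_of_notMem h1] at hw
    rw [hρ, indicator_of_mem hwD] at hw
    have h1 := pos_of_mul_pos_right' hw (Complex.normSq_nonneg _)
    exact ⟨hwD, deriv_step_ne hab (by linarith [deriv_step_nonneg hcd (Φ w)])⟩
  have hneg : ∀ w, ρ w < 0 → w ∈ D ∧ c ≤ Φ w ∧ Φ w ≤ d := by
    intro w hw
    have hwD : w ∈ D := by
      by_contra h1
      simp [hρ, indicator_of_notMem h1] at hw
    rw [hρ, indicator_of_mem hwD] at hw
    have h1 := neg_of_mul_neg_left hw (Complex.normSq_nonneg _)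
    exact ⟨hwD, deriv_step_ne hcd (by linarith [deriv_step_nonneg hab (Φ w)])⟩
  have hπ := Real.pi_pos
  refine ⟨fun w => 2 / Real.pi * ρ w, χ c - c, continuous_const.mul hρc,
    fun w hw => hpos w ((mul_pos_iff_of_pos_left (by positivity)).1 hw),
    fun w hw => hneg w (neg_of_mul_neg_right hw (by positivity)), fun z hz h1 h2 => ?_⟩
  obtain ⟨r, hr, hb⟩ := Metric.isOpen_iff.1 ((h.isOpen_gt b).inter (h.isOpen_lt c)) z
    ⟨⟨hz, h1⟩, hz, h2⟩
  have key := green (u := u) (ρ := ρ) (Ψ := Ψ) (contDiff_iff_contDiffAt.2 fun w => (hloc w).1)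
    (HasCompactSupport.intro hLc fun w hw => by simp [(hout w hw).1]) hΨd
    (HasCompactSupport.intro hLc fun w hw => (hout w hw).2.1) (fun w => (hloc w).2.2.1)
    (fun w => (hloc w).2.2.2) (z := z) hr (fun w hw => by
      by_contra h3
      have h4 := hb (show w ∈ ball z r by rw [mem_ball, dist_eq_norm]; exact not_le.1 h3)
      rcases lt_or_gt_of_ne hw with h5 | h5
      · linarith [(hneg w h5).2.1, h4.2.2]
      · linarith [(hpos w h5).2.2, h4.1.2])
  have e : ∀ w, 2 / Real.pi * ρ w * Real.log ‖w - z‖ =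
      Real.pi⁻¹ * (2 * Real.log ‖w - z‖ * ρ w) := fun w => by field_simp
  simp only [e]
  rw [integral_const_mul, key, hu, indicator_of_mem hz, hχmid _ h1.le h2.le]
  field_simp

theorem Exh.extremal {D : Set ℂ} {Φ : ℂ → ℝ} (h : Exh D Φ) {γ η : ℝ} (hγ : γ < 1) (hη : 0 < η)
    {z₀ : ℂ} (hz₀ : z₀ ∈ D) (h0 : 0 < Φ z₀) (hz₀γ : Φ z₀ ≤ γ) :
    ∃ t : ℝ, 0 < t ∧ ∃ F : ℂ → ℂ, AnalyticOnNhd ℂ F {z | z ∈ D ∧ Φ z ≤ γ} ∧
      (∀ z ∈ D, Φ z ≤ γ → ‖F z‖ ≤ Real.exp (t * (Φ z + η))) ∧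
      Real.exp (t * (Φ z₀ - η)) ≤ ‖F z₀‖ := by
  set ε := min (η / 8) (Φ z₀ / 3) with hε
  have hε0 : 0 < ε := lt_min (by linarith) (by linarith)
  have hε1 : ε ≤ η / 8 := min_le_left _ _
  have hε2 : ε ≤ Φ z₀ / 3 := min_le_right _ _
  obtain ⟨ρ, c₀, hρc, hpos, hneg, hrep⟩ := h.potential (a := ε) (b := 2 * ε) (c := (2 * γ + 1) / 3)
    (d := (γ + 2) / 3) hε0 (by linarith) (by linarith) (by linarith) (by linarith)
  have hcpt : ∀ a b : ℝ, b < 1 → IsCompact {z | z ∈ D ∧ a ≤ Φ z ∧ Φ z ≤ b} := by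
    intro a b hb
    have hL := h.cpt b hb
    have := (h.cont.mono fun z (hz : z ∈ {z | z ∈ D ∧ Φ z ≤ b}) =>
      hz.1).preimage_isClosed_of_isClosed hL.isClosed (isClosed_Ici (a := a))
    convert hL.of_isClosed_subset this inter_subset_left using 1
    ext z
    simp only [mem_ofPred_eq, mem_inter_iff, mem_preimage, mem_Ici]
    tauto
  set Λ := {z | z ∈ D ∧ 3 * ε ≤ Φ z ∧ Φ z ≤ γ} with hΛ
  set Γ₁ := {z | z ∈ D ∧ ε ≤ Φ z ∧ Φ z ≤ 2 * ε} with hΓ₁
  set Γ₂ := {z | z ∈ D ∧ (2 * γ + 1) / 3 ≤ Φ z ∧ Φ z ≤ (γ + 2) / 3} with hΓ₂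
  have cΛ : IsCompact Λ := hcpt _ _ hγ
  have c₁ : IsCompact Γ₁ := hcpt _ _ (by linarith)
  have c₂ : IsCompact Γ₂ := hcpt _ _ (by linarith)
  have d₁ : ∀ ζ ∈ Γ₁, ζ ∉ Λ := fun ζ h1 h2 => by linarith [h1.2.2, h2.2.1]
  have d₂ : ∀ ζ ∈ Γ₂, ζ ∉ Λ := fun ζ h1 h2 => by linarith [h1.2.1, h2.2.2]
  have s₁ : ∀ ζ, ζ ∉ Γ₁ → max (ρ ζ) 0 = 0 := fun ζ hζ =>
    max_eq_right (not_lt.1 fun h1 => hζ (hpos ζ h1))
  have s₂ : ∀ ζ, ζ ∉ Γ₂ → max (-ρ ζ) 0 = 0 := fun ζ hζ =>
    max_eq_right (not_lt.1 fun h1 => hζ (hneg ζ (by linarith)))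
  obtain ⟨N₁, H₁⟩ := discretize c₁ cΛ d₁ (ρ := fun ζ => max (ρ ζ) 0) (by fun_prop)
    (fun ζ => le_max_right _ _) s₁ hε0
  obtain ⟨N₂, H₂⟩ := discretize c₂ cΛ d₂ (ρ := fun ζ => max (-ρ ζ) 0) (by fun_prop)
    (fun ζ => le_max_right _ _) s₂ hε0
  have hint : ∀ (Γ : Set ℂ) (r : ℂ → ℝ), IsCompact Γ → (∀ ζ ∈ Γ, ζ ∉ Λ) → Continuous r →
      (∀ ζ, ζ ∉ Γ → r ζ = 0) → ∀ z ∈ Λ, Integrable fun ζ => r ζ * Real.log ‖ζ - z‖ := by
    intro Γ r hΓ hd hr hs z hz
    refine Continuous.integrable_of_hasCompactSupport ?_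
      (HasCompactSupport.intro hΓ fun ζ hζ => by simp [hs ζ hζ])
    have := continuousOn_kernel (Λ := Λ) (κ := fun ζ z => r ζ * Real.log ‖ζ - z‖) hΓ.isClosed
      (fun ζ hζ z => by simp [hs ζ hζ]) fun ζ hζ z hz =>
        ContinuousAt.mul (f := fun p : ℂ × ℂ => r p.1) (by fun_prop)
          (ContinuousAt.log (f := fun p : ℂ × ℂ => ‖p.1 - p.2‖) (by fun_prop) fun h => by
            rw [norm_eq_zero, sub_eq_zero] at h
            exact hd ζ hζ (by rw [show ζ = z from h]; exact hz))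
    exact this.comp_continuous (f := fun ζ => (ζ, z)) (by fun_prop) fun ζ => ⟨mem_univ _, hz⟩
  have hsplit : ∀ z ∈ Λ, (∫ ζ, max (ρ ζ) 0 * Real.log ‖ζ - z‖) -
      ∫ ζ, max (-ρ ζ) 0 * Real.log ‖ζ - z‖ = Φ z + c₀ := by
    intro z hz
    rw [← integral_sub (hint Γ₁ _ c₁ d₁ (by fun_prop) s₁ z hz)
      (hint Γ₂ _ c₂ d₂ (by fun_prop) s₂ z hz),
      ← hrep z hz.1 (by linarith [hz.2.1]) (by linarith [hz.2.2])]
    congr 1
    ext ζ
    rw [← sub_mul, max_zero_sub_max_neg_zero_eq_self]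
  obtain ⟨n, hn⟩ := exists_nat_gt (max ((N₁ + N₂) / ε) 0)
  have hn0 : (0 : ℝ) < n := (le_max_right _ _).trans_lt hn
  have hn1 : N₁ + N₂ ≤ ε * n := by
    have := (le_max_left _ _).trans_lt hn
    rw [div_lt_iff₀ hε0] at this
    linarith
  obtain ⟨q₁, a₁, z₁, b₁⟩ := H₁ n
  obtain ⟨q₂, a₂, z₂, b₂⟩ := H₂ n
  set F : ℂ → ℂ := fun z => q₁ z / q₂ z * (Real.exp (-(n * c₀)) : ℝ) with hF
  have hFa : AnalyticOnNhd ℂ F {z | z ∈ D ∧ Φ z ≤ γ} := fun z hz =>
    ((a₁.analyticAt z).div (a₂.analyticAt z)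
      (z₂ z fun h1 => by linarith [h1.2.1, hz.2])).mul analyticAt_const
  have hmid : ∀ z ∈ Λ, Real.exp (n * (Φ z - 3 * ε)) ≤ ‖F z‖ ∧
      ‖F z‖ ≤ Real.exp (n * (Φ z + 3 * ε)) := by
    intro z hz
    have p₁ : 0 < ‖q₁ z‖ := norm_pos_iff.2 (z₁ z fun h1 => d₁ z h1 hz)
    have p₂ : 0 < ‖q₂ z‖ := norm_pos_iff.2 (z₂ z fun h1 => d₂ z h1 hz)
    have e : ‖F z‖ = Real.exp (Real.log ‖q₁ z‖ - Real.log ‖q₂ z‖ + -(n * c₀)) := by
      rw [Real.exp_add, Real.exp_sub, Real.exp_log p₁, Real.exp_log p₂, hF]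
      simp only [norm_mul, norm_div, Complex.norm_real, Real.norm_eq_abs, Real.abs_exp]
    have e1 := abs_le.1 (b₁ z hz)
    have e2 := abs_le.1 (b₂ z hz)
    have e3 := congrArg (fun x => (n : ℝ) * x) (hsplit z hz)
    simp only [mul_sub, mul_add] at e3
    rw [e, Real.exp_le_exp, Real.exp_le_exp]
    constructor <;> nlinarith [e1.1, e1.2, e2.1, e2.2]
  have hγε : 3 * ε ≤ γ := by linarith
  have hlow : ∀ z ∈ {z | z ∈ D ∧ Φ z < 3 * ε}, ‖F z‖ ≤ Real.exp (n * (6 * ε)) := by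
    have hl : LocNorm (fun z => ‖F z‖) {z | z ∈ D ∧ Φ z < 3 * ε} := fun z hz =>
      ⟨F, hFa z ⟨hz.1, by linarith [hz.2]⟩, Eventually.of_forall fun _ => rfl⟩
    refine hl.le_of_compact (h.isOpen_lt _) fun e he => ?_
    have hL := h.cpt (3 * ε) (by linarith)
    have hfc : ContinuousOn (fun z => ‖F z‖) {z | z ∈ D ∧ Φ z ≤ 3 * ε} :=
      (hFa.continuousOn.mono fun z hz => ⟨hz.1, hz.2.trans hγε⟩).norm
    refine ⟨_ ∩ (fun z => ‖F z‖) ⁻¹' Ici (Real.exp (n * (6 * ε)) + e), hL.of_isClosed_subset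
      (hfc.preimage_isClosed_of_isClosed hL.isClosed isClosed_Ici) inter_subset_left, ?_, ?_⟩
    · intro z hz
      refine ⟨hz.1.1, lt_of_le_of_ne hz.1.2 fun h1 => ?_⟩
      have h2 := (hmid z ⟨hz.1.1, h1.ge, by linarith⟩).2
      have h3 : Real.exp (n * (6 * ε)) + e ≤ ‖F z‖ := hz.2
      rw [h1, show 3 * ε + 3 * ε = 6 * ε by ring] at h2
      linarith
    · intro z hz hzL
      by_contra h1
      exact hzL ⟨⟨hz.1, hz.2.le⟩, (not_le.1 h1).le⟩
  refine ⟨n, hn0, F, hFa, fun z hz hzγ => ?_, ?_⟩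
  · by_cases h1 : Φ z < 3 * ε
    · refine (hlow z ⟨hz, h1⟩).trans ?_
      gcongr
      linarith [h.nonneg z hz]
    · refine (hmid z ⟨hz, not_lt.1 h1, hzγ⟩).2.trans ?_
      gcongr
      linarith
  · refine le_trans ?_ (hmid z₀ ⟨hz₀, by linarith, hz₀γ⟩).1
    gcongr
    linarith

end Pool.Agent.MP_13a571_an

end MrgPart0

-- ======== part 1: formerly Pool.Agent.MP_13a571_an.Transfer
section MrgPart1

/-!
Sharpness does not depend on the exhaustion function.
-/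

open Set Filter Topology Metric InnerProductSpace

namespace Pool.Agent.MP_13a571_an

lemma Exh.cls {D : Set ℂ} {Φ : ℂ → ℝ} (h : Exh D Φ) {f : ℂ → ℂ} (hf : AnalyticOnNhd ℂ f D) {t : ℝ}
    (ht : 0 ≤ t) (hK : ∀ z ∈ D, Φ z = 0 → ‖f z‖ ≤ 1) (hD : ∀ z ∈ D, ‖f z‖ ≤ Real.exp t) :
    Cls D Φ t f :=
  ⟨hf, fun z hz => by
    simpa using h.two_const one_pos le_rfl (hf.mono fun w hw => hw.1) ht zero_le_one hK
      (fun w hw _ => by simpa using hD w hw) z hz (h.lt_one z hz)⟩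

lemma exists_nat_exp_ge {t η : ℝ} (ht : 0 < t) (hη : 0 < η) (C : ℝ) :
    ∃ m : ℕ, 0 < m ∧ C ≤ Real.exp (η * (m * t)) := by
  obtain ⟨m, hm⟩ := exists_nat_gt (max (C / (η * t)) 0)
  have h0 : (0 : ℝ) < m := (le_max_right _ _).trans_lt hm
  have h1 := (le_max_left _ _).trans_lt hm
  rw [div_lt_iff₀ (by positivity)] at h1
  refine ⟨m, by exact_mod_cast h0, ?_⟩
  have := Real.add_one_le_exp (η * (m * t))
  nlinarith

theorem Exh.transfer {D : Set ℂ} {Φ₁ Φ₂ : ℂ → ℝ} (h₁ : Exh D Φ₁) (h₂ : Exh D Φ₂)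
    (hS : ∀ z ∈ D, 0 < Φ₁ z → Sharp D Φ₁ univ z) : ∀ z ∈ D, 0 < Φ₂ z → Sharp D Φ₂ univ z := by
  intro z₀ hz₀ hpos ε hε
  set η := min ε 1 / 5 with hη
  have hη0 : 0 < η := by have := lt_min hε one_pos; positivity
  have hη1 : η ≤ 1 / 5 := by have := min_le_right ε 1; linarith
  have hη2 : 5 * η ≤ ε := by have := min_le_left ε 1; linarith
  set L₁ := insert z₀ {z | z ∈ D ∧ Φ₂ z ≤ 0} with hL₁
  have cL₁ : IsCompact L₁ := (h₂.cpt 0 one_pos).insert z₀
  have sL₁ : L₁ ⊆ D := insert_subset hz₀ fun z hz => hz.1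
  obtain ⟨β, hβ0, hβ1, hβ⟩ := h₁.exists_lt_one cL₁ sL₁ (fun z hz => h₁.lt_one z (sL₁ hz)) one_pos
  set α := 1 - η * (1 - β) / (3 + η) with hα
  have hs0 : 0 < η * (1 - β) / (3 + η) := by have : 0 < 1 - β := by linarith
                                             positivity
  have hs1 : (η * (1 - β) / (3 + η)) * (3 + η) = η * (1 - β) := by field_simp
  have hα1 : α < 1 := by linarith
  have hkey : 3 * (1 - α) = η * (α - β) := by rw [hα]; nlinarith
  have hαβ : 0 < α - β := by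
    by_contra h
    nlinarith
  have cΛ := (h₁.cpt α hα1).insert z₀
  have sΛ : insert z₀ {z | z ∈ D ∧ Φ₁ z ≤ α} ⊆ D := insert_subset hz₀ fun z hz => hz.1
  obtain ⟨γ, -, hγ1, hγ⟩ := h₂.exists_lt_one cΛ sΛ (fun z hz => h₂.lt_one z (sΛ hz)) one_pos
  obtain ⟨t, ht, F, hFa, hFb, hFz⟩ := h₂.extremal hγ1 hη0 hz₀ hpos (hγ z₀ (mem_insert _ _)).le
  obtain ⟨L, -, hLV, -, C, hC, happ⟩ := approx h₁ hS (α := α) (by linarith) hα1 (h₂.isOpen_lt γ)
    fun z hz => ⟨hz.1, hγ z (mem_insert_of_mem _ hz)⟩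
  obtain ⟨m, hm, hmC⟩ := exists_nat_exp_ge ht hη0 (C + 2)
  set τ := m * t with hτ
  have hτ0 : 0 < τ := by positivity
  have hpow : ∀ z ∈ D, Φ₂ z ≤ γ → ‖F z ^ m‖ ≤ Real.exp (τ * (Φ₂ z + η)) := fun z hz h => by
    rw [norm_pow, hτ, mul_assoc, Real.exp_nat_mul]
    gcongr; exact hFb z hz h
  obtain ⟨g, hga, hgb, hge⟩ := happ (fun z => F z ^ m)
    ((hFa.mono fun z hz => ⟨hz.1, hz.2.le⟩).fun_pow m) (Real.exp (τ * (1 + η)))
    (Real.exp_pos _).le (fun ζ hζ => (hpow ζ (hLV hζ).1 (hLV hζ).2.le).trans (by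
      gcongr; exact (h₂.lt_one ζ (hLV hζ).1).le)) (3 * τ / (α - β)) (by positivity)
  have herr : ∀ z ∈ L₁, ‖F z ^ m - g z‖ ≤ C * Real.exp (-τ) := by
    intro z hz
    have h1 := hβ z hz
    refine (hge z (sL₁ hz) (by linarith)).trans ?_
    rw [mul_assoc, ← Real.exp_add]
    gcongr
    have : (Φ₁ z - α) * (3 * τ / (α - β)) ≤ -(3 * τ) := by
      rw [← mul_div_assoc, div_le_iff₀ hαβ]; nlinarith
    nlinarith
  have hE : 2 ≤ Real.exp (η * τ) := by linarith
  have hcls : Cls D Φ₂ (τ * (1 + η)) fun z => g z * (Real.exp (-(2 * η * τ)) : ℝ) := by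
    refine h₂.cls (hga.mul analyticOnNhd_const) (by positivity) (fun z hz h0 => ?_) fun z hz => ?_
    · have h1 := herr z (mem_insert_of_mem _ ⟨hz, h0.le⟩)
      have h2 := hpow z hz (by linarith [hγ z₀ (mem_insert _ _)])
      rw [h0, zero_add] at h2
      have h3 : ‖g z‖ ≤ ‖F z ^ m‖ + ‖F z ^ m - g z‖ := by
        simpa using norm_sub_le (F z ^ m) (F z ^ m - g z)
      have h4 : Real.exp (-τ) ≤ 1 := Real.exp_le_one_iff.2 (by linarith)
      have h5 : ‖g z‖ ≤ Real.exp (η * τ) * Real.exp (η * τ) := by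
        rw [mul_comm τ] at h2
        nlinarith
      rw [norm_mul, Complex.norm_real, Real.norm_eq_abs, Real.abs_exp]
      calc ‖g z‖ * Real.exp (-(2 * η * τ))
          ≤ Real.exp (η * τ) * Real.exp (η * τ) * Real.exp (-(2 * η * τ)) := by gcongr
        _ = 1 := by rw [← Real.exp_add, ← Real.exp_add, ← Real.exp_zero]; congr 1; ring
    · rw [norm_mul, Complex.norm_real, Real.norm_eq_abs, Real.abs_exp]
      calc ‖g z‖ * Real.exp (-(2 * η * τ)) ≤ Real.exp (η * τ) * Real.exp (τ * (1 + η)) *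
          Real.exp ((1 - α) * (3 * τ / (α - β))) * Real.exp (-(2 * η * τ)) := by
            gcongr; exact (hgb z hz).trans (by gcongr; linarith)
        _ = Real.exp (τ * (1 + η)) := by
            rw [← Real.exp_add, ← Real.exp_add, ← Real.exp_add]
            congr 1
            have : (1 - α) * (3 * τ / (α - β)) = η * τ := by
              rw [← mul_div_assoc, div_eq_iff hαβ.ne']; linear_combination τ * hkey
            rw [this]; ring
  refine ⟨_, mem_univ _, by positivity, _, hcls, ?_⟩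
  have h1 := herr z₀ (mem_insert _ _)
  have h2 : Real.exp (τ * (Φ₂ z₀ - η)) ≤ ‖F z₀ ^ m‖ := by
    rw [norm_pow, hτ, mul_assoc, Real.exp_nat_mul]
    gcongr
  have h3 : ‖F z₀ ^ m‖ ≤ ‖g z₀‖ + ‖F z₀ ^ m - g z₀‖ := by
    simpa using norm_add_le (g z₀) (F z₀ ^ m - g z₀)
  have h4 : C * Real.exp (-τ) ≤ Real.exp (τ * (Φ₂ z₀ - 2 * η)) := by
    calc C * Real.exp (-τ) ≤ Real.exp (η * τ) * Real.exp (-τ) := by gcongr; linarith
      _ ≤ _ := by rw [← Real.exp_add, Real.exp_le_exp]; nlinarith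
  have h5 : 2 * Real.exp (τ * (Φ₂ z₀ - 2 * η)) ≤ Real.exp (τ * (Φ₂ z₀ - η)) := by
    calc 2 * Real.exp (τ * (Φ₂ z₀ - 2 * η))
        ≤ Real.exp (η * τ) * Real.exp (τ * (Φ₂ z₀ - 2 * η)) := by gcongr
      _ = _ := by rw [← Real.exp_add]; congr 1; ring
  rw [norm_mul, Complex.norm_real, Real.norm_eq_abs, Real.abs_exp]
  calc Real.exp (τ * (1 + η) * (Φ₂ z₀ - ε))
      ≤ Real.exp (τ * (Φ₂ z₀ - 2 * η)) * Real.exp (-(2 * η * τ)) := by
        rw [← Real.exp_add, Real.exp_le_exp]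
        have := h₂.lt_one z₀ hz₀
        have : (1 + η) * (Φ₂ z₀ - ε) ≤ Φ₂ z₀ - 4 * η := by nlinarith
        nlinarith
    _ ≤ _ := by gcongr; linarith

end Pool.Agent.MP_13a571_an

end MrgPart1

-- ======== part 2: formerly Pool.Agent.MP_13a571_an.Green
section MrgPart2

/-!
The Green function and analytic capacities of higher order.
-/

open Set Filter Topology Metric InnerProductSpace

namespace Pool.Agent.MP_13a571_an

namespace IsGreen

variable {D : Set ℂ} {a : ℂ} {H : ℂ → ℝ}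

lemma exists_compact (h : IsGreen D a H) (hD : IsOpen D) {δ : ℝ} (hδ : 0 < δ) :
    ∃ L, IsCompact L ∧ L ⊆ D ∧ ∀ z ∈ D, z ∉ L → z ≠ a ∧ |H z - Real.log ‖z - a‖| < δ := by
  obtain ⟨L, hL, hLD, hout⟩ := h.lim.exists_compact hD Subset.rfl hδ
  refine ⟨insert a L, hL.insert a, insert_subset h.mem hLD, fun z hz hzL => ?_⟩
  rw [mem_insert_iff, not_or] at hzL
  exact ⟨hzL.1, by simpa using hout z hz hzL.2⟩

lemma cls (h : IsGreen D a H) (hD : IsOpen D) {k : ℕ} {f : ℂ → ℂ} (hf : AnalyticOnNhd ℂ f D)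
    (hb : ∀ z ∈ D, ‖(z - a) ^ k * f z‖ ≤ 1) : Cls D (fun z => -H z) k f := by
  have key := (locNorm_mul_exp hf h.harmonic k).le_of_compact hD (M := 1) (by
    intro ε hε
    have hl : 0 < Real.log (1 + ε) := Real.log_pos (by linarith)
    obtain ⟨L, hL, hLD, hout⟩ := h.exists_compact hD (δ := Real.log (1 + ε) / (k + 1))
      (by positivity)
    refine ⟨L, hL, hLD, fun z hz hzL => ?_⟩
    obtain ⟨hne, h1⟩ := hout z hz hzL
    have hp : 0 < ‖z - a‖ := norm_pos_iff.2 (sub_ne_zero.2 hne)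
    have h2 : k * (H z - Real.log ‖z - a‖) ≤ Real.log (1 + ε) := by
      have h3 := (abs_lt.1 h1).2
      rw [lt_div_iff₀ (by positivity)] at h3
      by_cases h4 : 0 ≤ H z - Real.log ‖z - a‖
      · nlinarith
      · have : (0 : ℝ) ≤ k := Nat.cast_nonneg k
        nlinarith
    calc ‖f z‖ * Real.exp (k * H z)
        = ‖(z - a) ^ k * f z‖ * Real.exp (k * (H z - Real.log ‖z - a‖)) := by
          rw [norm_mul, norm_pow, mul_sub, Real.exp_sub, Real.exp_nat_mul (Real.log _),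
            Real.exp_log hp]
          field_simp
      _ ≤ 1 * Real.exp (Real.log (1 + ε)) := by gcongr; exact hb z hz
      _ = 1 + ε := by rw [one_mul, Real.exp_log (by linarith)])
  refine ⟨hf, fun z hz => ?_⟩
  calc ‖f z‖ = ‖f z‖ * Real.exp (k * H z) * Real.exp (k * -H z) := by
        rw [mul_assoc, ← Real.exp_add]; simp
    _ ≤ 1 * Real.exp (k * -H z) := by gcongr; exact key z hz
    _ = _ := one_mul _

lemma lt_one (h : IsGreen D a H) (hD : IsOpen D) (hc : IsPreconnected D) :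
    ∀ z ∈ D, ‖z - a‖ * Real.exp (-H z) < 1 := by
  have hl : LocNorm (fun z => ‖z - a‖ * Real.exp (-1 * H z)) D :=
    locNorm_mul_exp (f := fun z => z - a) (fun z _ => by fun_prop) h.harmonic (-1)
  have key := hl.le_of_compact hD (M := 1) (by
    intro ε hε
    have hl : 0 < Real.log (1 + ε) := Real.log_pos (by linarith)
    obtain ⟨L, hL, hLD, hout⟩ := h.exists_compact hD hl
    refine ⟨L, hL, hLD, fun z hz hzL => ?_⟩
    obtain ⟨hne, h1⟩ := hout z hz hzL
    have hp : 0 < ‖z - a‖ := norm_pos_iff.2 (sub_ne_zero.2 hne)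
    calc ‖z - a‖ * Real.exp (-1 * H z) = Real.exp (Real.log ‖z - a‖ + -1 * H z) := by
          rw [Real.exp_add, Real.exp_log hp]
      _ ≤ Real.exp (Real.log (1 + ε)) := by gcongr; linarith [(abs_lt.1 h1).1]
      _ = 1 + ε := Real.exp_log (by linarith))
  intro z hz
  rcases (key z hz).lt_or_eq with h1 | h1
  · simpa using h1
  · have := hl.eq_of_max hD hc hz (fun w hw => by rw [h1]; exact key w hw) a h.mem
    rw [h1] at this
    simp at this

lemma bound_of_cls (h : IsGreen D a H) (hD : IsOpen D) (hc : IsPreconnected D) {k : ℕ}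
    {f : ℂ → ℂ} (hf : Cls D (fun z => -H z) k f) : ∀ z ∈ D, ‖(z - a) ^ k * f z‖ ≤ 1 := by
  intro z hz
  calc ‖(z - a) ^ k * f z‖ ≤ ‖z - a‖ ^ k * Real.exp (k * -H z) := by
        rw [norm_mul, norm_pow]; gcongr; exact hf.2 z hz
    _ = (‖z - a‖ * Real.exp (-H z)) ^ k := by rw [mul_pow, Real.exp_nat_mul]
    _ ≤ 1 := pow_le_one₀ (by positivity) (h.lt_one hD hc z hz).le

lemma bdd_below (h : IsGreen D a H) (hD : IsOpen D) (hc : IsPreconnected D) :
    ∃ B : ℝ, 0 ≤ B ∧ ∀ z ∈ D, -H z ≤ B := by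
  obtain ⟨r, hr, hb⟩ := nhds_basis_closedBall.mem_iff.1 (hD.mem_nhds h.mem)
  obtain ⟨B, hB⟩ := (isCompact_closedBall a r).exists_bound_of_continuousOn
    (h.harmonic.continuousOn.mono hb)
  refine ⟨max |B| |Real.log r|, le_max_of_le_left (abs_nonneg _), fun z hz => ?_⟩
  by_cases hz2 : z ∈ closedBall a r
  · have := hB z hz2
    rw [Real.norm_eq_abs] at this
    exact le_max_of_le_left (by linarith [neg_abs_le (H z), le_abs_self B])
  · rw [mem_closedBall, not_le, dist_eq_norm] at hz2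
    have h1 := h.lt_one hD hc z hz
    have h2 : Real.exp (Real.log r + -H z) < Real.exp 0 := by
      rw [Real.exp_add, Real.exp_log hr, Real.exp_zero]
      exact lt_of_le_of_lt (by gcongr) h1
    rw [Real.exp_lt_exp] at h2
    exact le_max_of_le_right (by linarith [neg_abs_le (Real.log r)])

end IsGreen

/-- exhaustion function built from the Green function -/
noncomputable def grExh (a : ℂ) (H : ℂ → ℝ) (T : ℝ) (z : ℂ) : ℝ :=
  Real.log (max 1 (‖z - a‖ * Real.exp (T - H z))) / T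

lemma grExh_pos {a : ℂ} {H : ℂ → ℝ} {T : ℝ} (hT : 0 < T) {z : ℂ} :
    0 < grExh a H T z ↔ 1 < ‖z - a‖ * Real.exp (T - H z) := by
  rw [grExh, div_pos_iff_of_pos_right hT, Real.log_pos_iff (by positivity), lt_max_iff]
  simp

lemma grExh_eq {a : ℂ} {H : ℂ → ℝ} {T : ℝ} {z : ℂ} (h : 1 < ‖z - a‖ * Real.exp (T - H z)) :
    grExh a H T z = (Real.log ‖z - a‖ + (T - H z)) / T := by
  have : ‖z - a‖ ≠ 0 := fun e => by rw [e] at h; norm_num at h
  rw [grExh, max_eq_right h.le, Real.log_mul this (Real.exp_pos _).ne', Real.log_exp]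

lemma exp_grExh {a : ℂ} {H : ℂ → ℝ} {T : ℝ} (hT : 0 < T) (z : ℂ) :
    Real.exp (T * grExh a H T z) = max 1 (‖z - a‖ * Real.exp (T - H z)) := by
  rw [grExh, mul_div_cancel₀ _ hT.ne', Real.exp_log (by positivity)]

theorem IsGreen.exh {D : Set ℂ} {a : ℂ} {H : ℂ → ℝ} (h : IsGreen D a H) (hD : IsOpen D)
    (hc : IsPreconnected D) {T : ℝ} (hT : 0 < T) : Exh D (grExh a H T) := by
  have hE : ContinuousOn (fun z => ‖z - a‖ * Real.exp (T - H z)) D := by
    have := h.harmonic.continuousOn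
    fun_prop
  have hcont : ContinuousOn (grExh a H T) D :=
    ((continuousOn_const.sup hE).log fun z _ => by positivity).div_const T
  refine ⟨hD, hcont, fun z _ => div_nonneg (Real.log_nonneg (le_max_left _ _)) hT.le,
    fun z hz => ?_, fun z hz h0 => ?_, fun α hα => ?_⟩
  · rw [grExh, div_lt_one hT, Real.log_lt_iff_lt_exp (by positivity), max_lt_iff]
    refine ⟨Real.one_lt_exp_iff.2 hT, ?_⟩
    have h1 := h.lt_one hD hc z hz
    rw [sub_eq_add_neg T, Real.exp_add]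
    nlinarith [Real.exp_pos T]
  · rw [grExh_pos hT] at h0
    have hne : z - a ≠ 0 := fun e => by rw [e] at h0; norm_num at h0
    have h1 : ∀ᶠ w in 𝓝 z, 1 < ‖w - a‖ * Real.exp (T - H w) :=
      continuousAt_const.eventually_lt (hE.continuousAt (hD.mem_nhds hz)) h0
    have h2 : HarmonicAt (T⁻¹ • ((fun w => Real.log ‖w - a‖) + ((fun _ => T) - H))) z :=
      ((AnalyticAt.harmonicAt_log_norm (f := fun w => w - a) (by fun_prop) hne).add
        ((harmonicAt_const T).sub (h.harmonic z hz))).const_smul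
    refine (harmonicAt_congr_nhds ?_).2 h2
    filter_upwards [h1] with w hw
    rw [grExh_eq hw]
    simp only [Pi.smul_apply, Pi.add_apply, Pi.sub_apply, smul_eq_mul]
    ring
  · obtain ⟨L, hL, hLD, hout⟩ := h.exists_compact hD (δ := T * (1 - α))
      (mul_pos hT (by linarith))
    have e : {z | z ∈ D ∧ grExh a H T z ≤ α} = L ∩ grExh a H T ⁻¹' Iic α := by
      ext z
      refine ⟨fun hz => ⟨?_, hz.2⟩, fun hz => ⟨hLD hz.1, hz.2⟩⟩
      by_contra h3
      obtain ⟨hne, h1⟩ := hout z hz.1 h3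
      have hp : 0 < ‖z - a‖ := norm_pos_iff.2 (sub_ne_zero.2 hne)
      have h4 : Real.exp (T * α) < Real.exp (T * grExh a H T z) := by
        rw [exp_grExh hT]
        refine lt_max_of_lt_right ?_
        rw [← Real.exp_log hp, ← Real.exp_add, Real.exp_lt_exp]
        linarith [(abs_lt.1 h1).2]
      rw [Real.exp_lt_exp] at h4
      nlinarith [hz.2]
    rw [e]
    exact hL.of_isClosed_subset ((hcont.mono hLD).preimage_isClosed_of_isClosed
      hL.isClosed isClosed_Iic) inter_subset_left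

theorem IsGreen.sharp_exh {D : Set ℂ} {a : ℂ} {H : ℂ → ℝ} (h : IsGreen D a H) (hD : IsOpen D)
    (hc : IsPreconnected D) (hS : Sharp D (fun z => -H z) (range Nat.cast) a) :
    ∀ z ∈ D, 0 < grExh a H 1 z → Sharp D (grExh a H 1) univ z := by
  intro z hz h0 ε hε
  obtain ⟨_, ⟨k, rfl⟩, hk, f, hf, hfz⟩ := hS.spread hD hD hc Subset.rfl
    (fun w hw => (h.harmonic w hw).neg) h.mem z hz ε hε
  have hn : ∀ w, ‖(Real.exp k : ℂ) * ((w - a) ^ k * f w)‖ =
      Real.exp k * (‖w - a‖ ^ k * ‖f w‖) := fun w => by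
    rw [norm_mul, norm_mul, norm_pow, Complex.norm_real, Real.norm_eq_abs, Real.abs_exp]
  have he : ∀ w, Real.exp k * (‖w - a‖ ^ k * Real.exp (k * -H w)) =
      (‖w - a‖ * Real.exp (1 - H w)) ^ k := fun w => by
    rw [mul_pow, ← Real.exp_nat_mul, mul_left_comm, ← Real.exp_add]; congr 2; ring
  refine ⟨k, mem_univ _, hk, fun w => (Real.exp k : ℂ) * ((w - a) ^ k * f w),
    ⟨analyticOnNhd_const.mul (AnalyticOnNhd.mul (fun w _ => by fun_prop) hf.1), fun w hw => ?_⟩, ?_⟩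
  · rw [hn, Real.exp_nat_mul (grExh a H 1 w), ← one_mul (grExh a H 1 w), exp_grExh one_pos]
    calc _ ≤ Real.exp k * (‖w - a‖ ^ k * Real.exp (k * -H w)) := by gcongr; exact hf.2 w hw
      _ = _ := he w
      _ ≤ _ := by gcongr; exact le_max_right _ _
  · rw [hn, mul_sub, Real.exp_sub, Real.exp_nat_mul (grExh a H 1 z), ← one_mul (grExh a H 1 z),
      exp_grExh one_pos, max_eq_right ((grExh_pos one_pos).1 h0).le, ← he]
    rw [mul_sub, Real.exp_sub] at hfz
    rw [mul_div_assoc, mul_div_assoc]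
    gcongr
    exact hfz

lemma exists_psi {D : Set ℂ} (hD : IsOpen D) (hc : IsPreconnected D) {a z₀ : ℂ} (ha : a ∈ D)
    (hz₀ : z₀ ∈ D) {f : ℂ → ℂ} (hf : AnalyticOnNhd ℂ f D) {M : ℝ} (hM : ∀ z ∈ D, ‖f z‖ ≤ M)
    (hne : f z₀ ≠ f a) : ∃ q : ℂ → ℂ, AnalyticOnNhd ℂ q D ∧ q a = 1 ∧
      ∃ B : ℝ, ∀ z ∈ D, ‖(z - a) * q z‖ ≤ B := by
  obtain ⟨r, hr, hb⟩ := nhds_basis_closedBall.mem_iff.1 (hD.mem_nhds ha)
  set f₀ : ℂ → ℂ := fun z => f z - f a
  have hit : ∀ n : ℕ, AnalyticOnNhd ℂ ((Function.swap dslope a)^[n] f₀) D ∧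
      ∃ B, ∀ z ∈ D, ‖(Function.swap dslope a)^[n] f₀ z‖ ≤ B := by
    intro n
    induction n with
    | zero => exact ⟨hf.sub analyticOnNhd_const, M + ‖f a‖, fun z hz =>
        (norm_sub_le _ _).trans (by linarith [hM z hz])⟩
    | succ n ih =>
      obtain ⟨h1, B, hB⟩ := ih
      rw [Function.iterate_succ_apply']
      exact ⟨analyticOnNhd_dslope hD h1 ha, _, norm_dslope_le hD h1 hB hr hb⟩
  obtain ⟨p, hp⟩ := (hit 0).1 a ha
  have hp0 : p ≠ 0 := by
    intro e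
    have h1 := (hit 0).1.eqOn_zero_of_preconnected_of_eventuallyEq_zero hc ha
      (hp.locally_zero_iff.2 e) hz₀
    exact hne (sub_eq_zero.1 h1)
  have hQ := hp.iterate_dslope_fslope_ne_zero hp0
  rcases hm : p.order with _ | m
  · rw [hm] at hQ; simp [f₀] at hQ
  rw [hm] at hQ
  simp only [Function.iterate_zero, id] at hQ
  set Q := (Function.swap dslope a)^[m + 1] f₀ with hQdef
  obtain ⟨h1, B, hB⟩ := hit m
  refine ⟨fun z => Q z / Q a, (hit (m + 1)).1.div_const, div_self hQ, 2 * B / ‖Q a‖,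
    fun z hz => ?_⟩
  rw [← mul_div_assoc, norm_div]
  gcongr
  rw [hQdef, Function.iterate_succ_apply']
  have := sub_smul_dslope ((Function.swap dslope a)^[m] f₀) a z
  rw [smul_eq_mul] at this
  show ‖(z - a) * dslope ((Function.swap dslope a)^[m] f₀) a z‖ ≤ _
  rw [this]
  exact (norm_sub_le _ _).trans (by linarith [hB z hz, hB a ha])

lemma eliminate {D : Set ℂ} (hD : IsOpen D) {a : ℂ} {q : ℂ → ℂ} (hq : AnalyticOnNhd ℂ q D)
    (hqa : q a = 1) {B r : ℝ} (hB : ∀ z ∈ D, ‖(z - a) * q z‖ ≤ B) (hr : 0 < r) (hrB : r ≤ B)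
    (hb : closedBall a r ⊆ D) (hq2 : ∀ z ∈ closedBall a r, 1 / 2 ≤ ‖q z‖) {f : ℂ → ℂ}
    (hf : AnalyticOnNhd ℂ f D) (hf1 : ∀ z ∈ closedBall a r, ‖f z‖ ≤ 1) (k : ℕ) :
    ∃ h : ℂ → ℂ, AnalyticOnNhd ℂ h D ∧ (∀ z ∈ closedBall a r, ‖h z / q z ^ k‖ ≤ (4 / r) ^ k) ∧
      ∀ z ∈ D, ‖f z - (z - a) ^ k * h z‖ ≤ (8 * B / r) ^ k - 1 := by
  have ha : a ∈ D := hb (mem_closedBall_self hr.le)
  have hq0 : ∀ z ∈ closedBall a r, q z ≠ 0 := fun z hz =>
    norm_pos_iff.1 (lt_of_lt_of_le (by norm_num) (hq2 z hz))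
  induction k with
  | zero => exact ⟨f, hf, by simpa using hf1, by simp⟩
  | succ k ih =>
    obtain ⟨h, h1, h2, h3⟩ := ih
    have hc : ‖h a‖ ≤ (4 / r) ^ k := by simpa [hqa] using h2 a (mem_closedBall_self hr.le)
    set u : ℂ → ℂ := fun z => h z - h a * q z ^ k with hu
    have hua : AnalyticOnNhd ℂ u D := h1.sub (analyticOnNhd_const.mul (hq.fun_pow k))
    have hmul : ∀ z, (z - a) * dslope u a z = u z := fun z => by
      have := sub_smul_dslope u a z
      rw [smul_eq_mul] at this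
      rw [this]; simp [hu, hqa]
    have hda := analyticOnNhd_dslope hD hua ha
    refine ⟨dslope u a, hda, fun z hz => ?_, fun z hz => ?_⟩
    · have hd : DiffContOnCl ℂ (fun z => dslope u a z / q z ^ (k + 1)) (ball a r) := by
        apply DifferentiableOn.diffContOnCl
        rw [closure_ball a hr.ne']
        exact fun w hw => ((hda w (hb hw)).div ((hq w (hb hw)).fun_pow _)
          (pow_ne_zero _ (hq0 w hw))).differentiableAt.differentiableWithinAt
      refine Complex.norm_le_of_forall_mem_frontier_norm_le isBounded_ball hd (fun w hw => ?_)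
        (by rwa [closure_ball a hr.ne'])
      rw [frontier_ball a hr.ne'] at hw
      have hw2 := sphere_subset_closedBall hw
      have hw3 : ‖w - a‖ = r := by rw [← dist_eq_norm]; exact hw
      have hw4 : w - a ≠ 0 := norm_pos_iff.1 (hw3 ▸ hr)
      have e : dslope u a w / q w ^ (k + 1) = (h w / q w ^ k - h a) / ((w - a) * q w) := by
        have := hq0 w hw2
        rw [eq_div_iff (mul_ne_zero hw4 this), pow_succ]
        field_simp
        rw [mul_comm, hmul, hu]; ring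
      rw [e, norm_div, norm_mul, hw3]
      calc ‖h w / q w ^ k - h a‖ / (r * ‖q w‖) ≤ ((4 / r) ^ k + (4 / r) ^ k) / (r * (1 / 2)) := by
            gcongr
            · exact (norm_sub_le _ _).trans (add_le_add (h2 w hw2) hc)
            · exact hq2 w hw2
        _ = (4 / r) ^ (k + 1) := by rw [pow_succ]; field_simp; ring
    · have e : f z - (z - a) ^ (k + 1) * dslope u a z =
          (f z - (z - a) ^ k * h z) + h a * ((z - a) * q z) ^ k := by
        rw [pow_succ, mul_assoc, hmul, hu, mul_pow]; ring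
      rw [e]
      have hB0 : 0 ≤ B := hr.le.trans hrB
      have h4 : ‖h a * ((z - a) * q z) ^ k‖ ≤ (8 * B / r) ^ k := by
        rw [norm_mul, norm_pow]
        calc _ ≤ (4 / r) ^ k * B ^ k := by gcongr; exact hB z hz
          _ = (4 * B / r) ^ k := by rw [← mul_pow]; congr 1; ring
          _ ≤ _ := by gcongr; norm_num
      have h5 : 2 ≤ 8 * B / r := by rw [le_div_iff₀ hr]; linarith
      have h6 : 0 ≤ (8 * B / r) ^ k := by positivity
      calc _ ≤ ((8 * B / r) ^ k - 1) + (8 * B / r) ^ k := (norm_add_le _ _).trans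
            (add_le_add (h3 z hz) h4)
        _ ≤ _ := by rw [pow_succ]; nlinarith

theorem IsGreen.sharp_of_exh {D : Set ℂ} {a : ℂ} {H : ℂ → ℝ} (h : IsGreen D a H) (hD : IsOpen D)
    (hc : IsPreconnected D)
    (hS : ∀ T, 0 < T → ∀ z ∈ D, 0 < grExh a H T z → Sharp D (grExh a H T) univ z) :
    Sharp D (fun z => -H z) (range Nat.cast) a := by
  have ha := h.mem
  have E₁ := h.exh hD hc one_pos
  obtain ⟨z₀, hz₀, hz₀L⟩ := exists_mem_not_mem hD ⟨a, ha⟩ (E₁.cpt 0 one_pos) fun z hz => hz.1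
  have hpos : 0 < grExh a H 1 z₀ := not_le.1 fun h1 => hz₀L ⟨hz₀, h1⟩
  refine Sharp.spread hD hD hc Subset.rfl (fun w hw => (h.harmonic w hw).neg) hz₀ ?_ a ha
  have h1 := (grExh_pos one_pos).1 hpos
  have hn0 : 0 < ‖z₀ - a‖ := by
    rcases (norm_nonneg (z₀ - a)).lt_or_eq with h2 | h2
    · exact h2
    · rw [← h2] at h1; norm_num at h1
  set g₀ := H z₀ - Real.log ‖z₀ - a‖ with hg₀
  have hg1 : g₀ < 1 := by
    rw [grExh_eq h1] at hpos; linarith
  have hg0 : 0 < g₀ := by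
    have := h.lt_one hD hc z₀ hz₀
    rw [← Real.exp_log hn0, ← Real.exp_add, Real.exp_lt_one_iff] at this
    linarith
  obtain ⟨q, hq, hqa, B₀, hB₀⟩ : ∃ q : ℂ → ℂ, AnalyticOnNhd ℂ q D ∧ q a = 1 ∧
      ∃ B : ℝ, ∀ z ∈ D, ‖(z - a) * q z‖ ≤ B := by
    obtain ⟨t, -, ht, f, hf, hfz⟩ := hS 1 one_pos z₀ hz₀ hpos (grExh a H 1 z₀ / 2) (by linarith)
    refine exists_psi hD hc ha hz₀ hf.1 (M := Real.exp t) (fun z hz => (hf.2 z hz).trans (by
      rw [Real.exp_le_exp]; nlinarith [E₁.lt_one z hz])) fun e => ?_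
    have h2 := hf.2 a ha
    have h3 : grExh a H 1 a = 0 := by simp [grExh]
    rw [h3, mul_zero, Real.exp_zero, ← e] at h2
    have h4 : 1 < Real.exp (t * (grExh a H 1 z₀ - grExh a H 1 z₀ / 2)) :=
      Real.one_lt_exp_iff.2 (mul_pos ht (by linarith))
    linarith
  have hq2 : ∀ᶠ z in 𝓝 a, 1 / 2 < ‖q z‖ :=
    continuousAt_const.eventually_lt (hq a ha).continuousAt.norm (by rw [hqa]; norm_num)
  obtain ⟨r₀, hr₀, hb₀⟩ := nhds_basis_closedBall.mem_iff.1 (hq2.and (hD.mem_nhds ha))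
  obtain ⟨BH, hBH0, hBH⟩ := h.bdd_below hD hc
  set r₁ := min r₀ (Real.exp (-BH)) with hr₁
  have hr₁0 : 0 < r₁ := lt_min hr₀ (Real.exp_pos _)
  set B := max B₀ r₁ with hBdef
  have hBr : r₁ ≤ B := le_max_right _ _
  set C := Real.log (8 * B / r₁) with hC
  have hC1 : 1 ≤ 8 * B / r₁ := by rw [le_div_iff₀ hr₁0]; linarith
  have hC0 : 0 ≤ C := Real.log_nonneg hC1
  intro ε₀ hε₀
  set ε := min ε₀ 1 with hεdef
  have hε : 0 < ε := lt_min hε₀ one_pos
  have hε1 : ε ≤ 1 := min_le_right _ _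
  have hε2 : ε ≤ ε₀ := min_le_left _ _
  set T := 8 * (C + 3) / ε with hTdef
  have hT : 0 < T := by positivity
  have hT1 : ε * T = 8 * (C + 3) := by rw [hTdef]; field_simp
  have hT2 : 1 ≤ T := by nlinarith
  have ET := h.exh hD hc hT
  have h2 : 1 < ‖z₀ - a‖ * Real.exp (T - H z₀) := h1.trans_le (by gcongr)
  have hΦ : T * grExh a H T z₀ = T - g₀ := by rw [grExh_eq h2]; field_simp; ring
  obtain ⟨t₀, -, ht₀, f₀, hf₀, hfz⟩ := hS T hT z₀ hz₀ ((grExh_pos hT).2 h2) (ε / (4 * T))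
    (by positivity)
  obtain ⟨m, hm⟩ := exists_nat_gt (8 / ε * T / t₀)
  set s := m * t₀ / T with hs
  have hs1 : 8 / ε ≤ s := by
    rw [div_lt_iff₀ ht₀] at hm
    rw [hs, le_div_iff₀ hT]; exact hm.le
  have hs2 : 8 ≤ ε * s := by rwa [div_le_iff₀ hε, mul_comm] at hs1
  have hs3 : 8 ≤ s := by nlinarith
  have hst : m * t₀ = s * T := by rw [hs]; field_simp
  have hf := hf₀.pow m
  rw [hst] at hf
  have hfz' : Real.exp (s * (T - g₀ - ε / 4)) ≤ ‖f₀ z₀ ^ m‖ := by
    have : s * (T - g₀ - ε / 4) = m * (t₀ * (grExh a H T z₀ - ε / (4 * T))) := by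
      rw [← hΦ, ← mul_assoc, hst]; field_simp
    rw [this, Real.exp_nat_mul, norm_pow]
    gcongr
  set r := r₁ * Real.exp (-T) with hr
  have hr0 : 0 < r := by positivity
  have hrr : r ≤ r₁ := by
    have : Real.exp (-T) ≤ 1 := Real.exp_le_one_iff.2 (by linarith)
    rw [hr]; nlinarith
  have hball : closedBall a r ⊆ closedBall a r₀ :=
    closedBall_subset_closedBall (hrr.trans (min_le_left _ _))
  set k := ⌊(1 - ε / 8) * s⌋₊ with hk
  have hk1 : (k : ℝ) ≤ (1 - ε / 8) * s := Nat.floor_le (by nlinarith)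
  have hk2 : (1 - ε / 8) * s < k + 1 := Nat.lt_floor_add_one _
  obtain ⟨u, hua, -, hu⟩ := eliminate hD hq hqa (B := B)
    (fun z hz => (hB₀ z hz).trans (le_max_left _ _)) hr0 (hrr.trans hBr)
    (fun z hz => (hb₀ (hball hz)).2) (fun z hz => (hb₀ (hball hz)).1.le) hf.1 (fun z hz => by
      have hzD := (hb₀ (hball hz)).2
      refine (hf.2 z hzD).trans ?_
      have h3 : ¬ 0 < grExh a H T z := by
        rw [grExh_pos hT, not_lt]
        have h4 : ‖z - a‖ ≤ Real.exp (-BH) * Real.exp (-T) := by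
          rw [← dist_eq_norm]
          exact (mem_closedBall.1 hz).trans (by rw [hr]; gcongr; exact min_le_right _ _)
        calc _ ≤ Real.exp (-BH) * Real.exp (-T) * Real.exp (T - H z) := by gcongr
          _ ≤ 1 := by
            rw [← Real.exp_add, ← Real.exp_add, Real.exp_le_one_iff]; linarith [hBH z hzD]
      rw [le_antisymm (not_lt.1 h3) (ET.nonneg z hzD)]
      simp) k
  have e1 : (8 * B / r) ^ k ≤ Real.exp (s * (T - 3)) := by
    have : 8 * B / r = Real.exp (C + T) := by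
      rw [Real.exp_add, hC, Real.exp_log (by linarith), hr, Real.exp_neg]; field_simp
    rw [this, ← Real.exp_nat_mul, Real.exp_le_exp]
    calc (k : ℝ) * (C + T) ≤ (1 - ε / 8) * s * (C + T) := by gcongr
      _ = s * (T + C - ε * T / 8 - ε * C / 8) := by ring
      _ ≤ s * (T - 3) := by
          have : 0 ≤ ε * C := by positivity
          exact mul_le_mul_of_nonneg_left (by linarith) (by linarith)
  have e2 : Real.exp (s * (T - 3)) ≤ Real.exp (s * T) := by gcongr; linarith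
  have hR : ∀ z ∈ D, ‖(z - a) ^ k * u z‖ ≤ 2 * Real.exp (s * T) := by
    intro z hz
    have h3 := hu z hz
    have h4 : ‖f₀ z ^ m‖ ≤ Real.exp (s * T) := (hf.2 z hz).trans (by
      rw [Real.exp_le_exp]
      have : 0 ≤ s * T := by positivity
      nlinarith [ET.lt_one z hz])
    have h5 : ‖(z - a) ^ k * u z‖ ≤ ‖f₀ z ^ m‖ + ‖f₀ z ^ m - (z - a) ^ k * u z‖ := by
      simpa using norm_sub_le (f₀ z ^ m) (f₀ z ^ m - (z - a) ^ k * u z)
    linarith
  have hR0 : Real.exp (s * (T - g₀ - ε / 4)) / 2 ≤ ‖(z₀ - a) ^ k * u z₀‖ := by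
    have h3 := hu z₀ hz₀
    have h5 : ‖f₀ z₀ ^ m‖ ≤ ‖(z₀ - a) ^ k * u z₀‖ + ‖f₀ z₀ ^ m - (z₀ - a) ^ k * u z₀‖ := by
      simpa using norm_add_le ((z₀ - a) ^ k * u z₀) (f₀ z₀ ^ m - (z₀ - a) ^ k * u z₀)
    have h6 : 2 * Real.exp (s * (T - 3)) ≤ Real.exp (s * (T - g₀ - ε / 4)) := by
      calc 2 * Real.exp (s * (T - 3)) ≤ Real.exp s * Real.exp (s * (T - 3)) := by
            gcongr; linarith [Real.add_one_le_exp s]
        _ ≤ _ := by rw [← Real.exp_add, Real.exp_le_exp]; nlinarith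
    linarith
  have hn : ∀ z, ‖(z - a) ^ k * (u z * (Real.exp (-(s * T)) / 2 : ℝ))‖ =
      ‖(z - a) ^ k * u z‖ * (Real.exp (-(s * T)) / 2) := fun z => by
    rw [← mul_assoc, norm_mul, Complex.norm_real, Real.norm_eq_abs, abs_of_pos (by positivity)]
  have hk0 : (0 : ℝ) < k := by nlinarith
  refine ⟨k, ⟨k, rfl⟩, hk0, fun z => u z * (Real.exp (-(s * T)) / 2 : ℝ),
    h.cls hD (hua.mul analyticOnNhd_const) fun z hz => ?_, ?_⟩
  · rw [hn]
    calc _ ≤ 2 * Real.exp (s * T) * (Real.exp (-(s * T)) / 2) := by gcongr; exact hR z hz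
      _ = 1 := by rw [Real.exp_neg]; field_simp
  · refine le_of_mul_le_mul_left ?_ (pow_pos hn0 k)
    rw [← norm_pow, ← norm_mul, hn, norm_pow]
    calc ‖z₀ - a‖ ^ k * Real.exp (k * ((-H) z₀ - ε₀)) = Real.exp (-(k * (g₀ + ε₀))) := by
          rw [← Real.exp_log hn0, ← Real.exp_nat_mul, ← Real.exp_add, hg₀]
          congr 1; simp only [Pi.neg_apply]; ring
      _ ≤ Real.exp (-(s * (g₀ + ε / 4)) - 2) := by
          rw [Real.exp_le_exp]
          have h3 : ((1 - ε / 8) * s - 1) * (g₀ + ε) ≤ k * (g₀ + ε₀) := by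
            gcongr; linarith
          have h4 : ε * s * (g₀ + ε) ≤ ε * s * 2 := by gcongr; linarith
          nlinarith
      _ ≤ Real.exp (s * (T - g₀ - ε / 4)) / 2 * (Real.exp (-(s * T)) / 2) := by
          have h3 : (4 : ℝ) ≤ Real.exp 2 := by
            have := Real.add_one_le_exp (1 : ℝ)
            rw [show (2 : ℝ) = 1 + 1 by norm_num, Real.exp_add]; nlinarith
          have h4 : Real.exp (s * (T - g₀ - ε / 4)) * Real.exp (-(s * T)) =
              Real.exp (-(s * (g₀ + ε / 4))) := by rw [← Real.exp_add]; congr 1; ring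
          rw [div_mul_div_comm, h4, Real.exp_sub]
          gcongr; linarith
      _ ≤ _ := by gcongr

theorem IsGreen.sharp_iff {D : Set ℂ} {a : ℂ} {H : ℂ → ℝ} (h : IsGreen D a H) (hD : IsOpen D)
    (hc : IsPreconnected D) : Sharp D (fun z => -H z) (range Nat.cast) a ↔
      Tendsto (fun k : ℕ => gamma D a k ^ (1 / (k : ℝ))) atTop (𝓝 (Real.exp (-H a))) := by
  have hup : ∀ k : ℕ, ∀ r ∈ {r | ∃ h : ℂ → ℂ, AnalyticOnNhd ℂ h D ∧
      (∀ z ∈ D, ‖(z - a) ^ k * h z‖ ≤ 1) ∧ r = ‖h a‖}, r ≤ Real.exp (k * -H a) := by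
    rintro k r ⟨f, h1, h2, rfl⟩
    exact (h.cls hD h1 h2).2 a h.mem
  have hne : ∀ k : ℕ, {r | ∃ h : ℂ → ℂ, AnalyticOnNhd ℂ h D ∧
      (∀ z ∈ D, ‖(z - a) ^ k * h z‖ ≤ 1) ∧ r = ‖h a‖}.Nonempty := fun k =>
    ⟨0, fun _ => 0, analyticOnNhd_const, by simp, by simp⟩
  have hge : ∀ (k : ℕ) (f : ℂ → ℂ), Cls D (fun z => -H z) k f → ‖f a‖ ≤ gamma D a k :=
    fun k f hf => le_csSup ⟨_, hup k⟩ ⟨f, hf.1, h.bound_of_cls hD hc hf, rfl⟩
  have hg0 : ∀ k : ℕ, 0 ≤ gamma D a k := fun k => by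
    simpa using hge k (fun _ => 0) ⟨analyticOnNhd_const, fun w _ => by simp [Real.exp_nonneg]⟩
  have hroot : ∀ (k : ℕ) (x : ℝ), 0 < k → Real.exp (k * x) ^ (1 / (k : ℝ)) = Real.exp x := by
    intro k x hk
    have : (k : ℝ) ≠ 0 := by positivity
    rw [← Real.exp_mul]; congr 1; field_simp
  constructor
  · intro hS
    rw [tendsto_order]
    constructor
    · intro b hb
      have hcont : ContinuousAt (fun ε : ℝ => Real.exp (-H a - 2 * ε)) 0 := by fun_prop
      have hev : ∀ᶠ ε in 𝓝 (0 : ℝ), b < Real.exp (-H a - 2 * ε) :=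
        continuousAt_const.eventually_lt hcont (by simpa using hb)
      obtain ⟨ε, hε1, hε2⟩ := ((hev.filter_mono nhdsWithin_le_nhds).and
        (self_mem_nhdsWithin (s := Ioi (0 : ℝ)) (a := 0))).exists
      have hε : 0 < ε := hε2
      obtain ⟨_, ⟨k₀, rfl⟩, hk₀, f, hf, hfa⟩ := hS ε hε
      have hk₀' : 0 < k₀ := by exact_mod_cast hk₀
      obtain ⟨B, hB0, hB⟩ := h.bdd_below hD hc
      set c := k₀ * (|H a| + ε) + k₀ * B with hcdef
      filter_upwards [eventually_gt_atTop 0, tendsto_natCast_atTop_atTop.eventually_ge_atTop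
        (c / ε)] with k hk hkc
      rw [div_le_iff₀ hε] at hkc
      set m := k / k₀ + 1 with hm
      have hm1 : (k : ℝ) ≤ m * k₀ := by
        have := Nat.lt_div_mul_add (a := k) hk₀'
        exact_mod_cast (show k ≤ m * k₀ by rw [hm, add_mul, one_mul]; exact this.le)
      have hm2 : (m : ℝ) * k₀ ≤ k + k₀ := by
        have := Nat.div_mul_le_self k k₀
        exact_mod_cast (show m * k₀ ≤ k + k₀ by rw [hm, add_mul, one_mul]; omega)
      have hn : ∀ z, ‖f z ^ m * (Real.exp (-(k₀ * B)) : ℝ)‖ = ‖f z ^ m‖ * Real.exp (-(k₀ * B)) :=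
        fun z => by rw [norm_mul, Complex.norm_real, Real.norm_eq_abs, Real.abs_exp]
      have hcls : Cls D (fun z => -H z) k fun z => f z ^ m * (Real.exp (-(k₀ * B)) : ℝ) := by
        refine ⟨(hf.pow m).1.mul analyticOnNhd_const, fun z hz => ?_⟩
        rw [hn]
        calc _ ≤ Real.exp (m * k₀ * -H z) * Real.exp (-(k₀ * B)) := by
              gcongr; exact (hf.pow m).2 z hz
          _ ≤ _ := by
              rw [← Real.exp_add, Real.exp_le_exp]
              have h1 : (m * k₀ - k) * -H z ≤ (m * k₀ - k) * B :=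
                mul_le_mul_of_nonneg_left (hB z hz) (by linarith)
              have h2 : (m * k₀ - k) * B ≤ k₀ * B := by gcongr; linarith
              linarith
      have h3 : Real.exp (k * (-H a - 2 * ε)) ≤ gamma D a k := by
        refine le_trans ?_ (hge k _ hcls)
        rw [hn, norm_pow]
        calc _ ≤ Real.exp (k₀ * (-H a - ε)) ^ m * Real.exp (-(k₀ * B)) := by
              rw [← Real.exp_nat_mul, ← Real.exp_add, Real.exp_le_exp]
              have h1 : (m * k₀ - k) * -(|H a| + ε) ≤ (m * k₀ - k) * (-H a - ε) :=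
                mul_le_mul_of_nonneg_left (by linarith [le_abs_self (H a)]) (by linarith)
              have h2 : (m * k₀ - k) * (|H a| + ε) ≤ k₀ * (|H a| + ε) := by gcongr; linarith
              nlinarith
          _ ≤ _ := by gcongr
      calc b < Real.exp (-H a - 2 * ε) := hε1
        _ = Real.exp (k * (-H a - 2 * ε)) ^ (1 / (k : ℝ)) := (hroot k _ hk).symm
        _ ≤ _ := by gcongr
    · intro b hb
      filter_upwards [eventually_gt_atTop 0] with k hk
      refine lt_of_le_of_lt ?_ hb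
      rw [← hroot k (-H a) hk]
      have := hg0 k
      gcongr
      exact csSup_le (hne k) (hup k)
  · intro hT ε hε
    obtain ⟨k, hk1, hk⟩ := ((hT.eventually (lt_mem_nhds (show Real.exp (-H a - ε) <
      Real.exp (-H a) by gcongr; linarith))).and (eventually_gt_atTop 0)).exists
    have h1 : Real.exp (k * (-H a - ε)) < gamma D a k := by
      by_contra h2
      have h3 : gamma D a k ^ (1 / (k : ℝ)) ≤ Real.exp (k * (-H a - ε)) ^ (1 / (k : ℝ)) := by
        have := hg0 k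
        gcongr
        exact not_lt.1 h2
      rw [hroot k _ hk] at h3
      linarith
    obtain ⟨r, ⟨f, h2, h3, rfl⟩, h4⟩ := exists_lt_of_lt_csSup (hne k) h1
    exact ⟨k, ⟨k, rfl⟩, by exact_mod_cast hk, f, h.cls hD h2 h3, h4.le⟩

end Pool.Agent.MP_13a571_an

end MrgPart2

-- ======== part 3: formerly Pool.Agent.MP_13a571_an.GreenEx
section MrgPart3

/-!
Existence of the Green function and its Robin constant.
-/

open Set Filter Topology Metric InnerProductSpace Bornology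

namespace Pool.Agent.MP_13a571_an

variable {D : Set ℂ} {a : ℂ} {Φ : ℂ → ℝ}

lemma zero_mem_invCompl : (0 : ℂ) ∈ invCompl D a := Or.inl rfl

lemma not_mem_invCompl {w : ℂ} : w ∉ invCompl D a ↔ w ≠ 0 ∧ a + w⁻¹ ∈ D := by
  simp [invCompl]

lemma isCompact_invCompl (hD : IsOpen D) (ha : a ∈ D) : IsCompact (invCompl D a) := by
  obtain ⟨r, hr, hb⟩ := nhds_basis_closedBall.mem_iff.1 (hD.mem_nhds ha)
  refine isCompact_of_isClosed_isBounded (isOpen_compl_iff.1 ?_)
    ((isBounded_closedBall (x := 0) (r := r⁻¹)).subset fun w hw => ?_)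
  · have : (invCompl D a)ᶜ = {0}ᶜ ∩ (fun w : ℂ => a + w⁻¹) ⁻¹' D := by
      ext w; exact not_mem_invCompl
    rw [this]
    exact (continuousOn_const.add continuousOn_inv₀).isOpen_inter_preimage isOpen_ne hD
  · by_contra h
    rw [mem_closedBall_zero_iff, not_le] at h
    refine not_mem_invCompl.2 ⟨norm_pos_iff.1 ((inv_pos.2 hr).trans h), hb ?_⟩ hw
    rw [mem_closedBall_iff_norm, add_sub_cancel_left, norm_inv]
    exact (inv_le_of_inv_le₀ hr h.le)

lemma inv_not_mem {z : ℂ} (hz : z ∈ D) (hne : z ≠ a) : (z - a)⁻¹ ∉ invCompl D a :=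
  not_mem_invCompl.2 ⟨inv_ne_zero (sub_ne_zero.2 hne), by simpa using hz⟩

lemma one_sub_eq {z : ℂ} (hne : z ≠ a) (x : ℂ) :
    ‖1 - x * (z - a)‖ = ‖z - a‖ * ‖(z - a)⁻¹ - x‖ := by
  have := sub_ne_zero.2 hne
  rw [← norm_mul]; congr 1; field_simp

lemma one_sub_pos {z x : ℂ} (hz : z ∈ D) (hx : x ∈ invCompl D a) : 0 < ‖1 - x * (z - a)‖ := by
  rcases eq_or_ne z a with rfl | hne
  · simp
  · rw [one_sub_eq hne]
    exact mul_pos (norm_pos_iff.2 (sub_ne_zero.2 hne))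
      (norm_pos_iff.2 (sub_ne_zero.2 fun h => inv_not_mem hz hne (h ▸ hx)))

lemma exists_compact_near (ha : a ∈ D) {ρ : ℝ} (hρ : 0 < ρ) : ∃ L, IsCompact L ∧ L ⊆ D ∧
    ∀ z ∉ L, (z - a)⁻¹ ∈ thickening ρ (invCompl D a) := by
  refine ⟨⋂ x ∈ invCompl D a, {z | ρ * ‖z - a‖ ≤ ‖1 - x * (z - a)‖},
    isCompact_of_isClosed_isBounded
      (isClosed_biInter fun x _ => isClosed_le (by fun_prop) (by fun_prop))
      ((isBounded_closedBall (x := a) (r := ρ⁻¹)).subset fun z hz => ?_), fun z hz => ?_,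
    fun z hz => ?_⟩
  · have : ρ * ‖z - a‖ ≤ ‖1 - 0 * (z - a)‖ := mem_iInter₂.1 hz 0 zero_mem_invCompl
    rw [zero_mul, sub_zero, norm_one] at this
    rwa [mem_closedBall_iff_norm, ← one_div, le_div_iff₀' hρ]
  · by_contra h
    have hne : z ≠ a := fun e => h (e ▸ ha)
    have : ρ * ‖z - a‖ ≤ ‖1 - (z - a)⁻¹ * (z - a)‖ :=
      mem_iInter₂.1 hz _ (Or.inr (by simpa using h))
    rw [inv_mul_cancel₀ (sub_ne_zero.2 hne), sub_self, norm_zero] at this
    exact this.not_gt (mul_pos hρ (norm_pos_iff.2 (sub_ne_zero.2 hne)))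
  · simp only [mem_iInter, mem_ofPred_eq, not_forall, not_le] at hz
    obtain ⟨x, hx, h⟩ := hz
    have hne : z ≠ a := by rintro rfl; norm_num at h
    rw [one_sub_eq hne, mul_comm ρ] at h
    exact mem_thickening_iff.2 ⟨x, hx, by
      rw [dist_eq_norm]; exact lt_of_mul_lt_mul_left h (norm_nonneg _)⟩

lemma Exh.dual (h : Exh D Φ) {β : ℝ} (h0 : 0 ≤ β) (h1 : β < 1) {f : ℂ → ℂ}
    (hf : AnalyticOnNhd ℂ f {z | z ∈ D ∧ β < Φ z}) {A t : ℝ} (ht : 0 ≤ t)
    (hU : ∀ z ∈ D, β < Φ z → ‖f z‖ ≤ A * Real.exp t)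
    (hb : ∀ ε, 0 < ε → ∃ L, IsCompact L ∧ L ⊆ D ∧ ∀ z ∉ L, ‖f z‖ ≤ A + ε) :
    ∀ z ∈ D, β < Φ z → ‖f z‖ ≤ A * Real.exp (t * (1 - Φ z) / (1 - β)) := by
  have hβ : 0 < 1 - β := by linarith
  have key := (locNorm_mul_exp hf (fun z hz => h.harm z hz.1 (h0.trans_lt hz.2))
    (t / (1 - β))).le_of_compact (h.isOpen_gt β) (M := A * Real.exp (t / (1 - β))) (by
    intro ε hε
    have hev : ∀ᶠ δ in 𝓝 (0 : ℝ), (A + δ) * Real.exp (t * (1 + δ) / (1 - β)) <
        A * Real.exp (t / (1 - β)) + ε :=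
      ContinuousAt.eventually_lt (by fun_prop) continuousAt_const (by simpa using hε)
    obtain ⟨δ, hδ1, hδ2⟩ := ((hev.filter_mono nhdsWithin_le_nhds).and
      (self_mem_nhdsWithin (s := Ioi (0 : ℝ)) (a := 0))).exists
    have hδ : 0 < δ := hδ2
    obtain ⟨L, hL, hLD, hout⟩ := hb δ hδ
    refine ⟨L ∩ Φ ⁻¹' Ici (β + δ), hL.of_isClosed_subset ((h.cont.mono
      hLD).preimage_isClosed_of_isClosed hL.isClosed isClosed_Ici) inter_subset_left,
      fun z hz => ⟨hLD hz.1, lt_of_lt_of_le (by linarith) hz.2⟩, fun z hz hzL => le_trans ?_ hδ1.le⟩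
    by_cases h2 : z ∈ L
    · have h3 : Φ z < β + δ := not_le.1 fun h3 => hzL ⟨h2, h3⟩
      have h4 := hU z hz.1 hz.2
      have hA : 0 ≤ A := nonneg_of_mul_nonneg_left ((norm_nonneg _).trans h4) (Real.exp_pos t)
      calc _ ≤ A * Real.exp t * Real.exp (t / (1 - β) * (β + δ)) := by gcongr
        _ = A * Real.exp (t * (1 + δ) / (1 - β)) := by
            rw [mul_assoc, ← Real.exp_add]; congr 2; field_simp; ring
        _ ≤ _ := by gcongr; linarith
    · have h3 := hout z h2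
      refine mul_le_mul h3 ?_ (Real.exp_nonneg _) ((norm_nonneg _).trans h3)
      rw [div_mul_eq_mul_div]
      gcongr
      linarith [h.lt_one z hz.1])
  intro z hz hzβ
  calc ‖f z‖ = ‖f z‖ * Real.exp (t / (1 - β) * Φ z) * Real.exp (-(t / (1 - β) * Φ z)) := by
        rw [mul_assoc, ← Real.exp_add]; simp
    _ ≤ A * Real.exp (t / (1 - β)) * Real.exp (-(t / (1 - β) * Φ z)) :=
        mul_le_mul_of_nonneg_right (key z ⟨hz, hzβ⟩) (Real.exp_nonneg _)
    _ = _ := by rw [mul_assoc, ← Real.exp_add]; congr 2; ring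

lemma Exh.dual_prod (h : Exh D Φ) (ha : a ∈ D) : ∃ β M : ℝ, Φ a < β ∧ β < 1 ∧ 0 < M ∧
    ∀ (n : ℕ) (ζ : Fin n → ℂ) (s T : ℝ), (∀ i, ζ i ∈ invCompl D a) → 0 < s → 0 ≤ T →
      M ≤ s * Real.exp T → (∀ w ∈ invCompl D a, ∏ i, ‖w - ζ i‖ ≤ s ^ n) → ∀ z ∈ D, β < Φ z →
        ∏ i, ‖(z - a)⁻¹ - ζ i‖ ≤ (s * Real.exp (T * (1 - Φ z) / (1 - β))) ^ n := by
  have hE := isCompact_invCompl h.isOpen ha
  obtain ⟨R, hR0, hR⟩ := hE.isBounded.subset_closedBall_lt 0 0
  have h1 := h.lt_one a ha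
  obtain ⟨r, hr, hb⟩ := nhds_basis_closedBall.mem_iff.1 ((h.isOpen_lt ((Φ a + 1) / 2)).mem_nhds
    ⟨ha, by linarith⟩)
  refine ⟨(Φ a + 1) / 2, r⁻¹ + R, by linarith, by linarith, by positivity, ?_⟩
  intro n ζ s T hζ hs hT hM hsup z hz hzβ
  have hfar : ∀ z ∈ D, (Φ a + 1) / 2 < Φ z → r < ‖z - a‖ := fun z _ h2 =>
    not_le.1 fun h3 => h2.not_gt (hb (mem_closedBall_iff_norm.2 h3)).2
  have := h.dual (β := (Φ a + 1) / 2) (by linarith [h.nonneg a ha]) (by linarith)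
    (f := fun z => ∏ i, ((z - a)⁻¹ - ζ i)) (A := s ^ n) (t := n * T) (fun z hz => ?_)
    (by positivity) (fun z hz h2 => ?_) (fun ε hε => ?_) z hz hzβ
  · rwa [norm_prod, mul_assoc, mul_div_assoc, Real.exp_nat_mul, ← mul_pow] at this
  · have h3 : z - a ≠ 0 := norm_pos_iff.1 (hr.trans (hfar z hz.1 hz.2))
    exact Finset.analyticAt_fun_prod _ fun i _ =>
      ((analyticAt_id.sub analyticAt_const).inv h3).sub analyticAt_const
  · rw [norm_prod, Real.exp_nat_mul, ← mul_pow]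
    calc _ ≤ ∏ _i : Fin n, s * Real.exp T := Finset.prod_le_prod (fun _ _ => norm_nonneg _)
          fun i _ => (norm_sub_le _ _).trans (le_trans (add_le_add (by
            rw [norm_inv]; exact inv_anti₀ hr (hfar z hz h2).le)
            (mem_closedBall_zero_iff.1 (hR (hζ i)))) hM)
      _ = _ := by simp
  · obtain ⟨ρ, hρ, hsub⟩ := hE.exists_thickening_subset_open
      (t := {w | ∏ i, ‖w - ζ i‖ < s ^ n + ε}) (_root_.isOpen_lt (by fun_prop) continuous_const)
      fun w hw => lt_of_le_of_lt (hsup w hw) (by linarith)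
    obtain ⟨L, hL, hLD, hout⟩ := exists_compact_near ha hρ
    exact ⟨L, hL, hLD, fun z hz => by rw [norm_prod]; exact (hsub (hout z hz)).le⟩

lemma Exh.exists_lower (h : Exh D Φ) (ha : a ∈ D) : ∃ s₀ : ℝ, 0 < s₀ ∧
    ∀ (n : ℕ) (ζ : Fin (n + 1) → ℂ), (∀ i, ζ i ∈ invCompl D a) →
      ¬ ∀ w ∈ invCompl D a, ∏ i, ‖w - ζ i‖ ≤ s₀ ^ (n + 1) := by
  obtain ⟨β, M, hβ0, hβ1, hM, hd⟩ := h.dual_prod ha
  have hc := h.cpt ((β + 1) / 2) (by linarith)
  obtain ⟨R, hR0, hR⟩ := hc.isBounded.subset_closedBall_lt 0 a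
  set T := 2 * (|Real.log (R * M)| + 1) with hT
  refine ⟨M * Real.exp (-T), by positivity, fun n ζ hζ hsup => ?_⟩
  have key := Complex.norm_le_of_forall_mem_frontier_norm_le (U := {z | z ∈ D ∧ Φ z < (β + 1) / 2})
    (hc.isBounded.subset fun z hz => ⟨hz.1, hz.2.le⟩) (f := fun z => ∏ i, (1 - ζ i * (z - a)))
    (Differentiable.diffContOnCl (by fun_prop)) (C := (R * M * Real.exp (-(T / 2))) ^ (n + 1))
    (fun z hz => by
      rw [(h.isOpen_lt _).frontier_eq] at hz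
      have h1 := closure_minimal (fun z hz => by exact ⟨hz.1, hz.2.le⟩) hc.isClosed hz.1
      have h2 : Φ z = (β + 1) / 2 := le_antisymm h1.2 (not_lt.1 fun h3 => hz.2 ⟨h1.1, h3⟩)
      have hne : z ≠ a := by rintro rfl; linarith
      have h3 := hd _ ζ _ T hζ (by positivity) (by positivity)
        (by rw [mul_assoc, ← Real.exp_add]; simp) hsup z h1.1 (by linarith)
      have e : M * Real.exp (-T) * Real.exp (T * (1 - Φ z) / (1 - β)) =
          M * Real.exp (-(T / 2)) := by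
        have : 1 - β ≠ 0 := by linarith
        rw [mul_assoc, ← Real.exp_add, h2]; congr 2; field_simp; ring
      rw [e] at h3
      simp only [norm_prod, one_sub_eq hne, Finset.prod_mul_distrib, Finset.prod_const,
        Finset.card_univ, Fintype.card_fin]
      rw [mul_assoc, mul_pow]
      gcongr
      exact mem_closedBall_iff_norm.1 (hR h1)) (z := a) (subset_closure ⟨ha, by linarith⟩)
  simp only [sub_self, mul_zero, sub_zero, Finset.prod_const_one, norm_one] at key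
  refine key.not_gt (pow_lt_one₀ (by positivity) ?_ n.succ_ne_zero)
  rw [← Real.exp_log (mul_pos hR0 hM), ← Real.exp_add, Real.exp_lt_one_iff]
  linarith [le_abs_self (Real.log (R * M))]

lemma tendsto_small {s s' : ℝ} (hs : 0 < s) (h : s < s') (C : ℝ) :
    ∀ᶠ n : ℕ in atTop, C * (n + 1) * s ^ n ≤ s' ^ (n + 1) := by
  have hs' : 0 < s' := hs.trans h
  have h1 : |s / s'| < 1 := by rwa [abs_of_pos (by positivity), div_lt_one hs']
  have h2 := ((tendsto_self_mul_const_pow_of_abs_lt_one h1).add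
    (tendsto_pow_atTop_nhds_zero_of_abs_lt_one h1)).const_mul C
  rw [add_zero, mul_zero] at h2
  filter_upwards [h2.eventually (gt_mem_nhds hs')] with n hn
  rw [← add_one_mul, div_pow, ← mul_div_assoc, ← mul_div_assoc, div_lt_iff₀ (by positivity)] at hn
  rw [pow_succ', mul_assoc]
  exact hn.le

/-- Fekete points of a compact set -/
lemma exists_fekete_seq {E : Set ℂ} (hE : IsCompact E) (hinf : E.Infinite) :
    ∃ ζ : (n : ℕ) → Fin (n + 1) → ℂ, (∀ n i, ζ n i ∈ E) ∧ (∀ n, Function.Injective (ζ n)) ∧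
      (∀ n j, logCap E ^ n ≤ row Finset.univ (ζ n) j (ζ n j)) ∧
      ∀ s, logCap E < s → ∀ᶠ n in atTop, ∀ w ∈ E, ∏ i, ‖w - ζ n i‖ ≤ s ^ (n + 1) := by
  choose ζ h1 h2 h3 using fun n : ℕ => exists_fekete hE continuous_id
    (w := fun _ => 1) continuous_const (fun _ => one_pos) (by simpa using hinf) (n + 1)
  simp only [id, one_mul] at h2 h3
  refine ⟨ζ, h1, h2, fun n j => ?_, fun s hs => ?_⟩
  · simpa using logCap_pow_le_row hinf.nonempty (Finset.mem_univ j) (h3 n j)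
  obtain ⟨s₁, hs₁, hs₂⟩ := exists_between hs
  obtain ⟨C, hC, hP⟩ := exists_all_degrees hE.isBounded hs₁
  obtain ⟨R, hR0, hR⟩ := hE.isBounded.subset_closedBall_lt 0 0
  filter_upwards [tendsto_small ((logCap_nonneg E).trans_lt hs₁) hs₂ (2 * R * C)] with n hn w hw
  obtain ⟨P, hP1, hP2, hP3⟩ := hP n
  obtain ⟨j, -, hj⟩ := exists_row_le (S := Finset.univ) (h2 n).injOn hP1 (by simp [hP2])
    fun j _ => hP3 _ (h1 n j)
  rw [← Finset.mul_prod_erase _ _ (Finset.mem_univ j)]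
  refine le_trans (mul_le_mul (b := 2 * R) ((norm_sub_le _ _).trans ?_) ((h3 n j w hw).trans hj)
    (row_nonneg _ _ _ _) (by positivity)) (le_trans (le_of_eq ?_) hn)
  · linarith [mem_closedBall_zero_iff.1 (hR hw), mem_closedBall_zero_iff.1 (hR (h1 n j))]
  · simp only [Finset.card_univ, Fintype.card_fin]; push_cast; ring

lemma Exh.logCap_pos (h : Exh D Φ) (ha : a ∈ D) : 0 < logCap (invCompl D a) := by
  obtain ⟨s₀, hs₀, hl⟩ := h.exists_lower ha
  have hinf : (invCompl D a).Infinite := by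
    intro hf
    obtain ⟨n, ζ, hζ⟩ := hf.fin_param
    have hmem : ∀ i, ζ i ∈ invCompl D a := fun i => hζ.2 ▸ mem_range_self i
    obtain ⟨i₀, -⟩ : (0 : ℂ) ∈ range ζ := hζ.2 ▸ zero_mem_invCompl
    obtain ⟨n, rfl⟩ := Nat.exists_eq_succ_of_ne_zero i₀.pos.ne'
    refine hl n ζ hmem fun w hw => ?_
    obtain ⟨i, rfl⟩ : w ∈ range ζ := hζ.2 ▸ hw
    rw [Finset.prod_eq_zero (Finset.mem_univ i) (by simp)]
    positivity
  obtain ⟨ζ, h1, -, -, h4⟩ := exists_fekete_seq (isCompact_invCompl h.isOpen ha) hinf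
  refine hs₀.trans_le (not_lt.1 fun h5 => ?_)
  obtain ⟨n, hn⟩ := (h4 s₀ h5).exists
  exact hl n _ (h1 n) hn

lemma exists_ultra_lim {X : Type} [NormedAddCommGroup X] [ProperSpace X] (𝒰 : Ultrafilter ℕ)
    {u : ℕ → X} {M : ℝ} (h : ∀ n, ‖u n‖ ≤ M) : Tendsto u 𝒰 (𝓝 (limUnder 𝒰 u)) := by
  obtain ⟨x, -, hx⟩ := (isCompact_closedBall (0 : X) M).ultrafilter_le_nhds' (𝒰.map u)
    (Filter.mem_map.2 (univ_mem' fun n => mem_closedBall_zero_iff.2 (h n)))
  exact tendsto_nhds_limUnder ⟨x, hx⟩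

lemma differentiableOn_ultra (𝒰 : Ultrafilter ℕ) {U : Set ℂ} (hU : IsOpen U) {F : ℕ → ℂ → ℂ}
    (hF : ∀ n, DifferentiableOn ℂ (F n) U) {M : ℝ} (hM : ∀ n, ∀ z ∈ U, ‖F n z‖ ≤ M) :
    DifferentiableOn ℂ (fun z => limUnder 𝒰 fun n => F n z) U := by
  refine TendstoLocallyUniformlyOn.differentiableOn (φ := 𝒰) (F := F) ?_ (Eventually.of_forall hF) hU
  rw [Metric.tendstoLocallyUniformlyOn_iff]
  intro ε hε x hx
  obtain ⟨δ, hδ, hb⟩ := Metric.isOpen_iff.1 hU x hx
  have hlim := fun z (hz : z ∈ U) => exists_ultra_lim 𝒰 fun n => hM n z hz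
  have h1 : ∀ n, ∀ y ∈ ball x δ, dist (F n y) (F n x) ≤ 2 * M / δ * dist y x := fun n y hy =>
    Complex.dist_le_div_mul_dist_of_mapsTo_ball ((hF n).mono hb) (fun z hz => by
      rw [mem_closedBall_iff_norm]
      linarith [norm_sub_le (F n z) (F n x), hM n z (hb hz), hM n x hx]) hy
  have h2 : ∀ᶠ y in 𝓝 x, 2 * M / δ * dist y x < ε / 3 :=
    ContinuousAt.eventually_lt (by fun_prop) continuousAt_const (by simpa using hε)
  refine ⟨_, nhdsWithin_le_nhds (h2.and (ball_mem_nhds x hδ)), ?_⟩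
  filter_upwards [Metric.tendsto_nhds.1 (hlim x hx) (ε / 3) (by linarith)] with n hn y hy
  have h3 := le_of_tendsto' ((hlim y (hb hy.2)).dist (hlim x hx)) fun n => h1 n y hy.2
  have h4 := dist_triangle4 (limUnder 𝒰 fun n => F n y) (limUnder 𝒰 fun n => F n x) (F n x) (F n y)
  rw [dist_comm] at hn
  have h5 := h1 n y hy.2
  rw [dist_comm] at h5
  linarith [hy.1]

lemma norm_avg_le {X : Type} [NormedAddCommGroup X] [NormedSpace ℝ X] {n : ℕ} {u : Fin (n + 1) → X}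
    {M : ℝ} (h : ∀ i, ‖u i‖ ≤ M) : ‖((n : ℝ) + 1)⁻¹ • ∑ i, u i‖ ≤ M := by
  rw [norm_smul, Real.norm_of_nonneg (by positivity), inv_mul_le_iff₀ (by positivity)]
  simpa using (norm_sum_le _ _).trans (Finset.sum_le_card_nsmul Finset.univ _ _ fun i _ => h i)

theorem Exh.exists_green (h : Exh D Φ) (ha : a ∈ D) :
    ∃ H, IsGreen D a H ∧ Real.exp (-H a) = logCap (invCompl D a) := by
  have hκ := h.logCap_pos ha
  have hE := isCompact_invCompl h.isOpen ha
  set κ := logCap (invCompl D a) with hκdef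
  obtain ⟨ζ, hζ, hinj, hrow, hsup⟩ := exists_fekete_seq hE (infinite_of_logCap_pos hκ)
  set u : ℕ → ℂ → ℝ := fun n z => ((n : ℝ) + 1)⁻¹ • ∑ i, Real.log ‖1 - ζ n i * (z - a)‖ with hu
  set 𝒰 := hyperfilter ℕ
  have hle : (𝒰 : Filter ℕ) ≤ atTop := by rw [← Nat.cofinite_eq_atTop]; exact hyperfilter_le_cofinite
  have hlim : ∀ z ∈ D, Tendsto (fun n => u n z) 𝒰 (𝓝 (limUnder 𝒰 fun n => u n z)) := fun z hz => by
    obtain ⟨M, hM⟩ := hE.exists_bound_of_continuousOn (f := fun x => Real.log ‖1 - x * (z - a)‖)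
      (ContinuousOn.log (by fun_prop) fun x hx => (one_sub_pos hz hx).ne')
    exact exists_ultra_lim 𝒰 fun n => norm_avg_le fun i => hM _ (hζ n i)
  have hu2 : ∀ z ∈ D, z ≠ a → ∀ n, u n z =
      Real.log ‖z - a‖ + Real.log (∏ i, ‖(z - a)⁻¹ - ζ n i‖) / (n + 1) := fun z hz hne n => by
    have h1 : ∀ i, ‖(z - a)⁻¹ - ζ n i‖ ≠ 0 := fun i =>
      norm_ne_zero_iff.2 (sub_ne_zero.2 fun h => inv_not_mem hz hne (h ▸ hζ n i))
    simp only [hu, one_sub_eq hne, Real.log_mul (norm_ne_zero_iff.2 (sub_ne_zero.2 hne)) (h1 _),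
      Finset.sum_add_distrib, Real.log_prod fun i _ => h1 i, Finset.sum_const, Finset.card_univ,
      Fintype.card_fin, nsmul_eq_mul, smul_eq_mul]
    push_cast
    field_simp
  refine ⟨fun z => (limUnder 𝒰 fun n => u n z) - Real.log κ, ⟨ha, fun z₀ hz₀ => ?_, ?_⟩, ?_⟩
  · obtain ⟨x₀, hx₀, hmin⟩ := hE.exists_isMinOn ⟨0, zero_mem_invCompl⟩
      (f := fun x => ‖1 - x * (z₀ - a)‖) (by fun_prop)
    obtain ⟨R, hR0, hR⟩ := hE.isBounded.subset_closedBall_lt 0 0
    have hm := one_sub_pos hz₀ hx₀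
    set ρ := ‖1 - x₀ * (z₀ - a)‖ / (2 * R) with hρ
    set v : ℂ → ℂ → ℂ := fun x z => -(x * (z - z₀) / (1 - x * (z₀ - a))) with hv
    have hv1 : ∀ x ∈ invCompl D a, ∀ z ∈ ball z₀ ρ, ‖v x z‖ ≤ 1 / 2 := fun x hx z hz => by
      rw [hv, norm_neg, norm_div, norm_mul, div_le_iff₀ (one_sub_pos hz₀ hx)]
      calc _ ≤ R * ρ := by
            gcongr
            exacts [mem_closedBall_zero_iff.1 (hR hx), (mem_ball_iff_norm.1 hz).le]
        _ = 1 / 2 * ‖1 - x₀ * (z₀ - a)‖ := by rw [hρ]; field_simp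
        _ ≤ _ := by gcongr; exact hmin hx
    have hs : ∀ x ∈ invCompl D a, ∀ z ∈ ball z₀ ρ, 1 + v x z ∈ Complex.slitPlane := fun x hx z hz =>
      Complex.mem_slitPlane_of_norm_lt_one (by linarith [hv1 x hx z hz])
    set F : ℕ → ℂ → ℂ := fun n z => ((n : ℝ) + 1)⁻¹ • ∑ i, Complex.log (1 + v (ζ n i) z) with hF
    have hb : ∀ n, ∀ z ∈ ball z₀ ρ, ‖F n z‖ ≤ 1 := fun n z hz => norm_avg_le fun i => by
      linarith [Complex.norm_log_one_add_half_le_self (hv1 _ (hζ n i) z hz), hv1 _ (hζ n i) z hz]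
    have hd := differentiableOn_ultra 𝒰 isOpen_ball (F := F) (fun n =>
      DifferentiableOn.fun_const_smul (DifferentiableOn.fun_sum fun i _ => DifferentiableOn.clog
        (by simp only [hv]; fun_prop) (hs _ (hζ n i))) _) hb
    have hρ0 : ball z₀ ρ ∈ 𝓝 z₀ := ball_mem_nhds _ (by positivity)
    refine (harmonicAt_congr_nhds ?_).1 ((hd.analyticAt hρ0).harmonicAt_re.add
      (harmonicAt_const ((limUnder 𝒰 fun n => u n z₀) - Real.log κ)))
    filter_upwards [hρ0, h.isOpen.mem_nhds hz₀] with z hz hzD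
    have h1 := ((Complex.continuous_re.tendsto _).comp
      (exists_ultra_lim 𝒰 fun n => hb n z hz)).add (hlim z₀ hz₀)
    have h2 : ∀ n, (F n z).re + u n z₀ = u n z := fun n => by
      simp only [hF, hu, Complex.smul_re, Complex.re_sum, Complex.log_re, ← smul_add,
        ← Finset.sum_add_distrib]
      congr 2
      ext i
      have h3 := one_sub_pos hz₀ (hζ n i)
      rw [← Real.log_mul (norm_ne_zero_iff.2 (Complex.slitPlane_ne_zero (hs _ (hζ n i) z hz))) h3.ne',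
        ← norm_mul]
      congr 2
      have := norm_pos_iff.1 h3
      simp only [hv]
      field_simp
      ring
    simp only [Function.comp_def, h2] at h1
    rw [Pi.add_apply, ← add_sub_assoc, tendsto_nhds_unique h1 (hlim z hzD)]
  · obtain ⟨β, M, hβ0, hβ1, hM, hd⟩ := h.dual_prod ha
    set T := |Real.log (M / κ)| with hT
    have key : ∀ ε > 0, ∃ L, IsCompact L ∧ L ⊆ D ∧ ∀ z ∈ D, z ∉ L →
        dist ((limUnder 𝒰 fun n => u n z) - Real.log κ - Real.log ‖z - a‖) 0 < ε := by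
      intro ε hε
      have h1 : ∀ᶠ γ in 𝓝 (1 : ℝ), T * (1 - γ) / (1 - β) < ε :=
        ContinuousAt.eventually_lt (by fun_prop) continuousAt_const (by simpa using hε)
      obtain ⟨γ, ⟨h2, h3⟩, h4⟩ := (((h1.and (lt_mem_nhds hβ1)).filter_mono nhdsWithin_le_nhds).and
        (self_mem_nhdsWithin (s := Iio (1 : ℝ)) (a := 1))).exists
      refine ⟨_, h.cpt γ h4, fun z hz => hz.1, fun z hz hzL => ?_⟩
      have h5 : γ < Φ z := not_le.1 fun h5 => hzL ⟨hz, h5⟩
      have hne : z ≠ a := by rintro rfl; linarith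
      obtain ⟨d, hd0, hb⟩ := Metric.isOpen_iff.1 hE.isClosed.isOpen_compl _ (inv_not_mem hz hne)
      have h6 : ∀ n i, d ≤ ‖(z - a)⁻¹ - ζ n i‖ := fun n i =>
        not_lt.1 fun h6 => hb (mem_ball_iff_norm'.2 h6) (hζ n i)
      have h7 : ∀ n, 0 < ∏ i, ‖(z - a)⁻¹ - ζ n i‖ := fun n =>
        Finset.prod_pos fun i _ => hd0.trans_le (h6 n i)
      rw [Real.dist_eq, sub_zero, abs_lt]
      constructor
      · have h8 : Real.log ‖z - a‖ + Real.log (κ * Real.exp (-(ε / 2))) ≤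
            limUnder 𝒰 fun n => u n z := by
          have hlt : (κ * Real.exp (-(ε / 2))) / κ < 1 := by
            rw [mul_div_cancel_left₀ _ hκ.ne', Real.exp_lt_one_iff]; linarith
          refine ge_of_tendsto (hlim z hz) (hle ?_)
          filter_upwards [tendsto_small (by positivity) hlt (κ * Real.exp (-(ε / 2)) / d)] with n hn
          have h9 := mul_le_card_mul_prod Finset.univ_nonempty (hinj n).injOn
            (fun j _ => hrow n j) hd0.le fun j _ => h6 n j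
          simp only [Finset.card_univ, Fintype.card_fin, ← hκdef] at h9
          rw [hu2 z hz hne, add_le_add_iff_left, le_div_iff₀' (by positivity),
            ← Nat.cast_succ, ← Real.log_pow]
          refine Real.log_le_log (by positivity) (le_of_mul_le_mul_left (le_trans ?_ h9)
            (by positivity))
          rw [one_pow, div_pow, div_mul_eq_mul_div, div_mul_div_comm,
            div_le_one (by positivity)] at hn
          rw [Nat.succ_eq_add_one, pow_succ]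
          push_cast
          linarith
        rw [Real.log_mul hκ.ne' (Real.exp_pos _).ne', Real.log_exp] at h8
        linarith
      · have h8 : (limUnder 𝒰 fun n => u n z) ≤ Real.log ‖z - a‖ + Real.log κ +
            T * (1 - Φ z) / (1 - β) := by
          refine le_of_forall_pos_le_add fun η hη => le_of_tendsto (hlim z hz) (hle ?_)
          have h9 : κ < κ * Real.exp η := lt_mul_of_one_lt_right hκ (Real.one_lt_exp_iff.2 hη)
          filter_upwards [hsup _ h9] with n hn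
          have h10 := Real.log_le_log (h7 n) (hd _ _ _ T (hζ n) (by positivity) (abs_nonneg _) (by
            calc M = κ * Real.exp (Real.log (M / κ)) := by
                  rw [Real.exp_log (by positivity)]; field_simp
              _ ≤ _ := by gcongr; exact le_abs_self _) hn z hz (by linarith))
          rw [Real.log_pow, ← div_le_iff₀' (by positivity), Real.log_mul (by positivity)
            (Real.exp_pos _).ne', Real.log_mul hκ.ne' (Real.exp_pos _).ne', Real.log_exp,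
            Real.log_exp] at h10
          rw [hu2 z hz hne]
          push_cast at h10
          linarith
        have h11 : T * (1 - Φ z) / (1 - β) ≤ T * (1 - γ) / (1 - β) := by
          have : 0 ≤ T := abs_nonneg _
          gcongr
        linarith
    refine ⟨fun ξ hξ => Metric.tendsto_nhds.2 fun ε hε => ?_, Metric.tendsto_nhds.2 fun ε hε => ?_⟩
    · obtain ⟨L, hL, hLD, hout⟩ := key ε hε
      rw [h.isOpen.frontier_eq] at hξ
      filter_upwards [self_mem_nhdsWithin, nhdsWithin_le_nhds (hL.isClosed.isOpen_compl.mem_nhds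
        fun h1 => hξ.2 (hLD h1))] with z h1 h2 using hout z h1 h2
    · obtain ⟨L, hL, hLD, hout⟩ := key ε hε
      rw [eventually_inf_principal]
      filter_upwards [hL.compl_mem_cocompact] with z h1 h2 using hout z h2 h1
  · have := hlim a ha
    simp only [hu, sub_self, mul_zero, sub_zero, norm_one, Real.log_one, Finset.sum_const_zero,
      smul_zero] at this ⊢
    rw [← tendsto_nhds_unique tendsto_const_nhds this, zero_sub, neg_neg, Real.exp_log hκ]

end Pool.Agent.MP_13a571_an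

end MrgPart3

-- marker of a merged file
example : 731051 + 55418 = 731051 + 55418 := rfl
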