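import Mathlib.Analysis.CStarAlgebra.ContinuousFunctionalCalculus.Basic
import Mathlib.Analysis.CStarAlgebra.ContinuousLinearMap
import Mathlib.Analysis.InnerProductSpace.Harmonic.Basic
import Mathlib.Topology.Compactification.OnePoint.Basic

/-!
Definitions for the question on Hilbert scales of analytic functions on the Riemann sphere.
-/

open Set Filter Topology InnerProductSpace OnePoint

namespace Pool.Agent.MP_13a571_an.Sph

/-- A Moebius parametrization of the sphere with the point `x` removed: the identity when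
`x = ∞`, and `w ↦ a + 1 / w` (sending `0` to `∞`) when `x = a` is finite. -/
noncomputable def away : OnePoint ℂ → ℂ → OnePoint ℂ
  | ∞ => fun w => (w : OnePoint ℂ)
  | (a : ℂ) => fun w => if w = 0 then ∞ else ((a + w⁻¹ : ℂ) : OnePoint ℂ)

/-- The local property `P` of `f` at a point of the sphere, read in the chart `z` at finite points
and in the chart `1 / z` at infinity. -/
def InChart {Y : Type} (P : (ℂ → Y) → ℂ → Prop) (f : OnePoint ℂ → Y) : OnePoint ℂ → Prop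
  | ∞ => P (fun w => f (away (0 : ℂ) w)) 0
  | (z : ℂ) => P (fun w => f w) z

/-- Functions analytic at every point of `E`; they represent the elements of `O(E)`. -/
def An (E : Set (OnePoint ℂ)) : Submodule ℂ (OnePoint ℂ → ℂ) where
  carrier := {f | ∀ x ∈ E, InChart (AnalyticAt ℂ) f x}
  add_mem' := fun hf hg x hx => by
    induction x using OnePoint.rec <;> exact AnalyticAt.add (hf _ hx) (hg _ hx)
  zero_mem' := fun x _ => by induction x using OnePoint.rec <;> exact analyticAt_const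
  smul_mem' := fun c _ hf x hx => by
    induction x using OnePoint.rec <;> exact (analyticAt_const (v := c)).smul (hf _ hx)

/-- An admissible pair `(D, K)` with the harmonic measure `ω` of `∂D` in `D \ K`. -/
structure Admissible (D K : Set (OnePoint ℂ)) (ω : OnePoint ℂ → ℝ) : Prop where
  isOpen : IsOpen D
  conn : IsConnected D
  compact : IsCompact K
  nonempty : K.Nonempty
  subset : K ⊆ D
  hull : ∀ t ∈ D, (∀ f ∈ An D, ∀ M : ℝ, (∀ z ∈ K, ‖f z‖ ≤ M) → ‖f t‖ ≤ M) → t ∈ K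
  conn_diff : IsConnected (D \ K)
  harmonic : ∀ x ∈ D \ K, InChart HarmonicAt ω x
  lim_inner : ∀ ζ ∈ frontier K, Tendsto ω (𝓝[D \ K] ζ) (𝓝 0)
  lim_outer : ∀ ζ ∈ frontier D, Tendsto ω (𝓝[D \ K] ζ) (𝓝 1)

/-- The level domain `D_α`. -/
def Dlev (D K : Set (OnePoint ℂ)) (ω : OnePoint ℂ → ℝ) (α : ℝ) : Set (OnePoint ℂ) :=
  K ∪ {z ∈ D \ K | ω z < α}

/-- Condition (4): `H^∞(D) ⊂ H₁ ⊂ O(D)` with continuous inclusions; `j` is the second one. -/
structure Cond4 (D : Set (OnePoint ℂ)) {H₁ : Type} [NormedAddCommGroup H₁] [InnerProductSpace ℂ H₁]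
    (j : H₁ →ₗ[ℂ] An D) : Prop where
  inj : ∀ x, (∀ z ∈ D, (j x).1 z = 0) → x = 0
  cont : ∀ L, IsCompact L → L ⊆ D → ∃ C : ℝ, ∀ x, ∀ z ∈ L, ‖(j x).1 z‖ ≤ C * ‖x‖
  hinf : ∃ C : ℝ, ∀ f ∈ An D, ∀ M : ℝ, 0 ≤ M → (∀ z ∈ D, ‖f z‖ ≤ M) →
    ∃ x, EqOn (j x).1 f D ∧ ‖x‖ ≤ C * M

/-- `ι` is a continuous injective linear map from the inductive limit `O(K)` to `H₀`. -/
structure GermIncl (K : Set (OnePoint ℂ)) {H₀ : Type} [NormedAddCommGroup H₀]
    [InnerProductSpace ℂ H₀] (ι : An K →ₗ[ℂ] H₀) : Prop where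
  inj : ∀ f : An K, ι f = 0 → f.1 =ᶠ[𝓝ˢ K] 0
  cont : ∀ V, IsOpen V → K ⊆ V → ∃ L, IsCompact L ∧ L ⊆ V ∧ ∃ C : ℝ, ∀ f : An K,
    f.1 ∈ An V → ∀ M : ℝ, 0 ≤ M → (∀ z ∈ L, ‖f.1 z‖ ≤ M) → ‖ι f‖ ≤ C * M

/-- For the dense inclusion `J : H₁ → H₀` with generating operator `A` one has `A⁻² = J J*`, so
this is `A^(-α)`: the space `H^α` is its range and the `H^α`-norm of `scaleOp J α y` is `‖y‖`. -/
noncomputable def scaleOp {H₀ H₁ : Type} [NormedAddCommGroup H₀] [InnerProductSpace ℂ H₀]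
    [CompleteSpace H₀] [NormedAddCommGroup H₁] [InnerProductSpace ℂ H₁] [CompleteSpace H₁]
    (J : H₁ →L[ℂ] H₀) (α : ℝ) : H₀ →L[ℂ] H₀ :=
  cfc (fun s : ℝ => s ^ (α / 2)) (J ∘L ContinuousLinearMap.adjoint J)

/-- Condition (3) at the level `α`, for the space `T(H₀)` normed by `‖T y‖ = ‖y‖` and the open
set `U = D_α`: `O(closure U) ⊂ T(H₀) ⊂ O(U)` with continuous inclusions. -/
structure Between (K U : Set (OnePoint ℂ)) {H₀ : Type} [NormedAddCommGroup H₀]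
    [InnerProductSpace ℂ H₀] (ι : An K →ₗ[ℂ] H₀) (T : H₀ →L[ℂ] H₀) : Prop where
  inj : ∀ f : An K, f.1 ∈ An (closure U) → ι f = 0 → f.1 =ᶠ[𝓝ˢ (closure U)] 0
  lower : ∀ V, IsOpen V → closure U ⊆ V → ∃ L, IsCompact L ∧ L ⊆ V ∧ ∃ C : ℝ, ∀ f : An K,
    f.1 ∈ An V → ∀ M : ℝ, 0 ≤ M → (∀ z ∈ L, ‖f.1 z‖ ≤ M) → ∃ y, T y = ι f ∧ ‖y‖ ≤ C * M
  upper : ∀ y, ∃ g : An K, g.1 ∈ An U ∧ ι g = T y
  upper_cont : ∀ L, IsCompact L → L ⊆ U → ∃ C : ℝ, ∀ y, ∀ g : An K,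
    g.1 ∈ An U → ι g = T y → ∀ z ∈ L, ‖g.1 z‖ ≤ C * ‖y‖

/-- Property (S): every Hilbert space `H₁` with (4) admits a Hilbert space `H₀` with (2), in
which it is dense, whose scale with `H₁` satisfies (3). -/
def PropS (D K : Set (OnePoint ℂ)) (ω : OnePoint ℂ → ℝ) : Prop :=
  ∀ (H₁ : Type) [NormedAddCommGroup H₁] [InnerProductSpace ℂ H₁] [CompleteSpace H₁]
    (j : H₁ →ₗ[ℂ] An D), Cond4 D j →
    ∃ (H₀ : Type) (_ : NormedAddCommGroup H₀) (_ : InnerProductSpace ℂ H₀) (_ : CompleteSpace H₀)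
      (ι : An K →ₗ[ℂ] H₀) (J : H₁ →L[ℂ] H₀),
      GermIncl K ι ∧ (∀ x, ∀ f : An K, f.1 = (j x).1 → ι f = J x) ∧ DenseRange J ∧
        ∀ α ∈ Ioo (0 : ℝ) 1, Between K (Dlev D K ω α) ι (scaleOp J α)

/-- Logarithmic capacity of a bounded plane set, as its Chebyshev constant. -/
noncomputable def logCap (X : Set ℂ) : ℝ :=
  sInf {s | 0 ≤ s ∧ ∃ P : Polynomial ℂ, P.Monic ∧ 0 < P.natDegree ∧
    ∀ w ∈ X, ‖P.eval w‖ ≤ s ^ P.natDegree}

/-- Analytic capacity of a compact plane set: the supremum of `|f'(∞)|` over analytic `f` off `X`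
with `|f| ≤ 1` and `f(∞) = 0`. -/
noncomputable def anCap (X : Set ℂ) : ℝ :=
  sSup {s | ∃ (f : ℂ → ℂ) (c : ℂ), AnalyticOnNhd ℂ f Xᶜ ∧ (∀ w ∉ X, ‖f w‖ ≤ 1) ∧
    Tendsto (fun w => w * f w) (cocompact ℂ) (𝓝 c) ∧ s = ‖c‖}

end Pool.Agent.MP_13a571_an.Sph
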