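import Mathlib.Analysis.Complex.ExponentialBounds
import Mathlib.MeasureTheory.Function.L2Space
import Pool.Agent.MP_13a571_an.Scale
import Pool.Agent.MP_13a571_an.GreenEx
import Pool.Agent.MP_13a571_an.Nec
import Pool.Agent.MP_13a571_an.SDefs

-- ======== part 0: formerly Pool.Agent.MP_13a571_an.Germ
section MrgPart0

/-!
A Hilbert space between `O(K)` and the bounded functions on `K`.
-/

open MeasureTheory Set Filter Topology Metric
open scoped InnerProductSpace ComplexConjugate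

namespace Pool.Agent.MP_13a571_an

lemma exists_section {X E : Type} [AddCommGroup X] [Module ℂ X] [NormedAddCommGroup E]
    [InnerProductSpace ℂ E] [CompleteSpace E] {I : Type} (κ : I → E) (φ : I → X →ₗ[ℂ] ℂ)
    (h : ∀ x, ∃ e, ∀ i, ⟪κ i, e⟫_ℂ = φ i x) :
    ∃ ι : X →ₗ[ℂ] E, (∀ x i, ⟪κ i, ι x⟫_ℂ = φ i x) ∧
      ∀ x e, (∀ i, ⟪κ i, e⟫_ℂ = φ i x) → ‖ι x‖ ≤ ‖e‖ := by
  let P : Submodule ℂ (E × X) :=
    { carrier := {p | ∀ i, ⟪κ i, p.1⟫_ℂ = φ i p.2}
      add_mem' := fun {p q} hp hq i => by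
        rw [Prod.fst_add, Prod.snd_add, inner_add_right, map_add, hp i, hq i]
      zero_mem' := fun i => by simp
      smul_mem' := fun c p hp i => by
        rw [Prod.smul_fst, Prod.smul_snd, inner_smul_right, map_smul, hp i, smul_eq_mul] }
  obtain ⟨s, hs⟩ := (LinearMap.snd ℂ E X ∘ₗ P.subtype).exists_rightInverse_of_surjective
    (LinearMap.range_eq_top.2 fun x => by
      obtain ⟨e, he⟩ := h x
      exact ⟨⟨(e, x), he⟩, rfl⟩)
  have hs1 : ∀ x i, ⟪κ i, (s x : E × X).1⟫_ℂ = φ i x := fun x i => by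
    have e : (s x : E × X).2 = x := LinearMap.congr_fun hs x
    rw [(s x).2 i, e]
  let N : Submodule ℂ E := (Submodule.span ℂ (range κ))ᗮ
  have hN : ∀ e, e ∈ N ↔ ∀ i, ⟪κ i, e⟫_ℂ = 0 := fun e => by
    refine ⟨fun he i => he _ (Submodule.subset_span ⟨i, rfl⟩), fun he u hu => ?_⟩
    induction hu using Submodule.span_induction with
    | mem u hu => obtain ⟨i, rfl⟩ := hu; exact he i
    | zero => simp
    | add u v _ _ h1 h2 => rw [inner_add_left, h1, h2, add_zero]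
    | smul c u _ h1 => rw [inner_smul_left, h1, mul_zero]
  refine ⟨(Nᗮ.starProjection : E →ₗ[ℂ] E) ∘ₗ LinearMap.fst ℂ E X ∘ₗ P.subtype ∘ₗ s,
    fun x i => ?_, fun x e he => ?_⟩
  · change ⟪κ i, Nᗮ.starProjection (s x : E × X).1⟫_ℂ = _
    rw [N.starProjection_orthogonal_val, inner_sub_right,
      (hN _).1 (N.starProjection_apply_mem _) i, sub_zero, hs1]
  · change ‖Nᗮ.starProjection (s x : E × X).1‖ ≤ _
    have h1 : N.starProjection (e - (s x : E × X).1) = e - (s x : E × X).1 :=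
      Submodule.starProjection_eq_self_iff.2 ((hN _).2 fun i => by
        rw [inner_sub_right, he, hs1, sub_self])
    have h2 : Nᗮ.starProjection (s x : E × X).1 = Nᗮ.starProjection e := by
      rw [N.starProjection_orthogonal_val, N.starProjection_orthogonal_val]
      rw [map_sub] at h1
      linear_combination (norm := abel) h1
    rw [h2]
    exact Submodule.norm_starProjection_apply_le _ e

lemma exists_section' {X E : Type} [AddCommGroup X] [Module ℂ X] [NormedAddCommGroup E]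
    [InnerProductSpace ℂ E] [CompleteSpace E] {I : Type} (κ : I → E) (φ : I → X →ₗ[ℂ] ℂ)
    (h : ∀ x, ∃ e, ∀ i, ⟪κ i, e⟫_ℂ = φ i x) :
    ∃ (H₀ : Type) (_ : NormedAddCommGroup H₀) (_ : InnerProductSpace ℂ H₀) (_ : CompleteSpace H₀)
      (ι : X →ₗ[ℂ] H₀), DenseRange ι ∧ (∀ x i, ‖φ i x‖ ≤ ‖κ i‖ * ‖ι x‖) ∧
      ∀ x e, (∀ i, ⟪κ i, e⟫_ℂ = φ i x) → ‖ι x‖ ≤ ‖e‖ := by
  obtain ⟨ι, hι1, hι2⟩ := exists_section κ φ h
  refine ⟨(LinearMap.range ι).topologicalClosure, inferInstance, inferInstance, inferInstance,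
    ι.codRestrict _ fun f => Submodule.le_topologicalClosure _ ⟨f, rfl⟩, ?_, fun x i => ?_, hι2⟩
  · rw [DenseRange, Subtype.dense_iff, ← range_comp]
    exact subset_rfl
  · rw [← hι1]
    exact norm_inner_le_norm _ _

theorem exists_H0 {K : Set ℂ} (hK : IsCompact K) (hne : K.Nonempty) :
    ∃ (H₀ : Type) (_ : NormedAddCommGroup H₀) (_ : InnerProductSpace ℂ H₀) (_ : CompleteSpace H₀)
      (ι : An K →ₗ[ℂ] H₀), DenseRange ι ∧
      (∃ B : ℝ, 0 ≤ B ∧ ∀ f : An K, ∀ z ∈ K, ‖(f : ℂ → ℂ) z‖ ≤ B * ‖ι f‖) ∧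
      ∀ V, IsOpen V → K ⊆ V → ∃ L, IsCompact L ∧ L ⊆ V ∧ ∃ C : ℝ, 0 ≤ C ∧ ∀ f : An K,
        AnalyticOnNhd ℂ (f : ℂ → ℂ) V → ∀ M : ℝ, 0 ≤ M → (∀ z ∈ L, ‖(f : ℂ → ℂ) z‖ ≤ M) →
          ‖ι f‖ ≤ C * M := by
  obtain ⟨R, -, hKR⟩ := hK.isBounded.subset_ball_lt 0 0
  set μ : Measure ℂ := volume.restrict (ball 0 R) with hμ
  have : IsFiniteMeasure μ := isFiniteMeasure_restrict.2 measure_ball_lt_top.ne
  set m : ℝ := measureUnivNNReal μ ^ (2 : ENNReal).toReal⁻¹ with hm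
  have hm0 : 0 ≤ m := by positivity
  have hk : ∀ (z : K) (ζ : ℂ), ‖conj ((infDist ζ K : ℝ) / (ζ - z) : ℂ)‖ ≤ 1 := fun z ζ => by
    rw [RCLike.norm_conj, norm_div, Complex.norm_real, Real.norm_of_nonneg infDist_nonneg]
    exact div_le_one_of_le₀ (by simpa [dist_eq_norm] using infDist_le_dist_of_mem (x := ζ) z.2)
      (norm_nonneg _)
  have hinf : Measurable fun ζ : ℂ => ((infDist ζ K : ℝ) : ℂ) :=
    (Complex.continuous_ofReal.comp (continuous_infDist_pt K)).measurable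
  have hkm : ∀ z : K, MemLp (fun ζ : ℂ => conj ((infDist ζ K : ℝ) / (ζ - z) : ℂ)) 2 μ := fun z =>
    MemLp.of_bound (Complex.continuous_conj.measurable.comp
      (hinf.div (measurable_id.sub_const _))).aestronglyMeasurable 1 (ae_of_all _ (hk z))
  obtain ⟨κ, hκ⟩ : ∃ κ : K → Lp ℂ 2 μ, ∀ z, κ z =ᵐ[μ]
      fun ζ : ℂ => conj ((infDist ζ K : ℝ) / (ζ - z) : ℂ) :=
    ⟨fun z => (hkm z).toLp _, fun z => (hkm z).coeFn_toLp⟩
  let φ : K → An K →ₗ[ℂ] ℂ := fun z => LinearMap.proj (z : ℂ) ∘ₗ (An K).subtype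
  have hrep : ∀ V, IsOpen V → K ⊆ V → ∃ L, IsCompact L ∧ L ⊆ V ∧ ∃ C : ℝ, 0 ≤ C ∧ ∀ f : An K,
      AnalyticOnNhd ℂ (f : ℂ → ℂ) V → ∀ M : ℝ, 0 ≤ M → (∀ z ∈ L, ‖(f : ℂ → ℂ) z‖ ≤ M) →
        ∃ e, (∀ z, ⟪κ z, e⟫_ℂ = φ z f) ∧ ‖e‖ ≤ C * M := by
    intro V hV hKV
    obtain ⟨Γ, hΓ, hΓV, C, hC, hrep⟩ := cauchy_rep hK (hV.inter isOpen_ball)
      (subset_inter hKV hKR)
    obtain ⟨d, hd, hdd⟩ := exists_dist_ge hΓ hK.isClosed fun ζ hζ => (hΓV hζ).2
    refine ⟨Γ, hΓ, fun ζ hζ => (hΓV hζ).1.1, m * (C / d), by positivity, fun f hf M hM hfM => ?_⟩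
    obtain ⟨ρ, hρc, hρ0, hρb, hfρ⟩ := hrep f (hf.mono inter_subset_left) M hM hfM
    have hdi : ∀ ζ ∈ Γ, d ≤ infDist ζ K := fun ζ hζ =>
      (le_infDist hne).2 fun z hz => by rw [dist_eq_norm]; exact hdd ζ hζ z hz
    have hb : ∀ ζ, ‖ρ ζ / (infDist ζ K : ℝ)‖ ≤ C / d * M := fun ζ => by
      by_cases hζ : ζ ∈ Γ
      · rw [norm_div, Complex.norm_real, Real.norm_of_nonneg infDist_nonneg, div_mul_eq_mul_div]
        gcongr
        exacts [hρb ζ, hdi ζ hζ]
      · rw [hρ0 ζ hζ, zero_div, norm_zero]; positivity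
    have hem : MemLp (fun ζ => ρ ζ / (infDist ζ K : ℝ)) 2 μ :=
      MemLp.of_bound (hρc.measurable.div hinf).aestronglyMeasurable _ (ae_of_all _ hb)
    refine ⟨hem.toLp _, fun z => ?_, ?_⟩
    · change _ = (f : ℂ → ℂ) z
      rw [L2.inner_def, hfρ z z.2, ← setIntegral_eq_integral_of_forall_compl_eq_zero
        (s := ball 0 R) (f := fun ζ => ρ ζ * (ζ - z)⁻¹) fun ζ hζ => by
          rw [hρ0 ζ fun h2 => hζ (hΓV h2).1.2, zero_mul]]
      refine integral_congr_ae ?_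
      filter_upwards [hκ z, hem.coeFn_toLp] with ζ h1 h2
      rw [h1, h2, RCLike.inner_apply, Complex.conj_conj]
      by_cases hζ : ζ ∈ Γ
      · have : ((infDist ζ K : ℝ) : ℂ) ≠ 0 := Complex.ofReal_ne_zero.2 (hd.trans_le (hdi ζ hζ)).ne'
        rw [div_mul_div_comm, mul_comm ((infDist ζ K : ℝ) : ℂ), mul_div_mul_right _ _ this,
          div_eq_mul_inv]
      · simp [hρ0 ζ hζ]
    · rw [mul_assoc]
      refine Lp.norm_le_of_ae_bound (by positivity) ?_
      filter_upwards [hem.coeFn_toLp] with ζ h1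
      rw [h1]; exact hb ζ
  obtain ⟨H₀, i1, i2, i3, ι, hι0, hι1, hι2⟩ := exists_section' κ φ fun f => by
    obtain ⟨L, hL, hLV, C, -, hC⟩ := hrep _ (isOpen_analyticAt ℂ (f : ℂ → ℂ)) f.2
    obtain ⟨M, hM⟩ := hL.exists_bound_of_continuousOn (f := (f : ℂ → ℂ))
      fun z hz => (hLV hz).continuousAt.continuousWithinAt
    obtain ⟨e, he, -⟩ := hC f (fun z hz => hz) |M| (abs_nonneg _)
      fun z hz => (hM z hz).trans (le_abs_self _)
    exact ⟨e, he⟩
  refine ⟨H₀, i1, i2, i3, ι, hι0, ⟨m, hm0, fun f z hz => ?_⟩, ?_⟩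
  · refine (hι1 f ⟨z, hz⟩).trans (mul_le_mul_of_nonneg_right ?_ (norm_nonneg _))
    refine (Lp.norm_le_of_ae_bound zero_le_one ?_).trans (mul_one m).le
    filter_upwards [hκ ⟨z, hz⟩] with ζ h1
    rw [h1]; exact hk ⟨z, hz⟩ ζ
  · intro V hV hKV
    obtain ⟨L, hL, hLV, C, hC0, hC⟩ := hrep V hV hKV
    refine ⟨L, hL, hLV, C, hC0, fun f hf M hM hfM => ?_⟩
    obtain ⟨e, he, heb⟩ := hC f hf M hM hfM
    exact (hι2 f e he).trans heb

end Pool.Agent.MP_13a571_an

end MrgPart0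

-- ======== part 1: formerly Pool.Agent.MP_13a571_an.Forward
section MrgPart1

/-!
Property (S) forces the two-constants bound to be sharp.
-/

open Set Filter Topology Metric BoundedContinuousFunction

namespace Pool.Agent.MP_13a571_an

/-- bounded analytic functions -/
def Hinf (D : Set ℂ) : Submodule ℂ (ℂ → ℂ) where
  carrier := {f | AnalyticOnNhd ℂ f D ∧ ∃ M : ℝ, ∀ z ∈ D, ‖f z‖ ≤ M}
  add_mem' := by
    rintro f g ⟨hf, M, hM⟩ ⟨hg, N, hN⟩
    exact ⟨hf.add hg, M + N, fun z hz => (norm_add_le _ _).trans (add_le_add (hM z hz) (hN z hz))⟩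
  zero_mem' := ⟨analyticOnNhd_const, 0, fun z _ => by simp⟩
  smul_mem' := by
    rintro c f ⟨hf, M, hM⟩
    refine ⟨(An D).smul_mem c hf, ‖c‖ * M, fun z hz => ?_⟩
    rw [Pi.smul_apply, norm_smul]
    exact mul_le_mul_of_nonneg_left (hM z hz) (norm_nonneg _)

lemma exists_split {D K : Set ℂ} (hK : IsCompact K) (hKD : K ⊆ D) {z₀ : ℂ} (hz₀ : z₀ ∈ D)
    {θ t : ℝ} (h : ∀ f : ℂ → ℂ, AnalyticOnNhd ℂ f D → (∀ w ∈ D, ‖f w‖ ≤ Real.exp t) →
      (∀ w ∈ K, ‖f w‖ ≤ 1) → ‖f z₀‖ ≤ Real.exp (t * θ)) :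
    ∃ ν : An D →ₗ[ℂ] ℂ,
      (∀ (f : An D) (M : ℝ), (∀ z ∈ D, ‖(f : ℂ → ℂ) z‖ ≤ M) → 0 ≤ M → ‖ν f‖ ≤ M) ∧
      (∃ C : ℝ, ∀ (f : An D) (M : ℝ), 0 ≤ M → (∀ z ∈ insert z₀ K, ‖(f : ℂ → ℂ) z‖ ≤ M) →
        ‖ν f‖ ≤ C * M) ∧
      ∀ (f : An D) (M : ℝ), 0 ≤ M → (∀ z ∈ K, ‖(f : ℂ → ℂ) z‖ ≤ M) →
        ‖(f : ℂ → ℂ) z₀‖ ≤ Real.exp (θ * t) * M + Real.exp (-((1 - θ) * t)) * ‖ν f‖ := by
  have : CompactSpace K := isCompact_iff_compactSpace.1 hK
  let A : An D →ₗ[ℂ] C(K, ℂ) :=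
    { toFun := fun f => ⟨K.domRestrict (f : ℂ → ℂ), (f.2.mono hKD).continuousOn.domRestrict⟩
      map_add' := fun f g => rfl
      map_smul' := fun c f => rfl }
  let B : Hinf D →ₗ[ℂ] (D →ᵇ ℂ) :=
    { toFun := fun f => ⟨⟨D.domRestrict (f : ℂ → ℂ), f.2.1.continuousOn.domRestrict⟩, by
        obtain ⟨M, hM⟩ := f.2.2
        exact ⟨M + M, fun x y => (dist_le_norm_add_norm _ _).trans
          (add_le_add (hM x x.2) (hM y y.2))⟩⟩
      map_add' := fun f g => rfl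
      map_smul' := fun c f => rfl }
  let ev : An D →ₗ[ℂ] ℂ := LinearMap.proj z₀ ∘ₗ (An D).subtype
  let I : Hinf D →ₗ[ℂ] An D := Submodule.inclusion fun f hf => hf.1
  let T : Hinf D →ₗ[ℂ] C(K, ℂ) × (D →ᵇ ℂ) := (A ∘ₗ I).prod (((Real.exp (-t) : ℝ) : ℂ) • B)
  have hA : ∀ (f : An D) (M : ℝ), 0 ≤ M → (∀ z ∈ K, ‖(f : ℂ → ℂ) z‖ ≤ M) → ‖A f‖ ≤ M :=
    fun f M hM hf => (ContinuousMap.norm_le _ hM).2 fun z => hf z z.2
  have hT : ∀ x : Hinf D, ‖(ev ∘ₗ I) x‖ ≤ Real.exp (t * θ) * ‖T x‖ := by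
    intro x
    have a1 : ∀ z ∈ K, ‖(x : ℂ → ℂ) z‖ ≤ ‖T x‖ := fun z hz =>
      ((A (I x)).norm_coe_le_norm ⟨z, hz⟩).trans (norm_fst_le (T x))
    have a2 : ∀ z ∈ D, ‖(x : ℂ → ℂ) z‖ ≤ Real.exp t * ‖T x‖ := fun z hz => by
      have b1 : ‖((Real.exp (-t) : ℝ) : ℂ) • B x‖ ≤ ‖T x‖ := norm_snd_le (T x)
      rw [norm_smul, Complex.norm_real, Real.norm_eq_abs, Real.abs_exp] at b1
      calc _ ≤ ‖B x‖ := (B x).norm_coe_le_norm ⟨z, hz⟩
        _ = Real.exp t * (Real.exp (-t) * ‖B x‖) := by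
            rw [← mul_assoc, ← Real.exp_add]; simp
        _ ≤ _ := by gcongr
    change ‖(x : ℂ → ℂ) z₀‖ ≤ _
    rcases (norm_nonneg (T x)).eq_or_lt with h0 | h0
    · have := a2 z₀ hz₀
      rw [← h0, mul_zero] at this ⊢
      exact this
    · have hn : ∀ z, ‖(x : ℂ → ℂ) z / (‖T x‖ : ℝ)‖ = ‖(x : ℂ → ℂ) z‖ / ‖T x‖ :=
        fun z => by rw [norm_div, Complex.norm_real, norm_norm]
      have := h (fun z => (x : ℂ → ℂ) z / (‖T x‖ : ℝ)) x.2.1.div_const
        (fun w hw => by rw [hn, div_le_iff₀ h0]; exact a2 w hw)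
        (fun w hw => by rw [hn, div_le_one h0]; exact a1 w hw)
      rwa [hn, div_le_iff₀ h0] at this
  obtain ⟨g, hg, hgT⟩ := factor (X := Hinf D) (E := C(K, ℂ) × (D →ᵇ ℂ)) T (ev ∘ₗ I)
    (Real.exp_pos _).le hT
  let μ : An D →ₗ[ℂ] ℂ := (g : C(K, ℂ) × (D →ᵇ ℂ) →ₗ[ℂ] ℂ) ∘ₗ LinearMap.inl ℂ _ _ ∘ₗ A
  have hμ : ∀ (f : An D) (M : ℝ), 0 ≤ M → (∀ z ∈ K, ‖(f : ℂ → ℂ) z‖ ≤ M) →
      ‖μ f‖ ≤ Real.exp (t * θ) * M := fun f M hM hf => by
    refine (g.le_opNorm (A f, 0)).trans ?_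
    rw [Prod.norm_mk, norm_zero, max_eq_left (norm_nonneg _)]
    gcongr
    exact hA f M hM hf
  have hn : ∀ f : An D, ‖(((Real.exp ((1 - θ) * t) : ℝ) : ℂ) • (ev - μ)) f‖ =
      Real.exp ((1 - θ) * t) * ‖(f : ℂ → ℂ) z₀ - μ f‖ := fun f => by
    rw [LinearMap.smul_apply, norm_smul, Complex.norm_real, Real.norm_eq_abs, Real.abs_exp]
    rfl
  refine ⟨((Real.exp ((1 - θ) * t) : ℝ) : ℂ) • (ev - μ), fun f M hf hM => ?_,
    ⟨Real.exp ((1 - θ) * t) * (1 + Real.exp (t * θ)), fun f M hM hf => ?_⟩, fun f M hM hf => ?_⟩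
  · have e : (f : ℂ → ℂ) z₀ - μ f = g (0, ((Real.exp (-t) : ℝ) : ℂ) • B ⟨f, f.2, M, hf⟩) := by
      have e1 : g (A f, ((Real.exp (-t) : ℝ) : ℂ) • B ⟨f, f.2, M, hf⟩) = (f : ℂ → ℂ) z₀ :=
        hgT ⟨f, f.2, M, hf⟩
      have e2 : μ f = g (A f, 0) := rfl
      rw [← e1, e2, ← map_sub, Prod.mk_sub_mk, sub_self, sub_zero]
    have b : ‖B ⟨f, f.2, M, hf⟩‖ ≤ M := (BoundedContinuousFunction.norm_le hM).2 fun z => hf z z.2
    rw [hn, e]
    calc _ ≤ Real.exp ((1 - θ) * t) * (Real.exp (t * θ) * (Real.exp (-t) * M)) := by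
          gcongr
          refine (g.le_opNorm _).trans ?_
          rw [Prod.norm_mk, norm_zero, max_eq_right (norm_nonneg _), norm_smul, Complex.norm_real,
            Real.norm_eq_abs, Real.abs_exp]
          gcongr
      _ = M := by
          rw [← mul_assoc, ← mul_assoc, ← Real.exp_add, ← Real.exp_add,
            show (1 - θ) * t + t * θ + -t = 0 by ring, Real.exp_zero, one_mul]
  · rw [hn, mul_assoc, add_mul, one_mul]
    gcongr
    exact (norm_sub_le _ _).trans (add_le_add (hf z₀ (mem_insert _ _))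
      (hμ f M hM fun z hz => hf z (mem_insert_of_mem _ hz)))
  · rw [hn, ← mul_assoc, ← Real.exp_add, neg_add_cancel, Real.exp_zero, one_mul, mul_comm θ]
    linarith [norm_le_norm_add_norm_sub' ((f : ℂ → ℂ) z₀) (μ f), hμ f M hM hf]

lemma app_step {H₀ H₁ : Type} [NormedAddCommGroup H₀] [InnerProductSpace ℂ H₀] [CompleteSpace H₀]
    [NormedAddCommGroup H₁] [InnerProductSpace ℂ H₁] [CompleteSpace H₁] (J : H₁ →L[ℂ] H₀) {α : ℝ}
    (h0 : 0 ≤ α) (h1 : α ≤ 1) (θ : ℝ) (y : H₀) (n : ℕ) :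
    Real.exp (θ * n) * ‖J (app J (n + 1 : ℕ) (scaleOp J α y) - app J n (scaleOp J α y))‖ +
      Real.exp (-((1 - θ) * n)) * ‖app J (n + 1 : ℕ) (scaleOp J α y) - app J n (scaleOp J α y)‖ ≤
        8 * ‖y‖ * Real.exp (-((α - θ) * n)) := by
  set x := scaleOp J α y with hx
  have hn : (0 : ℝ) ≤ n := Nat.cast_nonneg n
  have a1 : ‖J (app J (n + 1 : ℕ) x - app J n x)‖ ≤ 2 * ‖y‖ * Real.exp (-(α * n)) := by
    have e : J (app J (n + 1 : ℕ) x - app J n x) =
        (x - J (app J n x)) - (x - J (app J (n + 1 : ℕ) x)) := by rw [map_sub]; abel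
    have b1 : Real.exp (-(α * (n + 1 : ℕ))) * ‖y‖ ≤ Real.exp (-(α * n)) * ‖y‖ := by
      gcongr; linarith
    rw [e]
    linarith [norm_sub_le (x - J (app J n x)) (x - J (app J (n + 1 : ℕ) x)),
      norm_sub_app J h0 h1 n y, norm_sub_app J h0 h1 (n + 1 : ℕ) y]
  have a2 : ‖app J (n + 1 : ℕ) x - app J n x‖ ≤ 6 * ‖y‖ * Real.exp ((1 - α) * n) := by
    have b1 : Real.exp ((1 - α) * (n + 1 : ℕ)) ≤ 3 * Real.exp ((1 - α) * n) := by
      calc _ ≤ Real.exp (1 + (1 - α) * n) := by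
            rw [Real.exp_le_exp]; push_cast; linarith
        _ ≤ _ := by rw [Real.exp_add]; gcongr; exact Real.exp_one_lt_three.le
    have b2 := mul_le_mul_of_nonneg_right b1 (norm_nonneg y)
    have b3 : 0 ≤ Real.exp ((1 - α) * n) * ‖y‖ := by positivity
    linarith [norm_sub_le (app J (n + 1 : ℕ) x) (app J n x), norm_app J h0 h1 n y,
      norm_app J h0 h1 (n + 1 : ℕ) y]
  have c1 : Real.exp (θ * n) * Real.exp (-(α * n)) = Real.exp (-((α - θ) * n)) := by
    rw [← Real.exp_add]; congr 1; ring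
  have c2 : Real.exp (-((1 - θ) * n)) * Real.exp ((1 - α) * n) = Real.exp (-((α - θ) * n)) := by
    rw [← Real.exp_add]; congr 1; ring
  calc _ ≤ Real.exp (θ * n) * (2 * ‖y‖ * Real.exp (-(α * n))) +
        Real.exp (-((1 - θ) * n)) * (6 * ‖y‖ * Real.exp ((1 - α) * n)) := by gcongr
    _ = _ := by linear_combination (2 * ‖y‖) * c1 + (6 * ‖y‖) * c2

theorem Condenser.sharpAt_of_propS {D K : Set ℂ} {ω : ℂ → ℝ} (h : Condenser D K ω)
    (hS : PropS D K ω) {z₀ : ℂ} (hz₀ : z₀ ∈ D \ K) : SharpAt D K ω z₀ := by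
  by_contra hn
  simp only [SharpAt, not_forall, not_exists, not_and, not_le] at hn
  obtain ⟨ε, hε, hn⟩ := hn
  have hE := h.exh
  have hs0 := h.pos z₀ hz₀
  have hs1 := h.lt_one z₀ hz₀
  have hΦ : ext K ω z₀ = ω z₀ := ext_of_not_mem hz₀.2
  set θ := ω z₀ - ε with hθ
  have hθ0 : 0 < θ := by
    have := hn 1 one_pos (fun _ => 1) analyticOnNhd_const (fun w _ => by simp) (fun w _ => by simp)
    simpa using this
  set δ := ε / 4 with hδ
  have hδ0 : 0 < δ := by positivity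
  have hsplit := fun n : ℕ => exists_split h.compact h.subset hz₀.1 (θ := θ) (t := n)
    (fun f hf h1 h2 => by
      rcases n.eq_zero_or_pos with rfl | h3
      · simpa using h1 z₀ hz₀.1
      · exact (hn n (Nat.cast_pos.2 h3) f hf h1 h2).le)
  choose ν hν1 hν2 hν3 using hsplit
  obtain ⟨H₁, i1, i2, i3, j, hj, hjν⟩ := exists_H1 h.isOpen h.conn.nonempty ν hν1
    (fun n => ⟨_, h.compact.insert z₀, insert_subset hz₀.1 h.subset, hν2 n⟩) hδ0
  obtain ⟨H₀, k1, k2, k3, ι, J, -, hιJ, -, hB⟩ := hS H₁ j hj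
  have hsub : ∀ α, Dlev D K ω α ⊆ D := fun α => union_subset h.subset fun z hz => hz.1.1
  let jK : H₁ → An K := fun d => ⟨j d, (j d).2.mono h.subset⟩
  have hjK : ∀ d, ι (jK d) = J d := fun d => hιJ d _ rfl
  -- the estimate at the point
  obtain ⟨C₁, hC₁⟩ := (hB (δ / 2) ⟨by linarith, by linarith⟩).upper_cont K h.compact
    subset_union_left
  have hpt : ∀ (d : H₁) (n : ℕ), ‖(j d : ℂ → ℂ) z₀‖ ≤ (|C₁| + 1) *
      (Real.exp ((θ + δ) * n) * ‖J d‖ + Real.exp (-((1 - (θ + δ)) * n)) * ‖d‖) := by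
    intro d n
    have hn0 : (0 : ℝ) ≤ n := Nat.cast_nonneg n
    obtain ⟨y, hy, hyb⟩ := exists_preimage J (α := δ / 2) (by linarith) (by linarith) (2 * n) d
    have a1 := hν3 n (j d) (|C₁| * ‖y‖) (by positivity) fun z hz =>
      (hC₁ y (jK d) ((j d).2.mono (hsub _)) (by rw [hjK, hy]) z hz).trans
        (mul_le_mul_of_nonneg_right (le_abs_self _) (norm_nonneg _))
    have c1 : Real.exp (θ * n) * Real.exp (δ / 2 * (2 * n)) = Real.exp ((θ + δ) * n) := by
      rw [← Real.exp_add]; congr 1; ring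
    have c2 : Real.exp (θ * n) * Real.exp (-((1 - δ / 2) * (2 * n))) ≤
        Real.exp (-((1 - (θ + δ)) * n)) := by
      rw [← Real.exp_add, Real.exp_le_exp]; nlinarith
    have c3 : Real.exp (-((1 - θ) * n)) * Real.exp (δ * n) = Real.exp (-((1 - (θ + δ)) * n)) := by
      rw [← Real.exp_add]; congr 1; ring
    calc _ ≤ _ := a1
      _ ≤ Real.exp (θ * n) * (|C₁| * (Real.exp (δ / 2 * (2 * n)) * ‖J d‖ +
          Real.exp (-((1 - δ / 2) * (2 * n))) * ‖d‖)) +
          Real.exp (-((1 - θ) * n)) * (Real.exp (δ * n) * ‖d‖) := by gcongr; exact hjν d n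
      _ = |C₁| * (Real.exp (θ * n) * Real.exp (δ / 2 * (2 * n)) * ‖J d‖ +
          Real.exp (θ * n) * Real.exp (-((1 - δ / 2) * (2 * n))) * ‖d‖) +
          Real.exp (-((1 - θ) * n)) * Real.exp (δ * n) * ‖d‖ := by ring
      _ ≤ |C₁| * (Real.exp ((θ + δ) * n) * ‖J d‖ + Real.exp (-((1 - (θ + δ)) * n)) * ‖d‖) +
          (Real.exp ((θ + δ) * n) * ‖J d‖ + Real.exp (-((1 - (θ + δ)) * n)) * ‖d‖) := by
            rw [c1, c3]
            gcongr
            exact le_add_of_nonneg_left (by positivity)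
      _ = _ := by ring
  set γ := (ω z₀ + 2) / 3 with hγ
  set γ' := (2 * ω z₀ + 1) / 3 with hγ'
  obtain ⟨C₀, hC₀⟩ := hj.cont {z₀} isCompact_singleton (by simpa using hz₀.1)
  obtain ⟨C₂, hC₂⟩ := (hB γ' ⟨by linarith, by linarith⟩).upper_cont {z₀} isCompact_singleton
    (singleton_subset_iff.2 (Or.inr ⟨hz₀, by linarith⟩))
  obtain ⟨L, -, hLV, C₃, hC₃⟩ := (hB (θ + 2 * δ) ⟨by linarith, by linarith⟩).lower
    {z | z ∈ D ∧ ext K ω z < θ + 3 * δ} (hE.isOpen_lt _) (by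
      rw [h.dlev_eq (by linarith), h.closure_lev (by linarith) (by linarith)]
      exact fun z hz => ⟨hz.1, by linarith [hz.2]⟩)
  have hr : 0 < 1 - Real.exp (-δ) := by
    have := Real.exp_lt_one_iff.2 (show -δ < 0 by linarith); linarith
  have key : ∀ F : ℂ → ℂ, AnalyticOnNhd ℂ F {z | z ∈ D ∧ ext K ω z ≤ γ} → ∀ M : ℝ, 0 ≤ M →
      (∀ z ∈ D, ext K ω z < θ + 3 * δ → ‖F z‖ ≤ M) →
      ‖F z₀‖ ≤ (|C₀| + (|C₁| + 1) * 8 / (1 - Real.exp (-δ))) * |C₃| * M := by
    intro F hF M hM hFM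
    let FK : An K := ⟨F, hF.mono fun z hz => ⟨h.subset hz, by rw [ext_of_mem hz]; linarith⟩⟩
    obtain ⟨y, hy, hyb⟩ := hC₃ FK (hF.mono fun z hz => ⟨hz.1, by linarith [hz.2]⟩) M hM
      fun z hz => hFM z (hLV hz).1 (hLV hz).2
    obtain ⟨L', hL', hL'V, C₄, hC₄⟩ := (hB γ ⟨by linarith, by linarith⟩).lower
      {z | AnalyticAt ℂ F z} (isOpen_analyticAt ℂ F) (by
        rw [h.dlev_eq (by linarith), h.closure_lev (by linarith) (by linarith)]
        exact hF)
    obtain ⟨M', hM'⟩ := hL'.exists_bound_of_continuousOn (f := F)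
      fun z hz => (hL'V hz).continuousAt.continuousWithinAt
    obtain ⟨y', hy', -⟩ := hC₄ FK (fun z hz => hz) |M'| (abs_nonneg _)
      fun z hz => (hM' z hz).trans (le_abs_self _)
    have hlim : Tendsto (fun n : ℕ => (j (app J n (ι FK)) : ℂ → ℂ) z₀) atTop (𝓝 (F z₀)) := by
      rw [tendsto_iff_norm_sub_tendsto_zero]
      refine squeeze_zero (fun _ => norm_nonneg _) (fun n => ?_)
        (tendsto_exp_neg_mul (p := γ - γ') (by linarith) (|C₂| * ‖y'‖))
      obtain ⟨w, hw, hwb⟩ := sub_app_eq J (γ := γ) (γ' := γ') (by linarith) (by linarith)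
        (by linarith) n y'
      rw [hy'] at hw
      have := hC₂ w (FK - jK (app J n (ι FK))) ((hF.mono (by
        rw [h.dlev_eq (by linarith)]
        exact fun z hz => ⟨hz.1, by linarith [hz.2]⟩)).sub ((j _).2.mono (hsub _)))
        (by rw [map_sub, hjK, hw]) z₀ rfl
      rw [norm_sub_rev]
      calc _ ≤ C₂ * ‖w‖ := this
        _ ≤ |C₂| * (Real.exp (-((γ - γ') * n)) * ‖y'‖) := by gcongr; exact le_abs_self _
        _ = _ := by ring
    have b1 := norm_le_of_geometric (K := (|C₁| + 1) * 8 * ‖y‖) hδ0 (fun n => by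
      have := hpt (app J (n + 1 : ℕ) (ι FK) - app J n (ι FK)) n
      rw [map_sub] at this
      refine this.trans ?_
      rw [← hy]
      calc _ ≤ (|C₁| + 1) * (8 * ‖y‖ * Real.exp (-((θ + 2 * δ - (θ + δ)) * n))) := by
            gcongr; exact app_step J (by linarith) (by linarith) _ y n
        _ = _ := by rw [show θ + 2 * δ - (θ + δ) = δ by ring]; ring) hlim
    have b2 := norm_app J (α := θ + 2 * δ) (by linarith) (by linarith) (0 : ℕ) y
    rw [hy, Nat.cast_zero, mul_zero, Real.exp_zero, one_mul] at b2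
    have b3 := hC₀ (app J (0 : ℕ) (ι FK)) z₀ rfl
    rw [Nat.cast_zero] at b3 b1
    calc _ ≤ _ := b1
      _ ≤ |C₀| * ‖y‖ + (|C₁| + 1) * 8 * ‖y‖ / (1 - Real.exp (-δ)) := by
          gcongr; exact b3.trans (by gcongr; exact le_abs_self _)
      _ = (|C₀| + (|C₁| + 1) * 8 / (1 - Real.exp (-δ))) * ‖y‖ := by ring
      _ ≤ (|C₀| + (|C₁| + 1) * 8 / (1 - Real.exp (-δ))) * (|C₃| * M) := by
          gcongr; exact hyb.trans (by gcongr; exact le_abs_self _)
      _ = _ := by ring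
  obtain ⟨t, ht, F, hF, hFb, hFz⟩ := hE.extremal (γ := γ) (η := δ / 4) (by linarith) (by linarith)
    hz₀.1 (by linarith) (by linarith)
  obtain ⟨m, hm, hmC⟩ := exists_nat_exp_ge ht (η := δ / 4) (by linarith)
    ((|C₀| + (|C₁| + 1) * 8 / (1 - Real.exp (-δ))) * |C₃|)
  have hmt : 0 < m * t := by positivity
  have b1 := key (fun z => F z ^ m) (hF.fun_pow m) (Real.exp (m * (t * (θ + 3 * δ + δ / 4))))
    (Real.exp_pos _).le fun z hz hzα => by
      rw [norm_pow, Real.exp_nat_mul]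
      gcongr
      exact (hFb z hz (by linarith)).trans (by gcongr)
  have b2 : Real.exp (m * (t * (ext K ω z₀ - δ / 4))) ≤ ‖F z₀ ^ m‖ := by
    rw [norm_pow, Real.exp_nat_mul]
    gcongr
  have b3 := b2.trans (b1.trans (mul_le_mul_of_nonneg_right hmC (Real.exp_pos _).le))
  rw [← Real.exp_add, Real.exp_le_exp, hΦ] at b3
  nlinarith

end Pool.Agent.MP_13a571_an

end MrgPart1

-- ======== part 2: formerly Pool.Agent.MP_13a571_an.Backward
section MrgPart2

/-!
Sharpness of the two-constants bound gives property (S).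
-/

open Set Filter Topology Metric

namespace Pool.Agent.MP_13a571_an

lemma Exh.eventually_zero {D : Set ℂ} {Φ : ℂ → ℝ} (h : Exh D Φ) {α : ℝ} (h1 : α < 1) {f : ℂ → ℂ}
    (hf : AnalyticOnNhd ℂ f {z | z ∈ D ∧ Φ z ≤ α}) (hK : ∀ z ∈ D, Φ z = 0 → f z = 0) :
    f =ᶠ[𝓝ˢ {z | z ∈ D ∧ Φ z ≤ α}] 0 := by
  obtain ⟨β, hαβ, hβ, hsub⟩ := h.exists_gt h1 (isOpen_analyticAt ℂ f) hf
  filter_upwards [(h.isOpen_lt β).mem_nhdsSet.2 fun z hz => ⟨hz.1, hz.2.trans_lt hαβ⟩] with z hz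
  exact h.eq_zero hβ.le (fun w hw => hsub ⟨hw.1, hw.2.le⟩) hK z hz.1 hz.2

theorem Condenser.propS_of_sharp {D K : Set ℂ} {ω : ℂ → ℝ} (h : Condenser D K ω)
    (hS : ∀ z ∈ D, 0 < ext K ω z → Sharp D (ext K ω) univ z) : PropS D K ω := by
  intro H₁ _ _ _ j hj
  have hE := h.exh
  set Φ := ext K ω with hΦ
  obtain ⟨H₀, i1, i2, i3, ι, hdense, ⟨B, hB0, hB⟩, hcont⟩ := exists_H0 h.compact h.nonempty
  let I : An D →ₗ[ℂ] An K := Submodule.inclusion fun f hf => AnalyticOnNhd.mono hf h.subset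
  obtain ⟨J, hJ⟩ : ∃ J : H₁ →L[ℂ] H₀, ∀ x, J x = ι (I (j x)) := by
    obtain ⟨L, hL, hLD, C, hC0, hC⟩ := hcont D h.isOpen h.subset
    obtain ⟨C', hC'⟩ := hj.cont L hL hLD
    refine ⟨(ι ∘ₗ I ∘ₗ j).mkContinuous (C * |C'|) fun x => ?_, fun x => rfl⟩
    rw [mul_assoc]
    exact hC (I (j x)) (j x).2 _ (by positivity) fun z hz => (hC' x z hz).trans
      (mul_le_mul_of_nonneg_right (le_abs_self _) (norm_nonneg _))
  have hKΦ : ∀ {β : ℝ}, 0 < β → K ⊆ {z | z ∈ D ∧ Φ z < β} := fun hβ z hz =>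
    ⟨h.subset hz, by rw [hΦ, ext_of_mem hz]; exact hβ⟩
  have hK0 : {z | z ∈ D ∧ Φ z ≤ 0} = K := by
    ext z
    exact ⟨fun hz => (h.ext_eq_zero_iff hz.1).1 (le_antisymm hz.2 (hE.nonneg z hz.1)),
      fun hz => ⟨h.subset hz, (ext_of_mem hz).le⟩⟩
  have hzero : ∀ f : An K, ι f = 0 → ∀ z ∈ D, Φ z = 0 → (f : ℂ → ℂ) z = 0 := fun f hf z hz h0 => by
    have := hB f z ((h.ext_eq_zero_iff hz).1 h0)
    rwa [hf, norm_zero, mul_zero, norm_le_zero_iff] at this
  have happ : ∀ β α : ℝ, 0 < β → β < α → α < 1 → ∀ V, IsOpen V → {z | z ∈ D ∧ Φ z ≤ α} ⊆ V →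
      ∃ L, IsCompact L ∧ L ⊆ V ∧ ∃ C : ℝ, 0 ≤ C ∧ ∀ F : An K, AnalyticOnNhd ℂ (F : ℂ → ℂ) V →
        ∀ M : ℝ, 0 ≤ M → (∀ z ∈ L, ‖(F : ℂ → ℂ) z‖ ≤ M) → ∀ n : ℕ, ∃ x : H₁,
          ‖ι F - J x‖ ≤ C * M * Real.exp (-((α - β) * n)) ∧
            ‖x‖ ≤ C * M * Real.exp ((1 - α) * n) := by
    intro β α hβ hβα hα V hV hsub
    obtain ⟨L, hL, hLV, -, C₂, hC₂0, hC₂⟩ := approx hE hS (by linarith) hα hV hsub
    obtain ⟨C₃, hC₃⟩ := hj.hinf
    obtain ⟨L', -, hL', C₄, hC₄0, hC₄⟩ := hcont _ (hE.isOpen_lt β) (hKΦ hβ)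
    refine ⟨L, hL, hLV, (|C₃| + C₄) * C₂, by positivity, fun F hF M hM hFM n => ?_⟩
    obtain ⟨g, hg, hgb, hge⟩ := hC₂ F hF M hM hFM n (Nat.cast_nonneg n)
    obtain ⟨x, hx, hxb⟩ := hC₃ g hg _ (by positivity) hgb
    refine ⟨x, ?_, hxb.trans ?_⟩
    · rw [hJ, ← map_sub]
      refine (hC₄ _ ((hF.mono fun z hz => hsub ⟨hz.1, by linarith [hz.2]⟩).sub
        ((j x).2.mono fun z hz => hz.1)) (C₂ * M * Real.exp (-((α - β) * n))) (by positivity)
        fun z hz => ?_).trans ?_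
      · have h1 := hL' hz
        change ‖(F : ℂ → ℂ) z - (j x : ℂ → ℂ) z‖ ≤ _
        rw [hx h1.1]
        refine (hge z h1.1 (by linarith [h1.2])).trans ?_
        rw [← neg_mul]
        gcongr
        linarith [h1.2]
      · rw [← mul_assoc, ← mul_assoc]
        gcongr
        linarith [abs_nonneg C₃]
    · rw [← mul_assoc, ← mul_assoc]
      gcongr
      linarith [le_abs_self C₃]
  refine ⟨H₀, i1, i2, i3, ι, J, ⟨fun f hf => ?_, fun V hV hKV => ?_⟩, fun x f hf => ?_, ?_, ?_⟩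
  · have := hE.eventually_zero (α := 0) one_pos (f := f) (by rw [hK0]; exact f.2) (hzero f hf)
    rwa [hK0] at this
  · obtain ⟨L, hL, hLV, C, -, hC⟩ := hcont V hV hKV
    exact ⟨L, hL, hLV, C, hC⟩
  · rw [hJ]; congr 1; exact Subtype.ext hf
  · refine (Dense.mono ?_ hdense).of_closure
    rintro _ ⟨F, rfl⟩
    obtain ⟨α, hα0, hα1, hsub⟩ := hE.exists_gt (α := 0) one_pos
      (isOpen_analyticAt ℂ (F : ℂ → ℂ)) (by rw [hK0]; exact F.2)
    obtain ⟨L, hL, hLV, C, -, hC⟩ := happ (α / 2) α (by linarith) (by linarith) hα1 _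
      (isOpen_analyticAt ℂ (F : ℂ → ℂ)) hsub
    obtain ⟨M, hM⟩ := hL.exists_bound_of_continuousOn (f := (F : ℂ → ℂ))
      fun z hz => (hLV hz).continuousAt.continuousWithinAt
    choose x hx _ using hC F (fun z hz => hz) |M| (abs_nonneg _)
      fun z hz => (hM z hz).trans (le_abs_self _)
    refine mem_closure_of_tendsto (f := fun n => J (x n)) (b := atTop) ?_
      (Eventually.of_forall fun n => ⟨_, rfl⟩)
    rw [tendsto_iff_norm_sub_tendsto_zero]
    exact squeeze_zero (fun _ => norm_nonneg _) (fun n => by rw [norm_sub_rev]; exact hx n)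
      (tendsto_exp_neg_mul (by linarith) _)
  rintro α ⟨hα0, hα1⟩
  rw [h.dlev_eq hα0]
  set a : H₀ → ℕ → H₁ := fun y n => app J n (scaleOp J α y) with ha
  set G : H₀ → ℂ → ℂ := fun y z => limUnder atTop fun n => (j (a y n) : ℂ → ℂ) z with hG
  have hup : ∀ β, 0 < β → β < α → ∃ C κ : ℝ, 0 ≤ C ∧ 0 < κ ∧ ∀ y, ∀ z ∈ D, Φ z < β →
      ‖G y z‖ ≤ C * ‖y‖ ∧ ∀ n : ℕ,
        ‖(j (a y n) : ℂ → ℂ) z - G y z‖ ≤ C * ‖y‖ * Real.exp (-(κ * n)) := by
    intro β hβ hβα
    set θ := (α + β) / 2 with hθ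
    have hθ0 : 0 < θ := by linarith
    have hγ1 : β / θ < 1 := (div_lt_one hθ0).2 (by linarith)
    have hβγ : β < β / θ := by rw [lt_div_iff₀ hθ0]; nlinarith
    obtain ⟨C, hC⟩ := hj.cont _ (hE.cpt _ hγ1) fun z hz => hz.1
    have hr1 : Real.exp (-(α - θ)) < 1 := Real.exp_lt_one_iff.2 (by linarith)
    have hr : 0 < 1 - Real.exp (-(α - θ)) := by linarith
    refine ⟨|C| + (B + |C|) * 8 / (1 - Real.exp (-(α - θ))), α - θ, by positivity, by linarith,
      fun y z hz hzβ => ?_⟩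
    have hstep : ∀ n : ℕ, dist ((j (a y n) : ℂ → ℂ) z) ((j (a y (n + 1)) : ℂ → ℂ) z) ≤
        (B + |C|) * 8 * ‖y‖ * Real.exp (-(α - θ)) ^ n := by
      intro n
      have h1 := hE.two_const_add (γ := β / θ) (by positivity) hγ1.le
        (f := j (a y (n + 1) - a y n)) ((j _).2.mono fun w hw => hw.1)
        (A := B * ‖J (a y (n + 1) - a y n)‖) (B := |C| * ‖a y (n + 1) - a y n‖) (t := n) (θ := θ)
        (Nat.cast_nonneg n) (by positivity) (by positivity)
        (fun w hw h0 => by rw [hJ]; exact hB (I (j _)) w ((h.ext_eq_zero_iff hw).1 h0))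
        (fun w hw h0 => (hC _ w ⟨hw, h0.le⟩).trans
          (mul_le_mul_of_nonneg_right (le_abs_self _) (norm_nonneg _))) hz (by linarith)
        (by rw [mul_div_cancel₀ _ hθ0.ne']; exact hzβ.le)
      have h2 := app_step J hα0.le hα1.le θ y n
      rw [map_sub] at h1
      rw [dist_comm, dist_eq_norm, ← Real.exp_nat_mul]
      calc _ ≤ _ := h1
        _ ≤ Real.exp (θ * n) * ((B + |C|) * ‖J (a y (n + 1) - a y n)‖) +
            Real.exp (-((1 - θ) * n)) * ((B + |C|) * ‖a y (n + 1) - a y n‖) := by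
              gcongr <;> linarith [abs_nonneg C]
        _ = (B + |C|) * (Real.exp (θ * n) * ‖J (a y (n + 1) - a y n)‖ +
            Real.exp (-((1 - θ) * n)) * ‖a y (n + 1) - a y n‖) := by ring
        _ ≤ (B + |C|) * (8 * ‖y‖ * Real.exp (-((α - θ) * n))) := by gcongr
        _ = _ := by rw [mul_comm (n : ℝ), neg_mul]; ring
    have hlim := (cauchySeq_of_le_geometric _ _ hr1 hstep).tendsto_limUnder
    have hd : ∀ n : ℕ, ‖(j (a y n) : ℂ → ℂ) z - G y z‖ ≤
        (B + |C|) * 8 / (1 - Real.exp (-(α - θ))) * ‖y‖ * Real.exp (-((α - θ) * n)) := by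
      intro n
      have := dist_le_of_le_geometric_of_tendsto _ _ hr1 hstep hlim n
      rw [dist_eq_norm, ← Real.exp_nat_mul, mul_comm (n : ℝ), neg_mul] at this
      exact this.trans (le_of_eq (by ring))
    refine ⟨?_, fun n => (hd n).trans (by gcongr; linarith [abs_nonneg C])⟩
    have b1 := hd 0
    have b2 : ‖a y 0‖ ≤ ‖y‖ := by simpa [ha] using norm_app J hα0.le hα1.le (0 : ℕ) y
    have b3 : ‖(j (a y 0) : ℂ → ℂ) z‖ ≤ |C| * ‖y‖ :=
      (hC (a y 0) z ⟨hz, by linarith⟩).trans (by gcongr; exact le_abs_self _)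
    rw [Nat.cast_zero, mul_zero, neg_zero, Real.exp_zero, mul_one] at b1
    linarith [norm_le_norm_add_norm_sub ((j (a y 0) : ℂ → ℂ) z) (G y z)]
  have hGa : ∀ y, AnalyticOnNhd ℂ (G y) {z | z ∈ D ∧ Φ z < α} := by
    intro y z hz
    obtain ⟨C, κ, -, hκ, hC⟩ := hup ((Φ z + α) / 2) (by linarith [hE.nonneg z hz.1])
      (by linarith [hz.2])
    have hu : TendstoUniformlyOn (fun n => (j (a y n) : ℂ → ℂ)) (G y) atTop
        {w | w ∈ D ∧ Φ w < (Φ z + α) / 2} := by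
      rw [Metric.tendstoUniformlyOn_iff]
      intro ε hε
      filter_upwards [(tendsto_exp_neg_mul hκ (C * ‖y‖)).eventually (gt_mem_nhds hε)] with n hn w hw
      rw [dist_comm, dist_eq_norm]
      exact ((hC y w hw.1 hw.2).2 n).trans_lt hn
    exact (hu.tendstoLocallyUniformlyOn.differentiableOn (Eventually.of_forall fun n =>
      ((j _).2.mono fun w hw => hw.1).differentiableOn) (hE.isOpen_lt _)).analyticAt
      ((hE.isOpen_lt _).mem_nhds ⟨hz.1, by linarith [hz.2]⟩)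
  have hGι : ∀ y, ι ⟨G y, (hGa y).mono (hKΦ hα0)⟩ = scaleOp J α y := by
    intro y
    obtain ⟨L, hL, hLU, C, hC0, hC⟩ := hcont _ (hE.isOpen_lt α) (hKΦ hα0)
    obtain ⟨β, hβ0, hβα, hβ⟩ := hE.exists_lt_one hL (fun z hz => (hLU hz).1)
      (fun z hz => (hLU hz).2) hα0
    obtain ⟨C', κ, hC'0, hκ, hC'⟩ := hup β hβ0 hβα
    refine tendsto_nhds_unique (f := fun n => J (a y n)) (l := atTop) ?_ ?_
    · rw [tendsto_iff_norm_sub_tendsto_zero]
      refine squeeze_zero (fun _ => norm_nonneg _) (fun n => ?_)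
        (tendsto_exp_neg_mul hκ (C * (C' * ‖y‖)))
      rw [hJ, ← map_sub, mul_assoc]
      exact hC _ (((j _).2.mono fun w hw => hw.1).sub (hGa y)) _ (by positivity)
        fun z hz => (hC' y z (hLU hz).1 (hβ z hz)).2 n
    · rw [tendsto_iff_norm_sub_tendsto_zero]
      refine squeeze_zero (fun _ => norm_nonneg _) (fun n => ?_) (tendsto_exp_neg_mul hα0 ‖y‖)
      rw [norm_sub_rev, mul_comm]
      exact norm_sub_app J hα0.le hα1.le n y
  refine ⟨fun f hf h0 => ?_, fun V hV hsub => ?_, fun y => ⟨_, hGa y, hGι y⟩, fun L hL hLU => ?_⟩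
  · rw [h.closure_lev hα0 hα1] at hf ⊢
    exact hE.eventually_zero hα1 hf (hzero f h0)
  · rw [h.closure_lev hα0 hα1] at hsub
    obtain ⟨α', hαα', hα', hsub'⟩ := hE.exists_gt hα1 hV hsub
    obtain ⟨L, hL, hLV, C, hC0, hC⟩ := happ ((α' - α) / 2) α' (by linarith) (by linarith) hα' V hV
      hsub'
    obtain ⟨C', hC'⟩ := mem_of_approx J hα0.le hα1.le (p := α' - (α' - α) / 2) (q := 1 - α')
      (by linarith) (by linarith) (by nlinarith)
    refine ⟨L, hL, hLV, C' * C, fun f hf M hM hfM => ?_⟩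
    rw [mul_assoc]
    exact hC' _ _ (by positivity) (hC f hf M hM hfM)
  · obtain ⟨β, hβ0, hβα, hβ⟩ := hE.exists_lt_one hL (fun z hz => (hLU hz).1)
      (fun z hz => (hLU hz).2) hα0
    obtain ⟨C, κ, -, -, hC⟩ := hup β hβ0 hβα
    refine ⟨C, fun y g hg hgy z hz => ?_⟩
    have h1 := hE.eq_zero hα1.le (hg.sub (hGa y))
      (hzero (g - ⟨G y, (hGa y).mono (hKΦ hα0)⟩) (by rw [map_sub, hgy, hGι, sub_self])) z
      (hLU hz).1 (hLU hz).2
    rw [sub_eq_zero.1 h1]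
    exact (hC y z (hLU hz).1 (hβ z hz)).1

end Pool.Agent.MP_13a571_an

end MrgPart2

-- ======== part 3: formerly Pool.Agent.MP_13a571_an.Main
section MrgPart3

/-!
The characterizations of property (S).
-/

open Set Filter Topology

namespace Pool.Agent.MP_13a571_an

variable {D K : Set ℂ} {ω : ℂ → ℝ}

lemma Condenser.sharpAt_iff (h : Condenser D K ω) {z : ℂ} (hz : z ∈ D \ K) :
    SharpAt D K ω z ↔ Sharp D (ext K ω) univ z := by
  refine forall₂_congr fun ε _ => ⟨?_, ?_⟩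
  · rintro ⟨t, ht, f, hf, h1, h2, h3⟩
    refine ⟨t, mem_univ _, ht, f, h.exh.cls hf ht.le
      (fun w hw h0 => h2 w ((h.ext_eq_zero_iff hw).1 h0)) h1, ?_⟩
    rwa [ext_of_not_mem hz.2]
  · rintro ⟨t, -, ht, f, hf, h3⟩
    refine ⟨t, ht, f, hf.1, fun w hw => (hf.2 w hw).trans ?_, fun w hw => ?_, ?_⟩
    · rw [Real.exp_le_exp]; nlinarith [h.exh.lt_one w hw]
    · simpa [ext_of_mem hw] using hf.2 w (h.subset hw)
    · rwa [ext_of_not_mem hz.2] at h3

lemma Condenser.pos_iff (h : Condenser D K ω) {z : ℂ} (hz : z ∈ D) : 0 < ext K ω z ↔ z ∉ K := by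
  rw [← h.ext_eq_zero_iff hz]
  exact ⟨fun h1 => h1.ne', fun h1 => (h.exh.nonneg z hz).lt_of_ne' h1⟩

lemma Condenser.sharp_of_exists (h : Condenser D K ω) {z : ℂ} (hz : z ∈ D \ K)
    (hs : SharpAt D K ω z) : ∀ w ∈ D, 0 < ext K ω w → Sharp D (ext K ω) univ w :=
  fun w hw h0 => Sharp.spread h.isOpen h.isOpen_diff h.conn_diff.isPreconnected sdiff_subset
    (fun y hy => h.exh.harm y hy.1 ((h.pos_iff hy.1).2 hy.2)) hz ((h.sharpAt_iff hz).1 hs) w
    ⟨hw, (h.pos_iff hw).1 h0⟩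

theorem Condenser.propS_iff (h : Condenser D K ω) :
    PropS D K ω ↔ ∀ w ∈ D, 0 < ext K ω w → Sharp D (ext K ω) univ w := by
  refine ⟨fun hS => ?_, h.propS_of_sharp⟩
  obtain ⟨z, hz⟩ := h.conn_diff.nonempty
  exact h.sharp_of_exists hz (h.sharpAt_of_propS hS hz)

theorem Condenser.propS_iff_green (h : Condenser D K ω) {a : ℂ} {H : ℂ → ℝ} (hG : IsGreen D a H) :
    PropS D K ω ↔ Sharp D (fun z => -H z) (range Nat.cast) a := by
  have hc := h.conn.isPreconnected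
  rw [h.propS_iff]
  exact ⟨fun hS => hG.sharp_of_exh h.isOpen hc fun T hT =>
      h.exh.transfer (hG.exh h.isOpen hc hT) hS,
    fun hS => (hG.exh h.isOpen hc one_pos).transfer h.exh (hG.sharp_exh h.isOpen hc hS)⟩

end Pool.Agent.MP_13a571_an

end MrgPart3

-- ======== part 4: formerly Pool.Agent.MP_13a571_an.Suff
section MrgPart4

/-!
The capacity criterion is sufficient.
-/

open Set Filter Topology Metric Bornology

namespace Pool.Agent.MP_13a571_an

theorem sufficient {E : Set ℂ} (hE : IsCompact E) {κ L : ℝ} (hκ : logCap E = Real.exp κ)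
    (hL : 0 < L) (h : ∀ b < logCap E, ∀ᶠ r in 𝓝[>] (0 : ℝ), b < logCap (thick E r (r ^ L)))
    {η : ℝ} (hη : 0 < η) : ∃ (n : ℕ) (S : Finset (Fin n)) (ψ : Fin n → ℂ → ℂ), S.Nonempty ∧
      (∀ j, AnalyticOnNhd ℂ (ψ j) Eᶜ ∧ Tendsto (fun w => w * ψ j w) (cocompact ℂ) (𝓝 1)) ∧
      ∀ w ∉ E, ∏ j ∈ S, ‖ψ j w‖ ≤ Real.exp ((η - κ) * S.card) := by
  classical
  obtain ⟨A, hA0, hA⟩ := exists_diam hE.isBounded
  set ε := η / (16 * L) with hε
  have hε0 : 0 < ε := by positivity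
  set θ := min (1 / 2) (η / (8 * (A + |κ| + 1))) with hθ
  have hθ0 : 0 < θ := lt_min (by norm_num) (by positivity)
  have hθ1 : θ ≤ 1 / 2 := min_le_left _ _
  have hθ2 : θ * (A + |κ|) ≤ η / 8 := by
    have : θ * (8 * (A + |κ| + 1)) ≤ η := (le_div_iff₀ (by positivity)).1 (min_le_right _ _)
    linarith
  set δ := min (θ * ε / 6) (η / 12) with hδ
  have hδ0 : 0 < δ := lt_min (by positivity) (by positivity)
  have hδ1 : δ ≤ θ * ε / 6 := min_le_left _ _
  have hδ2 : δ ≤ η / 12 := min_le_right _ _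
  have ht : Tendsto (fun n : ℕ => Real.exp (-(2 * ε * n))) atTop (𝓝[>] 0) :=
    tendsto_nhdsWithin_iff.2 ⟨Real.tendsto_exp_neg_atTop_nhds_zero.comp
      (tendsto_natCast_atTop_atTop.const_mul_atTop (by positivity)),
      Eventually.of_forall fun n => Real.exp_pos _⟩
  obtain ⟨n, ⟨⟨⟨⟨⟨e1, e2⟩, e3⟩, e4⟩, e5⟩, e6⟩, e7⟩ := (((((((ht.eventually (h (Real.exp (κ - δ))
    (by rw [hκ]; gcongr; linarith))).and (energy_ev hE (s := κ + δ) (by rw [hκ]; gcongr; linarith)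
    hε0)).and (ev_exp (c := 1 / 10) (by norm_num) hε0)).and
    (ev_exp (c := δ / 136) (by positivity) hε0)).and (ev_const κ hδ0)).and
    (ev_log (Real.log 2 + |κ|) 1 hδ0)).and (eventually_gt_atTop 0)).exists
  have hn : (1 : ℝ) ≤ n := by exact_mod_cast e7
  set σ := Real.exp (-(ε * n)) with hσ
  set r := Real.exp (-(2 * ε * n)) with hr
  have hσ0 : 0 < σ := Real.exp_pos _
  have hrσ : r = σ * σ := by rw [hr, hσ, ← Real.exp_add]; ring_nf
  have hr0 : 0 < r := Real.exp_pos _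
  have hrL : 0 < r ^ L := Real.rpow_pos_of_pos hr0 L
  set F := thick E r (r ^ L) with hF
  have hFE : closure F ⊆ cthickening r E := closure_minimal (thick_subset hrL) isClosed_cthickening
  have hX : IsCompact (closure F) := hE.cthickening.of_isClosed_subset isClosed_closure hFE
  have hcap : Real.exp (κ - δ) ≤ logCap (closure F) :=
    e1.le.trans (logCap_mono subset_closure hX.isBounded)
  have hinf := infinite_of_logCap_pos ((Real.exp_pos _).trans_le hcap)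
  obtain ⟨ζ, hζ, hinj, hmax⟩ := exists_fekete hX continuous_id (w := fun _ => 1) continuous_const
    (fun _ => one_pos) (by simpa using hinf) n
  simp only [id, one_mul] at hinj hmax
  have hrow : ∀ j, Real.exp ((κ - δ) * (n - 1)) ≤ row Finset.univ ζ j (ζ j) := fun j => by
    refine le_trans ?_ (logCap_pow_le_row hinf.nonempty (Finset.mem_univ j) (hmax j))
    rw [Finset.card_univ, Fintype.card_fin, mul_comm, ← Nat.cast_pred e7, Real.exp_nat_mul]
    gcongr
  have hN : (cnt Finset.univ ζ σ : ℝ) ≤ θ * n := by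
    have h1 := (Finset.prod_le_prod (s := Finset.univ) (fun _ _ => Real.exp_nonneg _)
      fun j _ => hrow j).trans (e2 ζ fun j => cthickening_mono (by nlinarith) _ (hFE (hζ j)))
    rw [Finset.prod_const, Finset.card_univ, Fintype.card_fin, ← Real.exp_nat_mul,
      Real.exp_le_exp] at h1
    refine le_of_mul_le_mul_left ?_ (show 0 < ε * n / 2 by positivity)
    nlinarith [mul_le_mul_of_nonneg_left e5 (show (0 : ℝ) ≤ n by positivity),
      mul_le_mul_of_nonneg_right hδ1 (sq_nonneg (n : ℝ)), mul_pos hδ0 (show (0 : ℝ) < n by positivity)]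
  set S := Finset.univ.filter fun j => ∀ i, i ≠ j → σ ≤ ‖ζ j - ζ i‖ with hS
  have hb : ((Finset.univ \ S).card : ℝ) ≤ θ * n := by
    refine le_trans (Nat.cast_le.2 (card_le_cnt Finset.sdiff_subset fun j hj => ?_)) hN
    simpa [hS] using hj
  have hk : (S.card : ℝ) = n - (Finset.univ \ S).card := by
    have := Finset.card_sdiff_add_card_eq_card (Finset.subset_univ S)
    rw [Finset.card_univ, Fintype.card_fin] at this
    rw [eq_sub_iff_add_eq', ← Nat.cast_add, this]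
  set b : ℝ := ((Finset.univ \ S).card : ℝ) with hbdef
  have hb0 : 0 ≤ b := Nat.cast_nonneg _
  have hk0 : (0 : ℝ) < S.card := by nlinarith
  have hne : S.Nonempty := Finset.card_pos.1 (by exact_mod_cast hk0)
  have hrowS : ∀ j ∈ S, Real.exp ((κ - δ) * (n - 1) - A * b) ≤ row S ζ j (ζ j) := fun j hj => by
    have h1 : ∀ i, ζ i ∈ cthickening 1 E := fun i =>
      cthickening_mono (by nlinarith) _ (hFE (hζ i))
    have h2 := (hrow j).trans (row_le_of_subset (Finset.subset_univ S) (fun i => norm_nonneg _)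
      (fun i _ => hA _ (h1 j) _ (h1 i)) j hj)
    rwa [Real.exp_sub, div_le_iff₀' (Real.exp_pos _), mul_comm A, hbdef, Real.exp_nat_mul]
  have hψ := fun j => exists_psi_cap (X := E ∩ closedBall (ζ j) (2 * r))
    (hE.inter_right isClosed_closedBall) (ρ := 2 * r) (by positivity) inter_subset_right hrL (by
      obtain ⟨y, hy, h1⟩ := Metric.mem_closure_iff.1 (hζ j) r hr0
      exact mem_thick hy (by rw [dist_comm]; linarith))
  choose ψ hψ1 hψ2 hψ3 hψ4 using hψ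
  refine ⟨n, S, ψ, hne, fun j => ⟨(hψ1 j).mono fun w hw h1 => hw h1.1, hψ2 j⟩, fun w hw => ?_⟩
  obtain ⟨j₀, h₀, hmin⟩ := S.exists_min_image (fun j => ‖w - ζ j‖) hne
  have h1 := le_card_mul_row hinj.injOn hrowS h₀ hmin
  have h2 : (∏ j ∈ S.erase j₀, ‖ψ j w‖) * row S ζ j₀ w ≤ Real.exp (δ * n) := by
    rw [row, ← Finset.prod_mul_distrib]
    refine (Finset.prod_le_prod (g := fun _ => Real.exp δ) (fun _ _ => by positivity)
      fun j hj => ?_).trans ?_
    · obtain ⟨h3, h4⟩ := Finset.mem_erase.1 hj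
      have h5 := (Finset.mem_filter.1 h4).2 j₀ h3.symm
      have h6 := norm_sub_le_norm_sub_add_norm_sub (ζ j) w (ζ j₀)
      rw [norm_sub_rev (ζ j) w] at h6
      have h7 : σ / 2 ≤ ‖w - ζ j‖ := by linarith [hmin j h4]
      refine (hψ4 j w (by nlinarith)).trans (le_trans ?_ (Real.add_one_le_exp δ))
      rw [add_comm, add_le_add_iff_right, div_le_iff₀ (by linarith)]
      nlinarith
    · rw [Finset.prod_const, ← Real.exp_nat_mul, Real.exp_le_exp, mul_comm]
      gcongr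
      simpa using Finset.card_le_univ (S.erase j₀)
  have h3 : ‖ψ j₀ w‖ ≤ Real.exp (Real.log 2 + 2 * ε * n * L) := by
    refine (hψ3 j₀ w fun h3 => hw h3.1).trans (le_of_eq ?_)
    rw [hr, ← Real.exp_mul, Real.exp_add, Real.exp_log two_pos, neg_mul, Real.exp_neg,
      div_eq_mul_inv, inv_inv]
  have h4 : (S.card : ℝ) ≤ Real.exp (Real.log n) := by rw [Real.exp_log (by positivity)]; linarith
  have h5 : ∏ j ∈ S.erase j₀, ‖ψ j w‖ ≤
      Real.exp (Real.log n + δ * n - ((κ - δ) * (n - 1) - A * b)) := by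
    rw [Real.exp_sub, le_div_iff₀ (Real.exp_pos _), Real.exp_add]
    calc _ ≤ (∏ j ∈ S.erase j₀, ‖ψ j w‖) * (S.card * row S ζ j₀ w) := by gcongr
      _ ≤ _ := by
          rw [mul_left_comm]
          exact mul_le_mul h4 h2 (mul_nonneg (by positivity) (row_nonneg _ _ _ _)) (Real.exp_nonneg _)
  rw [← Finset.mul_prod_erase _ _ h₀]
  refine (mul_le_mul h3 h5 (by positivity) (Real.exp_nonneg _)).trans ?_
  rw [← Real.exp_add, Real.exp_le_exp, hk]
  have h6 : 2 * ε * n * L = η * n / 8 := by rw [hε]; field_simp; norm_num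
  have h7 : (A + |κ|) * b ≤ η / 8 * n := by
    calc _ ≤ (A + |κ|) * (θ * n) := by gcongr
      _ = θ * (A + |κ|) * n := by ring
      _ ≤ _ := by gcongr
  have h8 : η * b ≤ η * (1 / 2 * n) := by gcongr; nlinarith
  have h9 : δ * n ≤ η / 12 * n := by gcongr
  nlinarith [mul_le_mul_of_nonneg_right (neg_le_abs κ) hb0, le_abs_self κ]

end Pool.Agent.MP_13a571_an

end MrgPart4

-- ======== part 5: formerly Pool.Agent.MP_13a571_an.Crit
section MrgPart5

/-!
The capacity criterion for property (S).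
-/

open Set Filter Topology Metric Bornology

namespace Pool.Agent.MP_13a571_an

variable {D : Set ℂ} {a : ℂ} {H : ℂ → ℝ}

lemma IsGreen.sharp_of_prod (hG : IsGreen D a H) (hD : IsOpen D)
    (h : ∀ η > 0, ∃ (n : ℕ) (S : Finset (Fin n)) (ψ : Fin n → ℂ → ℂ), S.Nonempty ∧
      (∀ j, AnalyticOnNhd ℂ (ψ j) (invCompl D a)ᶜ ∧
        Tendsto (fun w => w * ψ j w) (cocompact ℂ) (𝓝 1)) ∧
      ∀ w ∉ invCompl D a, ∏ j ∈ S, ‖ψ j w‖ ≤ Real.exp ((η - -H a) * S.card)) :
    Sharp D (fun z => -H z) (range Nat.cast) a := by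
  intro η hη
  obtain ⟨n, S, ψ, hS, hψ, hb⟩ := h η hη
  have hk := Finset.card_pos.2 hS
  refine ⟨S.card, ⟨_, rfl⟩, by exact_mod_cast hk,
    fun z => (Real.exp (S.card * (-H a - η)) : ℝ) * ∏ j ∈ S, chart (ψ j) 0 1 (z - a),
    hG.cls hD (fun z hz => analyticAt_const.mul (Finset.analyticAt_fun_prod _ fun j _ =>
      (analyticAt_chart (isCompact_invCompl hD hG.mem).isBounded (hψ j).1 (hψ j).2 0
        ((eq_or_ne z a).imp sub_eq_zero.2 fun hne => by
          simpa using inv_not_mem hz hne)).fun_comp_of_eq (by fun_prop) rfl)) fun z hz => ?_,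
    by simp [chart_zero, -Complex.ofReal_exp]⟩
  rcases eq_or_ne z a with rfl | hne
  · simp [hk.ne']
  have h0 := sub_ne_zero.2 hne
  rw [mul_left_comm, ← Finset.prod_const, ← Finset.prod_mul_distrib, norm_mul, norm_prod,
    Complex.norm_real, Real.norm_eq_abs, Real.abs_exp]
  simp only [chart_of_ne _ _ _ h0, mul_inv_cancel_left₀ h0, zero_add]
  refine (mul_le_mul_of_nonneg_left (hb _ (inv_not_mem hz hne)) (Real.exp_nonneg _)).trans ?_
  rw [← Real.exp_add, Real.exp_le_one_iff]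
  linarith

lemma exists_of_gamma (ha : a ∈ D) {κ : ℝ}
    (h : Tendsto (fun k : ℕ => gamma D a k ^ (1 / (k : ℝ))) atTop (𝓝 (Real.exp κ))) :
    ∀ δ > 0, ∀ᶠ n : ℕ in atTop, ∃ (f : ℂ → ℂ) (c : ℂ), AnalyticOnNhd ℂ f (invCompl D a)ᶜ ∧
      (∀ w ∉ invCompl D a, ‖f w‖ ≤ 1) ∧ Tendsto (fun w => w ^ n * f w) (cocompact ℂ) (𝓝 c) ∧
        Real.exp ((κ - δ) * n) ≤ ‖c‖ := by
  intro δ hδ
  filter_upwards [h.eventually (lt_mem_nhds (show Real.exp (κ - δ) < Real.exp κ by
    gcongr; linarith)), eventually_gt_atTop 0] with n h1 hn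
  have h0 : 0 ≤ gamma D a n := Real.sSup_nonneg (by rintro _ ⟨f, -, -, rfl⟩; exact norm_nonneg _)
  have h2 := pow_lt_pow_left₀ h1 (Real.exp_nonneg _) hn.ne'
  rw [one_div, Real.rpow_inv_natCast_pow h0 hn.ne', ← Real.exp_nat_mul, mul_comm] at h2
  obtain ⟨_, ⟨g, hg, hb, rfl⟩, h3⟩ := exists_lt_of_lt_csSup
    (Set.nonempty_of_mem (x := 0) (by
      exact ⟨fun _ => 0, analyticOnNhd_const, by simp, by simp⟩)) h2
  refine ⟨fun w => w⁻¹ ^ n * g (a + w⁻¹), g a, fun w hw => ?_, fun w hw => ?_, ?_, h3.le⟩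
  · obtain ⟨h4, h5⟩ := not_mem_invCompl.1 hw
    have h6 : AnalyticAt ℂ (fun w : ℂ => w⁻¹) w := analyticAt_id.inv h4
    exact (h6.fun_pow n).mul ((hg _ h5).fun_comp_of_eq (analyticAt_const.add h6) rfl)
  · simpa using hb _ (not_mem_invCompl.1 hw).2
  · rw [← cobounded_eq_cocompact]
    have h4 := (tendsto_inv₀_cobounded (α := ℂ)).const_add a
    rw [add_zero] at h4
    refine ((hg a ha).continuousAt.tendsto.comp h4).congr' ?_
    filter_upwards [(isBounded_singleton (x := (0 : ℂ))).compl] with w hw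
    rw [← mul_assoc, ← mul_pow, mul_inv_cancel₀ (by simpa using hw), one_pow, one_mul]
    rfl

lemma tendsto_thick {E : Set ℂ} (hE : IsCompact E) {κ L : ℝ} (hκ : logCap E = Real.exp κ)
    (h : ∀ η > 0, ∀ᶠ r in 𝓝[>] (0 : ℝ), Real.exp (κ - η) ≤ logCap (thick E r (r ^ L))) :
    Tendsto (fun r : ℝ => logCap (thick E r (r ^ L))) (𝓝[>] 0) (𝓝 (logCap E)) := by
  refine tendsto_order.2 ⟨fun b hb => ?_, fun b hb => thick_upper hE L hb⟩
  have h1 : ∀ᶠ η in 𝓝 (0 : ℝ), b < Real.exp (κ - η) :=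
    continuousAt_const.eventually_lt (by fun_prop) (by simpa [hκ] using hb)
  obtain ⟨η, h2, h3⟩ := ((h1.filter_mono nhdsWithin_le_nhds).and
    (self_mem_nhdsWithin (s := Ioi (0 : ℝ)) (a := 0))).exists
  exact (h η h3).mono fun r hr => h2.trans_le hr

theorem Condenser.tfae {K : Set ℂ} {ω : ℂ → ℝ} (h : Condenser D K ω) (ha : a ∈ D) {L : ℝ}
    (hL : 2 < L) : List.TFAE [PropS D K ω,
      Tendsto (fun k : ℕ => gamma D a k ^ (1 / (k : ℝ))) atTop (𝓝 (logCap (invCompl D a))),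
      Tendsto (fun r : ℝ => logCap (thick (invCompl D a) r (r ^ L))) (𝓝[>] 0)
        (𝓝 (logCap (invCompl D a)))] := by
  obtain ⟨H, hG, hH⟩ := h.exh.exists_green ha
  have hE := isCompact_invCompl h.isOpen ha
  tfae_have 1 ↔ 2 := hH ▸ (h.propS_iff_green hG).trans (hG.sharp_iff h.isOpen h.conn.isPreconnected)
  tfae_have 2 → 3 := fun h2 => tendsto_thick hE hH.symm fun η hη =>
    necessary hE hH.symm hL (exists_of_gamma ha (hH ▸ h2)) hη
  tfae_have 3 → 1 := fun h3 => (h.propS_iff_green hG).2 (hG.sharp_of_prod h.isOpen fun η hη =>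
    sufficient hE hH.symm (by linarith) (tendsto_order.1 h3).1 hη)
  tfae_finish

end Pool.Agent.MP_13a571_an

end MrgPart5

-- ======== part 6: formerly Pool.Agent.MP_13a571_an.SChart
section MrgPart6

/-!
Moebius charts of the punctured sphere.
-/

open Set Filter Topology InnerProductSpace OnePoint Bornology

namespace Pool.Agent.MP_13a571_an.Sph

lemma away_infty (w : ℂ) : away ∞ w = w := rfl

lemma away_zero (a : ℂ) : away a 0 = ∞ := if_pos rfl

lemma away_of_ne (a : ℂ) {w : ℂ} (h : w ≠ 0) : away a w = (a + w⁻¹ : ℂ) := if_neg h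

/-- inverse of the parametrization -/
noncomputable def back : OnePoint ℂ → OnePoint ℂ → ℂ
  | ∞ => fun x => x.elim 0 id
  | (a : ℂ) => fun x => x.elim 0 fun z => (z - a)⁻¹

lemma back_away (p : OnePoint ℂ) (w : ℂ) : back p (away p w) = w := by
  induction p using OnePoint.rec with
  | infty => rfl
  | coe a =>
    rcases eq_or_ne w 0 with rfl | h
    · rw [away_zero]; rfl
    · rw [away_of_ne a h]; simp [back]

lemma away_back {p x : OnePoint ℂ} (h : x ≠ p) : away p (back p x) = x := by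
  induction p using OnePoint.rec <;> induction x using OnePoint.rec
  · exact absurd rfl h
  · rfl
  · exact away_zero _
  · rename_i a z
    have : z - a ≠ 0 := sub_ne_zero.2 fun e => h (by rw [e])
    change away a (z - a)⁻¹ = z
    rw [away_of_ne a (inv_ne_zero this)]; simp

lemma away_ne (p : OnePoint ℂ) (w : ℂ) : away p w ≠ p := by
  induction p using OnePoint.rec with
  | infty => exact coe_ne_infty w
  | coe a =>
    rcases eq_or_ne w 0 with rfl | h
    · rw [away_zero]; exact infty_ne_coe a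
    · rw [away_of_ne a h]; simpa using h

lemma range_away (p : OnePoint ℂ) : range (away p) = {p}ᶜ :=
  Subset.antisymm (range_subset_iff.2 (away_ne p)) fun _ hx => ⟨_, away_back hx⟩

lemma isOpenEmbedding_away (p : OnePoint ℂ) : IsOpenEmbedding (away p) := by
  induction p using OnePoint.rec with
  | infty => exact isOpenEmbedding_coe
  | coe a =>
    refine OpenPartialHomeomorph.isOpenEmbedding ⟨⟨⟨away a, back a, univ, {(a : OnePoint ℂ)}ᶜ,
      fun w _ => away_ne _ w, fun _ _ => trivial, fun w _ => back_away _ w, fun _ h => away_back h⟩,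
      fun w _ => ContinuousAt.continuousWithinAt ?_,
      fun x hx => ContinuousAt.continuousWithinAt ?_⟩, isOpen_univ, isOpen_compl_singleton⟩ rfl
    · change ContinuousAt (away a) w
      rcases eq_or_ne w 0 with rfl | h
      · rw [← continuousWithinAt_compl_self, ContinuousWithinAt, away_zero]
        refine (tendsto_coe_infty.comp (coclosedCompact_eq_cocompact (X := ℂ) ▸
          tendsto_inv_cocompact a)).congr' ?_
        filter_upwards [self_mem_nhdsWithin] with w hw using (away_of_ne a hw).symm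
      · refine (continuous_coe.continuousAt.comp (f := fun w : ℂ => a + w⁻¹)
          (continuousAt_const.add (continuousAt_inv₀ h))).congr ?_
        filter_upwards [isOpen_ne.mem_nhds h] with w hw using (away_of_ne a hw).symm
    · change ContinuousAt (back a) x
      induction x using OnePoint.rec with
      | infty =>
        rw [continuousAt_infty', coclosedCompact_eq_cocompact, ← Metric.cobounded_eq_cocompact]
        exact (tendsto_inv₀_cobounded (α := ℂ)).comp (tendsto_sub_const_cobounded a)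
      | coe z =>
        exact continuousAt_coe.2 ((continuousAt_id.sub continuousAt_const).inv₀
          (sub_ne_zero.2 fun e => hx (congrArg _ e)))

lemma inChart_away {Y : Type} {P : (ℂ → Y) → ℂ → Prop}
    (hP : ∀ (f g : ℂ → Y) (φ : ℂ → ℂ) (z : ℂ), P g (φ z) → AnalyticAt ℂ φ z →
      (∀ᶠ w in 𝓝 z, f w = g (φ w)) → P f z) (f : OnePoint ℂ → Y) (p : OnePoint ℂ) (z : ℂ) :
    InChart P f (away p z) ↔ P (fun w => f (away p w)) z := by
  induction p using OnePoint.rec with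
  | infty => rfl
  | coe a =>
    have key : ∀ b c : ℂ, P (fun w => f (away b w)) 0 → P (fun w => f (away c w)) 0 := by
      intro b c h
      have h1 : ∀ᶠ w in 𝓝 (0 : ℂ), 1 + (c - b) * w ≠ 0 :=
        ContinuousAt.eventually_ne (by fun_prop) (by simp)
      refine hP _ _ (fun w => w / (1 + (c - b) * w)) 0 (by simpa using h)
        (AnalyticAt.fun_div (by fun_prop) (by fun_prop) (by simp)) (h1.mono fun w hw => ?_)
      rcases eq_or_ne w 0 with rfl | h0
      · simp [away_zero]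
      · rw [away_of_ne c h0, away_of_ne b (div_ne_zero h0 hw)]
        congr 2; field_simp; ring
    rcases eq_or_ne z 0 with rfl | h
    · rw [away_zero]
      exact ⟨key 0 a, key a 0⟩
    · rw [away_of_ne a h]
      refine ⟨fun h1 => hP _ _ (fun w => a + w⁻¹) z h1 (analyticAt_const.add (analyticAt_id.inv h))
        ((eventually_ne_nhds h).mono fun w hw => by rw [away_of_ne a hw]), fun h1 => ?_⟩
      have h2 : a + z⁻¹ - a ≠ 0 := by simpa using h
      refine hP _ (fun w => f (away a w)) (fun w => (w - a)⁻¹) _ (by simpa using h1)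
        ((analyticAt_id.sub analyticAt_const).inv h2) ?_
      filter_upwards [ContinuousAt.eventually_ne (g := fun w => w - a) (by fun_prop) h2] with w hw
      rw [away_of_ne a (inv_ne_zero hw)]; simp

lemma an_away (f : OnePoint ℂ → ℂ) (p : OnePoint ℂ) (z : ℂ) :
    InChart (AnalyticAt ℂ) f (away p z) ↔ AnalyticAt ℂ (fun w => f (away p w)) z :=
  inChart_away (fun _ _ _ _ hg hφ h => (hg.comp hφ).congr (h.mono fun _ hw => hw.symm)) f p z

lemma harm_away (f : OnePoint ℂ → ℝ) (p : OnePoint ℂ) (z : ℂ) :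
    InChart HarmonicAt f (away p z) ↔ HarmonicAt (fun w => f (away p w)) z := by
  refine inChart_away (fun f g φ z hg hφ h => ?_) f p z
  obtain ⟨u, hu, e⟩ := exists_re_eq hg
  refine (harmonicAt_congr_nhds ?_).1 (hu.comp hφ).harmonicAt_re
  filter_upwards [h, hφ.continuousAt.tendsto.eventually e] with w h1 h2
  rw [h1, ← h2]; rfl

lemma exists_affine {p x : OnePoint ℂ} (h : x ≠ p) : ∃ l m : ℂ, l ≠ 0 ∧ away x m = p ∧
    ∀ w, w ≠ 0 → away x (l * w + m) = away p (back p x + w⁻¹) := by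
  induction p using OnePoint.rec <;> induction x using OnePoint.rec
  · exact absurd rfl h
  · exact ⟨1, 0, one_ne_zero, away_zero _, fun w hw => by
      rw [one_mul, add_zero, away_of_ne _ hw]; rfl⟩
  · rename_i a
    refine ⟨1, a, one_ne_zero, rfl, fun w hw => ?_⟩
    change _ = away a (0 + w⁻¹)
    rw [zero_add, away_of_ne a (inv_ne_zero hw), away_infty, inv_inv, one_mul, add_comm]
  · rename_i a z
    have h0 : z - a ≠ 0 := sub_ne_zero.2 fun e => h (by rw [e])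
    refine ⟨-(z - a)⁻¹ ^ 2, -(z - a)⁻¹, by simpa using h0, ?_, fun w hw => ?_⟩
    · rw [away_of_ne z (by simpa using h0)]; simp
    change _ = away a ((z - a)⁻¹ + w⁻¹)
    have e : -(z - a)⁻¹ ^ 2 * w + -(z - a)⁻¹ = -(z - a)⁻¹ * w * ((z - a)⁻¹ + w⁻¹) := by
      field_simp; ring
    rcases eq_or_ne ((z - a)⁻¹ + w⁻¹) 0 with h1 | h1
    · rw [e, h1, mul_zero, away_zero, away_zero]
    · rw [e, away_of_ne a h1, away_of_ne z (mul_ne_zero (mul_ne_zero (by simpa using h0) hw) h1)]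
      have h2 : w + (z - a) ≠ 0 := fun e => h1 (by field_simp; simpa using e)
      congr 1
      field_simp
      ring

end Pool.Agent.MP_13a571_an.Sph

end MrgPart6

-- ======== part 7: formerly Pool.Agent.MP_13a571_an.STrans
section MrgPart7

/-!
Transfer of property (S) between the sphere and the plane.
-/

open Set Filter Topology InnerProductSpace OnePoint Bornology

namespace Pool.Agent.MP_13a571_an.Sph

variable {p : OnePoint ℂ} {D K T U : Set (OnePoint ℂ)} {ω : OnePoint ℂ → ℝ}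

lemma sub_range (h : p ∉ T) : T ⊆ range (away p) := by
  rw [range_away]; exact fun x hx e => h (e ▸ hx)

lemma mem_An_pull {f : OnePoint ℂ → ℂ} (h : f ∈ An T) :
    AnalyticOnNhd ℂ (fun w => f (away p w)) (away p ⁻¹' T) := fun z hz => (an_away f p z).1 (h _ hz)

lemma mem_An_iff (hT : T ⊆ range (away p)) {f : OnePoint ℂ → ℂ} :
    f ∈ An T ↔ AnalyticOnNhd ℂ (fun w => f (away p w)) (away p ⁻¹' T) :=
  ⟨mem_An_pull, fun h x hx => by
    obtain ⟨z, rfl⟩ := hT hx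
    exact (an_away f p z).2 (h z hx)⟩

lemma mem_An_push (hT : T ⊆ range (away p)) {f : ℂ → ℂ} (h : AnalyticOnNhd ℂ f (away p ⁻¹' T)) :
    (fun x => f (back p x)) ∈ An T := (mem_An_iff hT).2 (by simpa only [back_away] using h)

/-- reading a function on the sphere in the chart -/
noncomputable def pull (p : OnePoint ℂ) (T : Set (OnePoint ℂ)) :
    An T →ₗ[ℂ] MP_13a571_an.An (away p ⁻¹' T) where
  toFun f := ⟨fun w => f.1 (away p w), mem_An_pull f.2⟩
  map_add' _ _ := rfl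
  map_smul' _ _ := rfl

/-- carrying a function on the plane to the sphere -/
noncomputable def push (hT : T ⊆ range (away p)) :
    MP_13a571_an.An (away p ⁻¹' T) →ₗ[ℂ] An T where
  toFun f := ⟨fun x => f.1 (back p x), mem_An_push hT f.2⟩
  map_add' _ _ := rfl
  map_smul' _ _ := rfl

lemma pull_push (hT : T ⊆ range (away p)) (f : MP_13a571_an.An (away p ⁻¹' T)) :
    pull p T (push hT f) = f := Subtype.ext (funext fun w => congrArg f.1 (back_away p w))

lemma ev_iff (hT : T ⊆ range (away p)) {f : OnePoint ℂ → ℂ} :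
    f =ᶠ[𝓝ˢ T] 0 ↔ (fun w => f (away p w)) =ᶠ[𝓝ˢ (away p ⁻¹' T)] 0 := by
  refine ⟨fun h => ((isOpenEmbedding_away p).continuous.tendsto_nhdsSet
    (mapsTo_preimage _ T)).eventually h, fun h => eventually_nhdsSet_iff_forall.2 fun x hx => ?_⟩
  obtain ⟨z, rfl⟩ := hT hx
  rw [← (isOpenEmbedding_away p).map_nhds_eq]
  exact eventually_nhdsSet_iff_forall.1 h z hx

lemma cpt_pre {L : Set (OnePoint ℂ)} (hL : IsCompact L) (h : L ⊆ range (away p)) :
    IsCompact (away p ⁻¹' L) := ((isOpenEmbedding_away p).isInducing.isCompact_preimage_iff h).2 hL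

lemma tr_down (hK : K ⊆ range (away p)) (hT : T ⊆ range (away p)) {Q : An K → ℝ → Prop}
    (h : ∀ V, IsOpen V → T ⊆ V → ∃ L, IsCompact L ∧ L ⊆ V ∧ ∃ C : ℝ, ∀ f : An K,
      f.1 ∈ An V → ∀ M : ℝ, 0 ≤ M → (∀ z ∈ L, ‖f.1 z‖ ≤ M) → Q f (C * M)) :
    ∀ V, IsOpen V → away p ⁻¹' T ⊆ V → ∃ L, IsCompact L ∧ L ⊆ V ∧ ∃ C : ℝ,
      ∀ f : MP_13a571_an.An (away p ⁻¹' K), AnalyticOnNhd ℂ f.1 V → ∀ M : ℝ, 0 ≤ M →
        (∀ z ∈ L, ‖f.1 z‖ ≤ M) → Q (push hK f) (C * M) := by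
  intro V hV hTV
  have he := isOpenEmbedding_away p
  obtain ⟨L, hL, hLV, C, hC⟩ := h (away p '' V) (he.isOpenMap V hV) fun x hx => by
    obtain ⟨z, rfl⟩ := hT hx
    exact mem_image_of_mem _ (hTV hx)
  refine ⟨_, cpt_pre hL (hLV.trans (image_subset_range _ _)), fun z hz =>
    (he.injective.mem_set_image).1 (hLV hz), C, fun f hf M hM hb => hC _ (mem_An_push
      (image_subset_range _ _) (by rwa [preimage_image_eq _ he.injective])) M hM fun x hx => ?_⟩
  obtain ⟨z, -, rfl⟩ := hLV hx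
  simpa [push, back_away] using hb z hx

lemma tr_up {Q : MP_13a571_an.An (away p ⁻¹' K) → ℝ → Prop}
    (h : ∀ V, IsOpen V → away p ⁻¹' T ⊆ V → ∃ L, IsCompact L ∧ L ⊆ V ∧ ∃ C : ℝ,
      ∀ f : MP_13a571_an.An (away p ⁻¹' K), AnalyticOnNhd ℂ f.1 V → ∀ M : ℝ, 0 ≤ M →
        (∀ z ∈ L, ‖f.1 z‖ ≤ M) → Q f (C * M)) :
    ∀ V, IsOpen V → T ⊆ V → ∃ L, IsCompact L ∧ L ⊆ V ∧ ∃ C : ℝ, ∀ f : An K,
      f.1 ∈ An V → ∀ M : ℝ, 0 ≤ M → (∀ z ∈ L, ‖f.1 z‖ ≤ M) → Q (pull p K f) (C * M) := by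
  intro V hV hTV
  have he := (isOpenEmbedding_away p).continuous
  obtain ⟨L, hL, hLV, C, hC⟩ := h _ (hV.preimage he) (preimage_mono hTV)
  exact ⟨_, hL.image he, image_subset_iff.2 hLV, C, fun f hf M hM hb =>
    hC _ (mem_An_pull hf) M hM fun z hz => hb _ (mem_image_of_mem _ hz)⟩

section

variable {H : Type} [NormedAddCommGroup H] [InnerProductSpace ℂ H]

lemma Cond4.down (hD : D ⊆ range (away p)) {j : H →ₗ[ℂ] An D} (h : Cond4 D j) :
    MP_13a571_an.Cond4 (away p ⁻¹' D) (pull p D ∘ₗ j) := by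
  refine ⟨fun x hx => h.inj x fun y hy => ?_, fun L hL hLD => ?_, ?_⟩
  · obtain ⟨z, rfl⟩ := hD hy
    exact hx z hy
  · obtain ⟨C, hC⟩ := h.cont _ (hL.image (isOpenEmbedding_away p).continuous) (image_subset_iff.2 hLD)
    exact ⟨C, fun x z hz => hC x _ (mem_image_of_mem _ hz)⟩
  · obtain ⟨C, hC⟩ := h.hinf
    refine ⟨C, fun f hf M hM hb => ?_⟩
    obtain ⟨x, h1, h2⟩ := hC _ (mem_An_push hD hf) M hM fun y hy => by
      obtain ⟨z, rfl⟩ := hD hy
      simpa [back_away] using hb z hy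
    exact ⟨x, fun z hz => (h1 hz).trans (congrArg f (back_away p z)), h2⟩

lemma Cond4.up (hD : D ⊆ range (away p)) {j : H →ₗ[ℂ] MP_13a571_an.An (away p ⁻¹' D)}
    (h : MP_13a571_an.Cond4 (away p ⁻¹' D) j) : Cond4 D (push hD ∘ₗ j) := by
  refine ⟨fun x hx => h.inj x fun z hz => (congrArg (j x).1 (back_away p z)).symm.trans (hx _ hz),
    fun L hL hLD => ?_, ?_⟩
  · obtain ⟨C, hC⟩ := h.cont _ (cpt_pre hL (hLD.trans hD)) (preimage_mono hLD)
    refine ⟨C, fun x y hy => ?_⟩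
    obtain ⟨z, rfl⟩ := hD (hLD hy)
    simpa [push, back_away] using hC x z hy
  · obtain ⟨C, hC⟩ := h.hinf
    refine ⟨C, fun f hf M hM hb => ?_⟩
    obtain ⟨x, h1, h2⟩ := hC _ (mem_An_pull hf) M hM fun z hz => hb _ hz
    refine ⟨x, fun y hy => ?_, h2⟩
    obtain ⟨z, rfl⟩ := hD hy
    exact (congrArg (j x).1 (back_away p z)).trans (h1 hy)

lemma GermIncl.down (hK : K ⊆ range (away p)) {ι : An K →ₗ[ℂ] H} (h : GermIncl K ι) :
    MP_13a571_an.GermIncl (away p ⁻¹' K) (ι ∘ₗ push hK) := by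
  refine ⟨fun f hf => ?_, tr_down hK hK (Q := fun f c => ‖ι f‖ ≤ c) h.cont⟩
  simpa only [push, LinearMap.coe_mk, AddHom.coe_mk, back_away] using (ev_iff hK).1 (h.inj _ hf)

lemma GermIncl.up (hK : K ⊆ range (away p)) {ι : MP_13a571_an.An (away p ⁻¹' K) →ₗ[ℂ] H}
    (h : MP_13a571_an.GermIncl (away p ⁻¹' K) ι) : GermIncl K (ι ∘ₗ pull p K) :=
  ⟨fun _ hf => (ev_iff hK).2 (h.inj _ hf), tr_up (Q := fun f c => ‖ι f‖ ≤ c) h.cont⟩

lemma GermIncl.push_pull (hK : K ⊆ range (away p)) {ι : An K →ₗ[ℂ] H} (h : GermIncl K ι)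
    (g : An K) : ι (push hK (pull p K g)) = ι g := by
  obtain ⟨L, -, hL, C, hC⟩ := h.cont _ (isOpenEmbedding_away p).isOpen_range hK
  have h0 : ∀ z, (push hK (pull p K g) - g).1 (away p z) = 0 := fun z => by
    simp [push, pull, back_away]
  rw [← sub_eq_zero, ← map_sub, ← norm_le_zero_iff]
  simpa using hC (push hK (pull p K g) - g) ((mem_An_iff Subset.rfl).2
    (by simp only [h0]; exact analyticOnNhd_const)) 0 le_rfl fun x hx => by
      obtain ⟨z, rfl⟩ := hL hx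
      rw [h0, norm_zero]

lemma closure_pre (p : OnePoint ℂ) (U : Set (OnePoint ℂ)) :
    closure (away p ⁻¹' U) = away p ⁻¹' closure U :=
  ((isOpenEmbedding_away p).isOpenMap.preimage_closure_eq_closure_preimage
    (isOpenEmbedding_away p).continuous U).symm

lemma Between.down (hK : K ⊆ range (away p)) (hU : closure U ⊆ range (away p)) {ι : An K →ₗ[ℂ] H}
    (hι : GermIncl K ι) {A : H →L[ℂ] H} (h : Between K U ι A) :
    MP_13a571_an.Between (away p ⁻¹' K) (away p ⁻¹' U) (ι ∘ₗ push hK) A := by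
  refine ⟨fun f hf h0 => ?_, ?_, fun y => ?_, fun L hL hLU => ?_⟩
  · rw [closure_pre] at hf ⊢
    simpa only [push, LinearMap.coe_mk, AddHom.coe_mk, back_away] using
      (ev_iff hU).1 (h.inj _ (mem_An_push hU hf) h0)
  · rw [closure_pre]
    exact tr_down hK hU (Q := fun f c => ∃ y, A y = ι f ∧ ‖y‖ ≤ c) h.lower
  · obtain ⟨g, h1, h2⟩ := h.upper y
    exact ⟨pull p K g, mem_An_pull h1, (hι.push_pull hK g).trans h2⟩
  · obtain ⟨C, hC⟩ := h.upper_cont _ (hL.image (isOpenEmbedding_away p).continuous)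
      (image_subset_iff.2 hLU)
    refine ⟨C, fun y g hg e z hz => ?_⟩
    simpa [push, back_away] using hC y (push hK g) (mem_An_push (subset_closure.trans hU) hg) e _
      (mem_image_of_mem _ hz)

lemma Between.up (hK : K ⊆ range (away p)) (hU : closure U ⊆ range (away p))
    {ι : MP_13a571_an.An (away p ⁻¹' K) →ₗ[ℂ] H} {A : H →L[ℂ] H}
    (h : MP_13a571_an.Between (away p ⁻¹' K) (away p ⁻¹' U) ι A) : Between K U (ι ∘ₗ pull p K) A := by
  have hU' := subset_closure.trans hU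
  refine ⟨fun f hf h0 => (ev_iff hU).2 ?_, ?_, fun y => ?_, fun L hL hLU => ?_⟩
  · rw [← closure_pre]
    exact h.inj (pull p K f) (closure_pre p U ▸ mem_An_pull hf) h0
  · exact tr_up (Q := fun f c => ∃ y, A y = ι f ∧ ‖y‖ ≤ c) (closure_pre p U ▸ h.lower)
  · obtain ⟨g, h1, h2⟩ := h.upper y
    exact ⟨push hK g, mem_An_push hU' h1, by rw [LinearMap.comp_apply, pull_push, h2]⟩
  · obtain ⟨C, hC⟩ := h.upper_cont _ (cpt_pre hL (hLU.trans hU')) (preimage_mono hLU)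
    refine ⟨C, fun y g hg e x hx => ?_⟩
    obtain ⟨z, rfl⟩ := hU' (hLU hx)
    exact hC y (pull p K g) (mem_An_pull hg) e z hx

end

lemma Admissible.exists_not_mem (h : Admissible D K ω) : ∃ p, p ∉ D := by
  by_contra hD
  push Not at hD
  obtain ⟨t, ht, htK⟩ := h.conn_diff.nonempty
  obtain ⟨z, hz⟩ := h.nonempty
  refine htK (h.hull t ht fun f hf M hM => ?_)
  have h1 : Tendsto (fun w : ℂ => f w) (cocompact ℂ) (𝓝 (f ∞)) := by
    have h2 := ((an_away f (0 : ℂ) 0).1 (hf _ (hD _))).continuousAt.tendsto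
    rw [away_zero] at h2
    rw [← Metric.cobounded_eq_cocompact]
    refine (h2.comp (tendsto_inv₀_cobounded (α := ℂ))).congr' ?_
    filter_upwards [(isBounded_singleton (x := (0 : ℂ))).compl] with w hw
    simp [away_of_ne 0 (inv_ne_zero (show w ≠ 0 by simpa using hw))]
  have h2 : ∀ x, f x = f ∞ := fun x => by
    induction x using OnePoint.rec with
    | infty => rfl
    | coe w =>
      exact Differentiable.apply_eq_of_tendsto_cocompact (f := fun w : ℂ => f w)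
        (fun w => AnalyticAt.differentiableAt (hf w (hD _))) w h1
  rw [h2 t, ← h2 z]
  exact hM z hz

lemma Admissible.condenser (h : Admissible D K ω) (hp : p ∉ D) :
    Condenser (away p ⁻¹' D) (away p ⁻¹' K) fun w => ω (away p w) := by
  have he := isOpenEmbedding_away p
  have hD := sub_range hp
  have hfr : ∀ T : Set (OnePoint ℂ), frontier (away p ⁻¹' T) = away p ⁻¹' frontier T := fun T =>
    (he.isOpenMap.preimage_frontier_eq_frontier_preimage he.continuous T).symm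
  have hw : ∀ ζ, Tendsto (away p) (𝓝[away p ⁻¹' D \ away p ⁻¹' K] ζ) (𝓝[D \ K] (away p ζ)) :=
    fun ζ => he.continuous.continuousWithinAt.tendsto_nhdsWithin fun _ hz => hz
  refine ⟨h.isOpen.preimage he.continuous, h.conn.preimage_of_isOpenMap he.injective he.isOpenMap hD,
    cpt_pre h.compact (h.subset.trans hD), h.nonempty.preimage' (h.subset.trans hD),
    preimage_mono h.subset,
    h.conn_diff.preimage_of_isOpenMap he.injective he.isOpenMap (sdiff_subset.trans hD),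
    fun z hz => (harm_away ω p z).1 (h.harmonic _ hz),
    fun ζ hζ => (h.lim_inner _ (hfr K ▸ hζ :)).comp (hw ζ),
    fun ζ hζ => (h.lim_outer _ (hfr D ▸ hζ :)).comp (hw ζ), ?_⟩
  have h1 : Tendsto (away p) (cocompact ℂ ⊓ 𝓟 (away p ⁻¹' D \ away p ⁻¹' K)) (𝓝[D \ K] p) := by
    refine Tendsto.inf (fun V hV => ?_) (tendsto_principal_principal.2 fun _ hz => hz)
    obtain ⟨W, hWV, hW, hpW⟩ := mem_nhds_iff.1 hV
    exact mem_of_superset (cpt_pre hW.isClosed_compl.isCompact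
      (sub_range fun h => h hpW)).compl_mem_cocompact fun z hz => hWV (not_not.1 hz)
  by_cases h2 : p ∈ closure D
  · exact (h.lim_outer p (by rw [h.isOpen.frontier_eq]; exact ⟨h2, hp⟩)).comp h1
  · rw [notMem_closure_iff_nhdsWithin_eq_bot.1 fun h3 => h2 (closure_mono sdiff_subset h3)] at h1
    exact tendsto_bot.comp h1

theorem Admissible.propS_iff (h : Admissible D K ω) (hp : p ∉ D) : PropS D K ω ↔
    MP_13a571_an.PropS (away p ⁻¹' D) (away p ⁻¹' K) fun w => ω (away p w) := by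
  have he := isOpenEmbedding_away p
  have hD := sub_range hp
  have hK := h.subset.trans hD
  have hc := h.condenser hp
  have hU : ∀ α ∈ Ioo (0 : ℝ) 1, closure (Dlev D K ω α) ⊆ range (away p) := fun α hα => by
    refine (closure_minimal (fun x hx => ?_)
      ((hc.exh.cpt α hα.2).image he.continuous).isClosed).trans (image_subset_range _ _)
    obtain ⟨z, rfl⟩ := hD (hx.elim (fun h1 => h.subset h1) fun h1 => h1.1.1)
    have h1 : z ∈ MP_13a571_an.Dlev (away p ⁻¹' D) (away p ⁻¹' K) (fun w => ω (away p w)) α := hx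
    rw [hc.dlev_eq hα.1] at h1
    exact mem_image_of_mem _ ⟨h1.1, h1.2.le⟩
  constructor
  · intro hS H₁ _ _ _ j hj
    obtain ⟨H₀, _, _, _, ι, J, h1, h2, h3, h4⟩ := hS H₁ _ (Cond4.up hD hj)
    exact ⟨H₀, _, _, ‹_›, ι ∘ₗ push hK, J, h1.down hK, fun x f hf => h2 x _
      (funext fun y => congrFun hf _), h3, fun α hα => (h4 α hα).down hK (hU α hα) h1⟩
  · intro hS H₁ _ _ _ j hj
    obtain ⟨H₀, _, _, _, ι, J, h1, h2, h3, h4⟩ := hS H₁ _ (hj.down hD)
    exact ⟨H₀, _, _, ‹_›, ι ∘ₗ pull p K, J, GermIncl.up hK h1, fun x f hf => h2 x _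
      (funext fun y => congrFun hf _), h3, fun α hα => Between.up hK (hU α hα) (h4 α hα)⟩

end Pool.Agent.MP_13a571_an.Sph

end MrgPart7

-- ======== part 8: formerly Pool.Agent.MP_13a571_an.SMain
section MrgPart8

/-!
The capacity criterion on the sphere.
-/

open Set Filter Topology OnePoint Bornology Polynomial

namespace Pool.Agent.MP_13a571_an

lemma logCap_mul_le {E F : Set ℂ} (hF : IsBounded F) {l m : ℂ} (hl : l ≠ 0)
    (h : ∀ w ∈ E, l * w + m ∈ F) : logCap E * ‖l‖ ≤ logCap F := by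
  refine le_of_forall_gt_imp_ge_of_dense fun s hs => ?_
  obtain ⟨T, hT, hd, hb⟩ := exists_of_logCap_lt hF hs
  have hs0 : 0 ≤ s := (logCap_nonneg F).trans hs.le
  rw [← le_div_iff₀ (norm_pos_iff.2 hl)]
  refine logCap_le (P := (taylor m T).scaleRoots l⁻¹) ((monic_scaleRoots_iff _).2 (by
    rw [Monic, leadingCoeff_taylor, hT.leadingCoeff])) (by simpa using hd) (by positivity)
    fun w hw => ?_
  have := scaleRoots_eval_mul (taylor m T) (l * w) l⁻¹
  rw [inv_mul_cancel_left₀ hl] at this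
  rw [this, natDegree_scaleRoots, natDegree_taylor, taylor_eval, norm_mul, norm_pow, norm_inv,
    div_eq_inv_mul, mul_pow]
  gcongr
  exact (hb _ (h w hw)).le

lemma tendsto_affine {f : ℂ → ℂ} {c l : ℂ} (m : ℂ) {n : ℕ} (hl : l ≠ 0)
    (h : Tendsto (fun w => w ^ n * f w) (cocompact ℂ) (𝓝 c)) :
    Tendsto (fun w => w ^ n * f (l * w + m)) (cocompact ℂ) (𝓝 (l⁻¹ ^ n * c)) := by
  rw [← Metric.cobounded_eq_cocompact] at *
  have h1 : Tendsto (fun w => l * w + m) (cobounded ℂ) (cobounded ℂ) :=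
    (tendsto_add_const_cobounded m).comp (tendsto_mul_left_cobounded hl)
  have h2 := ((((((tendsto_inv₀_cobounded (α := ℂ)).const_mul m).const_sub 1).const_mul l⁻¹).pow
    n).mul h).comp h1
  simp only [mul_zero, sub_zero, mul_one] at h2
  refine h2.congr' ?_
  filter_upwards [h1 (isBounded_singleton (x := (0 : ℂ))).compl] with w hw
  have h0 : l * w + m ≠ 0 := by simpa using hw
  simp only [Function.comp]
  rw [← mul_assoc, ← mul_pow]
  congr 2
  field_simp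
  ring

namespace Sph

theorem Admissible.criterion {D K : Set (OnePoint ℂ)} {ω : OnePoint ℂ → ℝ} (h : Admissible D K ω)
    {x : OnePoint ℂ} (hx : x ∈ D) {L : ℝ} (hL : 2 < L) : PropS D K ω ↔
      Tendsto (fun r : ℝ => MP_13a571_an.logCap (thick {w | away x w ∉ D} r (r ^ L))) (𝓝[>] 0)
        (𝓝 (MP_13a571_an.logCap {w | away x w ∉ D})) := by
  obtain ⟨p, hp⟩ := h.exists_not_mem
  have hne : x ≠ p := fun e => hp (e ▸ hx)
  obtain ⟨l, m, hl, hm, hlm⟩ := exists_affine hne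
  have hc := h.condenser hp
  have ha : back p x ∈ away p ⁻¹' D := by rwa [mem_preimage, away_back hne]
  obtain ⟨H, hG, hH⟩ := hc.exh.exists_green ha
  have hF := isCompact_invCompl hc.isOpen ha
  set F := invCompl (away p ⁻¹' D) (back p x) with hFdef
  set E := {w | away x w ∉ D} with hEdef
  have h1 : ∀ w, l * w + m ∈ E ↔ w ∈ F := fun w => by
    rcases eq_or_ne w 0 with rfl | h0
    · simp [hEdef, hFdef, hm, hp, zero_mem_invCompl]
    · simp [hEdef, hFdef, hlm w h0, invCompl, h0]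
  have h2 : ∀ w, l⁻¹ * w + -(m / l) ∈ F ↔ w ∈ E := fun w => by
    rw [← h1]; congr! 1; field_simp; ring
  have hE : IsCompact E := by
    have : E = (fun w => l * w + m) '' F := by
      ext w
      exact ⟨fun hw => ⟨_, (h2 w).2 hw, by field_simp; ring⟩, fun ⟨v, hv, e⟩ => e ▸ (h1 v).2 hv⟩
    rw [this]
    exact hF.image (by fun_prop)
  have hl0 := norm_pos_iff.2 hl
  have hκ : MP_13a571_an.logCap E = Real.exp (-H (back p x) + Real.log ‖l‖) := by
    rw [Real.exp_add, Real.exp_log hl0, hH]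
    refine le_antisymm ?_ (logCap_mul_le hE.isBounded hl fun w hw => (h1 w).2 hw)
    rw [← div_le_iff₀ hl0, div_eq_mul_inv, ← norm_inv]
    exact logCap_mul_le hF.isBounded (inv_ne_zero hl) fun w hw => (h2 w).2 hw
  rw [h.propS_iff hp, hc.propS_iff_green hG]
  constructor
  · intro hS
    refine tendsto_thick hE hκ fun η hη => necessary hE hκ hL (fun δ hδ => ?_) hη
    filter_upwards [exists_of_gamma ha ((hG.sharp_iff hc.isOpen hc.conn.isPreconnected).1 hS) δ hδ]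
      with n ⟨f, c, h3, h4, h5, h6⟩
    refine ⟨fun w => f (l⁻¹ * w + -(m / l)), _, fun w hw => (h3 _ fun a => hw ((h2 w).1 a)).fun_comp_of_eq
      (by fun_prop) rfl, fun w hw => h4 _ fun a => hw ((h2 w).1 a),
      tendsto_affine _ (inv_ne_zero hl) h5, ?_⟩
    rw [inv_inv, norm_mul, norm_pow, ← Real.exp_log hl0, ← Real.exp_nat_mul, Real.log_exp]
    refine le_trans (le_of_eq ?_) (mul_le_mul_of_nonneg_left h6 (Real.exp_nonneg _))
    rw [← Real.exp_add]; ring_nf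
  · intro hT
    refine hG.sharp_of_prod hc.isOpen fun η hη => ?_
    obtain ⟨n, S, ψ, h3, h4, h5⟩ := sufficient hE hκ (by linarith) (tendsto_order.1 hT).1 hη
    refine ⟨n, S, fun j w => l * ψ j (l * w + m), h3, fun j => ⟨fun w hw => analyticAt_const.mul
      (((h4 j).1 _ fun a => hw ((h1 w).1 a)).fun_comp_of_eq (by fun_prop) rfl), ?_⟩, fun w hw => ?_⟩
    · have := (tendsto_affine m (n := 1) hl (by simpa using (h4 j).2)).const_mul l
      simpa [mul_inv_cancel₀ hl, mul_left_comm l] using this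
    · simp only [norm_mul, Finset.prod_mul_distrib, Finset.prod_const]
      refine (mul_le_mul_of_nonneg_left (h5 _ fun a => hw ((h1 w).1 a)) (by positivity)).trans
        (le_of_eq ?_)
      rw [← Real.exp_log hl0, ← Real.exp_nat_mul, Real.log_exp, ← Real.exp_add]; ring_nf

end Sph

end Pool.Agent.MP_13a571_an

end MrgPart8

-- marker of a merged file
example : 731051 + 709013 = 731051 + 709013 := rfl
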