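import Pool.Agent.MP_13a571_an.Main

open Set Filter Topology Pool.Agent.MP_13a571_an

theorem Pool.Agent.MP_13a571_an.characterization (D K : Set ℂ) (ω : ℂ → ℝ)
    (h : Condenser D K ω) (a : ℂ) (H : ℂ → ℝ) (hG : IsGreen D a H) :
    List.TFAE [PropS D K ω, ∃ z ∈ D \ K, SharpAt D K ω z, ∀ z ∈ D \ K, SharpAt D K ω z,
      Tendsto (fun k : ℕ => gamma D a k ^ (1 / (k : ℝ))) atTop (𝓝 (Real.exp (-H a)))] := by
  tfae_have 1 → 3 := fun hS z hz => h.sharpAt_of_propS hS hz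
  tfae_have 3 → 2 := fun h3 => h.conn_diff.nonempty.imp fun z hz => ⟨hz, h3 z hz⟩
  tfae_have 2 → 1 := fun ⟨z, hz, hs⟩ => h.propS_of_sharp (h.sharp_of_exists hz hs)
  tfae_have 1 ↔ 4 := (h.propS_iff_green hG).trans (hG.sharp_iff h.isOpen h.conn.isPreconnected)
  tfae_finish
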